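import Mathlib

/-! # A good colouring (module HAvgR)

PROOF. Let U be a finite set which contains all x and all elements of τ for (x, τ) in P. For every q = (x, τ) in P the number of R in
U.powerset with x in R and R disjoint from τ is 2^(U.card - 4) = 2^U.card / 16 (R = insert x R', R' a subset of U - (insert x τ)). Sum over q and
exchange the sums: the sum over R in U.powerset of 16 (P.filter ...).card is 2^U.card P.card, so one R has 16 (P.filter ...).card >= P.card. -/

set_option autoImplicit false

namespace Pool.TSphH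

open Finset

variable {ι : Type*} [DecidableEq ι]

private theorem HAvgR_key {U : Finset ι} {q : ι × Finset ι} (h3 : q.2.card = 3) (hn : q.1 ∉ q.2)
    (hsub : insert q.1 q.2 ⊆ U) :
    16 * (U.powerset.filter (fun R => q.1 ∈ R ∧ Disjoint q.2 R)).card = 2 ^ U.card := by
  have hc : (insert q.1 q.2).card = 4 := by rw [card_insert_of_notMem hn, h3]
  have e : U.powerset.filter (fun R => q.1 ∈ R ∧ Disjoint q.2 R) =
      ((U \ insert q.1 q.2).powerset).image (insert q.1) := by
    ext R
    simp only [mem_filter, mem_powerset, mem_image]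
    constructor
    · rintro ⟨h1, h2, h3⟩
      refine ⟨R.erase q.1, ?_, insert_erase h2⟩
      intro z hz
      rw [mem_erase] at hz
      rw [mem_sdiff, mem_insert]
      refine ⟨h1 hz.2, ?_⟩
      rintro (h | h)
      · exact hz.1 h
      · exact (disjoint_left.1 h3 h) hz.2
    · rintro ⟨R', h1, rfl⟩
      refine ⟨?_, mem_insert_self _ _, ?_⟩
      · intro z hz
        rw [mem_insert] at hz
        rcases hz with rfl | hz
        · exact hsub (mem_insert_self _ _)
        · exact (mem_sdiff.1 (h1 hz)).1
      · rw [disjoint_left]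
        intro z hz hz2
        rw [mem_insert] at hz2
        rcases hz2 with rfl | hz2
        · exact hn hz
        · exact (mem_sdiff.1 (h1 hz2)).2 (mem_insert_of_mem hz)
  rw [e, card_image_of_injOn, card_powerset, card_sdiff_of_subset hsub, hc]
  · have h4 : 4 ≤ U.card := hc ▸ card_le_card hsub
    obtain ⟨k, hk⟩ := Nat.exists_eq_add_of_le h4
    rw [hk, add_tsub_cancel_left, pow_add]
    norm_num
  · intro A hA B hB hAB
    have hA' : q.1 ∉ A := fun h => (mem_sdiff.1 ((mem_powerset.1 (mem_coe.1 hA)) h)).2 (mem_insert_self _ _)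
    have hB' : q.1 ∉ B := fun h => (mem_sdiff.1 ((mem_powerset.1 (mem_coe.1 hB)) h)).2 (mem_insert_self _ _)
    have := congrArg (fun X => X.erase q.1) hAB
    simp only [erase_insert hA', erase_insert hB'] at this
    exact this

theorem exists_color (P : Finset (ι × Finset ι)) (hP : ∀ q ∈ P, q.2.card = 3 ∧ q.1 ∉ q.2) :
    ∃ R : Finset ι, P.card ≤ 16 * (P.filter (fun q => q.1 ∈ R ∧ Disjoint q.2 R)).card := by
  obtain ⟨U, hU⟩ : ∃ U, U = P.biUnion (fun q => insert q.1 q.2) := ⟨_, rfl⟩
  have key : ∀ q ∈ P, 16 * (U.powerset.filter (fun R => q.1 ∈ R ∧ Disjoint q.2 R)).card = 2 ^ U.card := by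
    intro q hq
    obtain ⟨h3, hn⟩ := hP q hq
    apply HAvgR_key h3 hn
    rw [hU]
    exact subset_biUnion_of_mem (fun q => insert q.1 q.2) hq
  have hsum : ∑ R ∈ U.powerset, P.card =
      ∑ R ∈ U.powerset, 16 * (P.filter (fun q => q.1 ∈ R ∧ Disjoint q.2 R)).card := by
    rw [sum_const, card_powerset, smul_eq_mul, ← mul_sum]
    have h1 : ∑ R ∈ U.powerset, (P.filter (fun q => q.1 ∈ R ∧ Disjoint q.2 R)).card =
        ∑ q ∈ P, (U.powerset.filter (fun R => q.1 ∈ R ∧ Disjoint q.2 R)).card := by
      simp only [card_filter]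
      exact sum_comm
    rw [h1, mul_sum, sum_congr rfl key, sum_const, smul_eq_mul, mul_comm]
  obtain ⟨R, -, hR⟩ := exists_le_of_sum_le ⟨∅, empty_mem_powerset _⟩ hsum.le
  exact ⟨R, hR⟩

end Pool.TSphH
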