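import Pool.Agent.Lib.MP_3de3a3_co.H.HIso
import Pool.Agent.Lib.MP_3de3a3_co.DFin

/-! # The base theorem over the natural numbers (module HBase)

PROOF. From `Pool.TSphD.final 4` (module DFin): C, S over Fin (4 n), and the part of S with (fc 1 G).card = v has at most (C^n n^(8 n - 24 v))^(1/80) elements, since 2 (4-2) 4 (4+1) = 80, (4-3)(4-2) 4 n - 24 v = 8 n - 24 v.
(X^10)^8 <= C^n (n^(n - 3 v))^8 <= (C^n n^(n - 3v))^8 gives X^10 <= C^n n^(n - 3 v) (if C = 0 use C + 1). An `IsMfd3` F is an `IsMfd 4` (card4, conn; star from `mfd_pm`; the link of {x} in the sense of `lk` is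
`link F x`: s \ {x} = s.erase x) and (fc 1 F).card = (verts F).card. A complex F over ℕ with n facets has at most 4 n vertices, so there is a map f : ℕ -> Fin (4 n) injective on verts F (n >= 1; n = 0: F = ∅, S = {∅}), or better:
a complex F0 over Fin (4 n) with F = F0.image (image g), g : Fin (4 n) -> ℕ injective (g an enumeration of a set of 4 n numbers containing verts F). IsMfd3 F0 (see `mfd_map` for the direction F0 -> F; here take the inverse
f restricted). F0 is isomorphic to G0 in S; F is isomorphic to G0.image (image Fin.val) by `iso_of_injOn`/`Iso.trans`. The set over ℕ is the image of S_v under image Fin.val. -/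

set_option autoImplicit false

namespace Pool.TSphH

open Finset
open Pool.TSph

section pre

variable {V U : Type*} [Fintype V] [DecidableEq V] [DecidableEq U]

/-- The preimage of a finite set. -/
private def preG (g : V → U) (t : Finset U) : Finset V := univ.filter (fun i => g i ∈ t)

private theorem mem_preG {g : V → U} {t : Finset U} {i : V} : i ∈ preG g t ↔ g i ∈ t := by
  simp [preG]

private theorem preG_inter (g : V → U) (s t : Finset U) : preG g s ∩ preG g t = preG g (s ∩ t) := by
  ext i; simp [preG]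

private theorem image_preG {g : V → U} {t : Finset U} (ht : ∀ x ∈ t, ∃ i, g i = x) :
    (preG g t).image g = t := by
  ext x
  rw [mem_image]
  constructor
  · rintro ⟨i, hi, rfl⟩; exact mem_preG.1 hi
  · intro hx
    obtain ⟨i, rfl⟩ := ht x hx
    exact ⟨i, mem_preG.2 hx, rfl⟩

private theorem card_preG {g : V → U} (hg : Function.Injective g) {t : Finset U} (ht : ∀ x ∈ t, ∃ i, g i = x) :
    (preG g t).card = t.card := by
  rw [← image_preG ht, card_image_of_injective _ hg, image_preG ht]

private theorem verts_preG {g : V → U} {L : Finset (Finset U)} :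
    verts (L.image (preG g)) = preG g (verts L) := by
  ext i
  rw [mem_verts, mem_preG, mem_verts]
  constructor
  · rintro ⟨_, hs', hi⟩
    obtain ⟨s, hs, rfl⟩ := mem_image.1 hs'
    exact ⟨s, hs, mem_preG.1 hi⟩
  · rintro ⟨s, hs, hi⟩
    exact ⟨_, mem_image_of_mem _ hs, mem_preG.2 hi⟩

private theorem preG_injOn {g : V → U} {L : Finset (Finset U)}
    (hL : ∀ s ∈ L, ∀ x ∈ s, ∃ i, g i = x) : Set.InjOn (preG g) L := by
  intro s hs t ht h
  rw [← image_preG (hL s hs), ← image_preG (hL t ht), h]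

private theorem sphere_preG {g : V → U} (hg : Function.Injective g) {L : Finset (Finset U)}
    (hr : ∀ s ∈ L, ∀ x ∈ s, ∃ i, g i = x) (hL : IsSphere2 L) : IsSphere2 (L.image (preG g)) := by
  refine ⟨?_, ?_, ?_, ?_, ?_⟩
  · intro t ht
    obtain ⟨s, hs, rfl⟩ := mem_image.1 ht
    rw [card_preG hg (hr s hs)]
    exact hL.card3 s hs
  · intro t ht e he hec
    obtain ⟨s, hs, rfl⟩ := mem_image.1 ht
    have h1 : (L.image (preG g)).filter (fun s => e ⊆ s) =
        (L.filter (fun s => e.image g ⊆ s)).image (preG g) := by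
      ext r
      rw [mem_filter, mem_image, mem_image]
      constructor
      · rintro ⟨⟨r', hr', rfl⟩, h⟩
        refine ⟨r', mem_filter.2 ⟨hr', ?_⟩, rfl⟩
        intro x hx
        obtain ⟨i, hi, rfl⟩ := mem_image.1 hx
        exact mem_preG.1 (h hi)
      · rintro ⟨r', hr', rfl⟩
        rw [mem_filter] at hr'
        exact ⟨⟨r', hr'.1, rfl⟩, fun i hi => mem_preG.2 (hr'.2 (mem_image_of_mem _ hi))⟩
    rw [h1, card_image_of_injOn (fun a ha b hb h => preG_injOn hr (mem_filter.1 ha).1 (mem_filter.1 hb).1 h)]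
    refine hL.edge s hs _ ?_ ?_
    · intro x hx
      obtain ⟨i, hi, rfl⟩ := mem_image.1 hx
      exact mem_preG.1 (he hi)
    · rw [card_image_of_injective _ hg, hec]
  · intro s' hs' t' ht'
    obtain ⟨s, hs, rfl⟩ := mem_image.1 hs'
    obtain ⟨t, ht, rfl⟩ := mem_image.1 ht'
    refine Relation.ReflTransGen.lift (preG g) ?_ _ _ (hL.conn s hs t ht)
    rintro a b ⟨hb, hab⟩
    refine ⟨mem_image_of_mem _ hb, ?_⟩
    rw [preG_inter, card_preG hg (fun x hx => hr b hb x (mem_inter.1 hx).2), hab]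
  · intro i s' hs' t' ht' hxs hxt
    obtain ⟨s, hs, rfl⟩ := mem_image.1 hs'
    obtain ⟨t, ht, rfl⟩ := mem_image.1 ht'
    rw [mem_preG] at hxs hxt
    refine Relation.ReflTransGen.lift (preG g) ?_ _ _ (hL.star (g i) s hs t ht hxs hxt)
    rintro a b ⟨hb, hab, hxab⟩
    refine ⟨mem_image_of_mem _ hb, ?_, ?_⟩
    · rw [preG_inter, card_preG hg (fun x hx => hr b hb x (mem_inter.1 hx).2), hab]
    · rw [preG_inter, mem_preG]; exact hxab
  · rw [verts_preG, card_preG hg, card_image_of_injOn (preG_injOn hr)]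
    · exact hL.euler
    · intro x hx
      obtain ⟨s, hs, hxs⟩ := mem_verts.1 hx
      exact hr s hs x hxs

private theorem preG_erase {g : V → U} (hg : Function.Injective g) (s : Finset U) (i : V) :
    preG g s \ {i} = preG g (s.erase (g i)) := by
  ext j
  simp only [mem_sdiff, mem_preG, mem_singleton, mem_erase]
  constructor
  · rintro ⟨h1, h2⟩; exact ⟨fun h => h2 (hg h), h1⟩
  · rintro ⟨h1, h2⟩; exact ⟨h2, fun h => h1 (by rw [h])⟩

private theorem lk_preG {g : V → U} (hg : Function.Injective g) (F : Finset (Finset U)) (i : V) :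
    TSphD.lk (F.image (preG g)) {i} = (link F (g i)).image (preG g) := by
  ext t
  rw [TSphD.mem_lk, mem_image]
  constructor
  · rintro ⟨s', hs', hi, rfl⟩
    obtain ⟨s, hs, rfl⟩ := mem_image.1 hs'
    rw [singleton_subset_iff, mem_preG] at hi
    exact ⟨s.erase (g i), mem_link.2 ⟨s, hs, hi, rfl⟩, (preG_erase hg s i).symm⟩
  · rintro ⟨u, hu, rfl⟩
    obtain ⟨s, hs, hi, rfl⟩ := mem_link.1 hu
    exact ⟨_, mem_image_of_mem _ hs, by rw [singleton_subset_iff, mem_preG]; exact hi, preG_erase hg s i⟩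

private theorem mfd_preG {g : V → U} (hg : Function.Injective g) {F : Finset (Finset U)}
    (hr : ∀ s ∈ F, ∀ x ∈ s, ∃ i, g i = x) (hF : IsMfd3 F) : TSphD.IsMfd 4 (F.image (preG g)) := by
  refine ⟨?_, ?_, ?_, ?_⟩
  · intro t ht
    obtain ⟨s, hs, rfl⟩ := mem_image.1 ht
    rw [card_preG hg (hr s hs)]
    exact hF.card4 s hs
  · intro s' hs' t' ht'
    obtain ⟨s, hs, rfl⟩ := mem_image.1 hs'
    obtain ⟨t, ht, rfl⟩ := mem_image.1 ht'
    refine Relation.ReflTransGen.lift (preG g) ?_ _ _ (hF.conn s hs t ht)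
    rintro a b ⟨hb, hab⟩
    refine ⟨mem_image_of_mem _ hb, ?_⟩
    rw [preG_inter, card_preG hg (fun x hx => hr b hb x (mem_inter.1 hx).2), hab]
  · intro i s' hs' t' ht' hxs hxt
    obtain ⟨s, hs, rfl⟩ := mem_image.1 hs'
    obtain ⟨t, ht, rfl⟩ := mem_image.1 ht'
    rw [mem_preG] at hxs hxt
    refine Relation.ReflTransGen.lift (preG g) ?_ _ _ ((mfd_pm hF).star (g i) s hs t ht hxs hxt)
    rintro a b ⟨hb, hab, hxab⟩
    refine ⟨mem_image_of_mem _ hb, ?_, ?_⟩
    · rw [preG_inter, card_preG hg (fun x hx => hr b hb x (mem_inter.1 hx).2), hab]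
    · rw [preG_inter, mem_preG]; exact hxab
  · intro σ hσ
    obtain ⟨hc, s', hs', hsub⟩ := TSphD.mem_fc.1 hσ
    obtain ⟨i, rfl⟩ := card_eq_one.1 hc
    obtain ⟨s, hs, rfl⟩ := mem_image.1 hs'
    rw [singleton_subset_iff, mem_preG] at hsub
    rw [lk_preG hg]
    refine sphere_preG hg ?_ (hF.sphere (g i) (mem_verts.2 ⟨s, hs, hsub⟩))
    intro u hu x hx
    obtain ⟨v, hv, -, rfl⟩ := mem_link.1 hu
    exact hr v hv x (mem_of_mem_erase hx)

end pre

private theorem fc_one {V : Type*} [DecidableEq V] (F : Finset (Finset V)) :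
    (TSphD.fc 1 F).card = (verts F).card := by
  have h : TSphD.fc 1 F = (verts F).image (fun x => ({x} : Finset V)) := by
    ext t
    rw [TSphD.mem_fc, mem_image]
    constructor
    · rintro ⟨hc, s, hs, hsub⟩
      obtain ⟨i, rfl⟩ := card_eq_one.1 hc
      exact ⟨i, mem_verts.2 ⟨s, hs, singleton_subset_iff.1 hsub⟩, rfl⟩
    · rintro ⟨x, hx, rfl⟩
      obtain ⟨s, hs, hxs⟩ := mem_verts.1 hx
      exact ⟨card_singleton x, s, hs, singleton_subset_iff.2 hxs⟩
  rw [h, card_image_of_injective _ (fun a b h => singleton_injective h)]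

theorem base : ∃ C : ℕ, ∀ n v : ℕ, ∃ S : Finset (Finset (Finset ℕ)),
    S.card ^ 10 ≤ C ^ n * n ^ (n - 3 * v) ∧
    ∀ F : Finset (Finset ℕ), F.card = n → (verts F).card = v → IsMfd3 F → ∃ G ∈ S, Iso F G := by
  classical
  obtain ⟨C, hC⟩ := TSphD.final 4 le_rfl
  refine ⟨C + 1, fun n v => ?_⟩
  obtain ⟨S, -, h2, h3⟩ := hC n
  refine ⟨(S.filter (fun G => (TSphD.fc 1 G).card = v)).image
    (fun G => G.image (fun s => s.image Fin.val)), ?_, ?_⟩
  · have hle : ((S.filter (fun G => (TSphD.fc 1 G).card = v)).image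
        (fun G => G.image (fun s => s.image Fin.val))).card ≤
        (S.filter (fun G => (TSphD.fc 1 G).card = v)).card := card_image_le
    refine (Nat.pow_le_pow_left hle 10).trans ?_
    have h := h2 v
    have e1 : 4 - 3 = 1 := rfl
    have e2 : 2 * (4 - 2) * 4 * (4 + 1) = 10 * 8 := rfl
    have e3 : (4 - 3) * (4 - 2) * 4 * n - 24 * v = (n - 3 * v) * 8 := by omega
    rw [e3, e2, e1, pow_mul, pow_mul n] at h
    have h4 : ((S.filter (fun G => (TSphD.fc 1 G).card = v)).card ^ 10) ^ 8 ≤
        ((C + 1) ^ n * n ^ (n - 3 * v)) ^ 8 := by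
      refine h.trans ?_
      rw [mul_pow]
      refine Nat.mul_le_mul_right _ ?_
      calc C ^ n ≤ (C + 1) ^ n := Nat.pow_le_pow_left (Nat.le_succ C) n
        _ = ((C + 1) ^ n) ^ 1 := (pow_one _).symm
        _ ≤ ((C + 1) ^ n) ^ 8 := Nat.pow_le_pow_right (Nat.pos_of_ne_zero (by positivity)) (by norm_num)
    exact (Nat.pow_le_pow_iff_left (by norm_num)).1 h4
  · intro F hFn hFv hF
    have hvc : (verts F).card ≤ 4 * n := by
      unfold verts
      calc (F.biUnion id).card ≤ ∑ s ∈ F, (id s).card := card_biUnion_le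
        _ = ∑ s ∈ F, 4 := sum_congr rfl fun s hs => hF.card4 s hs
        _ = 4 * n := by rw [sum_const, hFn, smul_eq_mul, mul_comm]
    obtain ⟨W, hW, hWc⟩ := Infinite.exists_superset_card_eq (verts F) (4 * n) hvc
    obtain ⟨g, hg⟩ : ∃ g : Fin (4 * n) → ℕ, g = fun i => (W.orderEmbOfFin hWc i : ℕ) := ⟨_, rfl⟩
    have hgi : Function.Injective g := by
      rw [hg]; exact (W.orderEmbOfFin hWc).injective
    have hgr : ∀ s ∈ F, ∀ x ∈ s, ∃ i, g i = x := by
      intro s hs x hx
      have h1 : x ∈ W := hW (mem_verts.2 ⟨s, hs, hx⟩)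
      have h2 : x ∈ Set.range (W.orderEmbOfFin hWc) := by
        rw [range_orderEmbOfFin]; exact h1
      obtain ⟨i, hi⟩ := h2
      exact ⟨i, by rw [hg]; exact hi⟩
    have hM := mfd_preG hgi hgr hF
    have hcard : (F.image (preG g)).card = n := by
      rw [card_image_of_injOn (preG_injOn hgr), hFn]
    obtain ⟨G, hG, π, hπ⟩ := h3 (F.image (preG g)) hcard hM
    refine ⟨_, mem_image_of_mem _ (mem_filter.2 ⟨hG, ?_⟩), ?_⟩
    · rw [fc_one, hπ, MfdMap_verts, card_image_of_injective _ π.injective, verts_preG, card_preG hgi, hFv]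
      intro x hx
      obtain ⟨s, hs, hxs⟩ := mem_verts.1 hx
      exact hgr s hs x hxs
    · have hf : Set.InjOn (Function.extend g (fun i => (π i : ℕ)) (fun _ => 0)) (verts F) := by
        intro x hx y hy hxy
        obtain ⟨s, hs, hxs⟩ := mem_verts.1 (mem_coe.1 hx)
        obtain ⟨t, ht, hyt⟩ := mem_verts.1 (mem_coe.1 hy)
        obtain ⟨i, rfl⟩ := hgr s hs x hxs
        obtain ⟨j, rfl⟩ := hgr t ht y hyt
        rw [hgi.extend_apply, hgi.extend_apply] at hxy
        rw [π.injective (Fin.ext hxy)]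
      have h := iso_of_injOn hf
      have e : G.image (fun s => s.image Fin.val) =
          F.image (fun s => s.image (Function.extend g (fun i => (π i : ℕ)) (fun _ => 0))) := by
        rw [hπ, image_image, image_image]
        refine image_congr ?_
        intro s hs
        show ((preG g s).image π).image Fin.val = s.image _
        conv_rhs => rw [← image_preG (hgr s hs)]
        rw [image_image, image_image]
        refine image_congr ?_
        intro i _
        show ((π i : Fin (4 * n)) : ℕ) = Function.extend g (fun i => (π i : ℕ)) (fun _ => 0) (g i)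
        rw [hgi.extend_apply]
      rw [e]
      exact h

end Pool.TSphH
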