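import Pool.Agent.Lib.MP_3de3a3_co.H.HDefs
import Pool.Agent.Lib.MP_3de3a3_co.LinkCyc
import Pool.Agent.Lib.MP_3de3a3_co.Deg
import Pool.Agent.Lib.MP_3de3a3_co.Move31

/-! # The bad vertices of a sphere (module HBcA)

PROOF. If L has four vertices: Bc L is contained in verts L. Let L have at least 5 vertices (`four_le_verts`). The w which lie on some t in Sp L are at
most 3 (Sp L).card. Let w be another element of Bc L: vd L w = 3. Let a : Fin 3 -> ι be its link cycle (`exists_linkCycle`) and t_w = {a 0, a 1, a 2}.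
t_w is in Sp L: its elements are pairwise adjacent, and it is not in L by `not_mem_of_five`. For given t in Sp L there are at most two w with t_w = t:
fix two elements u, v of t; then insert w {u, v} is in L, and {u, v} is in exactly two triangles (`hL.edge`). So there are at most 2 (Sp L).card such w. -/

set_option autoImplicit false

namespace Pool.TSphH

open Finset
open Pool.TSph

variable {ι : Type*} [DecidableEq ι]

private theorem fin3_cases : ∀ i j : Fin 3, i ≠ j → j = i + 1 ∨ i = j + 1 := by decide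

/-- the triangle around a vertex of degree 3 -/
private theorem deg_three {L : Finset (Finset ι)} (hL : IsSphere2 L) (hV : 5 ≤ (verts L).card)
    {w : ι} (hw : w ∈ verts L) (h3 : vd L w = 3) :
    ∃ t, t ∈ Sp L ∧ w ∉ t ∧ ∀ u ∈ t, ∀ v ∈ t, u ≠ v → ({w, u, v} : Finset ι) ∈ L := by
  obtain ⟨a, ha⟩ := exists_linkCycle hL hw (d := 3) h3
  have h01 : ({w, a 0, a 1} : Finset ι) ∈ L := ha.tri 0
  have h12 : ({w, a 1, a 2} : Finset ι) ∈ L := ha.tri 1
  have h20 : ({w, a 2, a 0} : Finset ι) ∈ L := ha.tri 2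
  have hmem : ∀ u, u ∈ ({a 0, a 1, a 2} : Finset ι) ↔ ∃ i, u = a i := by
    intro u
    simp only [mem_insert, mem_singleton]
    constructor
    · rintro (h | h | h)
      · exact ⟨0, h⟩
      · exact ⟨1, h⟩
      · exact ⟨2, h⟩
    · rintro ⟨i, rfl⟩
      fin_cases i
      · exact Or.inl rfl
      · exact Or.inr (Or.inl rfl)
      · exact Or.inr (Or.inr rfl)
  have htri : ∀ u ∈ ({a 0, a 1, a 2} : Finset ι), ∀ v ∈ ({a 0, a 1, a 2} : Finset ι), u ≠ v →
      ({w, u, v} : Finset ι) ∈ L := by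
    intro u hu v hv huv
    obtain ⟨i, rfl⟩ := (hmem u).1 hu
    obtain ⟨j, rfl⟩ := (hmem v).1 hv
    have hij : i ≠ j := fun h => huv (by rw [h])
    rcases fin3_cases i j hij with h | h
    · rw [h]; exact ha.tri i
    · rw [h, Finset.pair_comm]; exact ha.tri j
  refine ⟨{a 0, a 1, a 2}, ?_, ?_, htri⟩
  · rw [mem_Sp]
    refine ⟨?_, not_mem_of_five hL h01 h12 h20 hV, ?_⟩
    · refine card_eq_three.2 ⟨a 0, a 1, a 2, ?_, ?_, ?_, rfl⟩
      · intro h; exact absurd (ha.inj h) (by decide)
      · intro h; exact absurd (ha.inj h) (by decide)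
      · intro h; exact absurd (ha.inj h) (by decide)
    · intro u hu v hv huv
      exact ⟨huv, _, htri u hu v hv huv, by simp, by simp⟩
  · intro h
    obtain ⟨i, hi⟩ := (hmem w).1 h
    exact ha.ne i hi.symm

theorem Bc_card {L : Finset (Finset ι)} (hL : IsSphere2 L) :
    (Bc L).card ≤ 5 * (Sp L).card + 4 := by
  classical
  have hBV : Bc L ⊆ verts L := filter_subset _ _
  rcases Nat.lt_or_ge (verts L).card 5 with h5 | h5
  · have := card_le_card hBV
    omega
  set B1 := (Sp L).biUnion id with hB1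
  set B2 := (verts L).filter (fun w => vd L w = 3) with hB2
  have hsub : Bc L ⊆ B1 ∪ B2 := by
    intro w hw
    obtain ⟨hwV, h⟩ := mem_Bc.1 hw
    rw [mem_union]
    rcases h with h | ⟨t, ht, hwt⟩
    · exact Or.inr (mem_filter.2 ⟨hwV, h⟩)
    · exact Or.inl (mem_biUnion.2 ⟨t, ht, hwt⟩)
  have c1 : B1.card ≤ 3 * (Sp L).card := by
    rw [mul_comm]
    refine card_biUnion_le_card_mul _ _ _ fun t ht => ?_
    exact (mem_Sp.1 ht).1.le
  have hch : ∀ w : ι, ∃ t : Finset ι, w ∈ B2 → t ∈ Sp L ∧ w ∉ t ∧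
      ∀ u ∈ t, ∀ v ∈ t, u ≠ v → ({w, u, v} : Finset ι) ∈ L := by
    intro w
    by_cases hw : w ∈ B2
    · obtain ⟨h1, h2⟩ := mem_filter.1 hw
      obtain ⟨t, ht⟩ := deg_three hL h5 h1 h2
      exact ⟨t, fun _ => ht⟩
    · exact ⟨∅, fun h => absurd h hw⟩
  choose f hf using hch
  have c2 : B2.card ≤ 2 * (Sp L).card := by
    refine card_le_mul_card_image_of_maps_to (f := f) (fun w hw => (hf w hw).1) 2 fun t ht => ?_
    rcases (B2.filter (fun w => f w = t)).eq_empty_or_nonempty with h0 | ⟨w0, hw0⟩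
    · rw [h0, card_empty]; norm_num
    · obtain ⟨u, v, r, huv, -, -, htuv⟩ := card_eq_three.1 (mem_Sp.1 ht).1
      have hut : u ∈ t := by rw [htuv]; simp
      have hvt : v ∈ t := by rw [htuv]; simp
      have key : ∀ w ∈ B2.filter (fun w => f w = t), ({w, u, v} : Finset ι) ∈ L ∧ w ≠ u ∧ w ≠ v := by
        intro w hw
        obtain ⟨h1, h2⟩ := mem_filter.1 hw
        obtain ⟨-, h3, h4⟩ := hf w h1
        rw [h2] at h3 h4
        exact ⟨h4 u hut v hvt huv, fun h => h3 (h ▸ hut), fun h => h3 (h ▸ hvt)⟩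
      have hsub2 : ∀ w : ι, ({u, v} : Finset ι) ⊆ {w, u, v} := fun w => subset_insert _ _
      have h2 := hL.edge _ (key w0 hw0).1 {u, v} (hsub2 w0) (card_pair huv)
      rw [← h2]
      refine card_le_card_of_injOn (fun w => ({w, u, v} : Finset ι)) (fun w hw => ?_) ?_
      · exact mem_filter.2 ⟨(key w hw).1, hsub2 w⟩
      · intro w hw w' hw' h
        simp only at h
        have h6 : w ∈ ({w', u, v} : Finset ι) := by rw [← h]; simp
        simp only [mem_insert, mem_singleton] at h6
        obtain ⟨-, k1, k2⟩ := key w hw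
        rcases h6 with h6 | h6 | h6
        · exact h6
        · exact absurd h6 k1
        · exact absurd h6 k2
  have h1 := card_le_card hsub
  have h2 := card_union_le B1 B2
  omega

end Pool.TSphH
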