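import Pool.Agent.Lib.MP_3de3a3_co.H.HDefs

/-! # The missing triangles of the links (module HBcB)

PROOF. Map the pairs (x, t), x in verts F, t in Sp (link F x): if t is in tris F to the pair (insert x t, x), whose first entry σ is in MT F and
x is in σ; otherwise to (x, t) in TP F. The map is injective, so the number of pairs is at most 4 (MT F).card + (TP F).card. Verification, for t in
Sp (link F x) (`mem_Sp`): t is contained in verts (link F x), so x is not in t. insert x t is not in F because t is not in link F x (`mem_link'`).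
For u, v in t different: u, v are in a common element s of link F x, so insert x s is a facet and contains {x, u, v}: insert x {u, v} is in
tris F. If t is in tris F, then σ = insert x t is in MT F. If not: `IsCone F x t`, `mem_TP`. -/

set_option autoImplicit false

namespace Pool.TSphH

open Finset
open Pool.TSph

variable {ι : Type*} [DecidableEq ι]

/-- the facts on an element of `Sp (link F x)` -/
private theorem sp_link {F : Finset (Finset ι)} {x : ι} {t : Finset ι}
    (ht : t ∈ Sp (link F x)) : t.card = 3 ∧ x ∉ t ∧ insert x t ∉ F ∧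
      ∀ e ∈ t.powersetCard 2, insert x e ∈ tris F := by
  obtain ⟨h3, hn, hadj⟩ := mem_Sp.1 ht
  have hx : x ∉ t := by
    intro hx
    have h1 : (t.erase x).Nonempty := by
      rw [← card_pos, card_erase_of_mem hx, h3]; norm_num
    obtain ⟨v, hv⟩ := h1
    rw [mem_erase] at hv
    obtain ⟨-, s, hs, hxs, -⟩ := hadj x hx v hv.2 (Ne.symm hv.1)
    exact (mem_link'.1 hs).1 hxs
  refine ⟨h3, hx, fun h => hn (mem_link'.2 ⟨hx, h⟩), ?_⟩
  intro e he
  rw [mem_powersetCard] at he
  obtain ⟨u, v, huv, rfl⟩ := card_eq_two.1 he.2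
  have hu : u ∈ t := he.1 (by simp)
  have hv : v ∈ t := he.1 (by simp)
  obtain ⟨-, s, hs, hus, hvs⟩ := hadj u hu v hv huv
  obtain ⟨-, hsF⟩ := mem_link'.1 hs
  rw [mem_tris]
  refine ⟨?_, _, hsF, ?_⟩
  · rw [card_insert_of_notMem (fun h => hx (he.1 h)), card_pair huv]
  · apply insert_subset_insert
    intro z hz
    simp only [mem_insert, mem_singleton] at hz
    rcases hz with rfl | rfl
    · exact hus
    · exact hvs

theorem sum_Sp {F : Finset (Finset ι)} (hF : IsMfd3 F) :
    ∑ x ∈ verts F, (Sp (link F x)).card ≤ 4 * (MT F).card + (TP F).card := by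
  classical
  set X := (verts F).sigma (fun x => Sp (link F x)) with hX
  have hXc : X.card = ∑ x ∈ verts F, (Sp (link F x)).card := card_sigma _ _
  rw [← hXc, ← card_filter_add_card_filter_not (s := X) (fun q => q.2 ∈ tris F)]
  have mX : ∀ q, q ∈ X ↔ q.1 ∈ verts F ∧ q.2 ∈ Sp (link F q.1) := fun q => mem_sigma
  have c1 : (X.filter (fun q => q.2 ∈ tris F)).card ≤ 4 * (MT F).card := by
    have hS : ((MT F).sigma (fun σ => σ)).card = 4 * (MT F).card := by
      rw [card_sigma, mul_comm, ← smul_eq_mul, ← sum_const]
      refine sum_congr rfl fun σ hσ => ?_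
      exact (mem_powersetCard.1 (mem_filter.1 hσ).1).2
    rw [← hS]
    refine card_le_card_of_injOn (fun q => (⟨insert q.1 q.2, q.1⟩ : Σ _ : Finset ι, ι))
      (fun q hq => ?_) ?_
    · obtain ⟨hq1, hq2⟩ := mem_filter.1 hq
      obtain ⟨hx, hsp⟩ := (mX q).1 hq1
      obtain ⟨h3, hxt, hnF, hed⟩ := sp_link hsp
      rw [mem_coe, mem_sigma]
      refine ⟨?_, mem_insert_self _ _⟩
      refine mem_filter.2 ⟨mem_powersetCard.2 ⟨?_, ?_⟩, hnF, ?_⟩
      · intro z hz
        rcases mem_insert.1 hz with rfl | hz
        · exact hx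
        · obtain ⟨-, s, hs, hsub⟩ := mem_tris.1 hq2
          exact mem_verts.2 ⟨s, hs, hsub hz⟩
      · rw [card_insert_of_notMem hxt, h3]
      · intro r hr
        rw [mem_powersetCard] at hr
        by_cases hxr : q.1 ∈ r
        · have h1 : r.erase q.1 ∈ q.2.powersetCard 2 := by
            rw [mem_powersetCard]
            refine ⟨?_, by rw [card_erase_of_mem hxr, hr.2]⟩
            intro z hz
            rw [mem_erase] at hz
            rcases mem_insert.1 (hr.1 hz.2) with h | h
            · exact absurd h hz.1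
            · exact h
          have h2 := hed _ h1
          rwa [insert_erase hxr] at h2
        · have h1 : r ⊆ q.2 := by
            intro z hz
            rcases mem_insert.1 (hr.1 hz) with h | h
            · exact absurd (h ▸ hz) hxr
            · exact h
          rw [eq_of_subset_of_card_le h1 (by rw [h3, hr.2])]
          exact hq2
    · intro q hq q' hq' h
      have hx := (sp_link ((mX q).1 (mem_filter.1 hq).1).2).2.1
      have hx' := (sp_link ((mX q').1 (mem_filter.1 hq').1).2).2.1
      obtain ⟨x, t⟩ := q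
      obtain ⟨x', t'⟩ := q'
      simp only [Sigma.mk.injEq, heq_eq_eq] at h hx hx'
      obtain ⟨h1, h2⟩ := h
      subst h2
      have h3 : t = t' := by
        rw [← erase_insert hx, h1, erase_insert hx']
      rw [h3]
  have c2 : (X.filter (fun q => ¬ q.2 ∈ tris F)).card ≤ (TP F).card := by
    refine card_le_card_of_injOn (fun q => (q.1, q.2)) (fun q hq => ?_) ?_
    · obtain ⟨hq1, hq2⟩ := mem_filter.1 hq
      obtain ⟨-, hsp⟩ := (mX q).1 hq1
      obtain ⟨h3, hxt, -, hed⟩ := sp_link hsp
      exact mem_TP.2 ⟨h3, hxt, hq2, hed⟩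
    · intro q _ q' _ h
      obtain ⟨x, t⟩ := q
      obtain ⟨x', t'⟩ := q'
      simp only [Prod.mk.injEq] at h
      obtain ⟨rfl, rfl⟩ := h
      rfl
  exact Nat.add_le_add c1 c2

end Pool.TSphH
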