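import Pool.Agent.Lib.MP_3de3a3_co.H.HDefs

/-! # Boundaries of sets of facets (module HBdry)

PROOF. F is a closed 3-manifold, every triangle of F is in exactly two facets (`two_facets`).
* `bdry_even`: let e have two elements. Count the pairs (t, s), t a triangle of F with e in t, s in A with t in s. A facet s
  containing e has exactly two triangles containing e, so the number of pairs is even; every t has 0, 1 or 2 partners s, so the number
  of t with exactly one is even.
* `bdry_iff`: if s, s' are the two facets at t then t is in the boundary iff exactly one of s, s' is in A.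
* `bdry_eq_empty`: if A is neither empty nor F then by `hF.conn` some facet of A is adjacent to a facet outside A (adjacent: the
  intersection has three elements); the common triangle is in the boundary.
* `bdry_compl`, `bdry_inj`: by `bdry_iff`. For `bdry_inj`: the set D of the facets s with (s in A iff s in B) is closed under adjacency
  (the common triangle t of adjacent s, s' is in bdry F A iff it is in bdry F B), so it is empty or F.
* `side_vertex`: the facets at u are connected through triangles containing u (`(mfd_pm hF).star`), which are not in the boundary. -/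

set_option autoImplicit false

namespace Pool.TSphH

open Finset
open Pool.TSph

variable {ι : Type*} [DecidableEq ι]

theorem bdry_iff {F A : Finset (Finset ι)} (hF : IsMfd3 F) (hA : A ⊆ F) {t s s' : Finset ι}
    (ht : t.card = 3) (hs : s ∈ F) (hs' : s' ∈ F) (hne : s ≠ s') (hts : t ⊆ s) (hts' : t ⊆ s') :
    t ∈ bdry F A ↔ ¬ (s ∈ A ↔ s' ∈ A) := by
  have htF : t ∈ tris F := mem_tris.2 ⟨ht, s, hs, hts⟩
  have hF2 : F.filter (fun r => t ⊆ r) = {s, s'} := by
    symm
    apply eq_of_subset_of_card_le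
    · intro r hr
      rw [mem_insert, mem_singleton] at hr
      rw [mem_filter]
      rcases hr with rfl | rfl
      · exact ⟨hs, hts⟩
      · exact ⟨hs', hts'⟩
    · rw [two_facets hF htF, card_pair hne]
  have hA2 : A.filter (fun r => t ⊆ r) = ({s, s'} : Finset (Finset ι)).filter (fun r => r ∈ A) := by
    rw [← hF2]
    ext r
    rw [mem_filter, mem_filter, mem_filter]
    constructor
    · rintro ⟨h1, h2⟩
      exact ⟨⟨hA h1, h2⟩, h1⟩
    · rintro ⟨⟨_, h2⟩, h3⟩
      exact ⟨h3, h2⟩
  rw [mem_bdry, hA2]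
  by_cases h1 : s ∈ A <;> by_cases h2 : s' ∈ A
  · have : ({s, s'} : Finset (Finset ι)).filter (fun r => r ∈ A) = {s, s'} := by
      rw [filter_insert, if_pos h1, filter_singleton, if_pos h2]
    rw [this, card_pair hne]
    constructor
    · rintro ⟨_, h⟩
      omega
    · intro h
      exact absurd ⟨fun _ => h2, fun _ => h1⟩ h
  · have : ({s, s'} : Finset (Finset ι)).filter (fun r => r ∈ A) = {s} := by
      rw [filter_insert, if_pos h1, filter_singleton, if_neg h2]
      rfl
    rw [this, card_singleton]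
    constructor
    · intro _ h
      exact h2 (h.1 h1)
    · intro _
      exact ⟨htF, rfl⟩
  · have : ({s, s'} : Finset (Finset ι)).filter (fun r => r ∈ A) = {s'} := by
      rw [filter_insert, if_neg h1, filter_singleton, if_pos h2]
    rw [this, card_singleton]
    constructor
    · intro _ h
      exact h1 (h.2 h2)
    · intro _
      exact ⟨htF, rfl⟩
  · have : ({s, s'} : Finset (Finset ι)).filter (fun r => r ∈ A) = ∅ := by
      rw [filter_insert, if_neg h1, filter_singleton, if_neg h2]
    rw [this, card_empty]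
    constructor
    · rintro ⟨_, h⟩
      omega
    · intro h
      exact absurd ⟨fun h' => absurd h' h1, fun h' => absurd h' h2⟩ h

private theorem HBdry_two {F : Finset (Finset ι)} (hF : IsMfd3 F) {t : Finset ι}
    (ht : t ∈ tris F) : ∃ s ∈ F, ∃ s' ∈ F, s ≠ s' ∧ t ⊆ s ∧ t ⊆ s' := by
  obtain ⟨s, s', hne, h⟩ := card_eq_two.1 (two_facets hF ht)
  have h1 : s ∈ F.filter (fun r => t ⊆ r) := by rw [h]; simp
  have h2 : s' ∈ F.filter (fun r => t ⊆ r) := by rw [h]; simp
  rw [mem_filter] at h1 h2
  exact ⟨s, h1.1, s', h2.1, hne, h1.2, h2.2⟩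

/-- adjacent facets -/
private theorem HBdry_adj {F A : Finset (Finset ι)} (hF : IsMfd3 F) (hA : A ⊆ F) {a b : Finset ι}
    (ha : a ∈ F) (hb : b ∈ F) (h : (a ∩ b).card = 3) :
    a ∩ b ∈ bdry F A ↔ ¬ (a ∈ A ↔ b ∈ A) := by
  refine bdry_iff hF hA h ha hb ?_ inter_subset_left inter_subset_right
  rintro rfl
  rw [inter_self, hF.card4 a ha] at h
  omega

private theorem HBdry_conn {F : Finset (Finset ι)} (hF : IsMfd3 F) (P : Finset ι → Prop)
    (hP : ∀ a ∈ F, ∀ b ∈ F, (a ∩ b).card = 3 → P a → P b) {s : Finset ι} (hs : s ∈ F)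
    (hPs : P s) : ∀ t ∈ F, P t := by
  intro t ht
  have h := hF.conn s hs t ht
  have h2 : t ∈ F ∧ P t := by
    clear ht
    induction h with
    | refl => exact ⟨hs, hPs⟩
    | tail h1 h2 ih =>
      obtain ⟨h3, h4⟩ := ih
      exact ⟨h2.1, hP _ h3 _ h2.1 h2.2 h4⟩
  exact h2.2

theorem bdry_even {F A : Finset (Finset ι)} (hF : IsMfd3 F) (hA : A ⊆ F) :
    EvenZ (bdry F A) := by
  intro e he
  set Te : Finset (Finset ι) := (tris F).filter (fun t => e ⊆ t) with hTe
  have h1 : (bdry F A).filter (fun t => e ⊆ t) =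
      Te.filter (fun t => Odd (A.filter (fun s => t ⊆ s)).card) := by
    ext t
    rw [mem_filter, mem_bdry, mem_filter, hTe, mem_filter]
    constructor
    · rintro ⟨⟨h2, h3⟩, h4⟩
      exact ⟨⟨h2, h4⟩, by rw [h3]; exact odd_one⟩
    · rintro ⟨⟨h2, h3⟩, h4⟩
      refine ⟨⟨h2, ?_⟩, h3⟩
      have h5 : (A.filter (fun s => t ⊆ s)).card ≤ 2 := by
        rw [← two_facets hF h2]
        exact card_le_card (filter_subset_filter _ hA)
      obtain ⟨k, hk⟩ := h4
      omega
  rw [h1, ← Finset.even_sum_iff_even_card_odd]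
  have h2 : ∑ t ∈ Te, (A.filter (fun s => t ⊆ s)).card =
      ∑ s ∈ A, (Te.filter (fun t => t ⊆ s)).card :=
    Finset.sum_card_bipartiteAbove_eq_sum_card_bipartiteBelow (s := Te) (t := A) (fun (t s : Finset ι) => t ⊆ s)
  rw [h2]
  apply Finset.even_sum
  intro s hs
  by_cases hes : e ⊆ s
  · have h3 : Te.filter (fun t => t ⊆ s) = (s \ e).image (fun x => insert x e) := by
      ext t
      rw [mem_filter, hTe, mem_filter, mem_image]
      constructor
      · rintro ⟨⟨h4, h5⟩, h6⟩
        have h7 : (t \ e).card = 1 := by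
          rw [card_sdiff_of_subset h5, (mem_tris.1 h4).1, he]
        obtain ⟨x, hx⟩ := card_eq_one.1 h7
        have hx1 : x ∈ t \ e := by rw [hx]; exact mem_singleton_self x
        rw [mem_sdiff] at hx1
        refine ⟨x, mem_sdiff.2 ⟨h6 hx1.1, hx1.2⟩, ?_⟩
        have h8 : t = e ∪ (t \ e) := (union_sdiff_of_subset h5).symm
        rw [h8, hx, insert_eq, union_comm]
      · rintro ⟨x, hx, rfl⟩
        rw [mem_sdiff] at hx
        refine ⟨⟨mem_tris.2 ⟨by rw [card_insert_of_notMem hx.2, he], s, hA hs, ?_⟩,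
          subset_insert _ _⟩, ?_⟩
        · exact insert_subset hx.1 hes
        · exact insert_subset hx.1 hes
    rw [h3, card_image_of_injOn, card_sdiff_of_subset hes, hF.card4 s (hA hs), he]
    · exact ⟨1, rfl⟩
    · intro x hx y hy hxy
      simp only [coe_sdiff, Set.mem_sdiff, mem_coe] at hx hy hxy
      have : x ∈ insert y e := hxy ▸ mem_insert_self x e
      rw [mem_insert] at this
      rcases this with h | h
      · exact h
      · exact absurd h hx.2
  · have h3 : Te.filter (fun t => t ⊆ s) = ∅ := by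
      rw [filter_eq_empty_iff]
      intro t ht hts
      rw [hTe, mem_filter] at ht
      exact hes (ht.2.trans hts)
    rw [h3, card_empty]
    exact ⟨0, rfl⟩

theorem bdry_eq_empty {F A : Finset (Finset ι)} (hF : IsMfd3 F) (hA : A ⊆ F)
    (h : bdry F A = ∅) : A = ∅ ∨ A = F := by
  rcases A.eq_empty_or_nonempty with h0 | ⟨s, hs⟩
  · exact Or.inl h0
  · right
    apply Subset.antisymm hA
    refine HBdry_conn hF (fun r => r ∈ A) ?_ (hA hs) hs
    intro a ha b hb hab haA
    have h1 := HBdry_adj hF hA ha hb hab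
    rw [h] at h1
    have h2 : a ∈ A ↔ b ∈ A := by
      by_contra h3
      exact absurd (h1.2 h3) (notMem_empty _)
    exact h2.1 haA

theorem bdry_compl {F A : Finset (Finset ι)} (hF : IsMfd3 F) (hA : A ⊆ F) :
    bdry F (F \ A) = bdry F A := by
  ext t
  by_cases ht : t ∈ tris F
  · obtain ⟨s, hs, s', hs', hne, h1, h2⟩ := HBdry_two hF ht
    rw [bdry_iff hF sdiff_subset (mem_tris.1 ht).1 hs hs' hne h1 h2,
      bdry_iff hF hA (mem_tris.1 ht).1 hs hs' hne h1 h2, mem_sdiff, mem_sdiff]
    tauto
  · constructor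
    · intro h
      exact absurd (mem_bdry.1 h).1 ht
    · intro h
      exact absurd (mem_bdry.1 h).1 ht

theorem bdry_inj {F A B : Finset (Finset ι)} (hF : IsMfd3 F) (hA : A ⊆ F) (hB : B ⊆ F)
    (h : bdry F A = bdry F B) : A = B ∨ A = F \ B := by
  have hstep : ∀ a ∈ F, ∀ b ∈ F, (a ∩ b).card = 3 → ((a ∈ A ↔ b ∈ A) ↔ (a ∈ B ↔ b ∈ B)) := by
    intro a ha b hb hab
    have h1 := HBdry_adj hF hA ha hb hab
    have h2 := HBdry_adj hF hB ha hb hab
    rw [h] at h1
    tauto
  by_cases hex : ∃ s ∈ F, (s ∈ A ↔ s ∈ B)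
  · obtain ⟨s, hs, hsP⟩ := hex
    left
    have h3 := HBdry_conn hF (fun r => r ∈ A ↔ r ∈ B) (fun a ha b hb hab haP => by
      have := hstep a ha b hb hab
      tauto) hs hsP
    ext r
    constructor
    · intro hr
      exact (h3 r (hA hr)).1 hr
    · intro hr
      exact (h3 r (hB hr)).2 hr
  · right
    ext r
    rw [mem_sdiff]
    constructor
    · intro hr
      refine ⟨hA hr, fun hrB => hex ⟨r, hA hr, ⟨fun _ => hrB, fun _ => hr⟩⟩⟩
    · rintro ⟨hr, hrB⟩
      by_contra hrA
      exact hex ⟨r, hr, ⟨fun h' => absurd h' hrA, fun h' => absurd h' hrB⟩⟩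

theorem side_vertex {F A : Finset (Finset ι)} (hF : IsMfd3 F) (hA : A ⊆ F) {u : ι}
    (hu : u ∉ verts (bdry F A)) {s s' : Finset ι} (hs : s ∈ F) (hs' : s' ∈ F) (hus : u ∈ s)
    (hus' : u ∈ s') : s ∈ A ↔ s' ∈ A := by
  have h := (mfd_pm hF).star u s hs s' hs' hus hus'
  have h2 : s' ∈ F ∧ (s ∈ A ↔ s' ∈ A) := by
    clear hs' hus'
    induction h with
    | refl => exact ⟨hs, Iff.rfl⟩
    | tail h1 h2 ih =>
      obtain ⟨h3, h4⟩ := ih
      refine ⟨h2.1, h4.trans ?_⟩
      have h5 := HBdry_adj hF hA h3 h2.1 h2.2.1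
      by_contra h6
      exact hu (mem_verts.2 ⟨_, h5.2 h6, h2.2.2⟩)
  exact h2.2

end Pool.TSphH
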