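import Pool.Agent.Lib.MP_3de3a3_co.H.HDefs

/-! # Blocks and cones (module HBlkDef) -/

set_option autoImplicit false

namespace Pool.TSphH

open Finset
open Pool.TSph

variable {ι : Type*} [DecidableEq ι]

/-- The 12 facets of the model block, in the order in which they are used. The vertices
`0, 1, 2, 3` are `a_0, …, a_3`, the vertices `4, …, 8` are `b_0, …, b_4`. -/
def cells : List (Finset (Fin 9)) :=
  [{0, 1, 4, 5}, {0, 1, 5, 6}, {0, 1, 6, 7}, {0, 1, 7, 8},
   {1, 2, 4, 5}, {1, 2, 5, 6}, {1, 2, 6, 7}, {1, 2, 7, 8},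
   {2, 3, 4, 5}, {2, 3, 5, 6}, {2, 3, 6, 7}, {2, 3, 7, 8}]

/-- The model block. -/
def blk0 : Finset (Finset (Fin 9)) := cells.toFinset

/-- The block with the vertices `f 0, …, f 8`. -/
def blk (f : Fin 9 → ι) : Finset (Finset ι) := blk0.image (fun s => s.image f)

/-- The block with the vertices `f i` is contained in `F`. -/
structure IsBlk (F : Finset (Finset ι)) (f : Fin 9 → ι) : Prop where
  inj : Function.Injective f
  sub : blk f ⊆ F

/-- The boundary of a set of facets: the triangles in exactly one of them. -/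
def bd (B : Finset (Finset ι)) : Finset (Finset ι) :=
  (tris B).filter (fun t => (B.filter (fun s => t ⊆ s)).card = 1)

/-- The facets in `B` are replaced by the cone over the boundary of `B` with the apex `c`. -/
def coned (F B : Finset (Finset ι)) (c : ι) : Finset (Finset ι) :=
  (F \ B) ∪ (bd B).image (insert c)

theorem mem_bd {B : Finset (Finset ι)} {t : Finset ι} :
    t ∈ bd B ↔ t ∈ tris B ∧ (B.filter (fun s => t ⊆ s)).card = 1 := mem_filter

theorem mem_coned {F B : Finset (Finset ι)} {c : ι} {s : Finset ι} :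
    s ∈ coned F B c ↔ (s ∈ F ∧ s ∉ B) ∨ ∃ t ∈ bd B, insert c t = s := by
  unfold coned
  rw [mem_union, mem_sdiff, mem_image]

theorem bd_image {κ : Type*} [DecidableEq κ] {f : ι → κ} (hf : Function.Injective f)
    (B : Finset (Finset ι)) :
    bd (B.image (fun s => s.image f)) = (bd B).image (fun s => s.image f) := by
  have hcount : ∀ t : Finset ι, ((B.image (fun s => s.image f)).filter
      (fun s => t.image f ⊆ s)).card = (B.filter (fun s => t ⊆ s)).card := by
    intro t
    have h1 : (B.image (fun s => s.image f)).filter (fun s => t.image f ⊆ s) =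
        (B.filter (fun s => t ⊆ s)).image (fun s => s.image f) := by
      ext s
      simp only [mem_filter, mem_image]
      constructor
      · rintro ⟨⟨a, ha, rfl⟩, h⟩
        exact ⟨a, ⟨ha, (image_subset_image_iff hf).1 h⟩, rfl⟩
      · rintro ⟨a, ⟨ha, h⟩, rfl⟩
        exact ⟨⟨a, ha, rfl⟩, (image_subset_image_iff hf).2 h⟩
    rw [h1, card_image_of_injective _ (image_injective hf)]
  ext t
  rw [mem_bd, mem_image, mem_tris]
  constructor
  · rintro ⟨⟨h3, s, hs, hts⟩, hc⟩
    obtain ⟨a, ha, rfl⟩ := mem_image.1 hs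
    obtain ⟨t', ht', rfl⟩ := subset_image_iff.1 hts
    rw [card_image_of_injective _ hf] at h3
    rw [hcount] at hc
    exact ⟨t', mem_bd.2 ⟨mem_tris.2 ⟨h3, a, ha, by exact_mod_cast ht'⟩, hc⟩, rfl⟩
  · rintro ⟨t', ht', rfl⟩
    obtain ⟨h1, hc⟩ := mem_bd.1 ht'
    obtain ⟨h3, s, hs, hts⟩ := mem_tris.1 h1
    refine ⟨⟨by rw [card_image_of_injective _ hf, h3], s.image f, mem_image_of_mem _ hs,
      image_subset_image hts⟩, ?_⟩
    rw [hcount, hc]

end Pool.TSphH
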