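import Pool.Agent.Lib.MP_3de3a3_co.H.HDefs

/-! # Many disjoint sets (module HDisj)

PROOF. `card_nr`: a facet s has 4 triangles, each of them is in one other facet (`two_facets`), and (s inter t).card = 3 means that t contains a triangle of s.
`exists_disjoint`: let Q be a maximal subset of P on which the B φ are pairwise disjoint. For φ in P there is φ' in Q with φ = φ' or B φ inter B φ' not empty (maximality): in both
cases (B φ is not empty) there is ψ in B φ and in B φ', so there is a chain φ' = χ0, χ1, ..., χ6 = φ of facets with consecutive ones equal or adjacent (nr is symmetric).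
For given φ' there are at most 5^6 such chains (`card_nr`). So P.card <= 5^6 Q.card. -/

set_option autoImplicit false

namespace Pool.TSphH

open Finset
open Pool.TSph

variable {ι : Type*} [DecidableEq ι]

/-- Equal or adjacent. -/
def nr (s t : Finset ι) : Prop := s = t ∨ (s ∩ t).card = 3

/-- Joined by three steps. -/
def near3 (F : Finset (Finset ι)) (s t : Finset ι) : Prop :=
  ∃ χ ∈ F, ∃ χ' ∈ F, nr s χ ∧ nr χ χ' ∧ nr χ' t

open Classical in
theorem card_nr {F : Finset (Finset ι)} (hF : IsMfd3 F) {s : Finset ι} (hs : s ∈ F) :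
    (F.filter (fun t => nr s t)).card ≤ 5 := by
  have hs4 : s.card = 4 := hF.card4 s hs
  have hsub : F.filter (fun t => nr s t) ⊆
      {s} ∪ (s.powersetCard 3).biUnion (fun τ => (F.filter (fun t => τ ⊆ t)).erase s) := by
    intro t ht
    rw [mem_filter] at ht
    obtain ⟨htF, h | h⟩ := ht
    · rw [mem_union, mem_singleton]
      exact Or.inl h.symm
    · by_cases hts : t = s
      · rw [mem_union, mem_singleton]
        exact Or.inl hts
      · rw [mem_union, mem_biUnion]
        right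
        refine ⟨s ∩ t, mem_powersetCard.2 ⟨inter_subset_left, h⟩, ?_⟩
        rw [mem_erase, mem_filter]
        exact ⟨hts, htF, inter_subset_right⟩
  refine (card_le_card hsub).trans ((card_union_le _ _).trans ?_)
  rw [card_singleton]
  have h1 : ((s.powersetCard 3).biUnion (fun τ => (F.filter (fun t => τ ⊆ t)).erase s)).card ≤
      (s.powersetCard 3).card * 1 := by
    apply card_biUnion_le_card_mul
    intro τ hτ
    rw [mem_powersetCard] at hτ
    have ht : τ ∈ tris F := mem_tris.2 ⟨hτ.2, s, hs, hτ.1⟩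
    have h2 := two_facets hF ht
    have h3 : s ∈ F.filter (fun t => τ ⊆ t) := mem_filter.2 ⟨hs, hτ.1⟩
    rw [card_erase_of_mem h3]
    have h4 : (F.filter (fun t => τ ⊆ t)).card = 2 := by
      rw [← h2]
    omega
  rw [card_powersetCard, hs4] at h1
  have h5 : Nat.choose 4 3 = 4 := by decide
  rw [h5] at h1
  omega

private theorem HDisj_symm {s t : Finset ι} (h : nr s t) : nr t s := by
  rcases h with h | h
  · exact Or.inl h.symm
  · right
    rw [inter_comm]
    exact h

open Classical in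
/-- one step of neighbours -/
private noncomputable def HDisj_N (F A : Finset (Finset ι)) : Finset (Finset ι) :=
  A.biUnion (fun s => F.filter (fun t => nr s t))

private theorem HDisj_sub (F A : Finset (Finset ι)) : HDisj_N F A ⊆ F := by
  classical
  intro t ht
  unfold HDisj_N at ht
  rw [mem_biUnion] at ht
  obtain ⟨s, -, hs⟩ := ht
  exact (mem_filter.1 hs).1

private theorem HDisj_card {F A : Finset (Finset ι)} (hF : IsMfd3 F) (hA : A ⊆ F) :
    (HDisj_N F A).card ≤ 5 * A.card := by
  classical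
  unfold HDisj_N
  rw [mul_comm]
  apply card_biUnion_le_card_mul
  intro s hs
  exact card_nr hF (hA hs)

private theorem HDisj_mem {F A : Finset (Finset ι)} {s t : Finset ι} (hs : s ∈ A) (ht : t ∈ F) (h : nr s t) :
    t ∈ HDisj_N F A := by
  classical
  unfold HDisj_N
  rw [mem_biUnion]
  exact ⟨s, hs, mem_filter.2 ⟨ht, h⟩⟩

/-- pairwise disjoint -/
private def HDisj_pd (B : Finset ι → Finset (Finset ι)) (Q : Finset (Finset ι)) : Prop :=
  ∀ φ ∈ Q, ∀ φ' ∈ Q, φ ≠ φ' → Disjoint (B φ) (B φ')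

theorem exists_disjoint {F : Finset (Finset ι)} (hF : IsMfd3 F) {P : Finset (Finset ι)}
    (hP : P ⊆ F) (B : Finset ι → Finset (Finset ι)) (hB : ∀ φ ∈ P, B φ ⊆ F)
    (hne : ∀ φ ∈ P, (B φ).Nonempty) (hnear : ∀ φ ∈ P, ∀ ψ ∈ B φ, near3 F φ ψ) :
    ∃ Q ⊆ P, P.card ≤ 5 ^ 6 * Q.card ∧
      ∀ φ ∈ Q, ∀ φ' ∈ Q, φ ≠ φ' → Disjoint (B φ) (B φ') := by
  classical
  obtain ⟨Q, hQ, hmax⟩ := exists_max_image
    (P.powerset.filter (fun Q => HDisj_pd B Q)) card
    ⟨∅, by
      rw [mem_filter]
      exact ⟨empty_mem_powerset _, fun φ h => absurd h (notMem_empty φ)⟩⟩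
  rw [mem_filter, mem_powerset] at hQ
  obtain ⟨hQP, hQd⟩ := hQ
  refine ⟨Q, hQP, ?_, hQd⟩
  have hex : ∀ φ ∈ P, ∃ φ' ∈ Q, ∃ ψ, ψ ∈ B φ ∧ ψ ∈ B φ' := by
    intro φ hφ
    by_cases hφQ : φ ∈ Q
    · obtain ⟨ψ, hψ⟩ := hne φ hφ
      exact ⟨φ, hφQ, ψ, hψ, hψ⟩
    · by_contra hcon
      push Not at hcon
      have hdis : ∀ φ' ∈ Q, Disjoint (B φ) (B φ') := by
        intro φ' hφ'
        rw [disjoint_left]
        intro ψ h1 h2
        exact hcon φ' hφ' ψ h1 h2
      have hins : insert φ Q ∈ P.powerset.filter (fun Q => HDisj_pd B Q) := by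
        rw [mem_filter, mem_powerset]
        refine ⟨insert_subset hφ hQP, ?_⟩
        intro x hx y hy hxy
        rw [mem_insert] at hx hy
        rcases hx with rfl | hx
        · rcases hy with rfl | hy
          · exact absurd rfl hxy
          · exact hdis y hy
        · rcases hy with rfl | hy
          · exact (hdis x hx).symm
          · exact hQd x hx y hy hxy
      have := hmax _ hins
      rw [card_insert_of_notMem hφQ] at this
      omega
  have hsub : P ⊆ Q.biUnion (fun φ' => HDisj_N F (HDisj_N F (HDisj_N F (HDisj_N F (HDisj_N F (HDisj_N F {φ'})))))) := by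
    intro φ hφ
    obtain ⟨φ', hφ', ψ, h1, h2⟩ := hex φ hφ
    obtain ⟨c1, hc1, c2, hc2, a1, a2, a3⟩ := hnear φ' (hQP hφ') ψ h2
    obtain ⟨d1, hd1, d2, hd2, b1, b2, b3⟩ := hnear φ hφ ψ h1
    rw [mem_biUnion]
    refine ⟨φ', hφ', ?_⟩
    have m1 := HDisj_mem (A := {φ'}) (mem_singleton_self φ') hc1 a1
    have m2 := HDisj_mem m1 hc2 a2
    have m3 := HDisj_mem m2 (hB φ hφ h1) a3
    have m4 := HDisj_mem m3 hd2 (HDisj_symm b3)
    have m5 := HDisj_mem m4 hd1 (HDisj_symm b2)
    exact HDisj_mem m5 (hP hφ) (HDisj_symm b1)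
  refine (card_le_card hsub).trans ?_
  rw [mul_comm]
  apply card_biUnion_le_card_mul
  intro φ' hφ'
  have n1 := HDisj_card hF (singleton_subset_iff.2 (hP (hQP hφ')))
  have n2 := HDisj_card hF (HDisj_sub F {φ'})
  have n3 := HDisj_card hF (HDisj_sub F (HDisj_N F {φ'}))
  have n4 := HDisj_card hF (HDisj_sub F (HDisj_N F (HDisj_N F {φ'})))
  have n5 := HDisj_card hF (HDisj_sub F (HDisj_N F (HDisj_N F (HDisj_N F {φ'}))))
  have n6 := HDisj_card hF (HDisj_sub F (HDisj_N F (HDisj_N F (HDisj_N F (HDisj_N F {φ'})))))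
  rw [card_singleton] at n1
  omega

end Pool.TSphH
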