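import Pool.Agent.Lib.MP_3de3a3_co.H.HBlkDef
import Pool.Agent.Lib.MP_3de3a3_co.H.HDisj

/-! # The facets of a block are near its central facet (module HBlkNear)

PROOF. The central facet is {f 1, f 2, f 5, f 6}, the image of the cell {1, 2, 5, 6}. In the model: every cell is joined to {1, 2, 5, 6} by three steps inside blk0
(a finite check over blk0, `decide`: the path changes the row and the column by one). The image under an injective f preserves `nr`. -/

set_option autoImplicit false

namespace Pool.TSphH

open Finset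
open Pool.TSph

variable {ι : Type*} [DecidableEq ι]

private def HBlkNear_b (s t : Finset (Fin 9)) : Bool :=
  decide (s = t) || decide ((s ∩ t).card = 3)

private theorem HBlkNear_nr {s t : Finset (Fin 9)} (h : HBlkNear_b s t = true) : nr s t := by
  unfold HBlkNear_b at h
  rw [Bool.or_eq_true, decide_eq_true_iff, decide_eq_true_iff] at h
  exact h

private theorem HBlkNear_model : ∀ s ∈ cells, ∃ a ∈ cells, ∃ b ∈ cells,
    HBlkNear_b {1, 2, 5, 6} a = true ∧ HBlkNear_b a b = true ∧ HBlkNear_b b s = true := by
  decide +kernel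

theorem blk_near {F : Finset (Finset ι)} {f : Fin 9 → ι} (hf : IsBlk F f) :
    ∀ ψ ∈ blk f, near3 F {f 1, f 2, f 5, f 6} ψ := by
  intro ψ hψ
  unfold blk at hψ
  rw [mem_image] at hψ
  obtain ⟨s, hs, rfl⟩ := hψ
  have hs' : s ∈ cells := by
    unfold blk0 at hs
    exact List.mem_toFinset.1 hs
  obtain ⟨a, ha, b, hb, h1, h2, h3⟩ := HBlkNear_model s hs'
  have himg : ∀ u ∈ cells, u.image f ∈ F := by
    intro u hu
    apply hf.sub
    unfold blk
    exact mem_image.2 ⟨u, List.mem_toFinset.2 hu, rfl⟩
  have hnr : ∀ {u v : Finset (Fin 9)}, nr u v → nr (u.image f) (v.image f) := by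
    intro u v h
    rcases h with h | h
    · exact Or.inl (by rw [h])
    · right
      rw [← image_inter _ _ hf.inj, card_image_of_injective _ hf.inj, h]
  have hc : ({f 1, f 2, f 5, f 6} : Finset ι) = ({1, 2, 5, 6} : Finset (Fin 9)).image f := by
    simp [image_insert]
  rw [hc]
  exact ⟨a.image f, himg a ha, b.image f, himg b hb, hnr (HBlkNear_nr h1), hnr (HBlkNear_nr h2),
    hnr (HBlkNear_nr h3)⟩

end Pool.TSphH
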