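import Pool.Agent.Lib.MP_3de3a3_co.H.HBlockOp

/-! # Replacing disjoint blocks by cones (module HBlockIter)

PROOF. `coneAll_mfd`: induction on 𝓑 (`Finset.induction_on`), for fixed F. For 𝓑 empty: coneAll F ∅ c = F. Step: let f be not in 𝓑, G = coneAll F 𝓑 c. coneAll F (insert f 𝓑) c =
coned G (blk f) (c f): a facet of G is in F - union of the blk g or contains some c g (not in verts F), blk f is contained in F and disjoint from the blk g, so blk f is contained in G
and the cones over the other blocks are not in blk f. So IsBlk G f. c f is not in verts G = verts F union 𝓑.image c (c is injective on insert f 𝓑). Apply `coned_blk`.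
`coneAll_restore`, `coneAll_link`: from the formula. The facets of coneAll F 𝓑 c which contain no c f are those of F - union of the blk f. The facets containing c f are the insert (c f) t, t in bd (blk f)
(elements of other cones insert (c g) t' do not contain c f: c f is not c g and not in verts F), so link (coneAll F 𝓑 c) (c f) = bd (blk f), with the vertices f i (`block_bd`). -/

set_option autoImplicit false

namespace Pool.TSphH

open Finset
open Pool.TSph

variable {ι : Type*} [DecidableEq ι]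

/-- All blocks `blk f`, `f ∈ 𝓑`, are replaced by cones with the apices `c f`. -/
def coneAll (F : Finset (Finset ι)) (𝓑 : Finset (Fin 9 → ι)) (c : (Fin 9 → ι) → ι) :
    Finset (Finset ι) :=
  (F \ 𝓑.biUnion blk) ∪ 𝓑.biUnion (fun f => (bd (blk f)).image (insert (c f)))

attribute [local irreducible] blk blk0 cells bd

private theorem hBlockIter_mem {F : Finset (Finset ι)} {𝓑 : Finset (Fin 9 → ι)}
    {c : (Fin 9 → ι) → ι} {s : Finset ι} : s ∈ coneAll F 𝓑 c ↔
      (s ∈ F ∧ ∀ f ∈ 𝓑, s ∉ blk f) ∨ ∃ f ∈ 𝓑, ∃ t ∈ bd (blk f), insert (c f) t = s := by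
  unfold coneAll
  simp only [mem_union, mem_sdiff, mem_biUnion, mem_image, not_exists, not_and]

private theorem hBlockIter_not {F : Finset (Finset ι)} {x : ι} (hx : x ∉ verts F) {s : Finset ι}
    (hs : s ∈ F) : x ∉ s := fun h => hx (mem_verts.2 ⟨s, hs, h⟩)

private theorem hBlockIter_bd {F B : Finset (Finset ι)} {x : ι} (hx : x ∉ verts F) (hB : B ⊆ F)
    {t : Finset ι} (ht : t ∈ bd B) : x ∉ t := by
  obtain ⟨-, s, hs, hts⟩ := mem_tris.1 (mem_bd.1 ht).1
  exact fun h => hBlockIter_not hx (hB hs) (hts h)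

theorem coneAll_mfd {F : Finset (Finset ι)} (hF : IsMfd3 F) (𝓑 : Finset (Fin 9 → ι))
    (c : (Fin 9 → ι) → ι) (hB : ∀ f ∈ 𝓑, IsBlk F f)
    (hd : ∀ f ∈ 𝓑, ∀ g ∈ 𝓑, f ≠ g → Disjoint (blk f) (blk g)) (hc : ∀ f ∈ 𝓑, c f ∉ verts F)
    (hinj : Set.InjOn c 𝓑) :
    IsMfd3 (coneAll F 𝓑 c) ∧ (coneAll F 𝓑 c).card = F.card + 2 * 𝓑.card ∧
      verts (coneAll F 𝓑 c) = verts F ∪ 𝓑.image c := by
  classical
  induction 𝓑 using Finset.induction_on with
  | empty =>
    have h : coneAll F ∅ c = F := by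
      ext s
      rw [hBlockIter_mem]
      simp
    rw [h]
    simp [hF]
  | @insert f 𝓑 hf ih =>
    obtain ⟨h1, h2, h3⟩ := ih (fun g hg => hB g (mem_insert_of_mem hg))
      (fun g hg g' hg' => hd g (mem_insert_of_mem hg) g' (mem_insert_of_mem hg'))
      (fun g hg => hc g (mem_insert_of_mem hg))
      (hinj.mono (by
        intro g hg
        exact mem_coe.2 (mem_insert_of_mem (mem_coe.1 hg))))
    have hfB := hB f (mem_insert_self f 𝓑)
    have hcf := hc f (mem_insert_self f 𝓑)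
    have hne : ∀ g ∈ 𝓑, f ≠ g := by
      rintro g hg rfl
      exact hf hg
    have hblk : IsBlk (coneAll F 𝓑 c) f := by
      refine ⟨hfB.inj, fun s hs => ?_⟩
      rw [hBlockIter_mem]
      refine Or.inl ⟨hfB.sub hs, fun g hg hsg => ?_⟩
      exact disjoint_left.1 (hd f (mem_insert_self f 𝓑) g (mem_insert_of_mem hg) (hne g hg)) hs hsg
    have hcG : c f ∉ verts (coneAll F 𝓑 c) := by
      rw [h3, mem_union, mem_image]
      rintro (h | ⟨g, hg, h⟩)
      · exact hcf h
      · exact hne g hg (hinj (mem_coe.2 (mem_insert_self f 𝓑)) (mem_coe.2 (mem_insert_of_mem hg)) h.symm)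
    obtain ⟨g1, g2, g3⟩ := coned_blk h1 hblk hcG
    have heq : coned (coneAll F 𝓑 c) (blk f) (c f) = coneAll F (insert f 𝓑) c := by
      ext s
      rw [mem_coned, hBlockIter_mem, hBlockIter_mem]
      constructor
      · rintro (⟨⟨hs, hs2⟩ | ⟨g, hg, t, ht, rfl⟩, hsf⟩ | ⟨t, ht, rfl⟩)
        · refine Or.inl ⟨hs, fun g hg => ?_⟩
          rcases mem_insert.1 hg with rfl | hg
          · exact hsf
          · exact hs2 g hg
        · exact Or.inr ⟨g, mem_insert_of_mem hg, t, ht, rfl⟩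
        · exact Or.inr ⟨f, mem_insert_self f 𝓑, t, ht, rfl⟩
      · rintro (⟨hs, hs2⟩ | ⟨g, hg, t, ht, rfl⟩)
        · exact Or.inl ⟨Or.inl ⟨hs, fun g hg => hs2 g (mem_insert_of_mem hg)⟩,
            hs2 f (mem_insert_self f 𝓑)⟩
        · rcases mem_insert.1 hg with rfl | hg2
          · exact Or.inr ⟨t, ht, rfl⟩
          · refine Or.inl ⟨Or.inr ⟨g, hg2, t, ht, rfl⟩, fun hs => ?_⟩
            exact hBlockIter_not (hc g hg) (hfB.sub hs) (mem_insert_self _ _)
    rw [← heq]
    refine ⟨g1, ?_, ?_⟩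
    · rw [g2, h2, card_insert_of_notMem hf]
      ring
    · rw [g3, h3, image_insert, union_insert]

theorem coneAll_restore {F : Finset (Finset ι)} (𝓑 : Finset (Fin 9 → ι))
    (c : (Fin 9 → ι) → ι) (hB : ∀ f ∈ 𝓑, IsBlk F f) (hc : ∀ f ∈ 𝓑, c f ∉ verts F) :
    F = (coneAll F 𝓑 c).filter (fun s => Disjoint s (𝓑.image c)) ∪ 𝓑.biUnion blk := by
  ext s
  rw [mem_union, mem_filter, mem_biUnion, hBlockIter_mem]
  constructor
  · intro hs
    by_cases h : ∃ f ∈ 𝓑, s ∈ blk f
    · exact Or.inr h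
    · left
      push Not at h
      refine ⟨Or.inl ⟨hs, h⟩, ?_⟩
      rw [disjoint_right]
      intro x hx
      obtain ⟨f, hf, rfl⟩ := mem_image.1 hx
      exact hBlockIter_not (hc f hf) hs
  · rintro (⟨⟨hs, -⟩ | ⟨f, hf, t, ht, rfl⟩, hd⟩ | ⟨f, hf, hs⟩)
    · exact hs
    · exact absurd (mem_image_of_mem c hf) (disjoint_left.1 hd (mem_insert_self _ _))
    · exact (hB f hf).sub hs

theorem coneAll_link {F : Finset (Finset ι)} (𝓑 : Finset (Fin 9 → ι))
    (c : (Fin 9 → ι) → ι) (hB : ∀ f ∈ 𝓑, IsBlk F f) (hc : ∀ f ∈ 𝓑, c f ∉ verts F)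
    (hinj : Set.InjOn c 𝓑) {f : Fin 9 → ι} (hf : f ∈ 𝓑) :
    verts (link (coneAll F 𝓑 c) (c f)) = univ.image f := by
  have h : link (coneAll F 𝓑 c) (c f) = bd (blk f) := by
    ext t
    rw [mem_link]
    constructor
    · rintro ⟨s, hs, hx, rfl⟩
      rw [hBlockIter_mem] at hs
      rcases hs with ⟨hs, -⟩ | ⟨g, hg, t', ht', rfl⟩
      · exact absurd hx (hBlockIter_not (hc f hf) hs)
      · rcases mem_insert.1 hx with h1 | h1
        · have h2 : f = g := hinj (mem_coe.2 hf) (mem_coe.2 hg) h1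
          subst h2
          rw [erase_insert (hBlockIter_bd (hc f hf) (hB f hf).sub ht')]
          exact ht'
        · exact absurd h1 (hBlockIter_bd (hc f hf) (hB g hg).sub ht')
    · intro ht
      refine ⟨insert (c f) t, ?_, mem_insert_self _ _, ?_⟩
      · rw [hBlockIter_mem]
        exact Or.inr ⟨f, hf, t, ht, rfl⟩
      · exact erase_insert (hBlockIter_bd (hc f hf) (hB f hf).sub ht)
  rw [h]
  exact (block_bd (hB f hf).inj).2.2.1

end Pool.TSphH
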