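import Pool.Agent.Lib.MP_3de3a3_co.H.HGrow

/-! # Replacing a block by a cone (module HBlockOp)

PROOF. `block_bd`: by `bd_image` this is a statement on blk0 (`decide`): bd blk0 has 14 elements and every i : Fin 9 is in one of them, every one is contained in a cell.
`coned_blk`: let B_k be the image of the first k elements of `cells` (k = 1, ..., 12) under s -> s.image f; B_12 = blk f. IsMfd3 (coned F B_1 c) by `grow0`. For k = 2, 3, 4 (cells 0 1 5 6;
0 1 6 7; 0 1 7 8), k = 5 (1 2 4 5) and k = 9 (2 3 4 5) use `grow1`: the cell is insert q t with (t, q) = ({0,1,5}, 6), ({0,1,6}, 7), ({0,1,7}, 8), ({1,4,5}, 2), ({2,4,5}, 3); t is in bd of the part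
done and q is not a vertex of it. For the other six use `grow2`: the cells {1,2,5,6}, {1,2,6,7}, {1,2,7,8} with (x, y, p, q) = (1, j, 2, j+1), j = 5, 6, 7, and {2,3,5,6}, {2,3,6,7}, {2,3,7,8} with
(x, y, p, q) = (2, j, 3, j+1), j = 5, 6, 7. The conditions on bd, verts and `hpq` are statements on the model (finite sets of Fin 9, `decide`) transported by the injective f (`bd_image`).
Cardinality: coned F (blk f) c is the disjoint union of F - blk f (F.card - 12) and 14 facets containing c. Vertices: every vertex of blk f is a vertex of bd (blk f). -/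

set_option autoImplicit false

namespace Pool.TSphH

open Finset
open Pool.TSph

variable {ι : Type*} [DecidableEq ι]

/-- the image of a set of model facets -/
private def HBlockOp_img (f : Fin 9 → ι) (B : Finset (Finset (Fin 9))) : Finset (Finset ι) :=
  B.image (fun s => s.image f)

private theorem HBlockOp_verts (f : Fin 9 → ι) (B : Finset (Finset (Fin 9))) :
    verts (HBlockOp_img f B) = (verts B).image f := by
  ext v
  rw [mem_verts, mem_image]
  constructor
  · rintro ⟨s, hs, hv⟩
    obtain ⟨a, ha, rfl⟩ := mem_image.1 hs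
    obtain ⟨i, hi, rfl⟩ := mem_image.1 hv
    exact ⟨i, mem_verts.2 ⟨a, ha, hi⟩, rfl⟩
  · rintro ⟨i, hi, rfl⟩
    obtain ⟨a, ha, hia⟩ := mem_verts.1 hi
    exact ⟨a.image f, mem_image_of_mem _ ha, mem_image_of_mem _ hia⟩

private theorem HBlockOp_mem {f : Fin 9 → ι} (hf : Function.Injective f)
    {B : Finset (Finset (Fin 9))} {t : Finset (Fin 9)} : t.image f ∈ HBlockOp_img f B ↔ t ∈ B := by
  unfold HBlockOp_img
  exact (image_injective hf).mem_finset_image

private theorem HBlockOp_mem_bd {f : Fin 9 → ι} (hf : Function.Injective f)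
    {B : Finset (Finset (Fin 9))} {t : Finset (Fin 9)} (h3 : t.card = 3) (h : ∃ s ∈ B, t ⊆ s)
    (h1 : (B.filter (fun s => t ⊆ s)).card = 1) : t.image f ∈ bd (HBlockOp_img f B) := by
  unfold HBlockOp_img
  rw [bd_image hf]
  exact mem_image_of_mem _ (mem_bd.2 ⟨mem_tris.2 ⟨h3, h⟩, h1⟩)

private theorem HBlockOp_blk (f : Fin 9 → ι) : blk f = HBlockOp_img f blk0 := rfl

private theorem HBlockOp_card12 : blk0.card = 12 := by decide +kernel

private theorem HBlockOp_card14 : (bd blk0).card = 14 := by decide +kernel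

private theorem HBlockOp_vbd : verts (bd blk0) = univ := by decide +kernel

private theorem HBlockOp_vblk : verts blk0 = univ := by decide +kernel

theorem block_bd {f : Fin 9 → ι} (hf : Function.Injective f) :
    (blk f).card = 12 ∧ (bd (blk f)).card = 14 ∧ verts (bd (blk f)) = univ.image f ∧
      verts (blk f) = univ.image f := by
  refine ⟨?_, ?_, ?_, ?_⟩
  · unfold blk
    rw [card_image_of_injective _ (image_injective hf), HBlockOp_card12]
  · unfold blk
    rw [bd_image hf, card_image_of_injective _ (image_injective hf), HBlockOp_card14]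
  · unfold blk
    rw [bd_image hf]
    have h := HBlockOp_verts f (bd blk0)
    unfold HBlockOp_img at h
    rw [h, HBlockOp_vbd]
  · rw [HBlockOp_blk, HBlockOp_verts, HBlockOp_vblk]

section steps

variable {F : Finset (Finset ι)} {f : Fin 9 → ι} {c : ι}

private theorem HBlockOp_step1 (hF : ∀ s ∈ F, s.card = 4) (hf : IsBlk F f) (hc : c ∉ verts F)
    {B : Finset (Finset (Fin 9))} (t : Finset (Fin 9)) (q : Fin 9) (hB : B ⊆ blk0)
    (h1 : insert q t ∈ blk0) (h2 : insert q t ∉ B) (h3 : t.card = 3) (h4 : ∃ s ∈ B, t ⊆ s)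
    (h5 : (B.filter (fun s => t ⊆ s)).card = 1) (h6 : q ∉ verts B)
    (h : IsMfd3 (coned F (HBlockOp_img f B) c)) :
    IsMfd3 (coned F (HBlockOp_img f (insert (insert q t) B)) c) := by
  have hBF : HBlockOp_img f B ⊆ F := (image_subset_image hB).trans hf.sub
  have e1 : (insert q t).image f = insert (f q) (t.image f) := image_insert _ _ _
  have hg := grow1 hF hBF hc h (t := t.image f) (q := f q)
    (by rw [← e1]; exact hf.sub (mem_image_of_mem _ h1))
    (by rw [← e1, HBlockOp_mem hf.inj]; exact h2)
    (HBlockOp_mem_bd hf.inj h3 h4 h5)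
    (by rw [HBlockOp_verts, hf.inj.mem_finset_image]; exact h6)
  have e2 : HBlockOp_img f (insert (insert q t) B) =
      insert (insert (f q) (t.image f)) (HBlockOp_img f B) := by
    unfold HBlockOp_img
    rw [image_insert, e1]
  rw [e2]
  exact hg

private theorem HBlockOp_step2 (hF : ∀ s ∈ F, s.card = 4) (hf : IsBlk F f) (hc : c ∉ verts F)
    {B : Finset (Finset (Fin 9))} (x y p q : Fin 9) (hB : B ⊆ blk0)
    (h1 : ({x, y, p, q} : Finset (Fin 9)) ∈ blk0) (h2 : ({x, y, p, q} : Finset (Fin 9)) ∉ B)
    (h3 : ({x, y, p} : Finset (Fin 9)).card = 3) (h4 : ∃ s ∈ B, ({x, y, p} : Finset (Fin 9)) ⊆ s)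
    (h5 : (B.filter (fun s => ({x, y, p} : Finset (Fin 9)) ⊆ s)).card = 1)
    (h3' : ({x, y, q} : Finset (Fin 9)).card = 3) (h4' : ∃ s ∈ B, ({x, y, q} : Finset (Fin 9)) ⊆ s)
    (h5' : (B.filter (fun s => ({x, y, q} : Finset (Fin 9)) ⊆ s)).card = 1)
    (h6 : ∀ s ∈ B, ¬ (p ∈ s ∧ q ∈ s))
    (h : IsMfd3 (coned F (HBlockOp_img f B) c)) :
    IsMfd3 (coned F (HBlockOp_img f (insert {x, y, p, q} B)) c) := by
  have hBF : HBlockOp_img f B ⊆ F := (image_subset_image hB).trans hf.sub
  have e1 : ({x, y, p, q} : Finset (Fin 9)).image f = {f x, f y, f p, f q} := by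
    simp only [image_insert, image_singleton]
  have e3 : ({x, y, p} : Finset (Fin 9)).image f = {f x, f y, f p} := by
    simp only [image_insert, image_singleton]
  have e4 : ({x, y, q} : Finset (Fin 9)).image f = {f x, f y, f q} := by
    simp only [image_insert, image_singleton]
  have hg := grow2 hF hBF hc h (x := f x) (y := f y) (p := f p) (q := f q)
    (by rw [← e1]; exact hf.sub (mem_image_of_mem _ h1))
    (by rw [← e1, HBlockOp_mem hf.inj]; exact h2)
    (by rw [← e3]; exact HBlockOp_mem_bd hf.inj h3 h4 h5)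
    (by rw [← e4]; exact HBlockOp_mem_bd hf.inj h3' h4' h5')
    (by
      intro s hs hp hq
      obtain ⟨a, ha, rfl⟩ := mem_image.1 hs
      exact h6 a ha ⟨hf.inj.mem_finset_image.1 hp, hf.inj.mem_finset_image.1 hq⟩)
  have e2 : HBlockOp_img f (insert {x, y, p, q} B) =
      insert {f x, f y, f p, f q} (HBlockOp_img f B) := by
    unfold HBlockOp_img
    rw [image_insert, e1]
  rw [e2]
  exact hg

private theorem HBlockOp_all (hF : IsMfd3 F) (hf : IsBlk F f) (hc : c ∉ verts F) :
    IsMfd3 (coned F (blk f) c) := by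
  have h4 := hF.card4
  have g1 : IsMfd3 (coned F (HBlockOp_img f {{0, 1, 4, 5}}) c) := by
    have h := grow0 hF (σ := ({0, 1, 4, 5} : Finset (Fin 9)).image f)
      (hf.sub (mem_image_of_mem _ (by decide +kernel))) hc
    have e : HBlockOp_img f {{0, 1, 4, 5}} = {({0, 1, 4, 5} : Finset (Fin 9)).image f} := by
      unfold HBlockOp_img
      exact image_singleton _ _
    rw [e]
    exact h
  have g2 := HBlockOp_step1 h4 hf hc {0, 1, 5} 6 (by decide +kernel) (by decide +kernel)
    (by decide +kernel) (by decide +kernel) (by decide +kernel) (by decide +kernel)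
    (by decide +kernel) g1
  have g3 := HBlockOp_step1 h4 hf hc {0, 1, 6} 7 (by decide +kernel) (by decide +kernel)
    (by decide +kernel) (by decide +kernel) (by decide +kernel) (by decide +kernel)
    (by decide +kernel) g2
  have g4 := HBlockOp_step1 h4 hf hc {0, 1, 7} 8 (by decide +kernel) (by decide +kernel)
    (by decide +kernel) (by decide +kernel) (by decide +kernel) (by decide +kernel)
    (by decide +kernel) g3
  have g5 := HBlockOp_step1 h4 hf hc {1, 4, 5} 2 (by decide +kernel) (by decide +kernel)
    (by decide +kernel) (by decide +kernel) (by decide +kernel) (by decide +kernel)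
    (by decide +kernel) g4
  have g6 := HBlockOp_step2 h4 hf hc 1 5 2 6 (by decide +kernel) (by decide +kernel)
    (by decide +kernel) (by decide +kernel) (by decide +kernel) (by decide +kernel)
    (by decide +kernel) (by decide +kernel) (by decide +kernel) (by decide +kernel) g5
  have g7 := HBlockOp_step2 h4 hf hc 1 6 2 7 (by decide +kernel) (by decide +kernel)
    (by decide +kernel) (by decide +kernel) (by decide +kernel) (by decide +kernel)
    (by decide +kernel) (by decide +kernel) (by decide +kernel) (by decide +kernel) g6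
  have g8 := HBlockOp_step2 h4 hf hc 1 7 2 8 (by decide +kernel) (by decide +kernel)
    (by decide +kernel) (by decide +kernel) (by decide +kernel) (by decide +kernel)
    (by decide +kernel) (by decide +kernel) (by decide +kernel) (by decide +kernel) g7
  have g9 := HBlockOp_step1 h4 hf hc {2, 4, 5} 3 (by decide +kernel) (by decide +kernel)
    (by decide +kernel) (by decide +kernel) (by decide +kernel) (by decide +kernel)
    (by decide +kernel) g8
  have g10 := HBlockOp_step2 h4 hf hc 2 5 3 6 (by decide +kernel) (by decide +kernel)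
    (by decide +kernel) (by decide +kernel) (by decide +kernel) (by decide +kernel)
    (by decide +kernel) (by decide +kernel) (by decide +kernel) (by decide +kernel) g9
  have g11 := HBlockOp_step2 h4 hf hc 2 6 3 7 (by decide +kernel) (by decide +kernel)
    (by decide +kernel) (by decide +kernel) (by decide +kernel) (by decide +kernel)
    (by decide +kernel) (by decide +kernel) (by decide +kernel) (by decide +kernel) g10
  have g12 := HBlockOp_step2 h4 hf hc 2 7 3 8 (by decide +kernel) (by decide +kernel)
    (by decide +kernel) (by decide +kernel) (by decide +kernel) (by decide +kernel)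
    (by decide +kernel) (by decide +kernel) (by decide +kernel) (by decide +kernel) g11
  rw [HBlockOp_blk]
  have e : (blk0 : Finset (Finset (Fin 9))) = insert {2, 7, 3, 8} (insert {2, 6, 3, 7}
    (insert {2, 5, 3, 6} (insert (insert 3 {2, 4, 5}) (insert {1, 7, 2, 8} (insert {1, 6, 2, 7}
    (insert {1, 5, 2, 6} (insert (insert 2 {1, 4, 5}) (insert (insert 8 {0, 1, 7})
    (insert (insert 7 {0, 1, 6}) (insert (insert 6 {0, 1, 5}) {{0, 1, 4, 5}})))))))))) := by
    decide +kernel
  rw [e]
  exact g12

end steps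

private theorem HBlockOp_gen {F B : Finset (Finset ι)} (hBF : B ⊆ F) {c : ι} (hc : c ∉ verts F)
    (b1 : B.card = 12) (b2 : (bd B).card = 14) (b3 : verts B ⊆ verts (bd B)) :
    (coned F B c).card = F.card + 2 ∧ verts (coned F B c) = insert c (verts F) := by
  have hcF : ∀ s ∈ F, c ∉ s := fun s hs h => hc (mem_verts.2 ⟨s, hs, h⟩)
  have hcbd : ∀ t ∈ bd B, c ∉ t := by
    intro t ht h
    obtain ⟨-, s, hs, hts⟩ := mem_tris.1 (mem_bd.1 ht).1
    exact hcF s (hBF hs) (hts h)
  constructor
  · unfold coned
    rw [card_union_of_disjoint, card_sdiff_of_subset hBF, b1, card_image_of_injOn, b2]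
    · have := card_le_card hBF
      omega
    · intro a ha b hb hab
      have h1 := hcbd a ha
      have h2 := hcbd b hb
      have h3 : insert c a = insert c b := hab
      calc a = (insert c a).erase c := (erase_insert h1).symm
        _ = (insert c b).erase c := by rw [h3]
        _ = b := erase_insert h2
    · rw [disjoint_left]
      intro s hs hs'
      obtain ⟨t, -, rfl⟩ := mem_image.1 hs'
      exact hcF _ (mem_sdiff.1 hs).1 (mem_insert_self _ _)
  · ext v
    rw [mem_verts, mem_insert]
    constructor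
    · rintro ⟨s, hs, hv⟩
      rcases mem_coned.1 hs with ⟨h1, -⟩ | ⟨t, ht, rfl⟩
      · exact Or.inr (mem_verts.2 ⟨s, h1, hv⟩)
      · rcases mem_insert.1 hv with h | h
        · exact Or.inl h
        · obtain ⟨-, s, hs, hts⟩ := mem_tris.1 (mem_bd.1 ht).1
          exact Or.inr (mem_verts.2 ⟨s, hBF hs, hts h⟩)
    · have key : ∀ v ∈ verts B, ∃ s ∈ coned F B c, v ∈ s := by
        intro v hv
        obtain ⟨t, ht, hvt⟩ := mem_verts.1 (b3 hv)
        exact ⟨insert c t, mem_coned.2 (Or.inr ⟨t, ht, rfl⟩), mem_insert_of_mem hvt⟩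
      rintro (rfl | hv)
      · have h1 : (bd B).Nonempty := by rw [← card_pos, b2]; norm_num
        obtain ⟨t, ht⟩ := h1
        exact ⟨insert v t, mem_coned.2 (Or.inr ⟨t, ht, rfl⟩), mem_insert_self _ _⟩
      · obtain ⟨s, hs, hvs⟩ := mem_verts.1 hv
        by_cases h : s ∈ B
        · exact key v (mem_verts.2 ⟨s, h, hvs⟩)
        · exact ⟨s, mem_coned.2 (Or.inl ⟨hs, h⟩), hvs⟩

theorem coned_blk {F : Finset (Finset ι)} (hF : IsMfd3 F) {f : Fin 9 → ι} (hf : IsBlk F f)
    {c : ι} (hc : c ∉ verts F) :
    IsMfd3 (coned F (blk f) c) ∧ (coned F (blk f) c).card = F.card + 2 ∧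
      verts (coned F (blk f) c) = insert c (verts F) :=
  ⟨HBlockOp_all hF hf hc, HBlockOp_gen hf.sub hc (block_bd hf.inj).1 (block_bd hf.inj).2.1
    (subset_of_eq ((block_bd hf.inj).2.2.2.trans (block_bd hf.inj).2.2.1.symm))⟩

end Pool.TSphH
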