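import Pool.Agent.Lib.MP_3de3a3_co.H.HEdge
import Pool.Agent.Lib.MP_3de3a3_co.H.HBlkDef

/-! # Two adjacent good facets lie in a block (module HBlockStr)

PROOF. Write a1 = a, a2 = a', b1 = b, b2 = b', b3 = c; [p q | r s] means {p, q, r, s} in F. Given: [a1 a2 | b1 b2], [a1 a2 | b2 b3], dg F {a_i, b_j} = 4 for i = 1, 2, j = 1, 2, 3,
dg F {a1, a2}, dg F {b1, b2}, dg F {b2, b3} >= D >= 5.
`edge4_close` at the edge a1 b1, from (a2, b2): there are a0, b0 with [a1 b1 | b2 a0], [a1 b1 | a0 b0], [a1 b1 | b0 a2], a0 not a2, b0 not b2.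
At a1 b2, from (b1, a2): r, s with [a1 b2 | a2 r], [a1 b2 | r s], [a1 b2 | s b1], r not b1, s not a2. By `tri_two` for the triangle {a1, b2, a2} (b1, b3, r): r = b3
(b1 not b3 is hypothesis hbc); for {a1, b2, b1} (a2, a0, s): s = a0. So [a1 b2 | b3 a0].
At a1 b3, from (b2, a2): r, s with [a1 b3 | a2 r], [a1 b3 | r s], [a1 b3 | s b2], r not b2, s not a2; call r = b4; {a1, b3, b2}: s = a0. So [a1 b3 | a2 b4], [a1 b3 | b4 a0].
At a2 b1, from (b2, a1): r, s with [a2 b1 | a1 r], [a2 b1 | r s], [a2 b1 | s b2], r not b2, s not a1: {a2, b1, a1}: r = b0; call s = a3. So [a2 b1 | b0 a3], [a2 b1 | a3 b2].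
At a2 b2, from (b1, a1): r, s: {a2, b2, a1}: r = b3; {a2, b2, b1}: s = a3. So [a2 b2 | b3 a3].
At a2 b3, from (b2, a1): r, s: {a2, b3, a1}: r = b4; {a2, b3, b2}: s = a3. So [a2 b3 | b4 a3].
These are the 12 facets a_i a_(i+1) b_j b_(j+1).
The nine vertices are different: two of them which lie in a common facet are different (a facet has four elements). The remaining pairs: a0 a2, a1 a3, b0 b2, b1 b3, b2 b4 by
construction (the inequalities above); a0 = a3: then `edge_cycle3` at the edge b1 b2 with a0, a1, a2 gives dg F {b1, b2} = 3; b0 = b3: `edge_cycle3` at a1 a2 with b0, b1, b2;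
b1 = b4: the same with b1, b2, b3; b0 = b4: `edge_cycle4` at a1 a2 with b0, b1, b2, b3 (b0 not b2, b1 not b3) gives dg F {a1, a2} = 4 < 5. -/

set_option autoImplicit false
set_option linter.unusedSimpArgs false

namespace Pool.TSphH

open Finset
open Pool.TSph

variable {ι : Type*} [DecidableEq ι]

private theorem HBlockStr_perm {F : Finset (Finset ι)} {x y z w x' y' z' w' : ι}
    (h : ({x, y, z, w} : Finset ι) ∈ F)
    (e : ∀ t, (t = x' ∨ t = y' ∨ t = z' ∨ t = w') ↔ (t = x ∨ t = y ∨ t = z ∨ t = w)) :
    ({x', y', z', w'} : Finset ι) ∈ F := by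
  have h2 : ({x', y', z', w'} : Finset ι) = {x, y, z, w} := by
    ext t
    simp only [mem_insert, mem_singleton]
    exact e t
  rw [h2]
  exact h

private theorem HBlockStr_ne {F : Finset (Finset ι)} (hF : IsMfd3 F) {x y z w : ι}
    (h : ({x, y, z, w} : Finset ι) ∈ F) :
    x ≠ y ∧ x ≠ z ∧ x ≠ w ∧ y ≠ z ∧ y ≠ w ∧ z ≠ w := by
  have h4 := hF.card4 _ h
  have h3 : ∀ p q r : ι, ({p, q, r} : Finset ι).card ≤ 3 := fun p q r => card_le_three
  refine ⟨?_, ?_, ?_, ?_, ?_, ?_⟩
  · rintro rfl
    rw [insert_eq_of_mem (by simp)] at h4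
    have := h3 x z w
    omega
  · rintro rfl
    rw [insert_eq_of_mem (by simp)] at h4
    have := h3 y x w
    omega
  · rintro rfl
    rw [insert_eq_of_mem (by simp)] at h4
    have := h3 y z x
    omega
  · rintro rfl
    have e : ({x, y, y, w} : Finset ι) = {x, y, w} := by
      ext t
      simp
    rw [e] at h4
    have := h3 x y w
    omega
  · rintro rfl
    have e : ({x, y, z, y} : Finset ι) = {x, y, z} := by
      ext t
      simp only [mem_insert, mem_singleton]
      tauto
    rw [e] at h4
    have := h3 x y z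
    omega
  · rintro rfl
    have e : ({x, y, z, z} : Finset ι) = {x, y, z} := by
      ext t
      simp
    rw [e] at h4
    have := h3 x y z
    omega

/-- `tri_two` for a triangle given by its vertices; the fourth vertex comes last. -/
private theorem HBlockStr_two {F : Finset (Finset ι)} (hF : IsMfd3 F) {p q r u v w : ι}
    (hu : ({p, q, r, u} : Finset ι) ∈ F) (hv : ({p, q, r, v} : Finset ι) ∈ F)
    (hw : ({p, q, r, w} : Finset ι) ∈ F) (huv : u ≠ v) (huw : u ≠ w) : v = w := by
  obtain ⟨h1, h2, h3, h4, h5, h6⟩ := HBlockStr_ne hF hu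
  have ht : ({p, q, r} : Finset ι).card = 3 := by
    rw [card_eq_three]
    exact ⟨p, q, r, h1, h2, h4, rfl⟩
  refine tri_two hF ht (u := u) (v := v) (w := w) ?_ ?_ ?_ huv huw
  · exact HBlockStr_perm hu (fun t => by simp only [or_comm, or_left_comm])
  · exact HBlockStr_perm hv (fun t => by simp only [or_comm, or_left_comm])
  · exact HBlockStr_perm hw (fun t => by simp only [or_comm, or_left_comm])

theorem exists_blk {F : Finset (Finset ι)} (hF : IsMfd3 F) {D : ℕ} (hD : 5 ≤ D)
    {a a' b b' c : ι} (h1 : Gd D F a a' b b') (h2 : Gd D F a a' b' c) (hbc : b ≠ c) :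
    ∃ f : Fin 9 → ι, IsBlk F f ∧ f 1 = a ∧ f 2 = a' ∧ f 5 = b ∧ f 6 = b' ∧ f 7 = c := by
  have f12 : ({a, a', b, b'} : Finset ι) ∈ F := h1.mem
  have f23 : ({a, a', b', c} : Finset ι) ∈ F := h2.mem
  -- the edge a b
  obtain ⟨a0, b0, e1, e2, e3, ha0, hb0⟩ := edge4_close hF (x := a) (y := b) (p := a') (q := b')
    (HBlockStr_perm f12 (fun t => by simp only [or_comm, or_left_comm])) h1.ab
  -- the edge a b'
  obtain ⟨r, s, g1, g2, g3, hr, hs⟩ := edge4_close hF (x := a) (y := b') (p := b) (q := a')
    (HBlockStr_perm f12 (fun t => by simp only [or_comm, or_left_comm])) h1.ab'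
  obtain rfl : c = r := HBlockStr_two hF (p := a) (q := b') (r := a') (u := b)
    (HBlockStr_perm f12 (fun t => by simp only [or_comm, or_left_comm])) (HBlockStr_perm f23 (fun t => by simp only [or_comm, or_left_comm]))
    (HBlockStr_perm g1 (fun t => by simp only [or_comm, or_left_comm])) hbc hr.symm
  obtain rfl : a0 = s := HBlockStr_two hF (p := a) (q := b') (r := b) (u := a')
    (HBlockStr_perm f12 (fun t => by simp only [or_comm, or_left_comm])) (HBlockStr_perm e1 (fun t => by simp only [or_comm, or_left_comm]))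
    (HBlockStr_perm g3 (fun t => by simp only [or_comm, or_left_comm])) ha0.symm hs.symm
  clear g1 g3 hr hs
  -- the edge a c
  obtain ⟨b4, s, k1, k2, k3, hb4, hs⟩ := edge4_close hF (x := a) (y := c) (p := b') (q := a')
    (HBlockStr_perm f23 (fun t => by simp only [or_comm, or_left_comm])) h2.ab'
  obtain rfl : a0 = s := HBlockStr_two hF (p := a) (q := c) (r := b') (u := a')
    (HBlockStr_perm f23 (fun t => by simp only [or_comm, or_left_comm])) (HBlockStr_perm g2 (fun t => by simp only [or_comm, or_left_comm]))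
    (HBlockStr_perm k3 (fun t => by simp only [or_comm, or_left_comm])) ha0.symm hs.symm
  clear k3 hs
  -- the edge a' b
  obtain ⟨r, a3, l1, l2, l3, hr, ha3⟩ := edge4_close hF (x := a') (y := b) (p := b') (q := a)
    (HBlockStr_perm f12 (fun t => by simp only [or_comm, or_left_comm])) h1.a'b
  obtain rfl : b0 = r := HBlockStr_two hF (p := a') (q := b) (r := a) (u := b')
    (HBlockStr_perm f12 (fun t => by simp only [or_comm, or_left_comm])) (HBlockStr_perm e3 (fun t => by simp only [or_comm, or_left_comm]))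
    (HBlockStr_perm l1 (fun t => by simp only [or_comm, or_left_comm])) hb0.symm hr.symm
  clear l1 hr
  -- the edge a' b'
  obtain ⟨r, s, m1, m2, m3, hr, hs⟩ := edge4_close hF (x := a') (y := b') (p := b) (q := a)
    (HBlockStr_perm f12 (fun t => by simp only [or_comm, or_left_comm])) h1.a'b'
  obtain rfl : c = r := HBlockStr_two hF (p := a') (q := b') (r := a) (u := b)
    (HBlockStr_perm f12 (fun t => by simp only [or_comm, or_left_comm])) (HBlockStr_perm f23 (fun t => by simp only [or_comm, or_left_comm]))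
    (HBlockStr_perm m1 (fun t => by simp only [or_comm, or_left_comm])) hbc hr.symm
  obtain rfl : a3 = s := HBlockStr_two hF (p := a') (q := b') (r := b) (u := a)
    (HBlockStr_perm f12 (fun t => by simp only [or_comm, or_left_comm])) (HBlockStr_perm l3 (fun t => by simp only [or_comm, or_left_comm]))
    (HBlockStr_perm m3 (fun t => by simp only [or_comm, or_left_comm])) ha3.symm hs.symm
  clear m1 m3 hr hs
  -- the edge a' c
  obtain ⟨r, s, n1, n2, n3, hr, hs⟩ := edge4_close hF (x := a') (y := c) (p := b') (q := a)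
    (HBlockStr_perm f23 (fun t => by simp only [or_comm, or_left_comm])) h2.a'b'
  obtain rfl : b4 = r := HBlockStr_two hF (p := a') (q := c) (r := a) (u := b')
    (HBlockStr_perm f23 (fun t => by simp only [or_comm, or_left_comm])) (HBlockStr_perm k1 (fun t => by simp only [or_comm, or_left_comm]))
    (HBlockStr_perm n1 (fun t => by simp only [or_comm, or_left_comm])) hb4.symm hr.symm
  obtain rfl : a3 = s := HBlockStr_two hF (p := a') (q := c) (r := b') (u := a)
    (HBlockStr_perm f23 (fun t => by simp only [or_comm, or_left_comm])) (HBlockStr_perm m2 (fun t => by simp only [or_comm, or_left_comm]))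
    (HBlockStr_perm n3 (fun t => by simp only [or_comm, or_left_comm])) ha3.symm hs.symm
  clear n1 n3 hr hs
  -- the twelve facets
  have q0 : ({a0, a, b0, b} : Finset ι) ∈ F := HBlockStr_perm e2 (fun t => by simp only [or_comm, or_left_comm])
  have q1 : ({a0, a, b, b'} : Finset ι) ∈ F := HBlockStr_perm e1 (fun t => by simp only [or_comm, or_left_comm])
  have q2 : ({a0, a, b', c} : Finset ι) ∈ F := HBlockStr_perm g2 (fun t => by simp only [or_comm, or_left_comm])
  have q3 : ({a0, a, c, b4} : Finset ι) ∈ F := HBlockStr_perm k2 (fun t => by simp only [or_comm, or_left_comm])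
  have q4 : ({a, a', b0, b} : Finset ι) ∈ F := HBlockStr_perm e3 (fun t => by simp only [or_comm, or_left_comm])
  have q7 : ({a, a', c, b4} : Finset ι) ∈ F := HBlockStr_perm k1 (fun t => by simp only [or_comm, or_left_comm])
  have q8 : ({a', a3, b0, b} : Finset ι) ∈ F := HBlockStr_perm l2 (fun t => by simp only [or_comm, or_left_comm])
  have q9 : ({a', a3, b, b'} : Finset ι) ∈ F := HBlockStr_perm l3 (fun t => by simp only [or_comm, or_left_comm])
  have q10 : ({a', a3, b', c} : Finset ι) ∈ F := HBlockStr_perm m2 (fun t => by simp only [or_comm, or_left_comm])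
  have q11 : ({a', a3, c, b4} : Finset ι) ∈ F := HBlockStr_perm n2 (fun t => by simp only [or_comm, or_left_comm])
  -- the vertices are different
  have d03 : a0 ≠ a3 := by
    rintro rfl
    have h := edge_cycle3 hF (x := b) (y := b') (p := a0) (q := a) (r := a')
      (HBlockStr_perm q1 (fun t => by simp only [or_comm, or_left_comm])) (HBlockStr_perm f12 (fun t => by simp only [or_comm, or_left_comm]))
      (HBlockStr_perm q9 (fun t => by simp only [or_comm, or_left_comm]))
    have := h1.bb
    omega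
  have db03 : b0 ≠ c := by
    rintro rfl
    have h := edge_cycle3 hF (x := a) (y := a') (p := b0) (q := b) (r := b')
      (HBlockStr_perm q4 (fun t => by simp only [or_comm, or_left_comm])) (HBlockStr_perm f12 (fun t => by simp only [or_comm, or_left_comm]))
      (HBlockStr_perm f23 (fun t => by simp only [or_comm, or_left_comm]))
    have := h1.aa
    omega
  have db14 : b ≠ b4 := by
    rintro rfl
    have h := edge_cycle3 hF (x := a) (y := a') (p := b) (q := b') (r := c)
      (HBlockStr_perm f12 (fun t => by simp only [or_comm, or_left_comm])) (HBlockStr_perm f23 (fun t => by simp only [or_comm, or_left_comm]))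
      (HBlockStr_perm q7 (fun t => by simp only [or_comm, or_left_comm]))
    have := h1.aa
    omega
  have db04 : b0 ≠ b4 := by
    rintro rfl
    have h := edge_cycle4 hF (x := a) (y := a') (p := b0) (q := b) (r := b') (s := c)
      (HBlockStr_perm q4 (fun t => by simp only [or_comm, or_left_comm])) (HBlockStr_perm f12 (fun t => by simp only [or_comm, or_left_comm]))
      (HBlockStr_perm f23 (fun t => by simp only [or_comm, or_left_comm])) (HBlockStr_perm q7 (fun t => by simp only [or_comm, or_left_comm])) hb0 hbc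
    have := h1.aa
    omega
  obtain ⟨u1, u2, u3, u4, u5, u6⟩ := HBlockStr_ne hF q0
  obtain ⟨-, -, u7, -, u8, u9⟩ := HBlockStr_ne hF q1
  obtain ⟨-, -, u10, -, u11, u12⟩ := HBlockStr_ne hF q2
  obtain ⟨-, -, u13, -, u14, u15⟩ := HBlockStr_ne hF q3
  obtain ⟨u16, -, -, u17, u18, -⟩ := HBlockStr_ne hF q4
  obtain ⟨-, -, -, -, u19, -⟩ := HBlockStr_ne hF f12
  obtain ⟨-, -, -, u20, u21, -⟩ := HBlockStr_ne hF q7
  obtain ⟨u22, -, -, u23, u24, -⟩ := HBlockStr_ne hF q8
  obtain ⟨-, -, -, -, u25, -⟩ := HBlockStr_ne hF q9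
  obtain ⟨-, -, -, -, u26, -⟩ := HBlockStr_ne hF q10
  obtain ⟨-, -, -, -, u27, -⟩ := HBlockStr_ne hF q11
  refine ⟨![a0, a, a', a3, b0, b, b', c, b4], ⟨?_, ?_⟩, rfl, rfl, rfl, rfl, rfl⟩
  · rw [← List.nodup_ofFn]
    simp only [List.ofFn_succ, List.ofFn_zero, Matrix.cons_val_zero, Matrix.cons_val_succ,
      List.nodup_cons, List.mem_cons, List.not_mem_nil, or_false, not_or, List.nodup_nil, and_true,
      not_false_eq_true]
    exact ⟨⟨u1, ha0, d03, u2, u3, u7, u10, u13⟩, ⟨u16, ha3.symm, u4, u5, u8, u11, u14⟩,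
      ⟨u22, u17, u18, u19, u20, u21⟩, ⟨u23, u24, u25, u26, u27⟩, ⟨u6, hb0, db03, db04⟩,
      ⟨u9, hbc, db14⟩, ⟨u12, hb4.symm⟩, u15⟩
  · intro S hS
    unfold blk at hS
    rw [mem_image] at hS
    obtain ⟨t, ht, rfl⟩ := hS
    unfold blk0 at ht
    rw [List.mem_toFinset] at ht
    unfold cells at ht
    simp only [List.mem_cons, List.not_mem_nil, or_false] at ht
    rcases ht with rfl | rfl | rfl | rfl | rfl | rfl | rfl | rfl | rfl | rfl | rfl | rfl <;>
      simp only [image_insert, image_singleton]
    · exact q0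
    · exact q1
    · exact q2
    · exact q3
    · exact q4
    · exact f12
    · exact f23
    · exact q7
    · exact q8
    · exact q9
    · exact q10
    · exact q11

end Pool.TSphH
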