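import Pool.Agent.Lib.MP_3de3a3_co.H.HIso

/-! # Covering a class through marked complexes (module HCover)

PROOF. Let S1 = the set of G' in S' such that there is F' with Q F' and Iso F' G'. For G' in S1 and k in K G' let rep(G', k) be some G with Rel G' k G (and anything, say ∅, if there is none). S = the set of all rep(G', k):
at most S'.card * N elements (hK). Let P F. By hex there are F', k with Q F', k in K F', Rel F' k F. G' in S' with Iso F' G', G' = F'.image (image π), so G' in S1. By hequiv there are k' in K G' and G with Iso F G and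
Rel G' k' G. By huniq Iso G rep(G', k'). -/

set_option autoImplicit false

namespace Pool.TSphH

open Finset
open Pool.TSph

theorem cover {κ : Type*} (P Q : Finset (Finset ℕ) → Prop) (S' : Finset (Finset (Finset ℕ)))
    (hS' : ∀ F', Q F' → ∃ G' ∈ S', Iso F' G') (K : Finset (Finset ℕ) → Finset κ) (N : ℕ)
    (hK : ∀ F' G', Q F' → Iso F' G' → (K G').card ≤ N)
    (Rel : Finset (Finset ℕ) → κ → Finset (Finset ℕ) → Prop)
    (hex : ∀ F, P F → ∃ F' k, Q F' ∧ k ∈ K F' ∧ Rel F' k F)
    (hequiv : ∀ (F' : Finset (Finset ℕ)) (k : κ) (F : Finset (Finset ℕ)) (π : Equiv.Perm ℕ),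
      k ∈ K F' → Rel F' k F → ∃ k' ∈ K (F'.image (fun s => s.image π)), ∃ G, Iso F G ∧
        Rel (F'.image (fun s => s.image π)) k' G)
    (huniq : ∀ F' k F G, Rel F' k F → Rel F' k G → Iso F G) :
    ∃ S : Finset (Finset (Finset ℕ)), S.card ≤ S'.card * N ∧
      ∀ F, P F → ∃ G ∈ S, Iso F G := by
  classical
  let rep : Finset (Finset ℕ) → κ → Finset (Finset ℕ) := fun G' k =>
    if h : ∃ G, Rel G' k G then Classical.choose h else ∅
  have hrep : ∀ G' k G, Rel G' k G → Rel G' k (rep G' k) := by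
    intro G' k G hG
    have h : ∃ G, Rel G' k G := ⟨G, hG⟩
    simp only [rep, dif_pos h]
    exact Classical.choose_spec h
  let S1 : Finset (Finset (Finset ℕ)) := S'.filter (fun G' => ∃ F', Q F' ∧ Iso F' G')
  refine ⟨S1.biUnion (fun G' => (K G').image (rep G')), ?_, ?_⟩
  · calc (S1.biUnion (fun G' => (K G').image (rep G'))).card
        ≤ ∑ G' ∈ S1, ((K G').image (rep G')).card := card_biUnion_le
      _ ≤ ∑ _G' ∈ S1, N := by
          refine sum_le_sum ?_
          intro G' hG'
          obtain ⟨_, F', hQ, hI⟩ := mem_filter.1 hG'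
          exact card_image_le.trans (hK F' G' hQ hI)
      _ = S1.card * N := by rw [sum_const, smul_eq_mul]
      _ ≤ S'.card * N := Nat.mul_le_mul_right _ (card_filter_le _ _)
  · intro F hF
    obtain ⟨F', k, hQ, hk, hR⟩ := hex F hF
    obtain ⟨G', hG', hI⟩ := hS' F' hQ
    obtain ⟨π, hπ⟩ := hI
    obtain ⟨k', hk', G, hFG, hRG⟩ := hequiv F' k F π hk hR
    rw [← hπ] at hk' hRG
    refine ⟨rep G' k', ?_, ?_⟩
    · refine mem_biUnion.2 ⟨G', mem_filter.2 ⟨hG', F', hQ, π, hπ⟩, ?_⟩
      exact mem_image_of_mem _ hk'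
    · exact hFG.trans (huniq G' k' G (rep G' k') hRG (hrep G' k' G hRG))

end Pool.TSphH
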