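import Pool.Agent.Lib.MP_3de3a3_co.H.HTopSys

/-! # Many T-operations (module HTopIter)

PROOF of `top_iter`, induction on Θ (`Finset.induction_on`, for all F, R). Θ = ∅: F' = F, R' = R, π = id. Step: Sys F (insert τ0 Θ) R; let x0, y0, A, B, F1 = top F x0 y0 τ0 A, R1 = insert y0 R be as in `sys_step`
(`top_mfd`: F1.card = F.card + 2, verts F1 = insert y0 (verts F)), and F', R', π' by induction for F1, Θ, R1. Let ρ z = x0 if z = y0 and z otherwise, π = ρ ∘ π'.
(a) If s is in F' and does not contain any τ in Θ then s.image π' is in F1 and: s.image π' contains τ0 iff s contains τ0. Indeed τ0 is disjoint from R1 (blue, y0 not in verts F), so for u in τ0 and w with π' w = u: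
 w is not in R' (otherwise π' w is in R1), so w = π' w = u; and u in τ0 is in verts F1, not in R1, so not in R', so π' u = u.
(b) Θ' = insert τ0 Θ is contained in tris F': insert x0 τ0 is in F1, so it is s.image π', s in F' unmarked by Θ, s contains τ0 by (a).
(c) R is contained in R1, so in R'; y0 in R'. (d) z in verts F, not in R: z not y0, so z in verts F1 and not in R1: z not in R'. (e) z in R': π' z in R1 = insert y0 R, ρ maps R1 to R. (f) z not in R': π' z = z, z is not y0.
(g) F = image of the facets of F' which contain no τ in Θ': by induction F1 = image under π' of those without τ in Θ; by (a) the elements of F1 not containing τ0 are the images of the facets unmarked by Θ'. These elements of F1 are the s in F which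
 are not insert x0 t, t in A, and the insert y0 t, t in A (insert x0 τ0, insert y0 τ0 contain τ0; elements of F do not contain τ0 and t in A neither, as insert x0 t is in F). Their images under ρ are s (y0 not in s) and insert x0 t.
(h) z ∈ F'-facet s = insert z τ0, z not in τ0: then s is not marked by Θ and π' z is x0 or y0. Indeed if τ in Θ is contained in s then τ is not τ0, so z is in τ and some u in τ0 is not in τ; by the last property for τ, u in R', but u in τ0
 is not in R' (see (a)). So s.image π' = insert (π' z) τ0 is in F1 and has four elements; the facets of F1 containing τ0 are insert x0 τ0 and insert y0 τ0.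
(i) the equivalence. If: it is enough to consider a generator RT F' Θ' z z' (induction on EqvGen): for τ in Θ by induction (z, z' are in verts F'); for τ0 by (h) and ρ x0 = ρ y0 = x0. Only if: ρ (π' z) = ρ (π' z') means π' z = π' z' (then by
 induction, and RT F' Θ implies RT F' Θ') or {π' z, π' z'} = {x0, y0}. By (b) there are z1, z2 with insert z1 τ0, insert z2 τ0 in F', π' z1 = x0, π' z2 = y0 (z1, z2 not in τ0), so RT F' Θ' z1 z2, and z, z' are equivalent to z1, z2.
(j) the last property for τ0: s in F' contains τ0, z in s, not in τ0: s = insert z τ0 (four elements), by (h) π' z is x0 or y0, both in R1; if z were not in R' then z = π' z would be in R1, contained in R'. -/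

set_option autoImplicit false

namespace Pool.TSphH

open Finset
open Pool.TSph

/-- `z` and `z'` are cone points over the same marked triangle. -/
def RT (F' Θ : Finset (Finset ℕ)) (z z' : ℕ) : Prop :=
  ∃ τ ∈ Θ, z ∉ τ ∧ z' ∉ τ ∧ insert z τ ∈ F' ∧ insert z' τ ∈ F'

/-- `F` is recovered from `F'` and `Θ`. -/
def RelB (F' Θ F : Finset (Finset ℕ)) (π : ℕ → ℕ) : Prop :=
  F = (F'.filter (fun s => ∀ τ ∈ Θ, ¬ τ ⊆ s)).image (fun s => s.image π) ∧
  ∀ z ∈ verts F', ∀ z' ∈ verts F', π z = π z' ↔ Relation.EqvGen (RT F' Θ) z z'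

private theorem rt_mono {F' Θ Θ' : Finset (Finset ℕ)} (h : Θ ⊆ Θ') {z z' : ℕ}
    (hz : Relation.EqvGen (RT F' Θ) z z') : Relation.EqvGen (RT F' Θ') z z' := by
  induction hz with
  | rel a b hab =>
    obtain ⟨τ, hτ, h1⟩ := hab
    exact .rel _ _ ⟨τ, h hτ, h1⟩
  | refl a => exact .refl _
  | symm a b _ ih => exact .symm _ _ ih
  | trans a b c _ _ ih1 ih2 => exact .trans _ _ _ ih1 ih2

theorem top_iter (Θ : Finset (Finset ℕ)) : ∀ (F : Finset (Finset ℕ)) (R : Finset ℕ),
    Sys F Θ R → ∃ (F' : Finset (Finset ℕ)) (R' : Finset ℕ) (π : ℕ → ℕ), IsMfd3 F' ∧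
      F'.card = F.card + 2 * Θ.card ∧ (verts F').card = (verts F).card + Θ.card ∧
      Θ ⊆ tris F' ∧ R ⊆ R' ∧ (∀ z ∈ verts F, z ∉ R → z ∉ R') ∧ (∀ z ∈ R', π z ∈ R) ∧
      (∀ z, z ∉ R' → π z = z) ∧ RelB F' Θ F π ∧
      (∀ s ∈ F', ∀ τ ∈ Θ, τ ⊆ s → ∀ z ∈ s, z ∉ τ → z ∈ R') := by
  classical
  -- PROOF
  induction Θ using Finset.induction_on with
  | empty =>
    intro F R h
    refine ⟨F, R, id, h.mfd, by simp, by simp, by simp, Subset.rfl, fun z _ h => h, fun z h => h,
      fun z _ => rfl, ⟨?_, ?_⟩, ?_⟩
    · have e1 : F.filter (fun s => ∀ τ ∈ (∅ : Finset (Finset ℕ)), ¬ τ ⊆ s) = F := by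
        apply filter_true_of_mem; simp
      rw [e1]
      ext s
      rw [mem_image]
      constructor
      · intro hs; exact ⟨s, hs, image_id⟩
      · rintro ⟨t, ht, rfl⟩; rw [image_id]; exact ht
    · intro z _ z' _
      constructor
      · intro hzz
        have hzz' : z = z' := hzz
        rw [hzz']; exact .refl _
      · intro hzz
        have key : ∀ a b, Relation.EqvGen (RT F ∅) a b → a = b := by
          intro a b hab
          induction hab with
          | rel a b hab => obtain ⟨τ, hτ, _⟩ := hab; simp at hτ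
          | refl a => rfl
          | symm a b _ ih => exact ih.symm
          | trans a b c _ _ ih1 ih2 => exact ih1.trans ih2
        exact key z z' hzz
    · intro s _ τ hτ; simp at hτ
  | insert τ0 Θ hτ0 ih =>
    intro F R h
    obtain ⟨x0, y0, A, B, hx0, hy0, hT, hS⟩ := sys_step h hτ0
    obtain ⟨hm1, hc1, hv1⟩ := top_mfd hT
    obtain ⟨F1, hF1⟩ : ∃ F1, F1 = top F x0 y0 τ0 A := ⟨_, rfl⟩
    rw [← hF1] at hS hm1 hc1 hv1
    obtain ⟨F', R', π', hM, hc, hvc, hΘ, hR, hnR, hπR, hπ, ⟨hRel1, hRel2⟩, hlast⟩ := ih F1 (insert y0 R) hS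
    have h3 : τ0.card = 3 := hT.cone.1
    have hx0τ : x0 ∉ τ0 := hT.cone.2.1
    have hτF : τ0 ∉ tris F := hT.cone.2.2.1
    have hdis : Disjoint τ0 R := h.blue τ0 (mem_insert_self _ _)
    have hτv : ∀ u ∈ τ0, u ∈ verts F := by
      have h0 := mem_TP.2 hT.cone
      unfold TP at h0
      rw [mem_filter, mem_product, mem_powersetCard] at h0
      exact fun u hu => h0.1.2.1 hu
    have hy0τ : y0 ∉ τ0 := fun hh => hT.hy (hτv _ hh)
    have hτR1 : ∀ u ∈ τ0, u ∉ insert y0 R := by
      intro u hu hh
      rw [mem_insert] at hh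
      rcases hh with rfl | hh
      · exact hy0τ hu
      · exact disjoint_left.1 hdis hu hh
    have hτR' : ∀ u ∈ τ0, u ∉ R' := fun u hu =>
      hnR u (by rw [hv1, mem_insert]; exact Or.inr (hτv u hu)) (hτR1 u hu)
    have hτπ : ∀ u ∈ τ0, π' u = u := fun u hu => hπ u (hτR' u hu)
    have hτw : ∀ w, π' w ∈ τ0 → π' w = w := by
      intro w hw
      by_contra hne
      have hwR : w ∈ R' := by
        by_contra hh
        exact hne (hπ w hh)
      exact hτR1 _ hw (hπR w hwR)
    have hsub : ∀ s : Finset ℕ, τ0 ⊆ s.image π' ↔ τ0 ⊆ s := by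
      intro s
      constructor
      · intro hs u hu
        obtain ⟨w, hw, hwu⟩ := mem_image.1 (hs hu)
        have h1 : π' w = w := hτw w (by rw [hwu]; exact hu)
        rw [← hwu, h1]; exact hw
      · intro hs u hu
        exact mem_image.2 ⟨u, hs hu, hτπ u hu⟩
    have hτim : τ0.image π' = τ0 := by
      ext u
      rw [mem_image]
      constructor
      · rintro ⟨w, hw, rfl⟩; rw [hτπ w hw]; exact hw
      · intro hu; exact ⟨u, hu, hτπ u hu⟩
    have memF1 : ∀ s, s ∈ F1 ↔ (s ∈ F ∧ ∀ t ∈ A, insert x0 t ≠ s) ∨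
        (∃ t ∈ A, insert y0 t = s) ∨ s = insert x0 τ0 ∨ s = insert y0 τ0 := by
      intro s; rw [hF1]; exact mem_top
    have memF1' : ∀ s, s ∈ F1 ↔ ∃ s' ∈ F', (∀ τ ∈ Θ, ¬ τ ⊆ s') ∧ s'.image π' = s := by
      intro s
      constructor
      · intro hs
        rw [hRel1] at hs
        obtain ⟨s', hs', rfl⟩ := mem_image.1 hs
        rw [mem_filter] at hs'
        exact ⟨s', hs'.1, hs'.2, rfl⟩
      · rintro ⟨s', h1, h2, rfl⟩
        rw [hRel1]
        exact mem_image.2 ⟨s', mem_filter.2 ⟨h1, h2⟩, rfl⟩
    have hAl : ∀ t ∈ A, x0 ∉ t ∧ insert x0 t ∈ F := by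
      intro t ht
      have h1 : t ∈ link F x0 := by rw [← hT.un]; exact mem_union_left _ ht
      exact mem_link'.1 h1
    have hAy : ∀ t ∈ A, y0 ∉ t := by
      intro t ht hh
      exact hT.hy (mem_verts.2 ⟨_, (hAl t ht).2, mem_insert_of_mem hh⟩)
    have hτnF : ∀ s ∈ F, ¬ τ0 ⊆ s := fun s hs hh => hτF (mem_tris.2 ⟨h3, s, hs, hh⟩)
    have hτnA : ∀ t ∈ A, ¬ τ0 ⊆ insert y0 t := by
      intro t ht hh
      refine hτnF _ (hAl t ht).2 (fun u hu => ?_)
      have h1 := hh hu
      rw [mem_insert] at h1
      rcases h1 with rfl | h1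
      · exact absurd hu hy0τ
      · exact mem_insert_of_mem h1
    obtain ⟨ρ, hρ⟩ : ∃ ρ : ℕ → ℕ, ρ = fun z => if z = y0 then x0 else z := ⟨_, rfl⟩
    have ρy : ρ y0 = x0 := by rw [hρ]; exact if_pos rfl
    have ρn : ∀ z, z ≠ y0 → ρ z = z := fun z hz => by rw [hρ]; exact if_neg hz
    have hxy : x0 ≠ y0 := fun hh => hy0 (hh ▸ hx0)
    have ρx : ρ x0 = x0 := ρn x0 hxy
    have ρim : ∀ s : Finset ℕ, y0 ∉ s → s.image ρ = s := by
      intro s hs
      ext u
      rw [mem_image]
      constructor
      · rintro ⟨w, hw, rfl⟩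
        rw [ρn w (fun hh => hs (hh ▸ hw))]; exact hw
      · intro hu; exact ⟨u, hu, ρn u (fun hh => hs (hh ▸ hu))⟩
    have imcomp : ∀ s : Finset ℕ, s.image (fun z => ρ (π' z)) = (s.image π').image ρ := by
      intro s; rw [image_image]; rfl
    -- cone points over τ0 in F'
    have hcone : ∀ s ∈ F', τ0 ⊆ s → ∀ z ∈ s, z ∉ τ0 → π' z = x0 ∨ π' z = y0 := by
      intro s hs hτs z hz hzτ
      have hun : ∀ τ ∈ Θ, ¬ τ ⊆ s := by
        intro τ hτ hh
        have hτ3 : τ.card = 3 := (mem_tris.1 (hΘ hτ)).1
        have hne : τ ≠ τ0 := fun hh => hτ0 (hh ▸ hτ)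
        have hex : ∃ u ∈ τ0, u ∉ τ := by
          by_contra hcon
          push Not at hcon
          exact hne (eq_of_subset_of_card_le hcon (by rw [h3, hτ3])).symm
        obtain ⟨u, hu, huτ⟩ := hex
        exact hτR' u hu (hlast s hs τ hτ hh u (hτs hu) huτ)
      have hs4 : s.card = 4 := hM.card4 s hs
      have hseq : s = insert z τ0 := by
        symm
        apply eq_of_subset_of_card_le
        · intro w hw
          rw [mem_insert] at hw
          rcases hw with rfl | hw
          · exact hz
          · exact hτs hw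
        · rw [card_insert_of_notMem hzτ, h3, hs4]
      have him : s.image π' = insert (π' z) τ0 := by
        rw [hseq, image_insert, hτim]
      have hπz : π' z ∉ τ0 := by
        intro hh
        have h1 := hτw z hh
        rw [h1] at hh
        exact hzτ hh
      have hin : s.image π' ∈ F1 := (memF1' _).2 ⟨s, hs, hun, rfl⟩
      rw [him, memF1] at hin
      rcases hin with hh | ⟨t, ht, hh⟩ | hh | hh
      · exact absurd (subset_insert _ _) (hτnF _ hh.1)
      · exact absurd (by rw [hh]; exact subset_insert _ _) (hτnA t ht)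
      · left
        have h1 : π' z ∈ insert x0 τ0 := by rw [← hh]; exact mem_insert_self _ _
        rw [mem_insert] at h1
        rcases h1 with h1 | h1
        · exact h1
        · exact absurd h1 hπz
      · right
        have h1 : π' z ∈ insert y0 τ0 := by rw [← hh]; exact mem_insert_self _ _
        rw [mem_insert] at h1
        rcases h1 with h1 | h1
        · exact h1
        · exact absurd h1 hπz
    -- both cone points exist
    have hex : ∀ v, insert v τ0 ∈ F1 → v ∉ τ0 → ∃ z, z ∉ τ0 ∧ insert z τ0 ∈ F' ∧ π' z = v := by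
      intro v hv hvτ
      obtain ⟨s, hs, hun, him⟩ := (memF1' _).1 hv
      have hτs : τ0 ⊆ s := (hsub s).1 (by rw [him]; exact subset_insert _ _)
      have hs4 : s.card = 4 := hM.card4 s hs
      have hz : ∃ z ∈ s, z ∉ τ0 := by
        by_contra hcon
        push Not at hcon
        have := card_le_card hcon
        omega
      obtain ⟨z, hz, hzτ⟩ := hz
      have hseq : s = insert z τ0 := by
        symm
        apply eq_of_subset_of_card_le
        · intro w hw
          rw [mem_insert] at hw
          rcases hw with rfl | hw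
          · exact hz
          · exact hτs hw
        · rw [card_insert_of_notMem hzτ, h3, hs4]
      refine ⟨z, hzτ, by rw [← hseq]; exact hs, ?_⟩
      have h1 : π' z ∈ insert v τ0 := by rw [← him]; exact mem_image_of_mem _ hz
      rw [mem_insert] at h1
      rcases h1 with h1 | h1
      · exact h1
      · have h2 := hτw z h1
        rw [h2] at h1
        exact absurd h1 hzτ
    have hx0F1 : insert x0 τ0 ∈ F1 := (memF1 _).2 (Or.inr (Or.inr (Or.inl rfl)))
    have hy0F1 : insert y0 τ0 ∈ F1 := (memF1 _).2 (Or.inr (Or.inr (Or.inr rfl)))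
    obtain ⟨z1, hz1, hz1F, hz1π⟩ := hex x0 hx0F1 hx0τ
    obtain ⟨z2, hz2, hz2F, hz2π⟩ := hex y0 hy0F1 hy0τ
    have hcard : (insert τ0 Θ).card = Θ.card + 1 := card_insert_of_notMem hτ0
    refine ⟨F', R', fun z => ρ (π' z), hM, ?_, ?_, ?_, ?_, ?_, ?_, ?_, ⟨?_, ?_⟩, ?_⟩
    · rw [hc, hc1, hcard]; ring
    · rw [hvc, hv1, card_insert_of_notMem hT.hy, hcard]; ring
    · intro τ hτ
      rw [mem_insert] at hτ
      rcases hτ with rfl | hτ
      · exact mem_tris.2 ⟨h3, _, hz1F, subset_insert _ _⟩
      · exact hΘ hτ
    · exact fun z hz => hR (mem_insert_of_mem hz)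
    · intro z hz hzR
      have hzy : z ≠ y0 := fun hh => hT.hy (hh ▸ hz)
      refine hnR z (by rw [hv1]; exact mem_insert_of_mem hz) ?_
      rw [mem_insert]
      rintro (hh | hh)
      · exact hzy hh
      · exact hzR hh
    · intro z hz
      have h1 := hπR z hz
      rw [mem_insert] at h1
      show ρ (π' z) ∈ R
      by_cases h2 : π' z = y0
      · rw [h2, ρy]; exact hx0
      · rw [ρn _ h2]
        rcases h1 with h1 | h1
        · exact absurd h1 h2
        · exact h1
    · intro z hz
      show ρ (π' z) = z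
      rw [hπ z hz]
      refine ρn z (fun hh => hz ?_)
      rw [hh]
      exact hR (mem_insert_self _ _)
    · ext s
      rw [mem_image]
      constructor
      · intro hs
        have hys : y0 ∉ s := fun hh => hT.hy (mem_verts.2 ⟨s, hs, hh⟩)
        by_cases hA : ∀ t ∈ A, insert x0 t ≠ s
        · obtain ⟨s', hs', hun, him⟩ := (memF1' s).1 ((memF1 s).2 (Or.inl ⟨hs, hA⟩))
          refine ⟨s', mem_filter.2 ⟨hs', ?_⟩, ?_⟩
          · intro τ hτ
            rw [mem_insert] at hτ
            rcases hτ with rfl | hτ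
            · intro hh
              exact hτnF s hs (by rw [← him]; exact (hsub s').2 hh)
            · exact hun τ hτ
          · show s'.image (fun z => ρ (π' z)) = s
            rw [imcomp, him, ρim s hys]
        · push Not at hA
          obtain ⟨t, ht, rfl⟩ := hA
          obtain ⟨s', hs', hun, him⟩ := (memF1' (insert y0 t)).1 ((memF1 _).2 (Or.inr (Or.inl ⟨t, ht, rfl⟩)))
          refine ⟨s', mem_filter.2 ⟨hs', ?_⟩, ?_⟩
          · intro τ hτ
            rw [mem_insert] at hτ
            rcases hτ with rfl | hτ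
            · intro hh
              exact hτnA t ht (by rw [← him]; exact (hsub s').2 hh)
            · exact hun τ hτ
          · show s'.image (fun z => ρ (π' z)) = insert x0 t
            rw [imcomp, him, image_insert, ρy, ρim t (hAy t ht)]
      · rintro ⟨s', hs', rfl⟩
        rw [mem_filter] at hs'
        show s'.image (fun z => ρ (π' z)) ∈ F
        rw [imcomp]
        have h1 : s'.image π' ∈ F1 := (memF1' _).2 ⟨s', hs'.1, fun τ hτ => hs'.2 τ (mem_insert_of_mem hτ), rfl⟩
        have h2 : ¬ τ0 ⊆ s'.image π' := fun hh => hs'.2 τ0 (mem_insert_self _ _) ((hsub s').1 hh)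
        rcases (memF1 _).1 h1 with hh | ⟨t, ht, hh⟩ | hh | hh
        · rw [ρim _ (fun hy => hT.hy (mem_verts.2 ⟨_, hh.1, hy⟩))]
          exact hh.1
        · rw [← hh, image_insert, ρy, ρim t (hAy t ht)]
          exact (hAl t ht).2
        · exact absurd (by rw [hh]; exact subset_insert _ _) h2
        · exact absurd (by rw [hh]; exact subset_insert _ _) h2
    · intro z hz z' hz'
      show ρ (π' z) = ρ (π' z') ↔ _
      have hvF : ∀ w, insert w τ0 ∈ F' → w ∈ verts F' := fun w hw =>
        mem_verts.2 ⟨_, hw, mem_insert_self _ _⟩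
      have hrel12 : Relation.EqvGen (RT F' (insert τ0 Θ)) z1 z2 :=
        .rel _ _ ⟨τ0, mem_insert_self _ _, hz1, hz2, hz1F, hz2F⟩
      constructor
      · intro hh
        by_cases he : π' z = π' z'
        · exact rt_mono (subset_insert _ _) ((hRel2 z hz z' hz').1 he)
        · by_cases h1 : π' z = y0
          · by_cases h2 : π' z' = y0
            · exact absurd (h1.trans h2.symm) he
            · rw [h1, ρy, ρn _ h2] at hh
              -- π' z' = x0
              have e1 : Relation.EqvGen (RT F' (insert τ0 Θ)) z z2 :=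
                rt_mono (subset_insert _ _) ((hRel2 z hz z2 (hvF _ hz2F)).1 (by rw [h1, hz2π]))
              have e2 : Relation.EqvGen (RT F' (insert τ0 Θ)) z1 z' :=
                rt_mono (subset_insert _ _) ((hRel2 z1 (hvF _ hz1F) z' hz').1 (by rw [hz1π, hh]))
              exact .trans _ _ _ e1 (.trans _ _ _ (.symm _ _ hrel12) e2)
          · by_cases h2 : π' z' = y0
            · rw [h2, ρy, ρn _ h1] at hh
              have e1 : Relation.EqvGen (RT F' (insert τ0 Θ)) z z1 :=
                rt_mono (subset_insert _ _) ((hRel2 z hz z1 (hvF _ hz1F)).1 (by rw [hh, hz1π]))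
              have e2 : Relation.EqvGen (RT F' (insert τ0 Θ)) z2 z' :=
                rt_mono (subset_insert _ _) ((hRel2 z2 (hvF _ hz2F) z' hz').1 (by rw [hz2π, h2]))
              exact .trans _ _ _ e1 (.trans _ _ _ hrel12 e2)
            · rw [ρn _ h1, ρn _ h2] at hh
              exact absurd hh he
      · intro hh
        have key : ∀ a b, Relation.EqvGen (RT F' (insert τ0 Θ)) a b → ρ (π' a) = ρ (π' b) := by
          intro a b hab
          induction hab with
          | rel a b hab =>
            obtain ⟨τ, hτ, ha, hb, haF, hbF⟩ := hab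
            rw [mem_insert] at hτ
            rcases hτ with rfl | hτ
            · have h1 : ρ (π' a) = x0 := by
                rcases hcone _ haF (subset_insert _ _) a (mem_insert_self _ _) ha with e | e
                · rw [e, ρx]
                · rw [e, ρy]
              have h2 : ρ (π' b) = x0 := by
                rcases hcone _ hbF (subset_insert _ _) b (mem_insert_self _ _) hb with e | e
                · rw [e, ρx]
                · rw [e, ρy]
              rw [h1, h2]
            · have h1 : π' a = π' b := (hRel2 a (mem_verts.2 ⟨_, haF, mem_insert_self _ _⟩) b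
                (mem_verts.2 ⟨_, hbF, mem_insert_self _ _⟩)).2 (.rel _ _ ⟨τ, hτ, ha, hb, haF, hbF⟩)
              rw [h1]
          | refl a => rfl
          | symm a b _ ih => exact ih.symm
          | trans a b c _ _ ih1 ih2 => exact ih1.trans ih2
        exact key z z' hh
    · intro s hs τ hτ hτs z hz hzτ
      rw [mem_insert] at hτ
      rcases hτ with rfl | hτ
      · by_contra hzR
        have h1 := hπ z hzR
        rcases hcone s hs hτs z hz hzτ with e | e
        · exact hzR (hR (mem_insert_of_mem (by rw [← h1, e]; exact hx0)))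
        · exact hzR (hR (by rw [← h1, e]; exact mem_insert_self _ _))
      · exact hlast s hs τ hτ hτs z hz hzτ

end Pool.TSphH
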