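import Pool.Agent.Lib.MP_3de3a3_co.H.HIso
import Pool.Agent.Lib.MP_3de3a3_co.H.HTopIter

/-! # The recovery after the T-operations (module HRelUniq)

PROOF. `relB_uniq`: for z, z' in verts F' we have π z = π z' iff ρ z = ρ z' (both iff EqvGen). Every vertex of F is π z for a vertex z of a facet of F', so there is f : ℕ -> ℕ with f (π z) = ρ z for all z in verts F'
(f w = ρ of a chosen z in verts F' with π z = w, 0 if there is none), injective on the image of verts F' under π, which contains verts F. G = F.image (image f): (s.image π).image f = s.image ρ. `iso_of_injOn`.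
`relB_equiv`: the facets of F'.image (image σ) unmarked by Θ.image (image σ) are the images of the unmarked facets of F'; (s.image σ).image (π ∘ σ⁻¹) = s.image π. RT (image of F') (image of Θ) (σ z) (σ z') iff
RT F' Θ z z', so EqvGen of the one is EqvGen of the other transported (induction in both directions). verts of the image is the image of verts. -/

set_option autoImplicit false

namespace Pool.TSphH

open Finset
open Pool.TSph

theorem relB_uniq {F' Θ F G : Finset (Finset ℕ)} {π ρ : ℕ → ℕ} (h1 : RelB F' Θ F π)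
    (h2 : RelB F' Θ G ρ) : Iso F G := by
  classical
  obtain ⟨hF, hπ⟩ := h1
  obtain ⟨hG, hρ⟩ := h2
  have hiff : ∀ z ∈ verts F', ∀ z' ∈ verts F', (π z = π z' ↔ ρ z = ρ z') := fun z hz z' hz' =>
    (hπ z hz z' hz').trans (hρ z hz z' hz').symm
  set f : ℕ → ℕ := fun w => if h : ∃ z ∈ verts F', π z = w then ρ (Classical.choose h) else 0 with hf
  have hfz : ∀ z ∈ verts F', f (π z) = ρ z := by
    intro z hz
    have hex : ∃ z' ∈ verts F', π z' = π z := ⟨z, hz, rfl⟩
    have h3 := Classical.choose_spec hex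
    rw [hf]
    show (if h : ∃ z' ∈ verts F', π z' = π z then ρ (Classical.choose h) else 0) = ρ z
    rw [dif_pos hex]
    exact (hiff _ h3.1 z hz).1 h3.2
  have hmem : ∀ w ∈ verts F, ∃ z ∈ verts F', π z = w := by
    intro w hw
    obtain ⟨s, hs, hws⟩ := mem_verts.1 hw
    rw [hF, mem_image] at hs
    obtain ⟨t, ht, rfl⟩ := hs
    obtain ⟨z, hz, rfl⟩ := mem_image.1 hws
    exact ⟨z, mem_verts.2 ⟨t, (mem_filter.1 ht).1, hz⟩, rfl⟩
  have hinj : Set.InjOn f (verts F) := by
    intro w hw w' hw' heq
    obtain ⟨z, hz, rfl⟩ := hmem w hw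
    obtain ⟨z', hz', rfl⟩ := hmem w' hw'
    rw [hfz z hz, hfz z' hz'] at heq
    exact (hiff z hz z' hz').2 heq
  have hGF : G = F.image (fun s => s.image f) := by
    rw [hG, hF, image_image]
    refine image_congr ?_
    intro s hs
    show s.image ρ = (s.image π).image f
    rw [image_image]
    refine image_congr ?_
    intro z hz
    exact (hfz z (mem_verts.2 ⟨s, (mem_filter.1 hs).1, hz⟩)).symm
  rw [hGF]
  exact iso_of_injOn hinj

private theorem eqv_comap {R S : ℕ → ℕ → Prop} (e : ℕ → ℕ) (h : ∀ z z', R z z' → S (e z) (e z'))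
    {z z' : ℕ} (hz : Relation.EqvGen R z z') : Relation.EqvGen S (e z) (e z') := by
  induction hz with
  | rel x y hxy => exact Relation.EqvGen.rel _ _ (h _ _ hxy)
  | refl x => exact Relation.EqvGen.refl _
  | symm x y _ ih => exact Relation.EqvGen.symm _ _ ih
  | trans x y w _ _ ih1 ih2 => exact Relation.EqvGen.trans _ _ _ ih1 ih2

private theorem rt_map {F' Θ : Finset (Finset ℕ)} (σ : Equiv.Perm ℕ) {z z' : ℕ}
    (h : RT F' Θ z z') :
    RT (F'.image (fun s => s.image σ)) (Θ.image (fun s => s.image σ)) (σ z) (σ z') := by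
  obtain ⟨τ, hτ, h1, h2, h3, h4⟩ := h
  refine ⟨τ.image σ, mem_image_of_mem _ hτ, ?_, ?_, ?_, ?_⟩
  · intro hh
    obtain ⟨x, hx, hxz⟩ := mem_image.1 hh
    exact h1 (σ.injective hxz ▸ hx)
  · intro hh
    obtain ⟨x, hx, hxz⟩ := mem_image.1 hh
    exact h2 (σ.injective hxz ▸ hx)
  · rw [← image_insert]
    exact mem_image_of_mem _ h3
  · rw [← image_insert]
    exact mem_image_of_mem _ h4

private theorem image_symm (F' : Finset (Finset ℕ)) (σ : Equiv.Perm ℕ) :
    (F'.image (fun s => s.image σ)).image (fun s => s.image σ.symm) = F' := by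
  rw [image_image]
  simp [Function.comp_def, image_image]

theorem relB_equiv {F' Θ F : Finset (Finset ℕ)} {π : ℕ → ℕ} (h : RelB F' Θ F π)
    (σ : Equiv.Perm ℕ) : RelB (F'.image (fun s => s.image σ)) (Θ.image (fun s => s.image σ)) F
      (fun z => π (σ.symm z)) := by
  classical
  obtain ⟨hF, hπ⟩ := h
  refine ⟨?_, ?_⟩
  · rw [hF]
    ext x
    simp only [mem_image, mem_filter]
    constructor
    · rintro ⟨s, ⟨hs, hu⟩, rfl⟩
      refine ⟨s.image σ, ⟨⟨s, hs, rfl⟩, ?_⟩, ?_⟩
      · rintro τ ⟨t, ht, rfl⟩ hsub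
        exact hu t ht ((image_subset_image_iff σ.injective).1 hsub)
      · rw [image_image]
        refine image_congr ?_
        intro z _
        show π (σ.symm (σ z)) = π z
        rw [Equiv.symm_apply_apply]
    · rintro ⟨s', ⟨⟨s, hs, rfl⟩, hu⟩, rfl⟩
      refine ⟨s, ⟨hs, ?_⟩, ?_⟩
      · intro τ hτ hsub
        exact hu (τ.image σ) ⟨τ, hτ, rfl⟩ (image_subset_image hsub)
      · rw [image_image]
        refine image_congr ?_
        intro z _
        show π z = π (σ.symm (σ z))
        rw [Equiv.symm_apply_apply]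
  · intro z hz z' hz'
    have hv : ∀ y ∈ verts (F'.image (fun s => s.image σ)), σ.symm y ∈ verts F' := by
      intro y hy
      rw [MfdMap_verts, mem_image] at hy
      obtain ⟨x, hx, rfl⟩ := hy
      rwa [Equiv.symm_apply_apply]
    show π (σ.symm z) = π (σ.symm z') ↔ _
    rw [hπ _ (hv z hz) _ (hv z' hz')]
    constructor
    · intro h1
      have h2 := eqv_comap (S := RT (F'.image (fun s => s.image σ)) (Θ.image (fun s => s.image σ)))
        (fun y => σ y) (fun y y' hy => rt_map σ hy) h1
      simpa using h2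
    · intro h1
      refine eqv_comap (S := RT F' Θ) (fun y => σ.symm y) (fun y y' hy => ?_) h1
      have h3 := rt_map σ.symm hy
      rwa [image_symm, image_symm] at h3

end Pool.TSphH
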