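import Pool.Agent.Lib.MP_3de3a3_co.H.HCount
import Pool.Agent.Lib.MP_3de3a3_co.H.HCover
import Pool.Agent.Lib.MP_3de3a3_co.H.HRelUniq

/-! # Many missing triangles (module HCaseB)

PROOF. `count` with A = 64 and P n F := F.card = n ∧ ∃ Θ R, Θ.card = m n ∧ Sys F Θ R. ((verts F).card <= 4 F.card as the facets have four elements.) The hypothesis h: `cover` with P := P n F ∧ (verts F).card = v,
Q F' := F'.card = n + 2 m n ∧ (verts F').card = v + m n ∧ IsMfd3 F', κ = Finset (Finset ℕ), K F' = (tris F').powerset, N = 64 ^ n: for Q F', Iso F' G' we have IsMfd3 G' (`iso_mfd`), (tris G').card = 2 G'.card (`card_tris`, `mfd_pm`)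
<= 6 n (m n <= n), so (K G').card <= 2 ^ (6 n). Rel F' Θ F := ∃ π, RelB F' Θ F π. hex: `top_iter`. hequiv: `relB_equiv` with G = F (`Iso.refl`), k' = Θ.image (image σ), which is contained in tris of the image. huniq: `relB_uniq`. -/

set_option autoImplicit false

namespace Pool.TSphH

open Finset
open Pool.TSph

private theorem HCaseB_verts {F : Finset (Finset ℕ)} (h : IsMfd3 F) :
    (verts F).card ≤ 4 * F.card := by
  unfold verts
  refine card_biUnion_le.trans ?_
  refine (Finset.sum_le_card_nsmul _ _ 4 (fun s hs => ?_)).trans ?_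
  · exact (h.card4 s hs).le
  · rw [smul_eq_mul, mul_comm]

private theorem HCaseB_tris {F : Finset (Finset ℕ)} {Θ : Finset (Finset ℕ)} (h : Θ ⊆ tris F)
    (σ : Equiv.Perm ℕ) :
    Θ.image (fun s => s.image σ) ⊆ tris (F.image (fun s => s.image σ)) := by
  intro t ht
  obtain ⟨s, hs, rfl⟩ := mem_image.1 ht
  obtain ⟨h3, f, hf, hsf⟩ := mem_tris.1 (h hs)
  refine mem_tris.2 ⟨?_, f.image σ, mem_image_of_mem _ hf, image_subset_image hsf⟩
  rw [card_image_of_injective _ σ.injective]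
  exact h3

theorem caseB (N : ℕ) (hN : 0 < N) (m : ℕ → ℕ) (hm1 : ∀ n, m n ≤ n)
    (hm2 : ∀ n, n ≤ N * m n) :
    ∃ C : ℕ, ∀ n : ℕ, ∃ S : Finset (Finset (Finset ℕ)),
      S.card ^ (10 * N) ≤ C ^ n * n ^ ((N - 1) * n) ∧
      ∀ F, F.card = n → (∃ Θ R, Θ.card = m n ∧ Sys F Θ R) → ∃ G ∈ S, Iso F G := by
  classical
  have hcount := count N hN m hm1 hm2 64
    (fun n F => F.card = n ∧ ∃ Θ R, Θ.card = m n ∧ Sys F Θ R)
  obtain ⟨C, hC⟩ := hcount (by
      rintro n F ⟨h1, Θ, R, h2, h3⟩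
      have := HCaseB_verts h3.mfd
      rwa [h1] at this)
    (by
      intro n v S' hS'
      have hcov := cover (κ := Finset (Finset ℕ))
        (fun F => (F.card = n ∧ ∃ Θ R, Θ.card = m n ∧ Sys F Θ R) ∧ (verts F).card = v)
        (fun F' => F'.card = n + 2 * m n ∧ (verts F').card = v + m n ∧ IsMfd3 F') S'
        (fun F' h => hS' F' h.1 h.2.1 h.2.2) (fun F' => (tris F').powerset) (64 ^ n)
      obtain ⟨S, hS1, hS2⟩ := hcov (by
          rintro F' G' ⟨h1, h2, h3⟩ hI
          obtain ⟨h4, h5, h6⟩ := iso_mfd hI h3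
          rw [card_powerset, card_tris (mfd_pm h4), h5, h1]
          have := hm1 n
          calc 2 ^ (2 * (n + 2 * m n)) ≤ 2 ^ (6 * n) :=
                Nat.pow_le_pow_right (by norm_num) (by omega)
            _ = 64 ^ n := by rw [pow_mul]; norm_num)
        (fun F' Θ F => ∃ π, RelB F' Θ F π)
        (by
          rintro F ⟨⟨h1, Θ, R, h2, h3⟩, h4⟩
          obtain ⟨F', R', π, h5, h6, h7, h8, -, -, -, -, h9, -⟩ := top_iter Θ F R h3
          refine ⟨F', Θ, ⟨?_, ?_, h5⟩, mem_powerset.2 h8, π, h9⟩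
          · rw [h6, h1, h2]
          · rw [h7, h4, h2])
        (by
          rintro F' Θ F σ hΘ ⟨π, hπ⟩
          have h1 := relB_equiv hπ σ
          have h2 := HCaseB_tris (mem_powerset.1 hΘ) σ
          refine ⟨Θ.image (fun s => s.image σ), mem_powerset.2 h2, F, Iso.refl F,
            fun z => π (σ.symm z), ?_⟩
          exact h1)
        (by
          rintro F' k F G ⟨π, h1⟩ ⟨ρ, h2⟩
          exact relB_uniq h1 h2)
      exact ⟨S, hS1, fun F h1 h2 => hS2 F ⟨h1, h2⟩⟩)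
  refine ⟨C, fun n => ?_⟩
  obtain ⟨S, hS1, hS2⟩ := hC n
  exact ⟨S, hS1, fun F h1 h2 => hS2 F ⟨h1, h2⟩⟩

end Pool.TSphH
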