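import Pool.Agent.Lib.MP_3de3a3_co.H.HCertC
import Pool.Agent.Lib.MP_3de3a3_co.DEncode

/-! # A gain in the sum of phi (module HCaseC)

PROOF. As `Pool.TSphD.main` (DMain.lean) for k = 1: `Pool.TSphD.encoding` with δ = 3, r = (N n + 10 N - n) / (10 N) (natural division; n >= 1, N >= 1). -/

set_option autoImplicit false

namespace Pool.TSphH

open Finset
open Pool.TSph

/-- The arithmetic of the number of ridges. -/
private theorem caseC_arith {N n v M : ℕ} (hN : 0 < N) (X : ℝ)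
    (h1 : (M : ℝ) + v ≤ n + X) (h2 : X + (n : ℝ) / (10 * N) ≤ (n : ℝ) / 10 + 7 / 10 * v) :
    M + 1 ≤ n + (N * n + 10 * N - n) / (10 * N) := by
  have hNR : (0 : ℝ) < N := by exact_mod_cast hN
  have hv : (0 : ℝ) ≤ v := Nat.cast_nonneg v
  have h3 : (M : ℝ) ≤ n + n / 10 - n / (10 * N) := by linarith
  rcases Nat.le_total (M + 1) n with h6 | h6
  · exact h6.trans (Nat.le_add_right _ _)
  · obtain ⟨q, hq⟩ := Nat.exists_eq_add_of_le h6
    rw [hq]
    refine Nat.add_le_add_left ?_ n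
    rw [Nat.le_div_iff_mul_le (by positivity)]
    apply Nat.le_sub_of_add_le
    have h8 : ((M : ℝ) + 1) = n + q := by exact_mod_cast hq
    have h9 : (q : ℝ) ≤ n / 10 - n / (10 * N) + 1 := by linarith
    have h10 : (0 : ℝ) < 10 * N := by positivity
    have h11 := mul_le_mul_of_nonneg_right h9 h10.le
    have h12 : ((n : ℝ) / 10 - n / (10 * N) + 1) * (10 * N) = N * n - n + 10 * N := by
      field_simp
    rw [h12] at h11
    have h13 : (q : ℝ) * (10 * N) + n ≤ N * n + 10 * N := by linarith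
    exact_mod_cast h13

private theorem caseC_pm {ι : Type*} [DecidableEq ι] {F : Finset (Finset ι)} (hF : IsMfd3 F) :
    Pool.TSphD.PM 3 F := by
  have h := mfd_pm hF
  refine ⟨h.card4, fun t ht => ?_, h.star⟩
  obtain ⟨htc, s, hs, hts⟩ := Pool.TSphD.mem_rdg.1 ht
  exact h.two t (mem_tris.2 ⟨htc, s, hs, hts⟩)

theorem caseC (N : ℕ) (hN : 0 < N) :
    ∃ C : ℕ, ∀ n : ℕ, ∃ S : Finset (Finset (Finset (Fin (4 * n)))),
      S.card ^ (10 * N) ≤ C ^ n * n ^ ((N - 1) * n) ∧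
      ∀ F : Finset (Finset (Fin (4 * n))), F.card = n → IsMfd3 F →
        (∑ x ∈ verts F, phi (link F x)) + (n : ℝ) / (10 * N) ≤
          (n : ℝ) / 10 + 7 / 10 * (verts F).card →
        ∃ G ∈ S, ∃ π : Equiv.Perm (Fin (4 * n)), G = F.image (fun σ => σ.image π) := by
  set A : ℕ := 4 * 4 * 5 ^ 4 * 2 ^ 4 with hA
  set Q : ℕ := 10 * N with hQ
  refine ⟨A ^ Q * 24 ^ (N - 1) * (24 ^ Q * 2 ^ Q), fun n => ?_⟩
  rcases Nat.eq_zero_or_pos n with rfl | hn
  · refine ⟨{∅}, by simp, fun F hF _ _ => ⟨∅, by simp, 1, ?_⟩⟩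
    rw [card_eq_zero] at hF
    simp [hF]
  · set r : ℕ := (N * n + Q - n) / Q with hr
    obtain ⟨S, hS, h⟩ := Pool.TSphD.encoding (ι := Fin (4 * n)) (δ := 3) n r hn
    refine ⟨S, ?_, fun F hF hM hs => ?_⟩
    · have h1 : 4 ^ n * (3 + 1) ^ n * (3 + 2) ^ ((3 + 1) * n) *
          (2 ^ ((3 + 1) * n) * ((3 + 1).factorial * n) ^ r) =
          A ^ n * (24 * n) ^ r := by
        have h24 : (3 + 1).factorial = 24 := by decide
        rw [h24, pow_mul (3 + 2), pow_mul 2, hA, mul_pow (4 * 4 * 5 ^ 4), mul_pow (4 * 4),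
          mul_pow 4 4 n]
        norm_num
        ring
      rw [h1] at hS
      have hNn : n ≤ N * n := Nat.le_mul_of_pos_left n hN
      have hE : (N - 1) * n + n = N * n := by
        rw [← Nat.succ_mul, Nat.succ_eq_add_one, Nat.sub_add_cancel hN]
      have hrQ : r * Q ≤ (N - 1) * n + Q := by
        refine (Nat.div_mul_le_self _ _).trans ?_
        omega
      have hfn : 0 < 24 * n := by positivity
      have h2n : n ≤ 2 ^ n := (Nat.lt_two_pow_self).le
      calc S.card ^ Q ≤ (A ^ n * (24 * n) ^ r) ^ Q := Nat.pow_le_pow_left hS _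
        _ = (A ^ Q) ^ n * (24 * n) ^ (r * Q) := by
            rw [mul_pow, ← pow_mul, ← pow_mul, ← pow_mul, mul_comm n Q]
        _ ≤ (A ^ Q) ^ n * (24 * n) ^ ((N - 1) * n + Q) :=
            Nat.mul_le_mul_left _ (Nat.pow_le_pow_right hfn hrQ)
        _ = (A ^ Q) ^ n * (24 ^ ((N - 1) * n) * (24 ^ Q * n ^ Q)) * n ^ ((N - 1) * n) := by
            rw [pow_add, mul_pow, mul_pow]
            ring
        _ ≤ (A ^ Q) ^ n * (24 ^ ((N - 1) * n) *
              ((24 ^ Q) ^ n * (2 ^ n) ^ Q)) * n ^ ((N - 1) * n) := by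
            refine Nat.mul_le_mul_right _ (Nat.mul_le_mul_left _ (Nat.mul_le_mul_left _
              (Nat.mul_le_mul ?_ (Nat.pow_le_pow_left h2n _))))
            calc 24 ^ Q = (24 ^ Q) ^ 1 := (pow_one _).symm
                _ ≤ _ := Nat.pow_le_pow_right (by positivity) hn
        _ = _ := by
            rw [mul_pow (A ^ Q * 24 ^ (N - 1)), mul_pow (A ^ Q),
              mul_pow (24 ^ Q), ← pow_mul 24 (N - 1) n,
              ← pow_mul 2 n Q, ← pow_mul 2 Q n, mul_comm n Q, ← mul_assoc ((A ^ Q) ^ n)]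
    · obtain ⟨M, rk, e, hC, hc⟩ := cert_phi hM
      refine h F hF (caseC_pm hM) ⟨M, rk, e, hC, ?_⟩
      rw [hF] at hc
      exact caseC_arith hN _ hc hs

end Pool.TSphH
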