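import Pool.Agent.Lib.MP_3de3a3_co.H.HCount
import Pool.Agent.Lib.MP_3de3a3_co.H.HCover
import Pool.Agent.Lib.MP_3de3a3_co.H.HBlockIter

/-! # Many disjoint blocks (module HCaseD)

PROOF. `count` with A = 2 ^ 1524 (write it as 2 ^ 12 * 2 ^ 1512 or as a symbolic power, never evaluate it) and P n F := F.card = n ∧ IsMfd3 F ∧ ∃ 𝓑, 𝓑.card = m n ∧ blocks ∧ disjoint. The hypothesis h: `cover` with κ = Finset ℕ × Finset (Finset ℕ),
Q F' := F'.card = n + 2 m n ∧ (verts F').card = v + m n ∧ IsMfd3 F', Cand F' = (verts F').biUnion (fun c => if (verts (link F' c)).card = 9 then (verts (link F' c)).powersetCard 4 else ∅), K F' = (verts F').powerset ×ˢ (Cand F').powerset,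
(Cand F').card <= 126 (verts F').card, (verts F').card <= 4 F'.card <= 12 n. Rel F' (Z, M) F := F = F'.filter (fun s => Disjoint s Z) ∪ M. hex: choose c : (Fin 9 → ℕ) → ℕ injective with values not in verts F (for instance
c f = (verts F).sup id + 1 + Encodable.encode f), F' = coneAll F 𝓑 c (`coneAll_mfd`), Z = 𝓑.image c, M = 𝓑.biUnion blk (`coneAll_restore`); M is contained in Cand F' by `coneAll_link`: every s in blk f is contained in univ.image f and has four elements,
(univ.image f).card = 9 (f injective). hequiv: k' = (Z.image π, M.image (image π)), G = F.image (image π): filter and union commute with the image under the injective image π; verts, link, Cand commute with it (`MfdMap_verts`, `MfdMap_link`).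
huniq: both are equal to the same set (`Iso.refl`). -/

set_option autoImplicit false

namespace Pool.TSphH

open Finset
open Pool.TSph

/-- the candidates for the facets of the blocks -/
def hCD_Cand (F : Finset (Finset ℕ)) : Finset (Finset ℕ) :=
  (verts F).biUnion (fun c => if (verts (link F c)).card = 9 then (verts (link F c)).powersetCard 4 else ∅)

private theorem hCD_mem {F : Finset (Finset ℕ)} {s : Finset ℕ} :
    s ∈ hCD_Cand F ↔ ∃ c ∈ verts F, (verts (link F c)).card = 9 ∧ s ⊆ verts (link F c) ∧ s.card = 4 := by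
  unfold hCD_Cand
  rw [mem_biUnion]
  constructor
  · rintro ⟨c, hc, h⟩
    by_cases h9 : (verts (link F c)).card = 9
    · rw [if_pos h9, mem_powersetCard] at h
      exact ⟨c, hc, h9, h.1, h.2⟩
    · rw [if_neg h9] at h
      exact absurd h (notMem_empty _)
  · rintro ⟨c, hc, h9, h1, h2⟩
    refine ⟨c, hc, ?_⟩
    rw [if_pos h9, mem_powersetCard]
    exact ⟨h1, h2⟩

private theorem hCD_card (F : Finset (Finset ℕ)) : (hCD_Cand F).card ≤ (verts F).card * 126 := by
  unfold hCD_Cand
  refine card_biUnion_le_card_mul _ _ _ ?_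
  intro c _
  split_ifs with h
  · rw [card_powersetCard, h]
    decide
  · simp

private theorem hCD_verts {F : Finset (Finset ℕ)} (hF : ∀ s ∈ F, s.card = 4) : (verts F).card ≤ 4 * F.card := by
  unfold verts
  calc (F.biUnion id).card ≤ F.card * 4 := card_biUnion_le_card_mul _ _ _ (fun s hs => (hF s hs).le)
    _ = 4 * F.card := mul_comm _ _

private theorem hCD_image {F : Finset (Finset ℕ)} {π : Equiv.Perm ℕ} {s : Finset ℕ} (hs : s ∈ hCD_Cand F) :
    s.image π ∈ hCD_Cand (F.image (fun s => s.image π)) := by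
  rw [hCD_mem] at hs ⊢
  obtain ⟨c, hc, h9, h1, h2⟩ := hs
  refine ⟨π c, ?_, ?_, ?_, ?_⟩
  · rw [MfdMap_verts]
    exact mem_image_of_mem _ hc
  · rw [MfdMap_link π.injective, MfdMap_verts, MfdMap_card π.injective, h9]
  · rw [MfdMap_link π.injective, MfdMap_verts]
    exact image_subset_image h1
  · rw [MfdMap_card π.injective, h2]

private theorem hCD_rel {F' M F : Finset (Finset ℕ)} {Z : Finset ℕ} (π : Equiv.Perm ℕ)
    (h : F = F'.filter (fun s => Disjoint s Z) ∪ M) :
    F.image (fun s => s.image π) = (F'.image (fun s => s.image π)).filter (fun s => Disjoint s (Z.image π)) ∪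
      M.image (fun s => s.image π) := by
  rw [h, image_union]
  congr 1
  ext t
  rw [mem_filter, mem_image, mem_image]
  constructor
  · rintro ⟨s, hs, rfl⟩
    rw [mem_filter] at hs
    exact ⟨⟨s, hs.1, rfl⟩, (disjoint_image π.injective).2 hs.2⟩
  · rintro ⟨⟨s, hs, rfl⟩, hd⟩
    exact ⟨s, mem_filter.2 ⟨hs, (disjoint_image π.injective).1 hd⟩, rfl⟩

private theorem hCD_exc (V : Finset ℕ) : ∃ c : (Fin 9 → ℕ) → ℕ, Function.Injective c ∧ ∀ f, c f ∉ V := by
  obtain ⟨e, he⟩ := Countable.exists_injective_nat (Fin 9 → ℕ)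
  refine ⟨fun f => V.sup id + 1 + e f, ?_, ?_⟩
  · intro f g hfg
    have h : V.sup id + 1 + e f = V.sup id + 1 + e g := hfg
    exact he (by omega)
  · intro f hf
    have h := le_sup (f := id) hf
    simp only [id] at h
    change V.sup (fun x => x) + 1 + e f ∈ V at hf
    have h2 : V.sup id + 1 + e f ≤ V.sup id := le_sup (f := id) hf
    omega

theorem caseD (N : ℕ) (hN : 0 < N) (m : ℕ → ℕ) (hm1 : ∀ n, m n ≤ n)
    (hm2 : ∀ n, n ≤ N * m n) :
    ∃ C : ℕ, ∀ n : ℕ, ∃ S : Finset (Finset (Finset ℕ)),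
      S.card ^ (10 * N) ≤ C ^ n * n ^ ((N - 1) * n) ∧
      ∀ F, F.card = n → IsMfd3 F → (∃ 𝓑 : Finset (Fin 9 → ℕ), 𝓑.card = m n ∧
        (∀ f ∈ 𝓑, IsBlk F f) ∧ ∀ f ∈ 𝓑, ∀ g ∈ 𝓑, f ≠ g → Disjoint (blk f) (blk g)) →
        ∃ G ∈ S, Iso F G := by
  obtain ⟨k, hk⟩ : ∃ k : ℕ, k = 1524 := ⟨_, rfl⟩
  obtain ⟨C, hC⟩ := count N hN m hm1 hm2 (2 ^ k) (fun n F => F.card = n ∧ IsMfd3 F ∧
    ∃ 𝓑 : Finset (Fin 9 → ℕ), 𝓑.card = m n ∧ (∀ f ∈ 𝓑, IsBlk F f) ∧
      ∀ f ∈ 𝓑, ∀ g ∈ 𝓑, f ≠ g → Disjoint (blk f) (blk g))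
    (by
      rintro n F ⟨h1, h2, -⟩
      rw [← h1]
      exact hCD_verts h2.card4)
    (by
      intro n v S' hS'
      suffices hcov : ∃ S : Finset (Finset (Finset ℕ)), S.card ≤ S'.card * (2 ^ k) ^ n ∧
          ∀ F, ((F.card = n ∧ IsMfd3 F ∧ ∃ 𝓑 : Finset (Fin 9 → ℕ), 𝓑.card = m n ∧ (∀ f ∈ 𝓑, IsBlk F f) ∧
          ∀ f ∈ 𝓑, ∀ g ∈ 𝓑, f ≠ g → Disjoint (blk f) (blk g)) ∧ (verts F).card = v) → ∃ G ∈ S, Iso F G by
        obtain ⟨S, hS1, hS2⟩ := hcov
        exact ⟨S, hS1, fun F hP hv => hS2 F ⟨hP, hv⟩⟩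
      refine cover (κ := Finset ℕ × Finset (Finset ℕ))
        (fun F => (F.card = n ∧ IsMfd3 F ∧ ∃ 𝓑 : Finset (Fin 9 → ℕ), 𝓑.card = m n ∧ (∀ f ∈ 𝓑, IsBlk F f) ∧
          ∀ f ∈ 𝓑, ∀ g ∈ 𝓑, f ≠ g → Disjoint (blk f) (blk g)) ∧ (verts F).card = v)
        (fun F' => F'.card = n + 2 * m n ∧ (verts F').card = v + m n ∧ IsMfd3 F') S'
        (fun F' hF' => hS' F' hF'.1 hF'.2.1 hF'.2.2)
        (fun F' => (verts F').powerset ×ˢ (hCD_Cand F').powerset) ((2 ^ k) ^ n)
        ?_ (fun F' z F => F = F'.filter (fun s => Disjoint s z.1) ∪ z.2) ?_ ?_ ?_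
      · -- the number of marks
        rintro F' G' ⟨h1, h2, h3⟩ hiso
        obtain ⟨g1, g2, g3⟩ := iso_mfd hiso h3
        have h4 : (verts G').card ≤ 12 * n := by
          have h5 := hCD_verts g1.card4
          have h6 := hm1 n
          rw [g2, h1] at h5
          omega
        have h5 := hCD_card G'
        show ((verts G').powerset ×ˢ (hCD_Cand G').powerset).card ≤ (2 ^ k) ^ n
        rw [card_product, card_powerset, card_powerset, ← pow_add, ← pow_mul]
        apply Nat.pow_le_pow_right (by norm_num)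
        rw [hk]
        omega
      · -- existence
        rintro F ⟨⟨h1, h2, 𝓑, h3, h4, h5⟩, hv⟩
        obtain ⟨c, hc1, hc2⟩ := hCD_exc (verts F)
        have hcF : ∀ f ∈ 𝓑, c f ∉ verts F := fun f _ => hc2 f
        obtain ⟨g1, g2, g3⟩ := coneAll_mfd h2 𝓑 c h4 h5 hcF hc1.injOn
        have g4 := coneAll_restore 𝓑 c h4 hcF
        refine ⟨coneAll F 𝓑 c, (𝓑.image c, 𝓑.biUnion blk), ⟨?_, ?_, g1⟩, ?_, g4⟩
        · rw [g2, h1, h3]
        · rw [g3, card_union_of_disjoint, hv, card_image_of_injective _ hc1, h3]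
          rw [disjoint_right]
          intro x hx
          obtain ⟨f, -, rfl⟩ := mem_image.1 hx
          exact hc2 f
        · rw [mem_product, mem_powerset, mem_powerset]
          constructor
          · show 𝓑.image c ⊆ verts (coneAll F 𝓑 c)
            rw [g3]
            exact subset_union_right
          · show 𝓑.biUnion blk ⊆ hCD_Cand (coneAll F 𝓑 c)
            intro s hs
            obtain ⟨f, hf, hsf⟩ := mem_biUnion.1 hs
            rw [hCD_mem]
            have hl := coneAll_link 𝓑 c h4 hcF hc1.injOn hf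
            refine ⟨c f, ?_, ?_, ?_, ?_⟩
            · rw [g3]
              exact mem_union_right _ (mem_image_of_mem _ hf)
            · rw [hl, card_image_of_injective _ (h4 f hf).inj]
              simp
            · rw [hl]
              unfold blk at hsf
              obtain ⟨s0, -, rfl⟩ := mem_image.1 hsf
              exact image_subset_image (subset_univ _)
            · exact h2.card4 s ((h4 f hf).sub hsf)
      · -- equivariance
        rintro F' ⟨Z, M⟩ F π hZM hrel
        rw [mem_product, mem_powerset, mem_powerset] at hZM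
        refine ⟨(Z.image π, M.image (fun s => s.image π)), ?_, F.image (fun s => s.image π), ⟨π, rfl⟩,
          hCD_rel π hrel⟩
        rw [mem_product, mem_powerset, mem_powerset]
        constructor
        · show Z.image π ⊆ verts (F'.image (fun s => s.image π))
          rw [MfdMap_verts]
          exact image_subset_image hZM.1
        · show M.image (fun s => s.image π) ⊆ hCD_Cand (F'.image (fun s => s.image π))
          intro t ht
          obtain ⟨s, hs, rfl⟩ := mem_image.1 ht
          exact hCD_image (hZM.2 hs)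
      · -- uniqueness
        rintro F' z F G hF hG
        rw [hF, ← hG]
        exact Iso.refl _)
  refine ⟨C, fun n => ?_⟩
  obtain ⟨S, h1, h2⟩ := hC n
  exact ⟨S, h1, fun F hF1 hF2 hF3 => h2 F ⟨hF1, hF2, hF3⟩⟩

end Pool.TSphH
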