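import Pool.Agent.Lib.MP_3de3a3_co.H.HDefs
import Pool.Agent.Lib.MP_3de3a3_co.DMain

/-! # The certificate of an average order (module HCertC)

PROOF. As `Pool.TSphD.exists_small_cert` (DMain.lean) for k = 1. `IsMfdD 1 F` from `hF` (star: `mfd_pm`; sphere: σ in fc 1 F is {x}, lk F {x} = link F x since s \ {x} = s.erase x). `exists_order_lower` with W = fc 1 F,
N σ = verts (lk F σ), f σ S = comp (adj (lk F σ)) S gives pos; `Pool.TSphD.exists_cert` gives M.card + (fc 2 F).card <= (rdg 3 F).card + sum comp. `PhiK 1` is `Phi` (k = 1, (1-p)^0 = 1; `Ep` is the sum over the powerset); the sum over fc 1 F is the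
sum over verts F ({x} <-> x). 2 (rdg 3 F).card = 4 F.card (`card_rdg`), so (rdg 3 F).card = 2 F.card; (fc 2 F).card = F.card + (verts F).card (`euler_count` for k = 1: 4 (fc 2 F).card = 4 F.card + 4 (fc 1 F).card). -/

set_option autoImplicit false

namespace Pool.TSphH

open Finset
open Pool.TSph

variable {ι : Type*} [DecidableEq ι]

private theorem certC_lk (F : Finset (Finset ι)) (x : ι) : Pool.TSphD.lk F {x} = link F x := by
  unfold Pool.TSphD.lk link
  have h1 : F.filter (fun s => ({x} : Finset ι) ⊆ s) = F.filter (fun s => x ∈ s) := by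
    apply filter_congr
    intro s _
    exact singleton_subset_iff
  rw [h1]
  apply image_congr
  intro s _
  exact sdiff_singleton_eq_erase x s

private theorem certC_fc (F : Finset (Finset ι)) :
    Pool.TSphD.fc 1 F = (verts F).image (fun x => ({x} : Finset ι)) := by
  ext t
  rw [Pool.TSphD.mem_fc, mem_image]
  constructor
  · rintro ⟨h1, s, hs, hts⟩
    obtain ⟨x, rfl⟩ := card_eq_one.1 h1
    exact ⟨x, mem_verts.2 ⟨s, hs, singleton_subset_iff.1 hts⟩, rfl⟩
  · rintro ⟨x, hx, rfl⟩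
    obtain ⟨s, hs, hxs⟩ := mem_verts.1 hx
    exact ⟨card_singleton x, s, hs, singleton_subset_iff.2 hxs⟩

private theorem certC_sum {M : Type*} [AddCommMonoid M] (F : Finset (Finset ι)) (f : Finset ι → M) :
    ∑ σ ∈ Pool.TSphD.fc 1 F, f σ = ∑ x ∈ verts F, f {x} := by
  rw [certC_fc, sum_image]
  intro a _ b _ h
  exact singleton_injective h

private theorem certC_phi (W : Finset ι) (f : Finset ι → ℝ) : PhiK 1 W f = Phi W f := by
  unfold PhiK Phi Ep
  congr 1
  funext p
  simp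

private theorem certC_mfd {F : Finset (Finset ι)} (hF : IsMfd3 F) : Pool.TSphD.IsMfdD 1 F := by
  refine ⟨hF.card4, hF.conn, (mfd_pm hF).star, ?_⟩
  intro σ hσ
  rw [certC_fc, mem_image] at hσ
  obtain ⟨x, hx, rfl⟩ := hσ
  rw [certC_lk]
  exact hF.sphere x hx

theorem cert_phi [Fintype ι] {F : Finset (Finset ι)} (hF : IsMfd3 F) :
    ∃ M rk e, Pool.TSphD.Cert 3 F M rk e ∧
      (M.card : ℝ) + (verts F).card ≤ F.card + ∑ x ∈ verts F, phi (link F x) := by
  have hM := certC_mfd hF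
  obtain ⟨pos, hpos, hle⟩ := Pool.TSph.exists_order_lower (k := 1) one_pos (Pool.TSphD.fc 1 F)
    (fun σ hσ => (Pool.TSphD.mem_fc.1 hσ).1) (fun σ => verts (Pool.TSphD.lk F σ))
    (fun σ _ => by
      rw [Finset.disjoint_left]
      intro x hx hx'
      exact (Pool.TSphD.mem_verts_lk.1 hx').1 hx)
    (fun σ S => (comp (adj (Pool.TSphD.lk F σ)) S : ℝ))
  have hlo : ∀ σ, (verts (Pool.TSphD.lk F σ)).filter (fun y => ∀ x ∈ σ, pos y < pos x) =
      Pool.TSphD.Lo F pos σ :=
    fun σ => by ext y; simp [Pool.TSphD.Lo]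
  simp only [hlo] at hle
  obtain ⟨M, rk, e, hC, hc⟩ := Pool.TSphD.exists_cert hM hpos
  refine ⟨M, rk, e, hC, ?_⟩
  have h1 : ∑ σ ∈ Pool.TSphD.fc 1 F,
      PhiK 1 (verts (Pool.TSphD.lk F σ)) (fun S => (comp (adj (Pool.TSphD.lk F σ)) S : ℝ)) =
      ∑ x ∈ verts F, phi (link F x) := by
    rw [certC_sum]
    apply sum_congr rfl
    intro x _
    rw [certC_lk, certC_phi]
    rfl
  rw [h1] at hle
  have h2 : 2 * (Pool.TSphD.rdg (1 + 2) F).card = (1 + 3) * F.card :=
    Pool.TSphD.card_rdg (Pool.TSphD.mfd_pm hM)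
  have h3 : 2 * (1 + 1) * (Pool.TSphD.fc (1 + 1) F).card =
      (1 + 3).choose 3 * F.card + 4 * (Pool.TSphD.fc 1 F).card := Pool.TSphD.euler_count hM
  have h4 : (Pool.TSphD.fc 1 F).card = (verts F).card := by
    rw [certC_fc, card_image_of_injective _ singleton_injective]
  have h5 : (1 + 3).choose 3 = 4 := by decide
  rw [h5, h4] at h3
  have h6 : (M.card : ℝ) + ((Pool.TSphD.fc (1 + 1) F).card : ℝ) ≤
      ((Pool.TSphD.rdg (1 + 2) F).card : ℝ) +
        ∑ σ ∈ Pool.TSphD.fc 1 F, (comp (adj (Pool.TSphD.lk F σ)) (Pool.TSphD.Lo F pos σ) : ℝ) := by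
    exact_mod_cast hc
  have h7 : ((Pool.TSphD.rdg (1 + 2) F).card : ℝ) = 2 * F.card := by
    have : (Pool.TSphD.rdg (1 + 2) F).card = 2 * F.card := by omega
    rw [this]
    push_cast
    ring
  have h8 : ((Pool.TSphD.fc (1 + 1) F).card : ℝ) = F.card + (verts F).card := by
    have : (Pool.TSphD.fc (1 + 1) F).card = F.card + (verts F).card := by omega
    rw [this]
    push_cast
    ring
  rw [h7, h8] at h6
  linarith

end Pool.TSphH
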