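import Pool.Agent.Lib.MP_3de3a3_co.H.HDefs

/-! # The Euler characteristic is at most 2 (module HChi)

The first half of the proof of `exists_bounding` in Homol.lean. -/

set_option autoImplicit false

namespace Pool.TSphH

open Finset
open Pool.TSph

variable {ι : Type*} [DecidableEq ι]

/-- closed connected surfaces (possibly with pinched vertices) -/
private structure Surf (L : Finset (Finset ι)) : Prop where
  card3 : ∀ t ∈ L, t.card = 3
  edge : ∀ t ∈ L, ∀ e ⊆ t, e.card = 2 → (L.filter (fun s => e ⊆ s)).card = 2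
  conn : ∀ s ∈ L, ∀ t ∈ L,
    Relation.ReflTransGen (fun a b => b ∈ L ∧ (a ∩ b).card = 2) s t

/-- the edges of the complex with the facets `L` -/
private def edg (L : Finset (Finset ι)) : Finset (Finset ι) := L.biUnion (fun t => t.powersetCard 2)

private theorem mem_edg {L : Finset (Finset ι)} {e : Finset ι} :
    e ∈ edg L ↔ e.card = 2 ∧ ∃ t ∈ L, e ⊆ t := by
  simp only [edg, mem_biUnion, mem_powersetCard]
  constructor
  · rintro ⟨s, hs, h1, h2⟩; exact ⟨h2, s, hs, h1⟩
  · rintro ⟨h2, s, hs, h1⟩; exact ⟨s, hs, h1, h2⟩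

private theorem two_edg {L : Finset (Finset ι)} (hL : Surf L) :
    2 * (edg L).card = 3 * L.card := by
  have h := Finset.sum_card_bipartiteAbove_eq_sum_card_bipartiteBelow
    (s := edg L) (t := L) (fun e t => e ⊆ t)
  have h1 : ∑ e ∈ edg L, (L.bipartiteAbove (fun e t => e ⊆ t) e).card = ∑ e ∈ edg L, 2 := by
    refine Finset.sum_congr rfl fun e he => ?_
    obtain ⟨h2, t, ht, het⟩ := mem_edg.1 he
    exact hL.edge t ht e het h2
  have h2 : ∑ t ∈ L, ((edg L).bipartiteBelow (fun e t => e ⊆ t) t).card = ∑ t ∈ L, 3 := by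
    refine Finset.sum_congr rfl fun t ht => ?_
    have h3 : (edg L).bipartiteBelow (fun e t => e ⊆ t) t = t.powersetCard 2 := by
      ext e
      simp only [Finset.mem_bipartiteBelow, mem_edg, mem_powersetCard]
      constructor
      · rintro ⟨⟨h4, _⟩, h5⟩; exact ⟨h5, h4⟩
      · rintro ⟨h5, h4⟩; exact ⟨⟨h4, t, ht, h5⟩, h5⟩
    rw [h3, card_powersetCard, hL.card3 t ht]
    rfl
  rw [h1, h2] at h
  simp only [sum_const, smul_eq_mul] at h
  omega

private theorem card_pairs {t : Finset ι} (ht : t.card = 3) (v : ι) :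
    ((((t.powersetCard 2).filter (fun e => v ∈ e)).card : ℕ) : ZMod 2) = 0 := by
  by_cases hv : v ∈ t
  · have h : (t.powersetCard 2).filter (fun e => v ∈ e) =
        (t.erase v).image (fun u => {v, u}) := by
      ext e
      simp only [mem_filter, mem_powersetCard, mem_image, mem_erase]
      constructor
      · rintro ⟨⟨h1, h2⟩, h3⟩
        obtain ⟨a, b, hab, rfl⟩ := card_eq_two.1 h2
        rcases mem_insert.1 h3 with h4 | h4
        · subst h4
          exact ⟨b, ⟨hab.symm, h1 (by simp)⟩, rfl⟩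
        · have h5 : v = b := by simpa using h4
          subst h5
          exact ⟨a, ⟨hab, h1 (by simp)⟩, pair_comm _ _⟩
      · rintro ⟨u, ⟨h1, h2⟩, rfl⟩
        refine ⟨⟨?_, card_pair h1.symm⟩, by simp⟩
        intro z hz
        rcases mem_insert.1 hz with h4 | h4
        · rw [h4]; exact hv
        · rw [mem_singleton.1 h4]; exact h2
    have hinj : Set.InjOn (fun u => ({v, u} : Finset ι)) (t.erase v : Finset ι) := by
      intro a ha b hb hab
      have ha' := (mem_erase.1 (mem_coe.1 ha)).1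
      have h5 : a ∈ ({v, b} : Finset ι) := by
        have : a ∈ ({v, a} : Finset ι) := by simp
        have hab' : ({v, a} : Finset ι) = {v, b} := hab
        rwa [hab'] at this
      rcases mem_insert.1 h5 with h6 | h6
      · exact absurd h6 ha'
      · exact mem_singleton.1 h6
    rw [h, card_image_of_injOn hinj, card_erase_of_mem hv, ht]
    decide
  · have h : (t.powersetCard 2).filter (fun e => v ∈ e) = ∅ := by
      ext e
      simp only [mem_filter, mem_powersetCard, notMem_empty, iff_false, not_and]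
      rintro ⟨h1, _⟩ h3
      exact hv (h1 h3)
    rw [h]
    simp

private theorem sum_edge {E : Finset (Finset ι)} (hE2 : ∀ e ∈ E, e.card = 2) {t : Finset ι}
    (ht : t.card = 3) (hE : t.powersetCard 2 ⊆ E) (v : ι) :
    ∑ e : E, (if v ∈ e.1 then (1 : ZMod 2) else 0) * (if e.1 ⊆ t then 1 else 0) = 0 := by
  rw [Finset.sum_coe_sort E
    (fun e => (if v ∈ e then (1 : ZMod 2) else 0) * (if e ⊆ t then 1 else 0))]
  have h1 : ∀ e ∈ E, (if v ∈ e then (1 : ZMod 2) else 0) * (if e ⊆ t then 1 else 0) =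
      if v ∈ e ∧ e ⊆ t then 1 else 0 := by
    intro e _
    by_cases h2 : v ∈ e <;> by_cases h3 : e ⊆ t <;> simp [h2, h3]
  rw [Finset.sum_congr rfl h1, ← Finset.sum_filter, Finset.sum_const]
  have h2 : E.filter (fun e => v ∈ e ∧ e ⊆ t) = (t.powersetCard 2).filter (fun e => v ∈ e) := by
    ext e
    simp only [mem_filter, mem_powersetCard]
    constructor
    · rintro ⟨h3, h4, h5⟩; exact ⟨⟨h5, hE2 e h3⟩, h4⟩
    · rintro ⟨⟨h5, h6⟩, h4⟩
      exact ⟨hE (mem_powersetCard.2 ⟨h5, h6⟩), h4, h5⟩
  rw [h2, nsmul_eq_mul, card_pairs ht v, zero_mul]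

private theorem sum_two {α : Type*} [DecidableEq α] (A : Finset α)
    (P : α → Prop) [DecidablePred P] (f : A → ZMod 2) {a b : α} (ha : a ∈ A) (hb : b ∈ A)
    (hab : a ≠ b) (hP : ∀ c ∈ A, P c ↔ c = a ∨ c = b) :
    ∑ c : A, (if P c.1 then (1 : ZMod 2) else 0) * f c = f ⟨a, ha⟩ + f ⟨b, hb⟩ := by
  have h1 : ∀ c : A, (if P c.1 then (1 : ZMod 2) else 0) * f c = if P c.1 then f c else 0 := by
    intro c
    by_cases h : P c.1 <;> simp [h]
  rw [Finset.sum_congr rfl (fun c _ => h1 c), ← Finset.sum_filter]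
  have h2 : (univ : Finset A).filter (fun c => P c.1) = {⟨a, ha⟩, ⟨b, hb⟩} := by
    ext c
    simp only [mem_filter, mem_univ, true_and, mem_insert, mem_singleton]
    rw [hP c.1 c.2]
    constructor
    · rintro (h | h)
      · left; exact Subtype.ext h
      · right; exact Subtype.ext h
    · rintro (h | h)
      · left; rw [h]
      · right; rw [h]
  rw [h2, Finset.sum_pair]
  intro h
  exact hab (congrArg Subtype.val h)

private theorem two_eq {a b : ZMod 2} (h : a + b = 0) : a = b := by
  revert a b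
  decide

private theorem const_le {α : Type*} [Fintype α] (S : Submodule (ZMod 2) (α → ZMod 2))
    (h : ∀ f ∈ S, ∀ a b, f a = f b) : Module.finrank (ZMod 2) S ≤ 1 := by
  have h1 : S ≤ Submodule.span (ZMod 2) {fun _ : α => (1 : ZMod 2)} := by
    intro f hf
    rw [Submodule.mem_span_singleton]
    by_cases hα : Nonempty α
    · obtain ⟨a⟩ := hα
      refine ⟨f a, ?_⟩
      funext b
      simp [h f hf a b]
    · refine ⟨0, ?_⟩
      funext b
      exact absurd ⟨b⟩ hα
  refine (Submodule.finrank_mono h1).trans ?_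
  refine (finrank_span_le_card _).trans ?_
  simp


theorem chi_le {L : Finset (Finset ι)} (h3 : ∀ t ∈ L, t.card = 3)
    (he : ∀ t ∈ L, ∀ e ⊆ t, e.card = 2 → (L.filter (fun s => e ⊆ s)).card = 2)
    (hc : ∀ s ∈ L, ∀ t ∈ L,
      Relation.ReflTransGen (fun a b => b ∈ L ∧ (a ∩ b).card = 2) s t) :
    2 * (verts L).card ≤ L.card + 4 := by
  have hL : Surf L := ⟨h3, he, hc⟩
  clear h3 he hc
  classical
  set E := edg L with hEdef
  have hE2 : ∀ e ∈ E, e.card = 2 := fun e he => (mem_edg.1 he).1
  let B : Matrix (verts L) E (ZMod 2) := fun v e => if v.1 ∈ e.1 then 1 else 0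
  let C : Matrix E L (ZMod 2) := fun e t => if e.1 ⊆ t.1 then 1 else 0
  have hBC : B * C = 0 := by
    ext v t
    rw [Matrix.mul_apply]
    refine sum_edge hE2 (hL.card3 t.1 t.2) ?_ v.1
    intro e he
    rw [mem_powersetCard] at he
    exact mem_edg.2 ⟨he.2, t.1, t.2, he.1⟩
  -- the sum at an edge which is the intersection of two triangles
  have hCe : ∀ (c : L → ZMod 2) (s t : Finset ι) (hs : s ∈ L) (ht : t ∈ L) (hst : s ≠ t)
      (h2 : (s ∩ t).card = 2) (he : s ∩ t ∈ E),
      C.mulVec c ⟨s ∩ t, he⟩ = c ⟨s, hs⟩ + c ⟨t, ht⟩ := by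
    intro c s t hs ht hst h2 he
    have hf : L.filter (fun u => s ∩ t ⊆ u) = {s, t} := by
      symm
      apply Finset.eq_of_subset_of_card_le
      · intro u hu
        rcases mem_insert.1 hu with h | h
        · rw [h]; exact mem_filter.2 ⟨hs, inter_subset_left⟩
        · rw [mem_singleton.1 h]; exact mem_filter.2 ⟨ht, inter_subset_right⟩
      · rw [hL.edge s hs (s ∩ t) inter_subset_left h2, card_pair hst]
    have h3 := sum_two L (fun u => s ∩ t ⊆ u) c hs ht hst (by
      intro u hu
      have : u ∈ L.filter (fun u => s ∩ t ⊆ u) ↔ s ∩ t ⊆ u := by simp [hu]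
      rw [← this, hf]
      simp)
    rw [← h3]
    rfl
  have hkC : Module.finrank (ZMod 2) (LinearMap.ker C.mulVecLin) ≤ 1 := by
    apply const_le
    intro c hc
    rw [LinearMap.mem_ker, Matrix.mulVecLin_apply] at hc
    have key : ∀ s t : Finset ι, Relation.ReflTransGen (fun a b => b ∈ L ∧ (a ∩ b).card = 2) s t →
        ∀ (hs : s ∈ L), ∃ ht : t ∈ L, c ⟨s, hs⟩ = c ⟨t, ht⟩ := by
      intro s t hst hs
      induction hst with
      | refl => exact ⟨hs, rfl⟩
      | @tail b d _ hbc ih =>
        obtain ⟨hb, ih⟩ := ih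
        refine ⟨hbc.1, ?_⟩
        rw [ih]
        have hbd : b ≠ d := by
          rintro rfl
          have := hbc.2
          rw [inter_self, hL.card3 b hb] at this
          omega
        have he : b ∩ d ∈ E := mem_edg.2 ⟨hbc.2, b, hb, inter_subset_left⟩
        have h5 := hCe c b d hb hbc.1 hbd hbc.2 he
        rw [hc] at h5
        exact two_eq h5.symm
    rintro ⟨s, hs⟩ ⟨t, ht⟩
    obtain ⟨_, h⟩ := key s t (hL.conn s hs t ht) hs
    exact h
  have hkB : Module.finrank (ZMod 2) (LinearMap.ker B.transpose.mulVecLin) ≤ 1 := by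
    apply const_le
    intro f hf
    rw [LinearMap.mem_ker, Matrix.mulVecLin_apply] at hf
    -- constant on triangles
    have htri : ∀ t ∈ L, ∀ a b : ι, ∀ (ha : a ∈ verts L) (hb : b ∈ verts L), a ∈ t → b ∈ t →
        f ⟨a, ha⟩ = f ⟨b, hb⟩ := by
      intro t ht a b ha hb hat hbt
      by_cases hab : a = b
      · subst hab; rfl
      have hsub : ({a, b} : Finset ι) ⊆ t := by
        intro z hz
        rcases mem_insert.1 hz with h | h
        · rw [h]; exact hat
        · rw [mem_singleton.1 h]; exact hbt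
      have he : ({a, b} : Finset ι) ∈ E := mem_edg.2 ⟨card_pair hab, t, ht, hsub⟩
      have h3 := sum_two (verts L) (fun u => u ∈ ({a, b} : Finset ι)) f ha hb hab (by
        intro u _
        simp)
      have h4 := congrFun hf ⟨{a, b}, he⟩
      have h5 : B.transpose.mulVec f ⟨{a, b}, he⟩ =
          ∑ c : verts L, (if c.1 ∈ ({a, b} : Finset ι) then (1 : ZMod 2) else 0) * f c := rfl
      rw [h5, h3] at h4
      exact two_eq h4
    have key : ∀ s t : Finset ι, Relation.ReflTransGen (fun a b => b ∈ L ∧ (a ∩ b).card = 2) s t →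
        s ∈ L → t ∈ L ∧ ∀ a b : ι, ∀ (ha : a ∈ verts L) (hb : b ∈ verts L), a ∈ s → b ∈ t →
          f ⟨a, ha⟩ = f ⟨b, hb⟩ := by
      intro s t hst hs
      induction hst with
      | refl => exact ⟨hs, fun a b ha hb h1 h2 => htri s hs a b ha hb h1 h2⟩
      | @tail u d _ hbc ih =>
        obtain ⟨hu, ih⟩ := ih
        refine ⟨hbc.1, fun a b ha hb h1 h2 => ?_⟩
        have hne : (u ∩ d).Nonempty := by
          rw [← card_pos, hbc.2]; norm_num
        obtain ⟨z, hz⟩ := hne
        rw [mem_inter] at hz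
        have hzv : z ∈ verts L := mem_verts.2 ⟨u, hu, hz.1⟩
        rw [ih a z ha hzv h1 hz.1]
        exact htri d hbc.1 z b hzv hb hz.2 h2
    rintro ⟨a, ha⟩ ⟨b, hb⟩
    obtain ⟨s, hs, has⟩ := mem_verts.1 ha
    obtain ⟨t, ht, hbt⟩ := mem_verts.1 hb
    exact (key s t (hL.conn s hs t ht) hs).2 a b ha hb has hbt
  have h1 := LinearMap.finrank_range_add_finrank_ker C.mulVecLin
  have h2 := LinearMap.finrank_range_add_finrank_ker B.transpose.mulVecLin
  have h3 := LinearMap.finrank_range_add_finrank_ker B.mulVecLin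
  have h4 : Module.finrank (ZMod 2) (LinearMap.range B.transpose.mulVecLin) =
      Module.finrank (ZMod 2) (LinearMap.range B.mulVecLin) := Matrix.rank_transpose B
  rw [Module.finrank_fintype_fun_eq_card, Fintype.card_coe] at h1 h2 h3
  have hle : LinearMap.range C.mulVecLin ≤ LinearMap.ker B.mulVecLin := by
    rintro _ ⟨c, rfl⟩
    rw [LinearMap.mem_ker, Matrix.mulVecLin_apply, Matrix.mulVecLin_apply, Matrix.mulVec_mulVec,
      hBC, Matrix.zero_mulVec]
  have hed := two_edg hL
  rw [← hEdef] at hed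
  have h5 := Submodule.finrank_mono hle
  omega

end Pool.TSphH
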