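import Pool.Agent.Lib.MP_3de3a3_co.H.HDefs
import Pool.Agent.Lib.MP_3de3a3_co.LinkCyc
import Pool.Agent.Lib.MP_3de3a3_co.Deg

/-! # The Euler count (module HEuler)

PROOF. Write d(w) = vd L w. By `Deg_sum` and `hL.euler`: sum over verts L of (6 - d(w)) = 6 V - 3 L.card = 12 (in the integers). d(w) >= 3
(`three_le_degree`), and d(w) >= 4 for w not in Bc L. Divide verts L into H = Hv D L (d >= D), the light elements of Bc L (d < D), Cl = Cl D L,
A = light, not in Bc L, not in Cl, d in {4, 5, 6} (so `TwoHv D L w`), G = light, not in Bc L, d >= 7 (note that an element of Cl is light as D >= 7,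
and an element not in Bc L with 4 <= d <= 6 is in A or Cl). From the sum:
 sum_H d + sum_G (d - 6) <= 6 |H| + sum_A (6 - d) + 2 |Cl| + 3 |Bc|.
Every w in A has two different heavy neighbours, and the number of neighbours of a vertex h is d(h) (`exists_linkCycle`, or: at most d(h) because
every triangle at h contains 2 neighbours and every neighbour is in 2 triangles at h), so counting pairs (h, w), h in H adjacent to w in A:
 2 |A| <= sum_H d.
Therefore sum_A (d - 4) + sum_G (d - 6) <= 6 |H| + 2 |Cl| + 3 |Bc| (*).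
An element w of NA D L is light; it is in Bc L (then d < D), in Cl (then d <= 6), in G (then d <= 7 (d - 6)) or in A; in the last case
d is not 4 (as TwoHv holds), so d in {5, 6} and d <= 7 (d - 4). So sum over NA of d <= 7 (6 |H| + 2 |Cl| + 3 |Bc|) + 6 |Cl| + D |Bc|. -/

set_option autoImplicit false

namespace Pool.TSphH

open Finset
open Pool.TSph

variable {ι : Type*} [DecidableEq ι]

/-- The number of neighbours is the degree. -/
theorem card_nbrs {L : Finset (Finset ι)} (hL : IsSphere2 L) {w : ι} (hw : w ∈ verts L)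
    (N : Finset ι) (hN : ∀ u ∈ N, adj L w u) : N.card ≤ vd L w := by
  have h3 := three_le_degree hL hw
  have : NeZero (L.filter (fun t => w ∈ t)).card := ⟨by omega⟩
  obtain ⟨a, ha⟩ := exists_linkCycle hL hw (d := (L.filter (fun t => w ∈ t)).card) rfl
  have hsub : N ⊆ univ.image a := by
    intro u hu
    obtain ⟨i, hi⟩ := (ha.all u).1 (hN u hu)
    exact mem_image.2 ⟨i, mem_univ _, hi.symm⟩
  have h1 := card_le_card hsub
  have h2 : (univ.image a).card ≤ (univ : Finset (Fin (L.filter (fun t => w ∈ t)).card)).card :=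
    card_image_le
  rw [card_univ, Fintype.card_fin] at h2
  exact h1.trans h2

theorem euler_NA {L : Finset (Finset ι)} (hL : IsSphere2 L) {D : ℕ} (hD : 7 ≤ D) :
    ∑ w ∈ NA D L, vd L w ≤ 42 * (Hv D L).card + 20 * (Cl D L).card + (D + 21) * (Bc L).card := by
  classical
  set V := verts L with hV
  -- indicator weights
  have hdeg : ∀ w ∈ V, 3 ≤ vd L w := fun w hw => three_le_degree hL hw
  have hsum : ∑ w ∈ V, vd L w = 3 * L.card := Deg_sum hL
  have heul := hL.euler
  set H := Hv D L with hH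
  set C := Cl D L with hC
  set B := Bc L with hB
  -- A: not clean, not bad, of degree 4, 5, 6
  set A := V.filter (fun w => w ∉ B ∧ 4 ≤ vd L w ∧ vd L w ≤ 6 ∧ TwoHv D L w) with hA
  have hHV : H ⊆ V := filter_subset _ _
  have hCV : C ⊆ V := filter_subset _ _
  have hBV : B ⊆ V := filter_subset _ _
  have hAV : A ⊆ V := filter_subset _ _
  have mA : ∀ w, w ∈ A ↔ w ∈ V ∧ w ∉ B ∧ 4 ≤ vd L w ∧ vd L w ≤ 6 ∧ TwoHv D L w := fun w =>
    mem_filter
  have mH : ∀ w, w ∈ H ↔ w ∈ V ∧ D ≤ vd L w := fun w => mem_Hv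
  have mC : ∀ w, w ∈ C ↔ w ∈ V ∧ w ∉ B ∧ 4 ≤ vd L w ∧ vd L w ≤ 6 ∧ ¬ TwoHv D L w := fun w =>
    mem_Cl
  have mB : ∀ w, w ∈ B ↔ w ∈ V ∧ (vd L w = 3 ∨ ∃ t ∈ Sp L, w ∈ t) := fun w => mem_Bc
  -- pairs
  have hpairs : 2 * A.card ≤ ∑ h ∈ H, vd L h := by
    have h1 : ∑ w ∈ A, 2 ≤ ∑ w ∈ A, ∑ h ∈ H, (if adj L h w then 1 else 0) := by
      refine sum_le_sum fun w hw => ?_
      obtain ⟨hwV, -, -, -, s, p, hs, hp, hsp, -, hsD, hpD⟩ := (mA w).1 hw
      rw [← card_filter]
      have hsub : ({s, p} : Finset ι) ⊆ H.filter (fun h => adj L h w) := by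
        intro z hz
        simp only [mem_insert, mem_singleton] at hz
        rw [mem_filter, mH]
        rcases hz with rfl | rfl
        · exact ⟨⟨adj_mem_right hs, hsD⟩, adj_symm hs⟩
        · exact ⟨⟨adj_mem_right hp, hpD⟩, adj_symm hp⟩
      have h2 := card_le_card hsub
      rwa [card_pair hsp] at h2
    rw [sum_comm] at h1
    rw [sum_const, smul_eq_mul, mul_comm] at h1
    refine h1.trans (sum_le_sum fun h hh => ?_)
    rw [← card_filter]
    exact card_nbrs hL (hHV hh) _ fun u hu => (mem_filter.1 hu).2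
  -- the Euler sum, with integers
  have hz : ∑ w ∈ V, ((vd L w : ℤ) - 6) = -12 := by
    rw [sum_sub_distrib, sum_const, nsmul_eq_mul]
    have h1 : ((∑ w ∈ V, vd L w : ℕ) : ℤ) = 3 * (L.card : ℤ) := by rw [hsum]; push_cast; ring
    push_cast at h1
    rw [h1]
    have h2 : (2 : ℤ) * (V.card : ℤ) = (L.card : ℤ) + 4 := by exact_mod_cast heul
    linarith
  -- the pointwise inequality: for w in V
  have hpt : ∀ w ∈ V, (if w ∈ NA D L then (vd L w : ℤ) else 0) ≤
      7 * ((vd L w : ℤ) - 6) + 42 * (if w ∈ H then 1 else 0) - 7 * (if w ∈ H then (vd L w : ℤ) else 0)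
      + 14 * (if w ∈ A then 1 else 0) + 20 * (if w ∈ C then 1 else 0) +
      ((D : ℤ) + 21) * (if w ∈ B then 1 else 0) := by
    intro w hw
    have h3 := hdeg w hw
    have h3' : (3 : ℤ) ≤ (vd L w : ℤ) := by exact_mod_cast h3
    have hD' : (7 : ℤ) ≤ (D : ℤ) := by exact_mod_cast hD
    by_cases hwH : w ∈ H
    · have hwH' := ((mH w).1 hwH).2
      have hna : w ∉ NA D L := fun h => by
        have := (mem_NA.1 h).2.1
        omega
      rw [if_neg hna, if_pos hwH, if_pos hwH]
      have p1 : (0 : ℤ) ≤ 14 * (if w ∈ A then 1 else 0) := by split_ifs <;> norm_num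
      have p2 : (0 : ℤ) ≤ 20 * (if w ∈ C then 1 else 0) := by split_ifs <;> norm_num
      have p3 : (0 : ℤ) ≤ ((D : ℤ) + 21) * (if w ∈ B then 1 else 0) := by
        split_ifs
        · linarith
        · simp
      linarith
    · have hwD : vd L w < D := by
        by_contra h
        exact hwH ((mH w).2 ⟨hw, by omega⟩)
      have hwD' : (vd L w : ℤ) < D := by exact_mod_cast hwD
      rw [if_neg hwH, if_neg hwH]
      have q1 : (if w ∈ NA D L then (vd L w : ℤ) else 0) ≤ vd L w := by
        split_ifs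
        · exact le_rfl
        · linarith
      by_cases hwB : w ∈ B
      · rw [if_pos hwB]
        have p1 : (0 : ℤ) ≤ 14 * (if w ∈ A then 1 else 0) := by split_ifs <;> norm_num
        have p2 : (0 : ℤ) ≤ 20 * (if w ∈ C then 1 else 0) := by split_ifs <;> norm_num
        linarith
      · rw [if_neg hwB]
        have h4 : 4 ≤ vd L w := by
          by_contra h
          exact hwB ((mB w).2 ⟨hw, Or.inl (by omega)⟩)
        have h4' : (4 : ℤ) ≤ (vd L w : ℤ) := by exact_mod_cast h4
        by_cases h6 : vd L w ≤ 6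
        · have h6' : (vd L w : ℤ) ≤ 6 := by exact_mod_cast h6
          by_cases htw : TwoHv D L w
          · have hwA : w ∈ A := (mA w).2 ⟨hw, hwB, h4, h6, htw⟩
            have hwC : w ∉ C := fun h => ((mC w).1 h).2.2.2.2 htw
            rw [if_pos hwA, if_neg hwC]
            by_cases h44 : vd L w = 4
            · have hna : w ∉ NA D L := fun h => (mem_NA.1 h).2.2 ⟨h44, htw⟩
              rw [if_neg hna]
              linarith
            · have h5 : (5 : ℤ) ≤ (vd L w : ℤ) := by
                have : 5 ≤ vd L w := by omega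
                exact_mod_cast this
              linarith
          · have hwC : w ∈ C := (mC w).2 ⟨hw, hwB, h4, h6, htw⟩
            have hwA : w ∉ A := fun h => htw ((mA w).1 h).2.2.2.2
            rw [if_neg hwA, if_pos hwC]
            linarith
        · have h7 : (7 : ℤ) ≤ (vd L w : ℤ) := by
            have : 7 ≤ vd L w := by omega
            exact_mod_cast this
          have hwC : w ∉ C := fun h => h6 ((mC w).1 h).2.2.2.1
          have hwA : w ∉ A := fun h => h6 ((mA w).1 h).2.2.2.1
          rw [if_neg hwA, if_neg hwC]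
          linarith
  have htot := sum_le_sum hpt
  simp only [sum_add_distrib, sum_sub_distrib, ← mul_sum] at htot
  rw [← sum_sub_distrib] at htot
  have i1 : ∀ (S : Finset ι) (f : ι → ℤ), S ⊆ V →
      ∑ w ∈ V, (if w ∈ S then f w else 0) = ∑ w ∈ S, f w := by
    intro S f hS
    rw [← sum_filter]
    congr 1
    ext z
    rw [mem_filter]
    exact ⟨fun h => h.2, fun h => ⟨hS h, h⟩⟩
  have hNV : NA D L ⊆ V := filter_subset _ _
  rw [i1 _ (fun w => (vd L w : ℤ)) hNV, i1 H (fun _ => 1) hHV, i1 H (fun w => (vd L w : ℤ)) hHV,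
    i1 A (fun _ => 1) hAV, i1 C (fun _ => 1) hCV, i1 B (fun _ => 1) hBV, hz] at htot
  simp only [sum_const, nsmul_eq_mul, mul_one] at htot
  have hp' : (2 : ℤ) * A.card ≤ ∑ h ∈ H, (vd L h : ℤ) := by exact_mod_cast hpairs
  have hfin : (∑ w ∈ NA D L, (vd L w : ℤ)) ≤ 42 * H.card + 20 * C.card + (D + 21) * B.card := by
    linarith
  exact_mod_cast hfin

end Pool.TSphH
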