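import Pool.Agent.Lib.MP_3de3a3_co.H.HDefIter
import Pool.Agent.Lib.MP_3de3a3_co.H.HEuler

/-! # Compatible clean vertices (module HClW)

PROOF. Let W be a maximal subset of Cl D L with `Compat L W` (the conditions sub, good hold for subsets of Cl D L, see `mem_Cl`; ∅ is compatible). For every w' in Cl D L there is w in W with w = w', or w, w' adjacent, or w, w' have different
common neighbours u, v which are not adjacent (maximality; the conditions are symmetric). For given w in W the number of such w' is at most 1 + 6 + 6 (D - 1) <= 7 D: w has at most 6 neighbours (`card_nbrs`); in the third case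
u or v is light (w is clean: not `TwoHv D L w`), i.e. w' is a neighbour of a light neighbour of w, which has at most D - 1 neighbours. -/

set_option autoImplicit false

namespace Pool.TSphH

open Finset
open Pool.TSph

variable {ι : Type*} [DecidableEq ι]

private theorem hclw_symm {L : Finset (Finset ι)} {u v : ι} (h : adj L u v) : adj L v u := by
  obtain ⟨h1, t, ht, hu, hv⟩ := h
  exact ⟨Ne.symm h1, t, ht, hv, hu⟩

private theorem hclw_mem {L : Finset (Finset ι)} {u v : ι} (h : adj L u v) : v ∈ verts L := by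
  obtain ⟨h1, t, ht, hu, hv⟩ := h
  exact mem_biUnion.2 ⟨t, ht, hv⟩

open Classical in
/-- the neighbours -/
private noncomputable def hclw_nb (L : Finset (Finset ι)) (w : ι) : Finset ι :=
  (verts L).filter (fun u => adj L w u)

private theorem hclw_mem_nb {L : Finset (Finset ι)} {w u : ι} : u ∈ hclw_nb L w ↔ adj L w u := by
  classical
  unfold hclw_nb
  rw [mem_filter]
  exact ⟨fun h => h.2, fun h => ⟨hclw_mem h, h⟩⟩

/-- the vertices which exclude each other with `w` -/
private noncomputable def hclw_R (D : ℕ) (L : Finset (Finset ι)) (w : ι) : Finset ι :=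
  insert w (hclw_nb L w ∪ ((hclw_nb L w).filter (fun u => vd L u < D)).biUnion (hclw_nb L))

private theorem hclw_card_R {L : Finset (Finset ι)} (hL : IsSphere2 L) {D : ℕ} (hD : 7 ≤ D) {w : ι}
    (hw : w ∈ verts L) (h6 : vd L w ≤ 6) : (hclw_R D L w).card ≤ 7 * D := by
  have h1 : (hclw_nb L w).card ≤ 6 :=
    (card_nbrs hL hw _ fun u hu => hclw_mem_nb.1 hu).trans h6
  have h2 : (((hclw_nb L w).filter (fun u => vd L u < D)).biUnion (hclw_nb L)).card ≤ 6 * (D - 1) := by
    refine card_biUnion_le.trans ?_
    refine (Finset.sum_le_card_nsmul _ _ (D - 1) (fun u hu => ?_)).trans ?_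
    · rw [mem_filter] at hu
      have h3 : u ∈ verts L := hclw_mem (hclw_mem_nb.1 hu.1)
      have h4 := card_nbrs hL h3 (hclw_nb L u) fun v hv => hclw_mem_nb.1 hv
      omega
    · rw [smul_eq_mul]
      exact Nat.mul_le_mul_right _ ((card_filter_le _ _).trans h1)
  unfold hclw_R
  have h3 := card_insert_le w (hclw_nb L w ∪
    ((hclw_nb L w).filter (fun u => vd L u < D)).biUnion (hclw_nb L))
  have h4 := card_union_le (hclw_nb L w)
    (((hclw_nb L w).filter (fun u => vd L u < D)).biUnion (hclw_nb L))
  omega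

theorem exists_W {L : Finset (Finset ι)} (hL : IsSphere2 L) {D : ℕ} (hD : 7 ≤ D) :
    ∃ W, Compat L W ∧ (Cl D L).card ≤ 7 * D * W.card := by
  classical
  have h0 : Compat L (∅ : Finset ι) := ⟨empty_subset _, fun w hw => absurd hw (notMem_empty w),
    fun w hw => absurd hw (notMem_empty w), fun w hw => absurd hw (notMem_empty w)⟩
  obtain ⟨W, hW, hmax⟩ := exists_max_image ((Cl D L).powerset.filter (fun W => Compat L W))
    (fun W => W.card) ⟨∅, mem_filter.2 ⟨mem_powerset.2 (empty_subset _), h0⟩⟩
  rw [mem_filter, mem_powerset] at hW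
  obtain ⟨hWC, hWc⟩ := hW
  refine ⟨W, hWc, ?_⟩
  have hcov : Cl D L ⊆ W.biUnion (hclw_R D L) := by
    intro x hx
    rw [mem_biUnion]
    by_cases hxW : x ∈ W
    · exact ⟨x, hxW, mem_insert_self _ _⟩
    by_contra hcon
    push Not at hcon
    have hne : ∀ w ∈ W, w ≠ x := fun w hw h => hxW (h ▸ hw)
    have hA : ∀ w ∈ W, ¬ adj L w x := fun w hw h =>
      hcon w hw (mem_insert_of_mem (mem_union_left _ (hclw_mem_nb.2 h)))
    have hB : ∀ w ∈ W, ∀ u v, adj L w u → adj L w v → adj L x u → adj L x v → u ≠ v →
        adj L u v := by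
      intro w hw u v hwu hwv hxu hxv huv
      by_contra hnuv
      have hcl := (mem_Cl.1 (hWC hw)).2.2.2.2
      have hlight : vd L u < D ∨ vd L v < D := by
        by_contra h
        push Not at h
        exact hcl ⟨u, v, hwu, hwv, huv, hnuv, h.1, h.2⟩
      rcases hlight with h | h
      · exact hcon w hw (mem_insert_of_mem (mem_union_right _ (mem_biUnion.2
          ⟨u, mem_filter.2 ⟨hclw_mem_nb.2 hwu, h⟩, hclw_mem_nb.2 (hclw_symm hxu)⟩)))
      · exact hcon w hw (mem_insert_of_mem (mem_union_right _ (mem_biUnion.2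
          ⟨v, mem_filter.2 ⟨hclw_mem_nb.2 hwv, h⟩, hclw_mem_nb.2 (hclw_symm hxv)⟩)))
    have hxc := mem_Cl.1 hx
    have hI : Compat L (insert x W) := by
      refine ⟨?_, ?_, ?_, ?_⟩
      · intro y hy
        rcases mem_insert.1 hy with rfl | hy
        · exact hxc.1
        · exact hWc.sub hy
      · intro y hy
        rcases mem_insert.1 hy with rfl | hy
        · exact ⟨hxc.2.1, hxc.2.2.1, hxc.2.2.2.1⟩
        · exact hWc.good y hy
      · intro y hy z hz
        rcases mem_insert.1 hy with hy1 | hy1 <;> rcases mem_insert.1 hz with hz1 | hz1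
        · exact fun h => h.1 (hy1.trans hz1.symm)
        · exact fun h => hA z hz1 (hclw_symm (hy1 ▸ h))
        · rw [hz1]
          exact hA y hy1
        · exact hWc.nadj y hy1 z hz1
      · intro y hy z hz hyz u v h1 h2 h3 h4 huv
        rcases mem_insert.1 hy with hy1 | hy1 <;> rcases mem_insert.1 hz with hz1 | hz1
        · exact absurd (hy1.trans hz1.symm) hyz
        · rw [hy1] at h1 h2
          exact hB z hz1 u v h3 h4 h1 h2 huv
        · rw [hz1] at h3 h4
          exact hB y hy1 u v h1 h2 h3 h4 huv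
        · exact hWc.common y hy1 z hz1 hyz u v h1 h2 h3 h4 huv
    have h1 := hmax (insert x W) (mem_filter.2 ⟨mem_powerset.2 (insert_subset hx hWC), hI⟩)
    rw [card_insert_of_notMem hxW] at h1
    omega
  refine (card_le_card hcov).trans (card_biUnion_le.trans ?_)
  refine (Finset.sum_le_card_nsmul _ _ (7 * D) (fun w hw => ?_)).trans ?_
  · exact hclw_card_R hL hD (hWc.sub hw) (hWc.good w hw).2.2
  · rw [smul_eq_mul, mul_comm]

end Pool.TSphH
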