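import Pool.Agent.Lib.MP_3de3a3_co.H.HDefs

/-! # Connectedness from the vertex graph (module HConn) -/

set_option autoImplicit false

namespace Pool.TSphH

open Finset
open Pool.TSph

variable {ι : Type*} [DecidableEq ι]

/-- If the links are spheres and the vertex graph is connected then `F` is a closed connected
3-manifold. -/
theorem mfd_of_links {F : Finset (Finset ι)} (h4 : ∀ s ∈ F, s.card = 4)
    (hl : ∀ x ∈ verts F, IsSphere2 (link F x))
    (hc : ∀ u ∈ verts F, ∀ v ∈ verts F,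
      Relation.ReflTransGen (fun a b => ∃ s ∈ F, a ∈ s ∧ b ∈ s) u v) : IsMfd3 F := by
  refine ⟨h4, fun s hs t ht => ?_, hl⟩
  obtain ⟨u, hu⟩ : s.Nonempty := by rw [← card_pos, h4 s hs]; norm_num
  obtain ⟨v, hv⟩ : t.Nonempty := by rw [← card_pos, h4 t ht]; norm_num
  have hpath := hc u (mem_verts.2 ⟨s, hs, hu⟩) v (mem_verts.2 ⟨t, ht, hv⟩)
  have key : ∀ w, Relation.ReflTransGen (fun a b => ∃ s ∈ F, a ∈ s ∧ b ∈ s) u w →
      ∀ r ∈ F, w ∈ r → Relation.ReflTransGen (fun a b => b ∈ F ∧ (a ∩ b).card = 3) s r := by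
    intro w hw
    induction hw with
    | refl =>
      intro r hr hur
      exact KMfd_star (hl u (mem_verts.2 ⟨s, hs, hu⟩)) hs hr hu hur
    | @tail a b _ hab ih =>
      intro r hr hbr
      obtain ⟨q, hq, haq, hbq⟩ := hab
      exact (ih q hq haq).trans (KMfd_star (hl b (mem_verts.2 ⟨q, hq, hbq⟩)) hq hr hbq hbr)
  exact key v hpath t ht hv

/-- The vertex graph of a closed connected 3-manifold is connected. -/
theorem graph_conn {F : Finset (Finset ι)} (hF : IsMfd3 F) {u v : ι} (hu : u ∈ verts F)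
    (hv : v ∈ verts F) :
    Relation.ReflTransGen (fun a b => ∃ s ∈ F, a ∈ s ∧ b ∈ s) u v := by
  obtain ⟨s, hs, hus⟩ := mem_verts.1 hu
  obtain ⟨t, ht, hvt⟩ := mem_verts.1 hv
  have key : ∀ r, Relation.ReflTransGen (fun a b => b ∈ F ∧ (a ∩ b).card = 3) s r →
      r ∈ F ∧ ∀ w ∈ r, Relation.ReflTransGen (fun a b => ∃ s ∈ F, a ∈ s ∧ b ∈ s) u w := by
    intro r hr
    induction hr with
    | refl => exact ⟨hs, fun w hw => Relation.ReflTransGen.single ⟨s, hs, hus, hw⟩⟩
    | @tail a b _ hab ih =>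
      refine ⟨hab.1, fun w hw => ?_⟩
      obtain ⟨z, hz⟩ : (a ∩ b).Nonempty := by rw [← card_pos, hab.2]; norm_num
      rw [mem_inter] at hz
      exact (ih.2 z hz.1).tail ⟨b, hab.1, hz.2, hw⟩
  exact (key t (hF.conn s hs t ht)).2 v hvt

/-- Transfer of connectedness: if every pair of vertices in a common facet of `F` is joined in
`F'`, and every vertex of `F'` is joined in `F'` to a vertex of `F`. -/
theorem mfd_transfer {F F' : Finset (Finset ι)} (hF : IsMfd3 F) (h4 : ∀ s ∈ F', s.card = 4)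
    (hl : ∀ x ∈ verts F', IsSphere2 (link F' x))
    (h1 : ∀ s ∈ F, ∀ u ∈ s, ∀ v ∈ s,
      Relation.ReflTransGen (fun a b => ∃ s ∈ F', a ∈ s ∧ b ∈ s) u v)
    (h2 : ∀ u ∈ verts F', ∃ v ∈ verts F,
      Relation.ReflTransGen (fun a b => ∃ s ∈ F', a ∈ s ∧ b ∈ s) u v) : IsMfd3 F' := by
  have hsymm : ∀ u v, Relation.ReflTransGen (fun a b => ∃ s ∈ F', a ∈ s ∧ b ∈ s) u v →
      Relation.ReflTransGen (fun a b => ∃ s ∈ F', a ∈ s ∧ b ∈ s) v u := by
    intro u v h
    induction h with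
    | refl => exact Relation.ReflTransGen.refl
    | tail _ h ih =>
      obtain ⟨s, hs, ha, hb⟩ := h
      exact Relation.ReflTransGen.head ⟨s, hs, hb, ha⟩ ih
  refine mfd_of_links h4 hl fun u hu v hv => ?_
  obtain ⟨u', hu', hpu⟩ := h2 u hu
  obtain ⟨v', hv', hpv⟩ := h2 v hv
  refine hpu.trans (Relation.ReflTransGen.trans ?_ (hsymm _ _ hpv))
  have := graph_conn hF hu' hv'
  clear hpu hpv hu' hv'
  induction this with
  | refl => exact Relation.ReflTransGen.refl
  | tail _ h ih =>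
    obtain ⟨s, hs, ha, hb⟩ := h
    exact ih.trans (h1 s hs _ ha _ hb)

end Pool.TSphH
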