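import Pool.Agent.Lib.MP_3de3a3_co.H.HBase

/-! # Counting with m new vertices (module HCount)

PROOF of `count`. Let C0 be as in `base`, C1 = C0 + 1. For n, v let n' = n + 2 m, v' = v + m (m = m n), S' from `base` for n', v': S'.card ^ 10 <= C0 ^ n' * n' ^ (n' - 3 v'), and S_v from the hypothesis h: S_v.card <= S'.card * A ^ n.
S = the union of the S_v, v <= 4 n. n = 0: m 0 = 0, S'.card ^ 10 <= 1, so S.card <= 1. Let n >= 1. n' <= 3 n, n' - 3 v' <= n - m (natural subtraction), so S'.card ^ 10 <= C1 ^ (3 n) * (3 n) ^ (n - m) and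
S'.card ^ (10 N) <= C1 ^ (3 n N) * 3 ^ (n N) * n ^ (N (n - m)) and N (n - m) = N n - N m <= (N - 1) n by hm2. S.card <= (4 n + 1) max S_v.card, 4 n + 1 <= 5 ^ n. So C = 5 ^ (10 N) * C1 ^ (3 N) * 3 ^ N * A ^ (10 N) works
(choose the maximum of S_v.card over v in range (4 n + 1), see `total` in DTotal.lean for a similar computation).
PROOF of `caseA`. S = the union of the S_v of `base` for (n, v), v <= 4 n, n <= 3 N v: n ^ (N (n - 3 v)) <= n ^ ((N - 1) n) since N (n - 3 v) = N n - 3 N v <= (N - 1) n. (verts F).card <= 4 n: `card_biUnion_le`. -/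

set_option autoImplicit false

namespace Pool.TSphH

open Finset
open Pool.TSph

private theorem hcount_verts {F : Finset (Finset ℕ)} (h : IsMfd3 F) : (verts F).card ≤ 4 * F.card := by
  unfold verts
  refine card_biUnion_le.trans ?_
  refine (Finset.sum_le_card_nsmul _ _ 4 (fun s hs => ?_)).trans ?_
  · exact (h.card4 s hs).le
  · rw [smul_eq_mul, mul_comm]

/-- union over the number of vertices -/
private theorem hcount_union (E : ℕ) (K : ℕ) (n : ℕ) (X : ℕ) (T : ℕ → Finset (Finset (Finset ℕ)))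
    (q : ℕ → Prop) [DecidablePred q]
    (hT : ∀ v, q v → (T v).card ^ E ≤ K ^ n * X) (hX : 1 ≤ X) :
    (((range (4 * n + 1)).filter q).biUnion T).card ^ E ≤ (5 ^ E * (K + 1)) ^ n * X := by
  rcases ((range (4 * n + 1)).filter q).eq_empty_or_nonempty with h0 | h0
  · rw [h0, biUnion_empty, card_empty]
    refine le_trans ?_ (Nat.mul_le_mul (Nat.one_le_pow _ _ (by positivity)) hX)
    rcases Nat.eq_zero_or_pos E with h | h
    · rw [h, pow_zero, mul_one]
    · rw [zero_pow (by omega)]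
      exact Nat.zero_le _
  · obtain ⟨f0, hf0, hmax⟩ := exists_max_image _ (fun f => (T f).card) h0
    have hq : q f0 := (mem_filter.mp hf0).2
    have h1 : (((range (4 * n + 1)).filter q).biUnion T).card ≤ (4 * n + 1) * (T f0).card := by
      refine card_biUnion_le.trans ?_
      refine (Finset.sum_le_card_nsmul _ _ (T f0).card (fun f hf => hmax f hf)).trans ?_
      rw [smul_eq_mul]
      refine Nat.mul_le_mul_right _ ((card_filter_le _ _).trans ?_)
      rw [card_range]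
    have h4 : 4 * n + 1 ≤ 5 ^ n := by
      have h := one_add_mul_le_pow (a := (4 : ℤ)) (by norm_num) n
      have h' : ((4 * n + 1 : ℕ) : ℤ) ≤ ((5 ^ n : ℕ) : ℤ) := by
        push_cast
        calc (4 : ℤ) * n + 1 = 1 + n * 4 := by ring
          _ ≤ (1 + 4) ^ n := h
          _ = 5 ^ n := by norm_num
      exact_mod_cast h'
    calc (((range (4 * n + 1)).filter q).biUnion T).card ^ E
        ≤ ((4 * n + 1) * (T f0).card) ^ E := Nat.pow_le_pow_left h1 _
      _ = (4 * n + 1) ^ E * (T f0).card ^ E := mul_pow _ _ _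
      _ ≤ (5 ^ n) ^ E * (K ^ n * X) := Nat.mul_le_mul (Nat.pow_le_pow_left h4 _) (hT f0 hq)
      _ ≤ (5 ^ n) ^ E * ((K + 1) ^ n * X) :=
          Nat.mul_le_mul_left _ (Nat.mul_le_mul_right _ (Nat.pow_le_pow_left (Nat.le_succ K) n))
      _ = (5 ^ E * (K + 1)) ^ n * X := by
          rw [← pow_mul, mul_comm n E, pow_mul, mul_pow, mul_assoc]

private theorem hcount_one (a n : ℕ) : 1 ≤ n ^ (a * n) := by
  rcases Nat.eq_zero_or_pos n with h | h
  · rw [h, mul_zero, pow_zero]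
  · exact Nat.one_le_pow _ _ h

theorem count (N : ℕ) (hN : 0 < N) (m : ℕ → ℕ) (hm1 : ∀ n, m n ≤ n) (hm2 : ∀ n, n ≤ N * m n)
    (A : ℕ) (P : ℕ → Finset (Finset ℕ) → Prop)
    (h4 : ∀ n F, P n F → (verts F).card ≤ 4 * n)
    (h : ∀ (n v : ℕ) (S' : Finset (Finset (Finset ℕ))),
      (∀ F', F'.card = n + 2 * m n → (verts F').card = v + m n → IsMfd3 F' →
        ∃ G ∈ S', Iso F' G) →
      ∃ S : Finset (Finset (Finset ℕ)), S.card ≤ S'.card * A ^ n ∧
        ∀ F, P n F → (verts F).card = v → ∃ G ∈ S, Iso F G) :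
    ∃ C : ℕ, ∀ n : ℕ, ∃ S : Finset (Finset (Finset ℕ)),
      S.card ^ (10 * N) ≤ C ^ n * n ^ ((N - 1) * n) ∧ ∀ F, P n F → ∃ G ∈ S, Iso F G := by
  obtain ⟨C0, hC0⟩ := base
  refine ⟨5 ^ (10 * N) * (((C0 + 1) ^ (3 * N) * 3 ^ N * A ^ (10 * N)) + 1), fun n => ?_⟩
  have key : ∀ v : ℕ, ∃ S : Finset (Finset (Finset ℕ)),
      S.card ^ (10 * N) ≤ ((C0 + 1) ^ (3 * N) * 3 ^ N * A ^ (10 * N)) ^ n * n ^ ((N - 1) * n) ∧
      ∀ F, P n F → (verts F).card = v → ∃ G ∈ S, Iso F G := by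
    intro v
    obtain ⟨S', hS', hS'2⟩ := hC0 (n + 2 * m n) (v + m n)
    obtain ⟨S, hS, hS2⟩ := h n v S' hS'2
    refine ⟨S, ?_, hS2⟩
    have hm := hm1 n
    have hmN := hm2 n
    have e1 : S'.card ^ 10 ≤ (C0 + 1) ^ (3 * n) * (3 * n) ^ (n - m n) := by
      refine hS'.trans (Nat.mul_le_mul ?_ ?_)
      · calc C0 ^ (n + 2 * m n) ≤ (C0 + 1) ^ (n + 2 * m n) := Nat.pow_le_pow_left (Nat.le_succ _) _
          _ ≤ (C0 + 1) ^ (3 * n) := Nat.pow_le_pow_right (Nat.succ_pos _) (by omega)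
      · rcases Nat.eq_zero_or_pos n with h0 | h0
        · subst h0
          have hm0 : m 0 = 0 := by omega
          rw [hm0]
          simp
        · calc (n + 2 * m n) ^ (n + 2 * m n - 3 * (v + m n))
              ≤ (3 * n) ^ (n + 2 * m n - 3 * (v + m n)) := Nat.pow_le_pow_left (by omega) _
            _ ≤ (3 * n) ^ (n - m n) := Nat.pow_le_pow_right (by omega) (by omega)
    have e2 : S'.card ^ (10 * N) ≤ ((C0 + 1) ^ (3 * N) * 3 ^ N) ^ n * n ^ ((N - 1) * n) := by
      have h5 := Nat.pow_le_pow_left e1 N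
      rw [← pow_mul, mul_pow, ← pow_mul, ← pow_mul] at h5
      refine h5.trans ?_
      have h6 : (3 * n) ^ ((n - m n) * N) ≤ 3 ^ (N * n) * n ^ ((N - 1) * n) := by
        rcases Nat.eq_zero_or_pos n with h0 | h0
        · subst h0
          simp
        · have h7 : (n - m n) * N ≤ (N - 1) * n := by
            have h8 : (n - m n) * N = n * N - m n * N := Nat.sub_mul _ _ _
            have h9 : (N - 1) * n = N * n - n := by rw [Nat.sub_mul, one_mul]
            rw [h8, h9, mul_comm n N, mul_comm (m n) N]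
            omega
          calc (3 * n) ^ ((n - m n) * N) ≤ (3 * n) ^ ((N - 1) * n) :=
                Nat.pow_le_pow_right (by omega) h7
            _ = 3 ^ ((N - 1) * n) * n ^ ((N - 1) * n) := mul_pow _ _ _
            _ ≤ 3 ^ (N * n) * n ^ ((N - 1) * n) := Nat.mul_le_mul_right _
                (Nat.pow_le_pow_right (by norm_num) (Nat.mul_le_mul_right _ (Nat.sub_le _ _)))
      have h10 : ((C0 + 1) ^ (3 * N) * 3 ^ N) ^ n = (C0 + 1) ^ (3 * n * N) * 3 ^ (N * n) := by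
        rw [mul_pow, ← pow_mul, ← pow_mul]
        congr 2
        ring
      calc (C0 + 1) ^ (3 * n * N) * (3 * n) ^ ((n - m n) * N)
          ≤ (C0 + 1) ^ (3 * n * N) * (3 ^ (N * n) * n ^ ((N - 1) * n)) := Nat.mul_le_mul_left _ h6
        _ = ((C0 + 1) ^ (3 * N) * 3 ^ N) ^ n * n ^ ((N - 1) * n) := by
            rw [h10]
            exact (mul_assoc _ _ _).symm
    calc S.card ^ (10 * N) ≤ (S'.card * A ^ n) ^ (10 * N) := Nat.pow_le_pow_left hS _
      _ = S'.card ^ (10 * N) * (A ^ (10 * N)) ^ n := by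
          rw [mul_pow, ← pow_mul, ← pow_mul, mul_comm n (10 * N)]
      _ ≤ ((C0 + 1) ^ (3 * N) * 3 ^ N) ^ n * n ^ ((N - 1) * n) * (A ^ (10 * N)) ^ n :=
          Nat.mul_le_mul_right _ e2
      _ = ((C0 + 1) ^ (3 * N) * 3 ^ N * A ^ (10 * N)) ^ n * n ^ ((N - 1) * n) := by
          rw [mul_pow ((C0 + 1) ^ (3 * N) * 3 ^ N)]
          ring
  choose T hT1 hT2 using key
  refine ⟨((range (4 * n + 1)).filter (fun _ => True)).biUnion T, ?_, ?_⟩
  · exact hcount_union (10 * N) _ n _ T (fun _ => True) (fun v _ => hT1 v) (hcount_one _ _)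
  · intro F hF
    obtain ⟨G, hG, hI⟩ := hT2 (verts F).card F hF rfl
    refine ⟨G, mem_biUnion.2 ⟨(verts F).card, ?_, hG⟩, hI⟩
    rw [mem_filter, mem_range]
    have := h4 n F hF
    exact ⟨by omega, trivial⟩

theorem caseA (N : ℕ) (hN : 0 < N) :
    ∃ C : ℕ, ∀ n : ℕ, ∃ S : Finset (Finset (Finset ℕ)),
      S.card ^ (10 * N) ≤ C ^ n * n ^ ((N - 1) * n) ∧
      ∀ F, F.card = n → IsMfd3 F → n ≤ 3 * N * (verts F).card → ∃ G ∈ S, Iso F G := by
  obtain ⟨C0, hC0⟩ := base
  refine ⟨5 ^ (10 * N) * (C0 ^ N + 1), fun n => ?_⟩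
  choose T hT1 hT2 using hC0 n
  refine ⟨((range (4 * n + 1)).filter (fun v => n ≤ 3 * N * v)).biUnion T, ?_, ?_⟩
  · refine hcount_union (10 * N) _ n _ T (fun v => n ≤ 3 * N * v) (fun v hv => ?_) (hcount_one _ _)
    have h5 := Nat.pow_le_pow_left (hT1 v) N
    rw [← pow_mul, mul_pow, ← pow_mul, ← pow_mul] at h5
    refine h5.trans ?_
    have h6 : C0 ^ (n * N) = (C0 ^ N) ^ n := by rw [← pow_mul, mul_comm]
    rw [h6]
    refine Nat.mul_le_mul_left _ ?_
    rcases Nat.eq_zero_or_pos n with h0 | h0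
    · subst h0
      simp
    · refine Nat.pow_le_pow_right h0 ?_
      have h8 : (n - 3 * v) * N = n * N - 3 * v * N := Nat.sub_mul _ _ _
      have h9 : (N - 1) * n = N * n - n := by rw [Nat.sub_mul, one_mul]
      have h10 : 3 * v * N = 3 * N * v := by ring
      rw [h8, h9, mul_comm n N, h10]
      omega
  · intro F hF hM hv
    obtain ⟨G, hG, hI⟩ := hT2 (verts F).card F hF rfl hM
    refine ⟨G, mem_biUnion.2 ⟨(verts F).card, ?_, hG⟩, hI⟩
    rw [mem_filter, mem_range]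
    have := hcount_verts hM
    rw [hF] at this
    exact ⟨by omega, hv⟩

end Pool.TSphH
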