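import Pool.Agent.Lib.MP_3de3a3_co.H.HFanStep
import Pool.Agent.Lib.MP_3de3a3_co.TheoremA

/-! # Many fans (module HDefIter)

PROOF. Induction on the number of elements of W (for all L). W = ∅: `phi_le`. Let w be in W, L' as in `fan_step`. The hypotheses hold for L' and W.erase w: let w' be in W, w' not w. w' is in verts L'.
All triangles of L containing w' are in L' and conversely: such a triangle of L or L' does not contain w (w, w' are not adjacent in L; w is not in verts L'), and w' is not adjacent to w: use the clause on t. So vd L' w' = vd L w', and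
adj L' w' u iff adj L w' u. w' is not in Bc L': vd L' w' is not 3; let t = {w', u, v} be in Sp L'. Then w' u, w' v are edges of L. u v is an edge of L' so an edge of L or (w u and w v are edges of L, so u, v are common neighbours of
w and w', different, hence adjacent in L by hypothesis). So w', u, v are pairwise adjacent in L, and as w' is not in Bc L, t is in L (`mem_Sp`, `mem_Bc`), so in L': contradiction. Pairs w', w'' in W.erase w: not adjacent in L'
(clause: adj L' gives adj L or both adjacent to w); common neighbours u, v of w', w'' in L' are common neighbours in L, so adjacent in L, and adjacent in L' (last clause of `fan_step`; u, v are not w because w is not adjacent to w').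
So phi L <= phi L' + 1/24 <= (V - 1 + 12)/20 - (|W| - 1)/120 + 1/24 = (V + 12)/20 - |W|/120. -/

set_option autoImplicit false

namespace Pool.TSphH

open Finset
open Pool.TSph

variable {ι : Type*} [DecidableEq ι]

/-- The vertices of `W` can be removed one after the other. -/
structure Compat (L : Finset (Finset ι)) (W : Finset ι) : Prop where
  sub : W ⊆ verts L
  good : ∀ w ∈ W, w ∉ Bc L ∧ 4 ≤ vd L w ∧ vd L w ≤ 6
  nadj : ∀ w ∈ W, ∀ w' ∈ W, ¬ adj L w w'
  common : ∀ w ∈ W, ∀ w' ∈ W, w ≠ w' → ∀ u v, adj L w u → adj L w v → adj L w' u →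
    adj L w' v → u ≠ v → adj L u v

private theorem HDefIter_aux (N : ℕ) : ∀ (L : Finset (Finset ι)), IsSphere2 L → ∀ W : Finset ι,
    W.card = N → Compat L W → phi L ≤ ((verts L).card + 12) / 20 - W.card / 120 := by
  induction N with
  | zero =>
    intro L hL W hN hW
    have := phi_le hL
    rw [hN]
    push_cast
    linarith
  | succ N ih =>
    intro L hL W hN hW
    have hne : W.Nonempty := by rw [← card_pos, hN]; omega
    obtain ⟨w, hw⟩ := hne
    have hwv : w ∈ verts L := hW.sub hw
    obtain ⟨hwB, hw4, hw6⟩ := hW.good w hw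
    obtain ⟨L', hL', hverts, hle, hT, hA, hA2⟩ := fan_step hL hwv hwB hw4 hw6
    have hkey : ∀ w' ∈ W.erase w, ∀ t : Finset ι, w' ∈ t → (t ∈ L' ↔ t ∈ L) := by
      intro w' hw' t ht
      rw [mem_erase] at hw'
      by_cases hwt : w ∈ t
      · constructor
        · intro h
          have h1 : w ∈ verts L' := mem_verts.2 ⟨t, h, hwt⟩
          rw [hverts] at h1
          exact absurd h1 (notMem_erase w _)
        · intro h
          exact absurd ⟨Ne.symm hw'.1, t, h, hwt, ht⟩ (hW.nadj w hw w' hw'.2)
      · exact hT t hwt ⟨w', ht, hW.nadj w hw w' hw'.2⟩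
    have hadj : ∀ w' ∈ W.erase w, ∀ u, (adj L' w' u ↔ adj L w' u) := by
      intro w' hw' u
      constructor
      · rintro ⟨h1, t, ht, h2, h3⟩
        exact ⟨h1, t, (hkey w' hw' t h2).1 ht, h2, h3⟩
      · rintro ⟨h1, t, ht, h2, h3⟩
        exact ⟨h1, t, (hkey w' hw' t h2).2 ht, h2, h3⟩
    have hvd : ∀ w' ∈ W.erase w, vd L' w' = vd L w' := by
      intro w' hw'
      unfold vd
      congr 1
      ext t
      rw [mem_filter, mem_filter]
      constructor
      · rintro ⟨h1, h2⟩
        exact ⟨(hkey w' hw' t h2).1 h1, h2⟩
      · rintro ⟨h1, h2⟩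
        exact ⟨(hkey w' hw' t h2).2 h1, h2⟩
    have hW' : Compat L' (W.erase w) := by
      refine ⟨?_, ?_, ?_, ?_⟩
      · intro w' hw'
        rw [hverts]
        rw [mem_erase] at hw' ⊢
        exact ⟨hw'.1, hW.sub hw'.2⟩
      · intro w' hw'
        obtain ⟨h1, h2, h3⟩ := hW.good w' (mem_of_mem_erase hw')
        refine ⟨?_, by rw [hvd w' hw']; exact h2, by rw [hvd w' hw']; exact h3⟩
        intro hB
        rw [mem_Bc] at hB
        rcases hB.2 with h | ⟨t, ht, hwt⟩
        · rw [hvd w' hw'] at h
          omega
        · rw [mem_Sp] at ht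
          obtain ⟨ht1, ht2, ht3⟩ := ht
          apply h1
          rw [mem_Bc]
          refine ⟨hW.sub (mem_of_mem_erase hw'), Or.inr ⟨t, ?_, hwt⟩⟩
          rw [mem_Sp]
          refine ⟨ht1, fun h => ht2 ((hkey w' hw' t hwt).2 h), ?_⟩
          intro u hu v hv huv
          by_cases hu' : u = w'
          · rw [hu']
            refine (hadj w' hw' v).1 ?_
            rw [← hu']
            exact ht3 u hu v hv huv
          by_cases hv' : v = w'
          · rw [hv']
            refine adj_symm ((hadj w' hw' u).1 (adj_symm ?_))
            rw [← hv']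
            exact ht3 u hu v hv huv
          rcases hA u v (ht3 u hu v hv huv) with h | ⟨h, h'⟩
          · exact h
          · have e1 : adj L w' u := (hadj w' hw' u).1 (ht3 w' hwt u hu (Ne.symm hu'))
            have e2 : adj L w' v := (hadj w' hw' v).1 (ht3 w' hwt v hv (Ne.symm hv'))
            rw [mem_erase] at hw'
            exact hW.common w hw w' hw'.2 (Ne.symm hw'.1) u v h h' e1 e2 huv
      · intro w' hw' w'' hw'' h
        exact hW.nadj w' (mem_of_mem_erase hw') w'' (mem_of_mem_erase hw'')
          ((hadj w' hw' w'').1 h)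
      · intro w' hw' w'' hw'' hne u v h1 h2 h3 h4 huv
        have e1 := (hadj w' hw' u).1 h1
        have e2 := (hadj w' hw' v).1 h2
        have e3 := (hadj w'' hw'' u).1 h3
        have e4 := (hadj w'' hw'' v).1 h4
        have e5 := hW.common w' (mem_of_mem_erase hw') w'' (mem_of_mem_erase hw'') hne u v
          e1 e2 e3 e4 huv
        refine hA2 u v ?_ ?_ e5
        · rintro rfl
          exact hW.nadj w' (mem_of_mem_erase hw') u hw e1
        · rintro rfl
          exact hW.nadj w' (mem_of_mem_erase hw') v hw e2
    have hcard : (W.erase w).card = N := by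
      rw [card_erase_of_mem hw, hN]; omega
    have h1 := ih L' hL' (W.erase w) hcard hW'
    have hv1 : (verts L').card + 1 = (verts L).card := by
      rw [hverts, card_erase_add_one hwv]
    have hv2 : ((verts L).card : ℝ) = (verts L').card + 1 := by
      rw [← hv1]; push_cast; ring
    rw [hcard] at h1
    rw [hN, hv2]
    push_cast
    linarith

theorem phi_gain {L : Finset (Finset ι)} (hL : IsSphere2 L) {W : Finset ι}
    (hW : Compat L W) : phi L ≤ ((verts L).card + 12) / 20 - W.card / 120 :=
  HDefIter_aux W.card L hL W rfl hW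

end Pool.TSphH
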