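import Pool.Agent.Lib.MP_3de3a3_co.MfdCount
import Pool.Agent.Lib.MP_3de3a3_co.MfdPM
import Pool.Agent.Lib.MP_3de3a3_co.KMfd
import Pool.Agent.Lib.MP_3de3a3_co.Deg
import Pool.Agent.Lib.MP_3de3a3_co.CycDef
import Pool.Agent.Lib.MP_3de3a3_co.PhiDef

/-! # Manifolds in which small spheres separate: definitions (module HDefs)

Text of the whole proof: store file hsp_proof.txt. -/

set_option autoImplicit false

namespace Pool.TSphH

open Finset
open Pool.TSph

variable {ι : Type*} [DecidableEq ι]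

/-- The mod 2 boundary of the set `A` of facets of `F`: the triangles of `F` which lie in exactly
one element of `A`. -/
def bdry (F A : Finset (Finset ι)) : Finset (Finset ι) :=
  (tris F).filter (fun t => (A.filter (fun s => t ⊆ s)).card = 1)

/-- `F` is the set of facets of a closed connected simplicial 3-manifold in which every
2-sphere with at most five vertices (made of triangles of `F`) separates, that is, it is the
mod 2 boundary of a set of facets. -/
structure IsSepMfd (F : Finset (Finset ι)) : Prop where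
  mfd : IsMfd3 F
  sep : ∀ Z ⊆ tris F, IsSphere2 Z → (verts Z).card ≤ 5 → ∃ A ⊆ F, bdry F A = Z

/-- Every edge is in an even number of elements of `Z`. -/
def EvenZ (Z : Finset (Finset ι)) : Prop :=
  ∀ e : Finset ι, e.card = 2 → Even (Z.filter (fun t => e ⊆ t)).card

/-- `Z` has no proper nonempty even subset. -/
def MinEven (Z : Finset (Finset ι)) : Prop := ∀ Y ⊆ Z, EvenZ Y → Y = ∅ ∨ Y = Z

/-- The number of facets which contain `e`. -/
def dg (F : Finset (Finset ι)) (e : Finset ι) : ℕ := (F.filter (fun s => e ⊆ s)).card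

/-- The degree of the vertex `w` of `L`. -/
def vd (L : Finset (Finset ι)) (w : ι) : ℕ := (L.filter (fun t => w ∈ t)).card

/-- The 3-cycles of `L` which are not triangles of `L`. -/
def Sp (L : Finset (Finset ι)) : Finset (Finset ι) :=
  ((verts L).powersetCard 3).filter (fun t => t ∉ L ∧ ∀ u ∈ t, ∀ v ∈ t, u ≠ v → ∃ s ∈ L, u ∈ s ∧ v ∈ s)

/-- The bad vertices: degree 3, or on a 3-cycle which is not a triangle. -/
def Bc (L : Finset (Finset ι)) : Finset ι :=
  (verts L).filter (fun w => vd L w = 3 ∨ ∃ t ∈ Sp L, w ∈ t)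

/-- The heavy vertices. -/
def Hv (D : ℕ) (L : Finset (Finset ι)) : Finset ι := (verts L).filter (fun w => D ≤ vd L w)

/-- `w` has two heavy neighbours which are different and not adjacent. -/
def TwoHv (D : ℕ) (L : Finset (Finset ι)) (w : ι) : Prop :=
  ∃ s p, adj L w s ∧ adj L w p ∧ s ≠ p ∧ ¬ adj L s p ∧ D ≤ vd L s ∧ D ≤ vd L p

open Classical in
/-- The clean vertices. -/
noncomputable def Cl (D : ℕ) (L : Finset (Finset ι)) : Finset ι :=
  (verts L).filter (fun w => w ∉ Bc L ∧ 4 ≤ vd L w ∧ vd L w ≤ 6 ∧ ¬ TwoHv D L w)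

open Classical in
/-- The light vertices which are not of degree 4 with two non adjacent heavy neighbours. -/
noncomputable def NA (D : ℕ) (L : Finset (Finset ι)) : Finset ι :=
  (verts L).filter (fun w => vd L w < D ∧ ¬ (vd L w = 4 ∧ TwoHv D L w))

/-- Missing tetrahedra. -/
def MT (F : Finset (Finset ι)) : Finset (Finset ι) :=
  ((verts F).powersetCard 4).filter (fun σ => σ ∉ F ∧ σ.powersetCard 3 ⊆ tris F)

/-- `x` is a cone point of the missing triangle `τ`. -/
def IsCone (F : Finset (Finset ι)) (x : ι) (τ : Finset ι) : Prop :=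
  τ.card = 3 ∧ x ∉ τ ∧ τ ∉ tris F ∧ ∀ e ∈ τ.powersetCard 2, insert x e ∈ tris F

open Classical in
/-- The pairs (cone point, missing triangle). -/
noncomputable def TP (F : Finset (Finset ι)) : Finset (ι × Finset ι) :=
  ((verts F) ×ˢ ((verts F).powersetCard 3)).filter (fun q => IsCone F q.1 q.2)

/-- The missing triangles with a cone point. -/
noncomputable def TD (F : Finset (Finset ι)) : Finset (Finset ι) := (TP F).image Prod.snd

/-- The triangles with two heavy edges. -/
def T2 (D : ℕ) (F : Finset (Finset ι)) : Finset (Finset ι) :=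
  (tris F).filter (fun t => ∃ x ∈ t, ∃ y ∈ t, ∃ z ∈ t, x ≠ y ∧ x ≠ z ∧ y ≠ z ∧
    D ≤ dg F {x, y} ∧ D ≤ dg F {x, z})

/-- A labelled good facet: `a a'` and `b b'` are heavy, the other four edges have degree 4. -/
structure Gd (D : ℕ) (F : Finset (Finset ι)) (a a' b b' : ι) : Prop where
  mem : ({a, a', b, b'} : Finset ι) ∈ F
  aa : D ≤ dg F {a, a'}
  bb : D ≤ dg F {b, b'}
  ab : dg F {a, b} = 4
  ab' : dg F {a, b'} = 4
  a'b : dg F {a', b} = 4
  a'b' : dg F {a', b'} = 4

/-- Good facets. -/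
def IsGood (D : ℕ) (F : Finset (Finset ι)) (φ : Finset ι) : Prop :=
  ∃ a a' b b', φ = {a, a', b, b'} ∧ Gd D F a a' b b'

open Classical in
/-- The facets which are not good. -/
noncomputable def NotGood (D : ℕ) (F : Finset (Finset ι)) : Finset (Finset ι) :=
  F.filter (fun φ => ¬ IsGood D F φ)

theorem mem_bdry {F A : Finset (Finset ι)} {t : Finset ι} :
    t ∈ bdry F A ↔ t ∈ tris F ∧ (A.filter (fun s => t ⊆ s)).card = 1 := mem_filter

theorem mem_TP {F : Finset (Finset ι)} {x : ι} {τ : Finset ι} :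
    (x, τ) ∈ TP F ↔ IsCone F x τ := by
  classical
  unfold TP
  rw [mem_filter, mem_product, mem_powersetCard]
  constructor
  · exact fun h => h.2
  · intro h
    refine ⟨?_, h⟩
    have hsub : ∀ u ∈ τ, u ∈ verts F ∧ x ∈ verts F := by
      intro u hu
      have h1 : (τ.erase u).card = 2 := by rw [card_erase_of_mem hu, h.1]
      obtain ⟨v, w, hvw, he⟩ := card_eq_two.1 h1
      have hv : v ∈ τ.erase u := by rw [he]; simp
      rw [mem_erase] at hv
      have h2 : ({u, v} : Finset ι) ∈ τ.powersetCard 2 := by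
        rw [mem_powersetCard]
        refine ⟨?_, card_pair (Ne.symm hv.1)⟩
        intro z hz
        simp only [mem_insert, mem_singleton] at hz
        rcases hz with rfl | rfl
        · exact hu
        · exact hv.2
      obtain ⟨-, s, hs, hsub⟩ := mem_tris.1 (h.2.2.2 _ h2)
      exact ⟨mem_verts.2 ⟨s, hs, hsub (by simp)⟩, mem_verts.2 ⟨s, hs, hsub (by simp)⟩⟩
    refine ⟨?_, fun u hu => (hsub u hu).1, h.1⟩
    have : τ.Nonempty := by rw [← card_pos, h.1]; norm_num
    obtain ⟨u, hu⟩ := this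
    exact (hsub u hu).2

theorem mem_TD {F : Finset (Finset ι)} {τ : Finset ι} : τ ∈ TD F ↔ ∃ x, IsCone F x τ := by
  unfold TD
  rw [mem_image]
  constructor
  · rintro ⟨⟨x, τ'⟩, h, rfl⟩
    exact ⟨x, mem_TP.1 h⟩
  · rintro ⟨x, h⟩
    exact ⟨(x, τ), mem_TP.2 h, rfl⟩

theorem mem_Sp {L : Finset (Finset ι)} {t : Finset ι} :
    t ∈ Sp L ↔ t.card = 3 ∧ t ∉ L ∧ ∀ u ∈ t, ∀ v ∈ t, u ≠ v → adj L u v := by
  unfold Sp
  rw [mem_filter, mem_powersetCard]
  constructor
  · rintro ⟨⟨h1, h2⟩, h3, h4⟩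
    exact ⟨h2, h3, fun u hu v hv huv => ⟨huv, h4 u hu v hv huv⟩⟩
  · rintro ⟨h2, h3, h4⟩
    refine ⟨⟨?_, h2⟩, h3, fun u hu v hv huv => (h4 u hu v hv huv).2⟩
    intro u hu
    have h1 : (t.erase u).Nonempty := by
      rw [← card_pos, card_erase_of_mem hu, h2]; norm_num
    obtain ⟨v, hv⟩ := h1
    rw [mem_erase] at hv
    exact adj_mem_left (h4 u hu v hv.2 (Ne.symm hv.1))

theorem mem_Bc {L : Finset (Finset ι)} {w : ι} :
    w ∈ Bc L ↔ w ∈ verts L ∧ (vd L w = 3 ∨ ∃ t ∈ Sp L, w ∈ t) := mem_filter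

theorem mem_Hv {D : ℕ} {L : Finset (Finset ι)} {w : ι} :
    w ∈ Hv D L ↔ w ∈ verts L ∧ D ≤ vd L w := mem_filter

theorem mem_Cl {D : ℕ} {L : Finset (Finset ι)} {w : ι} :
    w ∈ Cl D L ↔ w ∈ verts L ∧ w ∉ Bc L ∧ 4 ≤ vd L w ∧ vd L w ≤ 6 ∧ ¬ TwoHv D L w := by
  classical
  exact mem_filter

theorem mem_NA {D : ℕ} {L : Finset (Finset ι)} {w : ι} :
    w ∈ NA D L ↔ w ∈ verts L ∧ vd L w < D ∧ ¬ (vd L w = 4 ∧ TwoHv D L w) := by
  classical
  exact mem_filter

/-- The degree of `w` in the link of `x` is the number of facets containing `x` and `w`. -/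
theorem vd_link {F : Finset (Finset ι)} {x w : ι} (hxw : x ≠ w) :
    vd (link F x) w = dg F {x, w} := by
  unfold vd dg
  have h : (link F x).filter (fun t => w ∈ t) =
      (F.filter (fun s => ({x, w} : Finset ι) ⊆ s)).image (fun s => s.erase x) := by
    ext t
    rw [mem_filter, mem_link, mem_image]
    constructor
    · rintro ⟨⟨s, hs, hx, rfl⟩, hw⟩
      refine ⟨s, mem_filter.2 ⟨hs, ?_⟩, rfl⟩
      intro z hz
      simp only [mem_insert, mem_singleton] at hz
      rcases hz with rfl | rfl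
      · exact hx
      · exact mem_of_mem_erase hw
    · rintro ⟨s, hs, rfl⟩
      rw [mem_filter] at hs
      exact ⟨⟨s, hs.1, hs.2 (by simp), rfl⟩, mem_erase.2 ⟨hxw.symm, hs.2 (by simp)⟩⟩
  rw [h]
  apply card_image_of_injOn
  intro s hs t ht hst
  simp only [coe_filter, Set.mem_setOf_eq] at hs ht
  have h1 : insert x (s.erase x) = insert x (t.erase x) := by
    simp only at hst
    rw [hst]
  rwa [insert_erase (hs.2 (by simp)), insert_erase (ht.2 (by simp))] at h1

/-- In a closed 3-manifold every triangle is in exactly two facets. -/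
theorem two_facets {F : Finset (Finset ι)} (hF : IsMfd3 F) {t : Finset ι} (ht : t ∈ tris F) :
    (F.filter (fun s => t ⊆ s)).card = 2 := MfdPM_two hF t ht

end Pool.TSphH
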