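import Pool.Agent.Lib.MP_3de3a3_co.H.HDefs
import Pool.Agent.Lib.MP_3de3a3_co.LinkCyc
import Pool.Agent.Lib.MP_3de3a3_co.Move31

/-! # The facets at an edge (module HEdge)

PROOF. L = link F x is a 2-sphere, y a vertex of L; {x, y, p, q} in F iff {y, p, q} in L (x not in {y, p, q}, the facets have four elements).
* `tri_two`: the triangle t is in exactly two facets (`two_facets`).
* `edge4_close`: let a : Fin 4 -> ι be the link cycle of y in L (`exists_linkCycle`, `vd_link`); the four triangles {y, a j, a (j+1)} are different and vd L y = 4, so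
  {y, p, q} = {y, a j, a (j+1)} for some j; if p = a j take r = a (j+2), s = a (j+3); if q = a j, p = a (j+1): r = a (j-1), s = a (j-2).
* `edge_cycle3`: the set of the three triangles {y, p, q}, {y, q, r}, {y, r, p} of L is closed under adjacency through an edge containing y (each edge {y, p} is in exactly
  two triangles of L, `hL.edge`), so by `hL.star` these are all triangles of L at y.
* `edge_cycle4`: the same with four triangles. -/

set_option autoImplicit false

namespace Pool.TSphH

open Finset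
open Pool.TSph

variable {ι : Type*} [DecidableEq ι]

private theorem three_ne {a b c : ι} (h : ({a, b, c} : Finset ι).card = 3) :
    a ≠ b ∧ a ≠ c ∧ b ≠ c := by
  refine ⟨?_, ?_, ?_⟩
  · rintro rfl
    have : ({a, a, c} : Finset ι).card ≤ 2 := by
      rw [insert_eq_of_mem (mem_insert_self a {c})]; exact card_le_two
    omega
  · rintro rfl
    have : ({a, b, a} : Finset ι).card ≤ 2 := by
      rw [insert_eq_of_mem (by simp)]; exact card_le_two
    omega
  · rintro rfl
    have : ({a, b, b} : Finset ι).card ≤ 2 := by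
      rw [insert_eq_of_mem (a := b) (s := {b}) (by simp)]; exact card_le_two
    omega

private theorem four_ne {a b c d : ι} (h : ({a, b, c, d} : Finset ι).card = 4) :
    a ≠ b ∧ a ≠ c ∧ a ≠ d ∧ b ≠ c ∧ b ≠ d ∧ c ≠ d := by
  have ha : a ∉ ({b, c, d} : Finset ι) := by
    intro ha
    have : ({a, b, c, d} : Finset ι).card ≤ 3 := by
      rw [insert_eq_of_mem ha]; exact card_le_three
    omega
  have h3 : ({b, c, d} : Finset ι).card = 3 := by
    rw [card_insert_of_notMem ha] at h
    omega
  obtain ⟨h1, h2, h4⟩ := three_ne h3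
  simp only [mem_insert, mem_singleton, not_or] at ha
  exact ⟨ha.1, ha.2.1, ha.2.2, h1, h2, h4⟩

theorem tri_two {F : Finset (Finset ι)} (hF : IsMfd3 F) {t : Finset ι} (ht : t.card = 3)
    {u v w : ι} (hu : insert u t ∈ F) (hv : insert v t ∈ F) (hw : insert w t ∈ F) (huv : u ≠ v)
    (huw : u ≠ w) : v = w := by
  by_contra hvw
  have hnot : ∀ z, insert z t ∈ F → z ∉ t := by
    intro z hz h
    have h1 := hF.card4 _ hz
    rw [insert_eq_of_mem h] at h1
    omega
  have hne : ∀ y z, insert y t ∈ F → y ≠ z → insert y t ≠ insert z t := by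
    intro y z hy hyz h
    have h1 : y ∈ insert z t := by rw [← h]; exact mem_insert_self _ _
    rw [mem_insert] at h1
    rcases h1 with h1 | h1
    · exact hyz h1
    · exact hnot y hy h1
  have htr : t ∈ tris F := mem_tris.2 ⟨ht, _, hu, subset_insert _ _⟩
  have h2 := two_facets hF htr
  have hsub : ({insert u t, insert v t, insert w t} : Finset (Finset ι)) ⊆
      F.filter (fun s => t ⊆ s) := by
    intro s hs
    simp only [mem_insert, mem_singleton] at hs
    rw [mem_filter]
    rcases hs with rfl | rfl | rfl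
    · exact ⟨hu, subset_insert _ _⟩
    · exact ⟨hv, subset_insert _ _⟩
    · exact ⟨hw, subset_insert _ _⟩
  have h3 := card_le_card hsub
  rw [card_eq_three.2 ⟨_, _, _, hne u v hu huv, hne u w hu huw, hne v w hv hvw, rfl⟩] at h3
  omega

/-- membership in the link, for a pair -/
private theorem mem_lk {F : Finset (Finset ι)} (hF : IsMfd3 F) {x y p q : ι} :
    ({y, p, q} : Finset ι) ∈ link F x ↔ ({x, y, p, q} : Finset ι) ∈ F := by
  rw [mem_link']
  constructor
  · exact fun h => h.2
  · intro h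
    refine ⟨?_, h⟩
    obtain ⟨h1, h2, h3, -, -, -⟩ := four_ne (hF.card4 _ h)
    simp only [mem_insert, mem_singleton, not_or]
    exact ⟨h1, h2, h3⟩

private theorem sub3 {a b c : ι} : ({a, b} : Finset ι) ⊆ {a, b, c} := by
  intro z hz
  simp only [mem_insert, mem_singleton] at hz ⊢
  tauto

private theorem sub3' {a b c : ι} : ({a, c} : Finset ι) ⊆ {a, b, c} := by
  intro z hz
  simp only [mem_insert, mem_singleton] at hz ⊢
  tauto

private theorem tri_ne {y p q r : ι} (hyp : y ≠ p) (hpq : p ≠ q) (hpr : p ≠ r) {s : Finset ι}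
    (hs : s = {y, q, r}) : ({y, p} : Finset ι) ⊆ s → False := by
  intro h
  have h1 : p ∈ s := h (by simp)
  rw [hs] at h1
  simp only [mem_insert, mem_singleton] at h1
  rcases h1 with h1 | h1 | h1
  · exact hyp h1.symm
  · exact hpq h1
  · exact hpr h1

/-- A set of triangles at `y` which is closed under adjacency is the whole star of `y`. -/
private theorem star_all {L : Finset (Finset ι)} (hL : IsSphere2 L) {y : ι}
    {T : Finset (Finset ι)} (hT : ∀ t ∈ T, t ∈ L ∧ y ∈ t) (hne : T.Nonempty)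
    (hcl : ∀ t ∈ T, ∀ u ∈ t, u ≠ y → ∃ t1 ∈ T, ∃ t2 ∈ T, t1 ≠ t2 ∧ ({y, u} : Finset ι) ⊆ t1 ∧
      ({y, u} : Finset ι) ⊆ t2) : L.filter (fun t => y ∈ t) = T := by
  apply Subset.antisymm
  · intro s hs
    rw [mem_filter] at hs
    obtain ⟨t0, ht0⟩ := hne
    have h := hL.star y t0 (hT t0 ht0).1 s hs.1 (hT t0 ht0).2 hs.2
    clear hs
    induction h with
    | refl => exact ht0
    | @tail a b _ hab ih =>
      obtain ⟨hbL, hcard, hy⟩ := hab
      obtain ⟨u, hu, huy⟩ := Finset.exists_mem_ne (by rw [hcard]; norm_num) y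
      rw [mem_inter] at hu hy
      obtain ⟨t1, ht1, t2, ht2, h12, hs1, hs2⟩ := hcl a ih u hu.1 huy
      have hsb : ({y, u} : Finset ι) ⊆ b := by
        intro z hz
        simp only [mem_insert, mem_singleton] at hz
        rcases hz with rfl | rfl
        · exact hy.2
        · exact hu.2
      rcases Move31_pair hL (hT t1 ht1).1 (hT t2 ht2).1 h12 hs1 hs2 (card_pair (Ne.symm huy))
        hbL hsb with h | h
      · rw [h]; exact ht1
      · rw [h]; exact ht2
  · intro t ht
    rw [mem_filter]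
    exact hT t ht

theorem edge_cycle3 {F : Finset (Finset ι)} (hF : IsMfd3 F) {x y p q r : ι}
    (h1 : ({x, y, p, q} : Finset ι) ∈ F) (h2 : ({x, y, q, r} : Finset ι) ∈ F)
    (h3 : ({x, y, r, p} : Finset ι) ∈ F) : dg F {x, y} = 3 := by
  obtain ⟨hxy, hxp, hxq, hyp, hyq, hpq⟩ := four_ne (hF.card4 _ h1)
  obtain ⟨-, -, hxr, -, hyr, hqr⟩ := four_ne (hF.card4 _ h2)
  obtain ⟨-, -, -, -, -, hrp⟩ := four_ne (hF.card4 _ h3)
  have hL := hF.sphere x (mem_verts.2 ⟨_, h1, by simp⟩)
  have g1 := (mem_lk hF).2 h1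
  have g2 := (mem_lk hF).2 h2
  have g3 := (mem_lk hF).2 h3
  rw [← vd_link hxy]
  have n12 : ({y, p, q} : Finset ι) ≠ {y, q, r} := fun h => tri_ne hyp hpq hrp.symm h sub3
  have n23 : ({y, q, r} : Finset ι) ≠ {y, r, p} := fun h => tri_ne hyq hqr hpq.symm h sub3
  have n31 : ({y, r, p} : Finset ι) ≠ {y, p, q} := fun h => tri_ne hyr hrp hqr.symm h sub3
  have hst : (link F x).filter (fun t => y ∈ t) =
      ({{y, p, q}, {y, q, r}, {y, r, p}} : Finset (Finset ι)) := by
    apply star_all hL
    · intro t ht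
      simp only [mem_insert, mem_singleton] at ht
      rcases ht with rfl | rfl | rfl
      · exact ⟨g1, by simp⟩
      · exact ⟨g2, by simp⟩
      · exact ⟨g3, by simp⟩
    · exact ⟨{y, p, q}, by simp⟩
    · intro t ht u hu huy
      have key : u = p ∨ u = q ∨ u = r := by
        simp only [mem_insert, mem_singleton] at ht
        rcases ht with rfl | rfl | rfl <;> simp only [mem_insert, mem_singleton] at hu <;> tauto
      rcases key with rfl | rfl | rfl
      · exact ⟨{y, r, u}, by simp, {y, u, q}, by simp, n31, sub3', sub3⟩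
      · exact ⟨{y, p, u}, by simp, {y, u, r}, by simp, n12, sub3', sub3⟩
      · exact ⟨{y, q, u}, by simp, {y, u, p}, by simp, n23, sub3', sub3⟩
  unfold vd
  rw [hst]
  exact card_eq_three.2 ⟨_, _, _, n12, n31.symm, n23, rfl⟩

theorem edge_cycle4 {F : Finset (Finset ι)} (hF : IsMfd3 F) {x y p q r s : ι}
    (h1 : ({x, y, p, q} : Finset ι) ∈ F) (h2 : ({x, y, q, r} : Finset ι) ∈ F)
    (h3 : ({x, y, r, s} : Finset ι) ∈ F) (h4 : ({x, y, s, p} : Finset ι) ∈ F)
    (hpr : p ≠ r) (hqs : q ≠ s) : dg F {x, y} = 4 := by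
  obtain ⟨hxy, hxp, hxq, hyp, hyq, hpq⟩ := four_ne (hF.card4 _ h1)
  obtain ⟨-, -, hxr, -, hyr, hqr⟩ := four_ne (hF.card4 _ h2)
  obtain ⟨-, -, hxs, -, hys, hrs⟩ := four_ne (hF.card4 _ h3)
  obtain ⟨-, -, -, -, -, hsp⟩ := four_ne (hF.card4 _ h4)
  have hL := hF.sphere x (mem_verts.2 ⟨_, h1, by simp⟩)
  have g1 := (mem_lk hF).2 h1
  have g2 := (mem_lk hF).2 h2
  have g3 := (mem_lk hF).2 h3
  have g4 := (mem_lk hF).2 h4
  rw [← vd_link hxy]
  have n12 : ({y, p, q} : Finset ι) ≠ {y, q, r} := fun h => tri_ne hyp hpq hpr h sub3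
  have n23 : ({y, q, r} : Finset ι) ≠ {y, r, s} := fun h => tri_ne hyq hqr hqs h sub3
  have n34 : ({y, r, s} : Finset ι) ≠ {y, s, p} := fun h => tri_ne hyr hrs hpr.symm h sub3
  have n41 : ({y, s, p} : Finset ι) ≠ {y, p, q} := fun h => tri_ne hys hsp hqs.symm h sub3
  have n13 : ({y, p, q} : Finset ι) ≠ {y, r, s} := fun h => tri_ne hyp hpr hsp.symm h sub3
  have n24 : ({y, q, r} : Finset ι) ≠ {y, s, p} := fun h => tri_ne hyq hqs hpq.symm h sub3
  have hst : (link F x).filter (fun t => y ∈ t) =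
      ({{y, p, q}, {y, q, r}, {y, r, s}, {y, s, p}} : Finset (Finset ι)) := by
    apply star_all hL
    · intro t ht
      simp only [mem_insert, mem_singleton] at ht
      rcases ht with rfl | rfl | rfl | rfl
      · exact ⟨g1, by simp⟩
      · exact ⟨g2, by simp⟩
      · exact ⟨g3, by simp⟩
      · exact ⟨g4, by simp⟩
    · exact ⟨{y, p, q}, by simp⟩
    · intro t ht u hu huy
      have key : u = p ∨ u = q ∨ u = r ∨ u = s := by
        simp only [mem_insert, mem_singleton] at ht
        rcases ht with rfl | rfl | rfl | rfl <;> simp only [mem_insert, mem_singleton] at hu <;>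
          tauto
      rcases key with rfl | rfl | rfl | rfl
      · exact ⟨{y, s, u}, by simp, {y, u, q}, by simp, n41, sub3', sub3⟩
      · exact ⟨{y, p, u}, by simp, {y, u, r}, by simp, n12, sub3', sub3⟩
      · exact ⟨{y, q, u}, by simp, {y, u, s}, by simp, n23, sub3', sub3⟩
      · exact ⟨{y, r, u}, by simp, {y, u, p}, by simp, n34, sub3', sub3⟩
  unfold vd
  rw [hst, card_insert_of_notMem, card_eq_three.2 ⟨_, _, _, n23, n24, n34, rfl⟩]
  simp only [mem_insert, mem_singleton, not_or]
  exact ⟨n12, n13, n41.symm⟩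

private theorem fin4_a : ∀ j : Fin 4, j ≠ j + 1 + 1 := by decide
private theorem fin4_b : ∀ j : Fin 4, j ≠ j + 1 := by decide
private theorem fin4_c : ∀ j : Fin 4, j + 3 + 1 = j := by decide
private theorem fin4_d : ∀ j : Fin 4, j + 2 + 1 = j + 3 := by decide
private theorem fin4_e : ∀ j : Fin 4, j + 1 + 1 = j + 2 := by decide
private theorem fin4_f : ∀ j : Fin 4, j + 3 ≠ j + 1 := by decide
private theorem fin4_g : ∀ j : Fin 4, j + 2 ≠ j := by decide

theorem edge4_close {F : Finset (Finset ι)} (hF : IsMfd3 F) {x y p q : ι}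
    (h : ({x, y, p, q} : Finset ι) ∈ F) (h4 : dg F {x, y} = 4) :
    ∃ r s, ({x, y, q, r} : Finset ι) ∈ F ∧ ({x, y, r, s} : Finset ι) ∈ F ∧
      ({x, y, s, p} : Finset ι) ∈ F ∧ r ≠ p ∧ s ≠ q := by
  obtain ⟨hxy, hxp, hxq, hyp, hyq, hpq⟩ := four_ne (hF.card4 _ h)
  have hL := hF.sphere x (mem_verts.2 ⟨_, h, by simp⟩)
  have g := (mem_lk hF).2 h
  have hy : y ∈ verts (link F x) := mem_verts.2 ⟨_, g, by simp⟩
  have hd : ((link F x).filter (fun t => y ∈ t)).card = 4 := by
    have := vd_link (F := F) hxy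
    rw [h4] at this
    exact this
  obtain ⟨a, ha⟩ := exists_linkCycle hL hy hd
  have hT : ∀ i, ({x, y, a i, a (i + 1)} : Finset ι) ∈ F := fun i => (mem_lk hF).1 (ha.tri i)
  have hT' : ∀ i, ({x, y, a (i + 1), a i} : Finset ι) ∈ F := fun i => by
    rw [Finset.pair_comm (a (i + 1)) (a i)]
    exact hT i
  obtain ⟨i, hi⟩ := (ha.all p).1 ⟨hyp, _, g, by simp, by simp⟩
  have hj : ∃ j : Fin 4, j + 1 = i := ⟨i - 1, by simp⟩
  obtain ⟨j, hj⟩ := hj
  have e1 : ({y, a i, a (i + 1)} : Finset ι) ∈ link F x := ha.tri i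
  have e2 : ({y, a j, a i} : Finset ι) ∈ link F x := by
    have := ha.tri j
    rwa [hj] at this
  have hne2 : a j ≠ a (i + 1) := fun h => by
    have h1 := ha.inj h
    rw [← hj] at h1
    exact fin4_a j h1
  have hne : ({y, a j, a i} : Finset ι) ≠ {y, a i, a (i + 1)} := fun h => by
    refine tri_ne (ha.ne j).symm ?_ hne2 h sub3
    intro h1
    have h2 := ha.inj h1
    rw [← hj] at h2
    exact fin4_b j h2
  rw [hi] at g h
  rcases Move31_pair hL e2 e1 hne sub3' sub3 (card_pair (ha.ne i).symm) g sub3 with h1 | h1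
  · -- q = a j
    have hq : q = a j := by
      have h2 : q ∈ ({y, a j, a i} : Finset ι) := by rw [← h1]; simp
      simp only [mem_insert, mem_singleton] at h2
      rcases h2 with h2 | h2 | h2
      · exact absurd h2.symm hyq
      · exact h2
      · rw [← hi] at h2
        exact absurd h2.symm hpq
    subst hq hi
    refine ⟨a (j + 3), a (j + 2), ?_, ?_, ?_, ?_, ?_⟩
    · have := hT' (j + 3)
      rwa [fin4_c j] at this
    · have := hT' (j + 2)
      rwa [fin4_d j] at this
    · have := hT' (j + 1)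
      rwa [fin4_e j, hj] at this
    · intro h2
      have h3 := ha.inj h2
      rw [← hj] at h3
      exact fin4_f j h3
    · intro h2
      exact fin4_g j (ha.inj h2)
  · have hq : q = a (i + 1) := by
      have h2 : q ∈ ({y, a i, a (i + 1)} : Finset ι) := by rw [← h1]; simp
      simp only [mem_insert, mem_singleton] at h2
      rcases h2 with h2 | h2 | h2
      · exact absurd h2.symm hyq
      · rw [← hi] at h2
        exact absurd h2.symm hpq
      · exact h2
    subst hq hi
    refine ⟨a (i + 2), a (i + 3), ?_, ?_, ?_, ?_, ?_⟩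
    · have := hT (i + 1)
      rwa [fin4_e i] at this
    · have := hT (i + 2)
      rwa [fin4_d i] at this
    · have := hT (i + 3)
      rwa [fin4_c i] at this
    · intro h2
      exact fin4_g i (ha.inj h2)
    · intro h2
      exact fin4_f i (ha.inj h2)

end Pool.TSphH
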