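import Pool.Agent.Lib.MP_3de3a3_co.H.HDefs
import Pool.Agent.Lib.MP_3de3a3_co.H.HMove31
import Pool.Agent.Lib.MP_3de3a3_co.Flip

/-! # Removing a vertex by a fan (module HFan)

PROOF. Induction on d >= 3. d = 3: `move31x` with (a, b, c) = (p 0, p 1, p 2): Ico 1 2 = {1}, insert {p 0, p 1, p 2} (L.filter (w ∉ ·)). d >= 4: {w, p 0, p 1} and {w, p 1, p 2} are in L, p 0 and p 2 are not adjacent
(hypothesis for k = 2, 3 < d); `flip` with (u, v, x, y) = (w, p 1, p 0, p 2): L1 = (L - {{w, p 1, p 0}, {w, p 1, p 2}}) union {{p 0, p 2, w}, {p 0, p 2, p 1}}, a sphere with the same vertices, with one new edge p 0 p 2 and without the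
edge w p 1. Use the induction hypothesis for L1 and the sequence p' 0 = p 0, p' i = p (i + 1) for i >= 1, of length d - 1. L1.filter (w ∉ ·) = L.filter (w ∉ ·) union {{p 0, p 1, p 2}}; together with the
{p 0, p (k+1), p (k+2)}, 1 <= k < d - 2, this is the complex of the theorem. The other triangles {w, p i, p (i+1)}, i >= 2, and {w, p (d-1), p 0} of L are not removed (p injective); p 0, p k (k >= 3) are not adjacent in L1. -/

set_option autoImplicit false

namespace Pool.TSphH

open Finset
open Pool.TSph

variable {ι : Type*} [DecidableEq ι]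

/-- The complex after removing `w` and triangulating the polygon `p 0, …, p (d - 1)` by the fan at
`p 0`. -/
def fanC (L : Finset (Finset ι)) (w : ι) (p : ℕ → ι) (d : ℕ) : Finset (Finset ι) :=
  L.filter (fun t => w ∉ t) ∪ (Ico 1 (d - 1)).image (fun k => {p 0, p k, p (k + 1)})

theorem mem_fanC {L : Finset (Finset ι)} {w : ι} {p : ℕ → ι} {d : ℕ} {t : Finset ι} :
    t ∈ fanC L w p d ↔ (t ∈ L ∧ w ∉ t) ∨ ∃ k, 1 ≤ k ∧ k + 1 < d ∧ ({p 0, p k, p (k + 1)} : Finset ι) = t := by
  unfold fanC
  rw [mem_union, mem_filter, mem_image]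
  constructor
  · rintro (h | ⟨k, hk, rfl⟩)
    · exact Or.inl h
    · rw [mem_Ico] at hk
      exact Or.inr ⟨k, hk.1, by omega, rfl⟩
  · rintro (h | ⟨k, hk, hk', rfl⟩)
    · exact Or.inl h
    · exact Or.inr ⟨k, by rw [mem_Ico]; omega, rfl⟩

private theorem fan_aux (n : ℕ) : ∀ (L : Finset (Finset ι)), IsSphere2 L → ∀ (w : ι)
    (p : ℕ → ι), 5 ≤ (verts L).card → (∀ i < n + 3, ∀ j < n + 3, p i = p j → i = j) →
    (∀ i < n + 3, p i ≠ w) → (∀ i, i + 1 < n + 3 → ({w, p i, p (i + 1)} : Finset ι) ∈ L) →
    ({w, p (n + 2), p 0} : Finset ι) ∈ L →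
    (∀ k, 2 ≤ k → k + 1 < n + 3 → ¬ adj L (p 0) (p k)) →
    IsSphere2 (fanC L w p (n + 3)) ∧ verts (fanC L w p (n + 3)) = (verts L).erase w := by
  induction n with
  | zero =>
    intro L hL w p hV hp hw ht ht' hn
    have h := move31x hL (w := w) (a := p 0) (b := p 1) (c := p 2) (ht 0 (by omega)) (ht 1 (by omega)) ht' hV
      (fun h => absurd (hp 0 (by omega) 1 (by omega) h) (by omega))
      (fun h => absurd (hp 1 (by omega) 2 (by omega) h) (by omega))
      (fun h => absurd (hp 2 (by omega) 0 (by omega) h) (by omega))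
    have e : fanC L w p (0 + 3) = insert {p 0, p 1, p 2} (L.filter (fun t => w ∉ t)) := by
      ext t
      rw [mem_fanC, mem_insert, mem_filter]
      constructor
      · rintro (h | ⟨k, hk, hk', rfl⟩)
        · exact Or.inr h
        · obtain rfl : k = 1 := by omega
          exact Or.inl rfl
      · rintro (rfl | h)
        · exact Or.inr ⟨1, le_rfl, by omega, rfl⟩
        · exact Or.inl h
    rw [e]
    exact h
  | succ n ih =>
    intro L hL w p hV hp hw ht ht' hn
    have hne : ∀ i j, i < n + 4 → j < n + 4 → i ≠ j → p i ≠ p j := fun i j hi hj hij h => hij (hp i hi j hj h)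
    have hx : ({w, p 1, p 0} : Finset ι) ∈ L := by
      have h := ht 0 (by omega)
      have e : ({w, p 1, p 0} : Finset ι) = {w, p 0, p (0 + 1)} := by
        ext z; simp only [mem_insert, mem_singleton]; tauto
      rw [e]; exact h
    have hy : ({w, p 1, p 2} : Finset ι) ∈ L := ht 1 (by omega)
    obtain ⟨L1, hL1, hS, hv, hadj⟩ := flip hL (hne 0 2 (by omega) (by omega) (by omega)) hx hy
      (hn 2 le_rfl (by omega))
    have mem1 : ∀ t, t ∈ L1 ↔ (t ∈ L ∧ t ≠ {w, p 1, p 0} ∧ t ≠ {w, p 1, p 2}) ∨ t = {p 0, p 2, w} ∨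
        t = {p 0, p 2, p 1} := by
      intro t
      rw [hL1]
      simp only [mem_union, mem_sdiff, mem_insert, mem_singleton, not_or]
    obtain ⟨q, hq⟩ : ∃ q : ℕ → ι, q = fun i => if i = 0 then p 0 else p (i + 1) := ⟨_, rfl⟩
    have q0 : q 0 = p 0 := by rw [hq]; rfl
    have q1 : ∀ i, 1 ≤ i → q i = p (i + 1) := by
      intro i hi
      rw [hq]
      exact if_neg (by omega)
    have hkeep : ∀ t ∈ L, ∀ j, 3 ≤ j → j < n + 4 → p j ∈ t → t ∈ L1 := by
      intro t ht j hj hj' hjt
      rw [mem1]
      refine Or.inl ⟨ht, ?_, ?_⟩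
      · rintro rfl
        simp only [mem_insert, mem_singleton] at hjt
        rcases hjt with h | h | h
        · exact hw j hj' h
        · exact hne j 1 hj' (by omega) (by omega) h
        · exact hne j 0 hj' (by omega) (by omega) h
      · rintro rfl
        simp only [mem_insert, mem_singleton] at hjt
        rcases hjt with h | h | h
        · exact hw j hj' h
        · exact hne j 1 hj' (by omega) (by omega) h
        · exact hne j 2 hj' (by omega) (by omega) h
    have h := ih L1 hS w q (by rw [hv]; exact hV) ?_ ?_ ?_ ?_ ?_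
    · have e : fanC L1 w q (n + 3) = fanC L w p (n + 1 + 3) := by
        ext t
        rw [mem_fanC, mem_fanC, mem1]
        constructor
        · rintro (⟨(h | rfl | rfl), hwt⟩ | ⟨k, hk, hk', rfl⟩)
          · exact Or.inl ⟨h.1, hwt⟩
          · exact absurd (by simp) hwt
          · refine Or.inr ⟨1, le_rfl, by omega, ?_⟩
            ext z; simp only [mem_insert, mem_singleton]; tauto
          · refine Or.inr ⟨k + 1, by omega, by omega, ?_⟩
            rw [q0, q1 k hk, q1 (k + 1) (by omega)]
        · rintro (⟨h, hwt⟩ | ⟨k, hk, hk', rfl⟩)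
          · refine Or.inl ⟨Or.inl ⟨h, ?_, ?_⟩, hwt⟩
            · rintro rfl; exact hwt (by simp)
            · rintro rfl; exact hwt (by simp)
          · by_cases hk1 : k = 1
            · subst hk1
              refine Or.inl ⟨Or.inr (Or.inr ?_), ?_⟩
              · ext z; simp only [mem_insert, mem_singleton]; tauto
              · simp only [mem_insert, mem_singleton]
                rintro (h | h | h)
                · exact hw 0 (by omega) h.symm
                · exact hw 1 (by omega) h.symm
                · exact hw 2 (by omega) h.symm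
            · refine Or.inr ⟨k - 1, by omega, by omega, ?_⟩
              rw [q0, q1 (k - 1) (by omega), q1 (k - 1 + 1) (by omega)]
              have e1 : k - 1 + 1 = k := by omega
              rw [e1]
      rw [e, hv] at h
      exact h
    · intro i hi j hj hij
      by_cases hi0 : i = 0
      · by_cases hj0 : j = 0
        · omega
        · subst hi0
          rw [q0, q1 j (by omega)] at hij
          exact absurd hij (hne 0 (j + 1) (by omega) (by omega) (by omega))
      · by_cases hj0 : j = 0
        · subst hj0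
          rw [q0, q1 i (by omega)] at hij
          exact absurd hij (hne (i + 1) 0 (by omega) (by omega) (by omega))
        · rw [q1 i (by omega), q1 j (by omega)] at hij
          have := hp (i + 1) (by omega) (j + 1) (by omega) hij
          omega
    · intro i hi
      by_cases hi0 : i = 0
      · subst hi0; rw [q0]; exact hw 0 (by omega)
      · rw [q1 i (by omega)]; exact hw (i + 1) (by omega)
    · intro i hi
      by_cases hi0 : i = 0
      · subst hi0
        rw [q0, q1 (0 + 1) (by omega), mem1]
        refine Or.inr (Or.inl ?_)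
        ext z; simp only [mem_insert, mem_singleton]; tauto
      · rw [q1 i (by omega), q1 (i + 1) (by omega)]
        exact hkeep _ (ht (i + 1) (by omega)) (i + 1 + 1) (by omega) (by omega) (by simp)
    · rw [q0, q1 (n + 2) (by omega)]
      exact hkeep _ ht' (n + 2 + 1) (by omega) (by omega) (by simp)
    · intro k hk hk' hadj1
      rw [q0, q1 k (by omega), hadj] at hadj1
      rcases hadj1 with ⟨h1, -⟩ | ⟨-, h1⟩ | ⟨h1, -⟩
      · exact hn (k + 1) (by omega) (by omega) h1
      · exact hne (k + 1) 2 (by omega) (by omega) (by omega) h1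
      · exact hne 0 2 (by omega) (by omega) (by omega) h1

theorem fan {d : ℕ} (hd : 3 ≤ d) {L : Finset (Finset ι)} (hL : IsSphere2 L) {w : ι}
    {p : ℕ → ι} (hV : 5 ≤ (verts L).card) (hp : ∀ i < d, ∀ j < d, p i = p j → i = j)
    (hw : ∀ i < d, p i ≠ w) (ht : ∀ i, i + 1 < d → ({w, p i, p (i + 1)} : Finset ι) ∈ L)
    (ht' : ({w, p (d - 1), p 0} : Finset ι) ∈ L)
    (hn : ∀ k, 2 ≤ k → k + 1 < d → ¬ adj L (p 0) (p k)) :
    IsSphere2 (fanC L w p d) ∧ verts (fanC L w p d) = (verts L).erase w := by
  obtain ⟨n, rfl⟩ : ∃ n, d = n + 3 := ⟨d - 3, by omega⟩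
  exact fan_aux n L hL w p hV hp hw ht ht' hn

end Pool.TSphH
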