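import Pool.Agent.Lib.MP_3de3a3_co.H.HFanK
import Pool.Agent.Lib.MP_3de3a3_co.BetaInt

/-! # The integral of the fan bound (module HFanInt)

PROOF. Let c_k be the sum of arcs B - 1 (natural subtraction) over the B with k elements. `decide` gives: d = 4: c_2 = 2, the others 0; d = 5: c_2 = c_3 = 5, the others 0; d = 6: c_2 = 9, c_3 = 16, c_4 = 9, the others 0.
So the integrand is p (1-p)^d + sum_k c_k p^k (1-p)^(d-k) (3/2) (k/d - p + 1/6)^2 (group the sum over B by the cardinality: `Finset.sum_fiberwise` or `Finset.sum_comm`). Expand the square with m = k/d + 1/6: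
m^2 p^k (1-p)^(d-k) - 2 m p^(k+1) (1-p)^(d-k) + p^(k+2) (1-p)^(d-k), `integral_beta`. The values are 5/126 (d = 4), 139/3600 (d = 5), 1/24 (d = 6). -/

set_option autoImplicit false

namespace Pool.TSphH

open Finset
open Pool.TSph

/-- The bound for the average over the fans. -/
noncomputable def betaF (d : ℕ) [NeZero d] (B : Finset (Fin d)) (p : ℝ) : ℝ :=
  if B = ∅ then p else ((arcs B - 1 : ℕ) : ℝ) * (3 / 2 * ((B.card : ℝ) / d - p + 1 / 6) ^ 2)

theorem betaF_cont (d : ℕ) [NeZero d] (B : Finset (Fin d)) : Continuous (betaF d B) := by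
  unfold betaF
  split_ifs <;> fun_prop

private theorem int_comb {n : ℕ} (c : Fin n → ℝ) (a b : Fin n → ℕ) :
    ∫ p in (0:ℝ)..1, ∑ i, c i * (p ^ (a i) * (1 - p) ^ (b i)) =
      ∑ i, c i * (((a i).factorial : ℝ) * (b i).factorial / (a i + b i + 1).factorial) := by
  rw [intervalIntegral.integral_finsetSum]
  · refine sum_congr rfl ?_
    intro i _
    rw [intervalIntegral.integral_const_mul, integral_beta]
  · intro i _
    apply Continuous.intervalIntegrable
    fun_prop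

private theorem sum_arcs (d : ℕ) [NeZero d] (h : ℕ → ℝ) :
    ∑ B : Finset (Fin d), ((arcs B - 1 : ℕ) : ℝ) * h B.card =
      ∑ k ∈ range (d + 1),
        ((∑ B ∈ univ.filter (fun B : Finset (Fin d) => B.card = k), (arcs B - 1) : ℕ) : ℝ) * h k := by
  rw [← Finset.sum_fiberwise_of_maps_to (s := univ) (t := range (d + 1))
    (g := fun B : Finset (Fin d) => B.card)]
  · refine sum_congr rfl ?_
    intro k _
    rw [Nat.cast_sum, sum_mul]
    refine sum_congr rfl ?_
    intro B hB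
    rw [(mem_filter.1 hB).2]
  · intro B _
    rw [mem_range]
    have := card_le_univ B
    rw [Fintype.card_fin] at this
    omega

private theorem sum_beta (d : ℕ) [NeZero d] (p : ℝ) :
    ∑ B : Finset (Fin d), p ^ B.card * (1 - p) ^ (d - B.card) * betaF d B p =
      p * (1 - p) ^ d + ∑ k ∈ range (d + 1),
        ((∑ B ∈ univ.filter (fun B : Finset (Fin d) => B.card = k), (arcs B - 1) : ℕ) : ℝ) *
          (p ^ k * (1 - p) ^ (d - k) * (3 / 2 * ((k : ℝ) / d - p + 1 / 6) ^ 2)) := by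
  have h1 : ∀ B : Finset (Fin d), p ^ B.card * (1 - p) ^ (d - B.card) * betaF d B p =
      (if B = ∅ then p * (1 - p) ^ d else 0) + ((arcs B - 1 : ℕ) : ℝ) *
        (fun k : ℕ => p ^ k * (1 - p) ^ (d - k) * (3 / 2 * ((k : ℝ) / d - p + 1 / 6) ^ 2)) B.card := by
    intro B
    unfold betaF
    split_ifs with hB
    · subst hB
      simp [arcs]
      ring
    · simp only [zero_add]
      ring
  rw [sum_congr rfl (fun B _ => h1 B), sum_add_distrib,
    sum_arcs d (fun k : ℕ => p ^ k * (1 - p) ^ (d - k) * (3 / 2 * ((k : ℝ) / d - p + 1 / 6) ^ 2)),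
    sum_ite_eq' univ ∅]
  simp

theorem betaF_int4 : ∫ p in (0:ℝ)..1, ∑ B : Finset (Fin 4),
    p ^ B.card * (1 - p) ^ (4 - B.card) * betaF 4 B p ≤ 1 / 24 := by
  have h : ∀ p : ℝ, ∑ B : Finset (Fin 4), p ^ B.card * (1 - p) ^ (4 - B.card) * betaF 4 B p =
      ∑ i : Fin 4, (![1, 4 / 3, -4, 3] : Fin 4 → ℝ) i *
        (p ^ ((![1, 2, 3, 4] : Fin 4 → ℕ) i) * (1 - p) ^ ((![4, 2, 2, 2] : Fin 4 → ℕ) i)) := by
    intro p
    rw [sum_beta]
    have c0 : (∑ B ∈ univ.filter (fun B : Finset (Fin 4) => B.card = 0), (arcs B - 1)) = 0 := by decide +kernel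
    have c1 : (∑ B ∈ univ.filter (fun B : Finset (Fin 4) => B.card = 1), (arcs B - 1)) = 0 := by decide +kernel
    have c2 : (∑ B ∈ univ.filter (fun B : Finset (Fin 4) => B.card = 2), (arcs B - 1)) = 2 := by decide +kernel
    have c3 : (∑ B ∈ univ.filter (fun B : Finset (Fin 4) => B.card = 3), (arcs B - 1)) = 0 := by decide +kernel
    have c4 : (∑ B ∈ univ.filter (fun B : Finset (Fin 4) => B.card = 4), (arcs B - 1)) = 0 := by decide +kernel
    simp only [sum_range_succ, sum_range_zero, c0, c1, c2, c3, c4]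
    simp [Fin.sum_univ_succ]
    ring
  simp_rw [h]
  rw [int_comb]
  simp [Fin.sum_univ_succ, Nat.factorial]
  norm_num

theorem betaF_int5 : ∫ p in (0:ℝ)..1, ∑ B : Finset (Fin 5),
    p ^ B.card * (1 - p) ^ (5 - B.card) * betaF 5 B p ≤ 1 / 24 := by
  have h : ∀ p : ℝ, ∑ B : Finset (Fin 5), p ^ B.card * (1 - p) ^ (5 - B.card) * betaF 5 B p =
      ∑ i : Fin 7, (![1, 15 / 2 * (17 / 30) ^ 2, -(17 / 2), 15 / 2, 15 / 2 * (23 / 30) ^ 2, -(23 / 2), 15 / 2] : Fin 7 → ℝ) i *
        (p ^ ((![1, 2, 3, 4, 3, 4, 5] : Fin 7 → ℕ) i) * (1 - p) ^ ((![5, 3, 3, 3, 2, 2, 2] : Fin 7 → ℕ) i)) := by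
    intro p
    rw [sum_beta]
    have c0 : (∑ B ∈ univ.filter (fun B : Finset (Fin 5) => B.card = 0), (arcs B - 1)) = 0 := by decide +kernel
    have c1 : (∑ B ∈ univ.filter (fun B : Finset (Fin 5) => B.card = 1), (arcs B - 1)) = 0 := by decide +kernel
    have c2 : (∑ B ∈ univ.filter (fun B : Finset (Fin 5) => B.card = 2), (arcs B - 1)) = 5 := by decide +kernel
    have c3 : (∑ B ∈ univ.filter (fun B : Finset (Fin 5) => B.card = 3), (arcs B - 1)) = 5 := by decide +kernel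
    have c4 : (∑ B ∈ univ.filter (fun B : Finset (Fin 5) => B.card = 4), (arcs B - 1)) = 0 := by decide +kernel
    have c5 : (∑ B ∈ univ.filter (fun B : Finset (Fin 5) => B.card = 5), (arcs B - 1)) = 0 := by decide +kernel
    simp only [sum_range_succ, sum_range_zero, c0, c1, c2, c3, c4, c5]
    simp [Fin.sum_univ_succ]
    ring
  simp_rw [h]
  rw [int_comb]
  simp [Fin.sum_univ_succ, Nat.factorial]
  norm_num

theorem betaF_int6 : ∫ p in (0:ℝ)..1, ∑ B : Finset (Fin 6),
    p ^ B.card * (1 - p) ^ (6 - B.card) * betaF 6 B p ≤ 1 / 24 := by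
  have h : ∀ p : ℝ, ∑ B : Finset (Fin 6), p ^ B.card * (1 - p) ^ (6 - B.card) * betaF 6 B p =
      ∑ i : Fin 10, (![1, 27 / 8, -(27 / 2), 27 / 2, 32 / 3, -32, 24, 75 / 8, -(45 / 2), 27 / 2] : Fin 10 → ℝ) i *
        (p ^ ((![1, 2, 3, 4, 3, 4, 5, 4, 5, 6] : Fin 10 → ℕ) i) *
          (1 - p) ^ ((![6, 4, 4, 4, 3, 3, 3, 2, 2, 2] : Fin 10 → ℕ) i)) := by
    intro p
    rw [sum_beta]
    have c0 : (∑ B ∈ univ.filter (fun B : Finset (Fin 6) => B.card = 0), (arcs B - 1)) = 0 := by decide +kernel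
    have c1 : (∑ B ∈ univ.filter (fun B : Finset (Fin 6) => B.card = 1), (arcs B - 1)) = 0 := by decide +kernel
    have c2 : (∑ B ∈ univ.filter (fun B : Finset (Fin 6) => B.card = 2), (arcs B - 1)) = 9 := by decide +kernel
    have c3 : (∑ B ∈ univ.filter (fun B : Finset (Fin 6) => B.card = 3), (arcs B - 1)) = 16 := by decide +kernel
    have c4 : (∑ B ∈ univ.filter (fun B : Finset (Fin 6) => B.card = 4), (arcs B - 1)) = 9 := by decide +kernel
    have c5 : (∑ B ∈ univ.filter (fun B : Finset (Fin 6) => B.card = 5), (arcs B - 1)) = 0 := by decide +kernel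
    have c6 : (∑ B ∈ univ.filter (fun B : Finset (Fin 6) => B.card = 6), (arcs B - 1)) = 0 := by decide +kernel
    simp only [sum_range_succ, sum_range_zero, c0, c1, c2, c3, c4, c5, c6]
    simp [Fin.sum_univ_succ]
    ring
  simp_rw [h]
  rw [int_comb]
  simp [Fin.sum_univ_succ, Nat.factorial]
  norm_num

end Pool.TSphH
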