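import Pool.Agent.Lib.MP_3de3a3_co.H.HDefs
import Pool.Agent.Lib.MP_3de3a3_co.Comp

/-! # Components after inserting a vertex (module HFanK)

PROOF. Write [u] = S.filter (cn A S u) for the class of u in S, N = the neighbours of w in S. See CompA.lean, CompB.lean, CompC.lean for the tools (`comp` is the number of the classes; `cn_symm`, `comp_insert_two`, ...).
* `comp_insert_nbrs`: in insert w S the classes of S meeting N are merged into one class together with w, the other classes do not change. So comp A (insert w S) = comp A S - (number of classes meeting N) + 1. (Induction on N is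
 possible too.)
* `comp_hub`: for u, v in S: cn A' S u v iff cn A (insert w S) u v: an edge u h of A' with u a neighbour of w is replaced by the path u, w, h in insert w S; a path u, w, v in insert w S is replaced by u, h, v in A'. The class of w in
 insert w S contains h, so the classes of insert w S correspond to the classes of S under cn A' S.
* `arcs_bound`: if B = univ then all a i are in one class (a i, a (i+1) are adjacent and in S). Otherwise from every i in B we reach, by i, i+1, i+2, ... inside B, an element j of B with j + 1 not in B, and a j is in the class of a i;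
 so the classes are the classes of the a j with j in B, j + 1 not in B. -/

set_option autoImplicit false

namespace Pool.TSphH

open Finset
open Pool.TSph

variable {ι : Type*} [DecidableEq ι]

/-- The number of cyclic intervals of `B` (`0` if `B` is everything). -/
def arcs {d : ℕ} [NeZero d] (B : Finset (Fin d)) : ℕ := (B.filter (fun i => i + 1 ∉ B)).card

open Classical in
theorem comp_insert_nbrs {A : ι → ι → Prop} (hA : ∀ u v, A u v → A v u) {S : Finset ι} {w : ι}
    (hw : w ∉ S) (hne : ∃ u ∈ S, A w u) :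
    comp A (insert w S) +
      ((S.filter (fun u => A w u)).image (fun u => S.filter (fun v => cn A S u v))).card =
        comp A S + 1 := by
  have hwS : w ∈ insert w S := mem_insert_self w S
  have hcl0 : (fun u => S.filter (fun v => cn A S u v)) = CompA_cl A S := rfl
  rw [hcl0]
  set R : Finset (Finset ι) := (S.filter (fun a => ∀ u ∈ S, A w u → ¬ cn A S a u)).image (CompA_cl A S) with hR
  have memR : ∀ T, T ∈ R ↔ ∃ a ∈ S, (∀ u ∈ S, A w u → ¬ cn A S a u) ∧ CompA_cl A S a = T := by
    intro T
    rw [hR, mem_image]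
    constructor
    · rintro ⟨a, ha, rfl⟩
      rw [mem_filter] at ha
      exact ⟨a, ha.1, ha.2, rfl⟩
    · rintro ⟨a, ha, h1, rfl⟩
      exact ⟨a, mem_filter.2 ⟨ha, h1⟩, rfl⟩
  have hfar : ∀ a ∈ S, (∀ u ∈ S, A w u → ¬ cn A S a u) → ∀ b, cn A (insert w S) a b → b ∈ S ∧ cn A S a b := by
    intro a ha hfa b hab
    induction hab with
    | refl => exact ⟨ha, Relation.ReflTransGen.refl⟩
    | tail h0 h4 ih =>
      rename_i u v
      rcases mem_insert.1 h4.1 with h5 | h5
      · exact absurd ih.2 (hfa u ih.1 (hA _ _ (h5 ▸ h4.2)))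
      · exact ⟨h5, Relation.ReflTransGen.tail ih.2 ⟨h5, h4.2⟩⟩
  have hcl : ∀ a ∈ S, (∀ u ∈ S, A w u → ¬ cn A S a u) → CompA_cl A (insert w S) a = CompA_cl A S a := by
    intro a ha h1
    ext b
    rw [CompA_mem_cl, CompA_mem_cl]
    exact ⟨fun h => hfar a ha h1 b h.2, fun h => ⟨mem_insert_of_mem h.1, CompC_mono w h.2⟩⟩
  have hnear : ∀ a ∈ S, (∃ u ∈ S, A w u ∧ cn A S a u) → CompA_cl A (insert w S) a = CompA_cl A (insert w S) w := by
    rintro a ha ⟨u, hu, hwu, hau⟩
    exact CompA_cl_eq hA (mem_insert_of_mem ha)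
      (Relation.ReflTransGen.tail (CompC_mono w hau) ⟨hwS, hA _ _ hwu⟩)
  have himg : (insert w S).image (CompA_cl A (insert w S)) = insert (CompA_cl A (insert w S) w) R := by
    ext T
    rw [mem_image, mem_insert, memR]
    constructor
    · rintro ⟨a, ha, rfl⟩
      rcases mem_insert.1 ha with rfl | ha
      · exact Or.inl rfl
      · by_cases hna : ∃ u ∈ S, A w u ∧ cn A S a u
        · exact Or.inl (hnear a ha hna)
        · push Not at hna
          exact Or.inr ⟨a, ha, hna, (hcl a ha hna).symm⟩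
    · rintro (rfl | ⟨a, ha, h1, rfl⟩)
      · exact ⟨w, hwS, rfl⟩
      · exact ⟨a, mem_insert_of_mem ha, hcl a ha h1⟩
  have hwR : CompA_cl A (insert w S) w ∉ R := by
    intro h
    obtain ⟨a, ha, h1, h2⟩ := (memR _).1 h
    have h3 : w ∈ CompA_cl A S a := by rw [h2]; exact CompA_self hwS
    exact hw (CompA_mem_cl.1 h3).1
  have himg2 : S.image (CompA_cl A S) = (S.filter (fun u => A w u)).image (CompA_cl A S) ∪ R := by
    ext T
    rw [mem_image, mem_union, mem_image, memR]
    constructor
    · rintro ⟨a, ha, rfl⟩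
      by_cases hna : ∃ u ∈ S, A w u ∧ cn A S a u
      · obtain ⟨u, hu, hwu, hau⟩ := hna
        exact Or.inl ⟨u, mem_filter.2 ⟨hu, hwu⟩, (CompA_cl_eq hA ha hau).symm⟩
      · push Not at hna
        exact Or.inr ⟨a, ha, hna, rfl⟩
    · rintro (⟨a, ha, rfl⟩ | ⟨a, ha, h1, rfl⟩)
      · exact ⟨a, (mem_filter.1 ha).1, rfl⟩
      · exact ⟨a, ha, rfl⟩
  have hdis : Disjoint ((S.filter (fun u => A w u)).image (CompA_cl A S)) R := by
    rw [disjoint_left]
    intro T h1 h2
    obtain ⟨u, hu, rfl⟩ := mem_image.1 h1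
    rw [mem_filter] at hu
    obtain ⟨a, ha, h3, h4⟩ := (memR _).1 h2
    have h5 : u ∈ CompA_cl A S a := by rw [h4]; exact CompA_self hu.1
    exact h3 u hu.1 hu.2 (CompA_mem_cl.1 h5).2
  rw [CompA_comp, CompA_comp, himg, himg2, card_insert_of_notMem hwR, card_union_of_disjoint hdis]
  omega

theorem comp_hub {A A' : ι → ι → Prop} (hA : ∀ u v, A u v → A v u)
    (hA' : ∀ u v, A' u v → A' v u) {S : Finset ι} {w h : ι} (hw : w ∉ S) (hh : h ∈ S)
    (hwh : A w h) (hadj : ∀ u ∈ S, ∀ v ∈ S, (A' u v ↔ A u v ∨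
      (u ≠ v ∧ (u = h ∨ v = h) ∧ A w u ∧ A w v))) : comp A' S = comp A (insert w S) := by
  classical
  have hwS : w ∈ insert w S := mem_insert_self w S
  have h1 : ∀ a ∈ S, ∀ b, cn A' S a b → cn A (insert w S) a b := by
    intro a ha b hab
    induction hab with
    | refl => exact Relation.ReflTransGen.refl
    | tail h0 h4 ih =>
      rename_i u v
      have hu : u ∈ S := cn_mem ha h0
      rcases (hadj u hu v h4.1).1 h4.2 with h5 | ⟨_, _, h5, h6⟩
      · exact ih.tail ⟨mem_insert_of_mem h4.1, h5⟩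
      · exact (ih.tail ⟨hwS, hA _ _ h5⟩).tail ⟨mem_insert_of_mem h4.1, h6⟩
  have h2 : ∀ a ∈ S, ∀ b, cn A (insert w S) a b → (b = w ∧ cn A' S a h) ∨ (b ∈ S ∧ cn A' S a b) := by
    intro a ha b hab
    induction hab with
    | refl => exact Or.inr ⟨ha, Relation.ReflTransGen.refl⟩
    | tail h0 h4 ih =>
      rename_i u v
      obtain ⟨h5, h6⟩ := h4
      rcases ih with ⟨rfl, ih⟩ | ⟨hu, ih⟩
      · rcases mem_insert.1 h5 with h7 | h7
        · exact Or.inl ⟨h7, ih⟩
        · right
          refine ⟨h7, ?_⟩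
          by_cases hvh : v = h
          · rw [hvh]; exact ih
          · exact ih.tail ⟨h7, (hadj h hh v h7).2 (Or.inr ⟨fun e => hvh e.symm, Or.inl rfl, hwh, h6⟩)⟩
      · rcases mem_insert.1 h5 with h7 | h7
        · left
          refine ⟨h7, ?_⟩
          rw [h7] at h6
          by_cases huh : u = h
          · rw [← huh]; exact ih
          · exact ih.tail ⟨hh, (hadj u hu h hh).2 (Or.inr ⟨huh, Or.inr rfl, hA _ _ h6, hwh⟩)⟩
        · exact Or.inr ⟨h7, ih.tail ⟨h7, (hadj u hu v h7).2 (Or.inl h6)⟩⟩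
  have hcl : ∀ a ∈ S, CompA_cl A' S a = (CompA_cl A (insert w S) a).erase w := by
    intro a ha
    ext b
    rw [mem_erase, CompA_mem_cl, CompA_mem_cl]
    constructor
    · rintro ⟨hb, hab⟩
      exact ⟨fun e => hw (e ▸ hb), mem_insert_of_mem hb, h1 a ha b hab⟩
    · rintro ⟨hbw, hb, hab⟩
      rcases h2 a ha b hab with ⟨h3, _⟩ | h3
      · exact absurd h3 hbw
      · exact h3
  have himg : (insert w S).image (CompA_cl A (insert w S)) = S.image (CompA_cl A (insert w S)) := by
    have e : CompA_cl A (insert w S) w = CompA_cl A (insert w S) h :=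
      CompA_cl_eq hA hwS (Relation.ReflTransGen.single ⟨mem_insert_of_mem hh, hwh⟩)
    ext T
    rw [mem_image, mem_image]
    constructor
    · rintro ⟨a, ha, rfl⟩
      rcases mem_insert.1 ha with rfl | ha
      · exact ⟨h, hh, e.symm⟩
      · exact ⟨a, ha, rfl⟩
    · rintro ⟨a, ha, rfl⟩
      exact ⟨a, mem_insert_of_mem ha, rfl⟩
  have himg2 : S.image (CompA_cl A' S) = (S.image (CompA_cl A (insert w S))).image (fun T => T.erase w) := by
    rw [image_image]
    exact image_congr fun a ha => hcl a ha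
  rw [CompA_comp, CompA_comp, himg, himg2]
  apply card_image_of_injOn
  intro T hT T' hT' hTT
  rw [coe_image, Set.mem_image] at hT hT'
  obtain ⟨a, ha, rfl⟩ := hT
  obtain ⟨b, hb, rfl⟩ := hT'
  have ha' : a ∈ (CompA_cl A (insert w S) a).erase w :=
    mem_erase.2 ⟨fun e => hw (e ▸ ha), CompA_self (mem_insert_of_mem ha)⟩
  have hTT' : (CompA_cl A (insert w S) a).erase w = (CompA_cl A (insert w S) b).erase w := hTT
  rw [hTT', mem_erase, CompA_mem_cl] at ha'
  exact (CompA_cl_eq hA (mem_insert_of_mem hb) ha'.2.2).symm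

/-- the element of `Fin d` which is `k` steps after `i` -/
private def fkn {d : ℕ} [NeZero d] (i : Fin d) (k : ℕ) : Fin d := Fin.ofNat d (i.val + k)

private theorem fkn_zero {d : ℕ} [NeZero d] (i : Fin d) : fkn i 0 = i := by
  apply Fin.ext
  show (i.val + 0) % d = i.val
  rw [Nat.add_zero, Nat.mod_eq_of_lt i.2]

private theorem fkn_succ {d : ℕ} [NeZero d] (i : Fin d) (k : ℕ) : fkn i (k + 1) = fkn i k + 1 := by
  apply Fin.ext
  rw [Fin.val_add]
  show (i.val + (k + 1)) % d = ((i.val + k) % d + (1 % d)) % d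
  rw [← Nat.add_mod, Nat.add_assoc]

private theorem fkn_surj {d : ℕ} [NeZero d] (i j : Fin d) : ∃ k, fkn i k = j := by
  refine ⟨j.val + (d - i.val), ?_⟩
  apply Fin.ext
  show (i.val + (j.val + (d - i.val))) % d = j.val
  have hi := i.2
  have h : i.val + (j.val + (d - i.val)) = j.val + d := by omega
  rw [h, Nat.add_mod_right, Nat.mod_eq_of_lt j.2]

open Classical in
theorem arcs_bound {d : ℕ} [NeZero d] {A : ι → ι → Prop} (hA : ∀ u v, A u v → A v u)
    {S : Finset ι} {a : Fin d → ι} (hadj : ∀ i, A (a i) (a (i + 1)))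
    (hne : ∃ i, a i ∈ S) :
    ((univ.filter (fun i => a i ∈ S)).image (fun i => S.filter (fun v => cn A S (a i) v))).card ≤
      max 1 (arcs (univ.filter (fun i => a i ∈ S))) := by
  have hcl0 : (fun i => S.filter (fun v => cn A S (a i) v)) = fun i => CompA_cl A S (a i) := rfl
  rw [hcl0]
  have memB : ∀ i, i ∈ (univ.filter (fun i => a i ∈ S) : Finset (Fin d)) ↔ a i ∈ S := by
    intro i; simp
  -- connection along an interval
  have hpath : ∀ (i : Fin d) (k : ℕ), (∀ l ≤ k, a (fkn i l) ∈ S) → cn A S (a i) (a (fkn i k)) := by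
    intro i k
    induction k with
    | zero =>
      intro _
      rw [fkn_zero]
      exact Relation.ReflTransGen.refl
    | succ k ih =>
      intro h
      have h1 := ih (fun l hl => h l (by omega))
      refine h1.tail ⟨h (k + 1) le_rfl, ?_⟩
      rw [fkn_succ]
      exact hadj _
  by_cases hend : ∃ j, a j ∈ S ∧ a (j + 1) ∉ S
  · refine le_trans ?_ (le_max_right _ _)
    unfold arcs
    refine le_trans (card_le_card ?_) (card_image_le (f := fun i => CompA_cl A S (a i)))
    intro T hT
    obtain ⟨i, hi, rfl⟩ := mem_image.1 hT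
    rw [memB] at hi
    obtain ⟨j0, hj0, hj0'⟩ := hend
    have hex : ∃ k, a (fkn i k + 1) ∉ S := by
      obtain ⟨k, hk⟩ := fkn_surj i j0
      exact ⟨k, by rw [hk]; exact hj0'⟩
    have hk := Nat.find_spec hex
    have hmin := fun l (hl : l < Nat.find hex) => Nat.find_min hex hl
    set k := Nat.find hex with hkdef
    have hin : ∀ l ≤ k, a (fkn i l) ∈ S := by
      intro l hl
      rcases l with _ | l
      · rw [fkn_zero]; exact hi
      · have h2 := hmin l (by omega)
        rw [not_not] at h2
        rw [fkn_succ]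
        exact h2
    refine mem_image.2 ⟨fkn i k, mem_filter.2 ⟨(memB _).2 (hin k le_rfl), fun h => hk ((memB _).1 h)⟩, ?_⟩
    exact (CompA_cl_eq hA hi (hpath i k hin)).symm
  · push Not at hend
    refine le_trans ?_ (le_max_left _ _)
    obtain ⟨i0, hi0⟩ := hne
    have hall : ∀ k, a (fkn i0 k) ∈ S := by
      intro k
      induction k with
      | zero => rw [fkn_zero]; exact hi0
      | succ k ih => rw [fkn_succ]; exact hend _ ih
    rw [card_le_one]
    intro T hT T' hT'
    obtain ⟨i, _, rfl⟩ := mem_image.1 hT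
    obtain ⟨j, _, rfl⟩ := mem_image.1 hT'
    obtain ⟨k, rfl⟩ := fkn_surj i0 i
    obtain ⟨l, rfl⟩ := fkn_surj i0 j
    show CompA_cl A S (a (fkn i0 k)) = CompA_cl A S (a (fkn i0 l))
    rw [← CompA_cl_eq hA hi0 (hpath i0 k (fun _ _ => hall _)), ← CompA_cl_eq hA hi0 (hpath i0 l (fun _ _ => hall _))]

end Pool.TSphH
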