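import Pool.Agent.Lib.MP_3de3a3_co.H.HFan
import Pool.Agent.Lib.MP_3de3a3_co.LinkCyc

/-! # The fan at a vertex of the link cycle (module HFanL)

PROOF. p k = a (z + (k : Fin d)) (k a natural number cast to Fin d), L' = fanC L w p d. The verts of L are at least 5: w and the a i. `fan` applies: p k, p 0 = a z are not adjacent for 2 <= k < d - 1 by hch.
The d triangles {w, a i, a (i+1)} are different and vd L w = d, so they are all the triangles of L at w. Adjacency in L': (if) let u, v be adjacent in L, in t; if w is not in t then t is in L'. Otherwise t = {w, u, v}, so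
{u, v} = {p i, p (i+1)} (or {p (d-1), p 0}) and this is contained in a triangle {p 0, p k, p (k+1)} with 1 <= k <= d - 2. If u = a z and v = a j is not u: v = p k with 1 <= k <= d - 1, contained in a triangle of the fan.
(only if) from the definition. The last claim: t with w not in t and with a vertex which is not a link vertex is not a triangle of the fan. -/

set_option autoImplicit false

namespace Pool.TSphH

open Finset
open Pool.TSph

variable {ι : Type*} [DecidableEq ι]

/-- the element of `Fin d` which is `k` steps after `i` -/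
private def fln {d : ℕ} [NeZero d] (i : Fin d) (k : ℕ) : Fin d := Fin.ofNat d (i.val + k)

private theorem fln_zero {d : ℕ} [NeZero d] (i : Fin d) : fln i 0 = i := by
  apply Fin.ext
  show (i.val + 0) % d = i.val
  rw [Nat.add_zero, Nat.mod_eq_of_lt i.2]

private theorem fln_succ {d : ℕ} [NeZero d] (i : Fin d) (k : ℕ) : fln i (k + 1) = fln i k + 1 := by
  apply Fin.ext
  rw [Fin.val_add]
  show (i.val + (k + 1)) % d = ((i.val + k) % d + (1 % d)) % d
  rw [← Nat.add_mod, Nat.add_assoc]

private theorem fln_d {d : ℕ} [NeZero d] (i : Fin d) : fln i d = i := by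
  apply Fin.ext
  show (i.val + d) % d = i.val
  rw [Nat.add_mod_right, Nat.mod_eq_of_lt i.2]

private theorem fln_surj {d : ℕ} [NeZero d] (i j : Fin d) : ∃ k < d, fln i k = j := by
  have hi := i.2
  have hj := j.2
  by_cases h : i.val ≤ j.val
  · refine ⟨j.val - i.val, by omega, ?_⟩
    apply Fin.ext
    show (i.val + (j.val - i.val)) % d = j.val
    rw [show i.val + (j.val - i.val) = j.val by omega, Nat.mod_eq_of_lt j.2]
  · refine ⟨j.val + d - i.val, by omega, ?_⟩
    apply Fin.ext
    show (i.val + (j.val + d - i.val)) % d = j.val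
    rw [show i.val + (j.val + d - i.val) = j.val + d by omega, Nat.add_mod_right, Nat.mod_eq_of_lt j.2]

private theorem fln_inj {d : ℕ} [NeZero d] (i : Fin d) {k l : ℕ} (hk : k < d) (hl : l < d)
    (h : fln i k = fln i l) : k = l := by
  have h1 : (i.val + k) % d = (i.val + l) % d := congrArg Fin.val h
  have h2 : k % d = l % d := Nat.ModEq.add_left_cancel' i.val h1
  rwa [Nat.mod_eq_of_lt hk, Nat.mod_eq_of_lt hl] at h2

theorem fanL {d : ℕ} [NeZero d] (hd : 4 ≤ d) {L : Finset (Finset ι)} (hL : IsSphere2 L)
    {w : ι} {a : Fin d → ι} (hc : LinkCycle L w d a) (hvd : vd L w = d)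
    (hch : ∀ i j, adj L (a i) (a j) → j = i + 1 ∨ i = j + 1) (z : Fin d) :
    ∃ L' : Finset (Finset ι), IsSphere2 L' ∧ verts L' = (verts L).erase w ∧
      (∀ u v, u ≠ w → v ≠ w → (adj L' u v ↔ adj L u v ∨
        (u ≠ v ∧ (u = a z ∨ v = a z) ∧ adj L w u ∧ adj L w v))) ∧
      (∀ t, w ∉ t → (∃ u ∈ t, ¬ adj L w u) → (t ∈ L' ↔ t ∈ L)) := by
  have hadjw : ∀ i, adj L w (a i) := fun i => (hc.all _).2 ⟨i, rfl⟩
  obtain ⟨p, hp⟩ : ∃ p : ℕ → ι, ∀ k, p k = a (fln z k) := ⟨fun k => a (fln z k), fun _ => rfl⟩
  have hp0 : p 0 = a z := by rw [hp, fln_zero]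
  have hpd : p d = a z := by rw [hp, fln_d]
  have hpinj : ∀ i < d, ∀ j < d, p i = p j → i = j := by
    intro i hi j hj h
    rw [hp, hp] at h
    exact fln_inj z hi hj (hc.inj h)
  have htri : ∀ i, ({w, p i, p (i + 1)} : Finset ι) ∈ L := by
    intro i
    rw [hp, hp, fln_succ]
    exact hc.tri _
  have hV : 5 ≤ (verts L).card := by
    have h1 : insert w (univ.image a) ⊆ verts L := by
      intro u hu
      rcases mem_insert.1 hu with rfl | hu
      · exact adj_mem_left (hadjw z)
      · obtain ⟨i, _, rfl⟩ := mem_image.1 hu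
        exact adj_mem_right (hadjw i)
    have h2 : (insert w (univ.image a)).card = d + 1 := by
      rw [card_insert_of_notMem, card_image_of_injective _ hc.inj, card_univ, Fintype.card_fin]
      intro h
      obtain ⟨i, _, hi⟩ := mem_image.1 h
      exact hc.ne i hi
    have h3 := card_le_card h1
    omega
  have hfan := fan (d := d) (by omega) hL (w := w) (p := p) hV hpinj (fun i _ => by rw [hp]; exact hc.ne _)
    (fun i _ => htri i)
    (by
      have := htri (d - 1)
      rw [show d - 1 + 1 = d by omega, hpd] at this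
      rw [hp0]
      exact this)
    (by
      intro k hk2 hkd hadj
      rw [hp0, hp] at hadj
      rcases hch _ _ hadj with h | h
      · have h1 : fln z k = fln z 1 := by
          rw [h, show (1 : ℕ) = 0 + 1 by rfl, fln_succ, fln_zero]
        have := fln_inj z (by omega) (by omega) h1
        omega
      · rw [← fln_succ] at h
        have h1 : fln z 0 = fln z (k + 1) := by rw [fln_zero]; exact h
        have := fln_inj z (by omega) (by omega) h1
        omega)
  have mem' : ∀ t, t ∈ fanC L w p d ↔ (t ∈ L ∧ w ∉ t) ∨ ∃ k, 1 ≤ k ∧ k < d - 1 ∧ ({p 0, p k, p (k + 1)} : Finset ι) = t := by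
    intro t
    unfold fanC
    rw [mem_union, mem_filter, mem_image]
    constructor
    · rintro (h | ⟨k, hk, h⟩)
      · exact Or.inl h
      · rw [mem_Ico] at hk
        exact Or.inr ⟨k, hk.1, hk.2, h⟩
    · rintro (h | ⟨k, h1, h2, h⟩)
      · exact Or.inl h
      · exact Or.inr ⟨k, mem_Ico.2 ⟨h1, h2⟩, h⟩
  -- two consecutive link vertices are in a triangle of the fan
  have hcons : ∀ k < d, ∃ t ∈ fanC L w p d, p k ∈ t ∧ p (k + 1) ∈ t := by
    intro k hk
    by_cases h0 : k = 0
    · subst h0
      exact ⟨_, (mem' _).2 (Or.inr ⟨1, le_rfl, by omega, rfl⟩), by simp, by simp⟩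
    · by_cases h1 : k + 1 < d
      · exact ⟨_, (mem' _).2 (Or.inr ⟨k, by omega, by omega, rfl⟩), by simp, by simp⟩
      · have hk' : k = (d - 2) + 1 := by omega
        refine ⟨_, (mem' _).2 (Or.inr ⟨d - 2, by omega, by omega, rfl⟩), ?_, ?_⟩
        · rw [← hk']; simp
        · have : p (k + 1) = p 0 := by
            rw [show k + 1 = d by omega, hpd, hp0]
          rw [this]; simp
  have hspoke : ∀ k, 1 ≤ k → k < d → ∃ t ∈ fanC L w p d, p 0 ∈ t ∧ p k ∈ t := by
    intro k hk1 hk
    by_cases h1 : k + 1 < d
    · exact ⟨_, (mem' _).2 (Or.inr ⟨k, by omega, by omega, rfl⟩), by simp, by simp⟩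
    · have hk' : k = (d - 2) + 1 := by omega
      refine ⟨_, (mem' _).2 (Or.inr ⟨d - 2, by omega, by omega, rfl⟩), by simp, ?_⟩
      rw [← hk']; simp
  refine ⟨fanC L w p d, hfan.1, hfan.2, ?_, ?_⟩
  · intro u v hu hv
    constructor
    · rintro ⟨huv, t, ht, hut, hvt⟩
      rcases (mem' t).1 ht with ⟨h, _⟩ | ⟨k, hk1, hk2, rfl⟩
      · exact Or.inl ⟨huv, t, h, hut, hvt⟩
      · have hw : ∀ j, adj L w (p j) := fun j => by rw [hp]; exact hadjw _
        by_cases h0 : u = a z ∨ v = a z
        · right
          refine ⟨huv, h0, ?_, ?_⟩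
          · simp only [mem_insert, mem_singleton] at hut
            rcases hut with h | h | h <;> rw [h] <;> exact hw _
          · simp only [mem_insert, mem_singleton] at hvt
            rcases hvt with h | h | h <;> rw [h] <;> exact hw _
        · left
          push Not at h0
          simp only [mem_insert, mem_singleton, hp0] at hut hvt
          refine ⟨huv, {w, p k, p (k + 1)}, htri k, ?_, ?_⟩
          · rcases hut with h | h | h
            · exact absurd h h0.1
            · rw [h]; simp
            · rw [h]; simp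
          · rcases hvt with h | h | h
            · exact absurd h h0.2
            · rw [h]; simp
            · rw [h]; simp
    · rintro (⟨huv, t, ht, hut, hvt⟩ | ⟨huv, h0, hwu, hwv⟩)
      · by_cases hwt : w ∈ t
        · refine ⟨huv, ?_⟩
          obtain ⟨i, rfl⟩ := (hc.all u).1 ⟨hu.symm, t, ht, hwt, hut⟩
          obtain ⟨j, rfl⟩ := (hc.all v).1 ⟨hv.symm, t, ht, hwt, hvt⟩
          rcases hch i j ⟨huv, t, ht, hut, hvt⟩ with h | h
          · obtain ⟨k, hk, rfl⟩ := fln_surj z i
            obtain ⟨t', ht', h1, h2⟩ := hcons k hk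
            rw [hp] at h1
            rw [hp, fln_succ, ← h] at h2
            exact ⟨t', ht', h1, h2⟩
          · obtain ⟨k, hk, rfl⟩ := fln_surj z j
            obtain ⟨t', ht', h1, h2⟩ := hcons k hk
            rw [hp] at h1
            rw [hp, fln_succ, ← h] at h2
            exact ⟨t', ht', h2, h1⟩
        · exact ⟨huv, t, (mem' t).2 (Or.inl ⟨ht, hwt⟩), hut, hvt⟩
      · refine ⟨huv, ?_⟩
        obtain ⟨i, rfl⟩ := (hc.all u).1 hwu
        obtain ⟨j, rfl⟩ := (hc.all v).1 hwv
        rcases h0 with h0 | h0
        · obtain ⟨k, hk, rfl⟩ := fln_surj z j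
          have hk0 : k ≠ 0 := by
            rintro rfl
            exact huv (by rw [h0, fln_zero])
          obtain ⟨t', ht', h1, h2⟩ := hspoke k (by omega) hk
          rw [hp0] at h1
          rw [hp] at h2
          exact ⟨t', ht', by rw [h0]; exact h1, h2⟩
        · obtain ⟨k, hk, rfl⟩ := fln_surj z i
          have hk0 : k ≠ 0 := by
            rintro rfl
            exact huv (by rw [h0, fln_zero])
          obtain ⟨t', ht', h1, h2⟩ := hspoke k (by omega) hk
          rw [hp0] at h1
          rw [hp] at h2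
          exact ⟨t', ht', h2, by rw [h0]; exact h1⟩
  · rintro t hwt ⟨u, hut, hu⟩
    rw [mem']
    constructor
    · rintro (⟨h, _⟩ | ⟨k, hk1, hk2, rfl⟩)
      · exact h
      · exfalso
        simp only [mem_insert, mem_singleton] at hut
        rcases hut with h | h | h <;> (apply hu; rw [h, hp]; exact hadjw _)
    · exact fun h => Or.inl ⟨h, hwt⟩

end Pool.TSphH
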