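import Pool.Agent.Lib.MP_3de3a3_co.H.HFanL
import Pool.Agent.Lib.MP_3de3a3_co.H.HFanInt
import Pool.Agent.Lib.MP_3de3a3_co.PhiStep
import Pool.Agent.Lib.MP_3de3a3_co.PhiDef

/-! # The random fan (module HFanStep)

PROOF of `fan_sum`. A = adj L, B = univ.filter (a i ∈ S), C = comp A S. w is not in S. If B is empty: w has no neighbour in S, comp A (insert w S) = C + 1 (`comp_insert_isolated`), comp (adj (L' z)) S = C (`comp_congr`: a new
adjacency of u, v in S would need that u, v are neighbours of w), every summand is p. Let B be nonempty. The neighbours of w in S are the a i, i in B, so with k + 1 = the number of classes of S meeting them: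
comp A (insert w S) + k = C (`comp_insert_nbrs`), and k <= arcs B - 1 (`arcs_bound`, max 1 x - 1 = x - 1 in ℕ). For z in B: comp (adj (L' z)) S = comp A (insert w S) = C - k (`comp_hub` with h = a z). For z not in B:
comp (adj (L' z)) S = C (`comp_congr`). The sum is |B| k (1 - p) - (d - |B|) k p = k d x with x = |B|/d - p, and x <= (3/2) (x + 1/6)^2 because (x - 1/6)^2 >= 0.
PROOF of `fan_step`. Let d = vd L w, a the link cycle (`exists_linkCycle`; d is 4, 5 or 6: three cases, each with its `betaF_int`). No chords: if a i, a j are adjacent and not consecutive then {w, a i, a j} is not in L (the triangles at w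
are the {w, a i, a (i+1)}) and is in Sp L (`mem_Sp`), so w is in Bc L, contradiction (i = j is impossible as adj is irreflexive). Let L' z be the complex of `fanL`. `Phi_step` with W = verts L, J = univ, f = comp (adj L), f' z = comp (adj (L' z)),
β = betaF d, c = 1/24 gives z; phi L' = Phi ((verts L).erase w) .... The remaining claims are in `fanL`. -/

set_option autoImplicit false

namespace Pool.TSphH

open Finset
open Pool.TSph

variable {ι : Type*} [DecidableEq ι]

private theorem HFanStep_arith {C Ci K m : ℕ} (hK1 : 1 ≤ K) (hC : Ci + K = C + 1)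
    (hKm : K ≤ max 1 m) {d b : ℕ} (hb : b ≤ d) (hd : 0 < d) {p : ℝ} (s : ℝ)
    (hs : s = b * (p * Ci + (1 - p) * C - Ci) + (d - b : ℕ) * (p * Ci + (1 - p) * C - C)) :
    s ≤ d * (((m - 1 : ℕ) : ℝ) * (3 / 2 * ((b : ℝ) / d - p + 1 / 6) ^ 2)) := by
  have hd' : (0 : ℝ) < d := by exact_mod_cast hd
  obtain ⟨k, hk⟩ : ∃ k, K = k + 1 := ⟨K - 1, by omega⟩
  have hkm : k ≤ m - 1 := by omega
  have hCi : (Ci : ℝ) = C - k := by
    have : Ci + k = C := by omega
    have h2 : (Ci : ℝ) + k = C := by exact_mod_cast this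
    linarith
  set x : ℝ := (b : ℝ) / d - p with hx
  have hbx : (b : ℝ) = d * (x + p) := by
    rw [hx]; field_simp; ring
  have h1 : s = k * d * x := by
    rw [hs, hCi, Nat.cast_sub hb, hbx]
    ring
  have h2 : x ≤ 3 / 2 * (x + 1 / 6) ^ 2 := by nlinarith [sq_nonneg (x - 1 / 6)]
  have h3 : (k : ℝ) ≤ ((m - 1 : ℕ) : ℝ) := by exact_mod_cast hkm
  have h4 : (0 : ℝ) ≤ k := Nat.cast_nonneg k
  have h5 : (k : ℝ) * x ≤ ((m - 1 : ℕ) : ℝ) * (3 / 2 * (x + 1 / 6) ^ 2) :=
    (mul_le_mul_of_nonneg_left h2 h4).trans (mul_le_mul_of_nonneg_right h3 (by positivity))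
  calc s = d * (k * x) := by rw [h1]; ring
    _ ≤ _ := mul_le_mul_of_nonneg_left h5 hd'.le

theorem fan_sum {d : ℕ} [NeZero d] {L : Finset (Finset ι)} {w : ι} {a : Fin d → ι}
    (hc : LinkCycle L w d a) {L' : Fin d → Finset (Finset ι)}
    (hL' : ∀ z u v, u ≠ w → v ≠ w → (adj (L' z) u v ↔ adj L u v ∨
        (u ≠ v ∧ (u = a z ∨ v = a z) ∧ adj L w u ∧ adj L w v)))
    {S : Finset ι} (hS : w ∉ S) {p : ℝ} (hp0 : 0 ≤ p) (hp1 : p ≤ 1) :
    ∑ z : Fin d, (p * (comp (adj L) (insert w S) : ℝ) + (1 - p) * (comp (adj L) S : ℝ) -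
      (comp (adj (L' z)) S : ℝ)) ≤ d * betaF d (univ.filter (fun i => a i ∈ S)) p := by
  classical
  have hd : 0 < d := Nat.pos_of_ne_zero (NeZero.ne d)
  have hA : ∀ u v, adj L u v → adj L v u := fun u v h => adj_symm h
  set B : Finset (Fin d) := univ.filter (fun i => a i ∈ S) with hB
  have hSw : ∀ u ∈ S, u ≠ w := fun u hu h => hS (h ▸ hu)
  by_cases hB0 : B = ∅
  · have hno : ∀ v ∈ S, ¬ adj L w v := by
      intro v hv h
      obtain ⟨i, rfl⟩ := (hc.all v).1 h
      have : i ∈ B := by rw [hB, mem_filter]; exact ⟨mem_univ _, hv⟩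
      rw [hB0] at this
      exact absurd this (notMem_empty _)
    have h1 := comp_insert_isolated hA hS hno
    have h2 : ∀ z, comp (adj (L' z)) S = comp (adj L) S := by
      intro z
      refine comp_congr fun u hu v hv => ?_
      rw [hL' z u v (hSw u hu) (hSw v hv)]
      constructor
      · rintro (h | ⟨-, -, h, -⟩)
        · exact h
        · exact absurd h (hno u hu)
      · exact Or.inl
    rw [betaF, if_pos hB0]
    simp only [h1, h2]
    rw [Finset.sum_const, Finset.card_univ, Fintype.card_fin, nsmul_eq_mul]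
    push_cast
    apply le_of_eq
    ring
  · obtain ⟨i0, hi0⟩ := Finset.nonempty_iff_ne_empty.2 hB0
    rw [hB, mem_filter] at hi0
    have hne : ∃ u ∈ S, adj L w u := ⟨a i0, hi0.2, (hc.all _).2 ⟨i0, rfl⟩⟩
    have h1 := comp_insert_nbrs hA hS hne
    set K : ℕ := (B.image (fun i => S.filter (fun v => cn (adj L) S (a i) v))).card with hK
    have himg : (S.filter (fun u => adj L w u)).image (fun u => S.filter (fun v => cn (adj L) S u v))
        = B.image (fun i => S.filter (fun v => cn (adj L) S (a i) v)) := by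
      ext s
      rw [mem_image, mem_image]
      constructor
      · rintro ⟨u, hu, rfl⟩
        rw [mem_filter] at hu
        obtain ⟨i, hi⟩ := (hc.all u).1 hu.2
        refine ⟨i, ?_, by rw [hi]⟩
        rw [hB, mem_filter, ← hi]
        exact ⟨mem_univ _, hu.1⟩
      · rintro ⟨i, hi, rfl⟩
        rw [hB, mem_filter] at hi
        exact ⟨a i, mem_filter.2 ⟨hi.2, (hc.all _).2 ⟨i, rfl⟩⟩, rfl⟩
    have hC : comp (adj L) (insert w S) + K = comp (adj L) S + 1 := by
      rw [hK, ← himg, ← h1]
    have hK1 : 1 ≤ K := by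
      rw [hK]
      exact Finset.card_pos.2 ⟨_, mem_image_of_mem _ (by
        rw [hB, mem_filter]; exact ⟨mem_univ i0, hi0.2⟩)⟩
    have hKm : K ≤ max 1 (arcs B) := by
      rcases Nat.lt_or_ge 1 d with hd1 | hd1
      · have hadj : ∀ i, adj L (a i) (a (i + 1)) := by
          intro i
          refine ⟨fun h => ?_, _, hc.tri i, by simp, by simp⟩
          have h4 := hc.inj h
          have h5 : (1 : Fin d) = 0 := by
            have : i + 1 = i + 0 := by rw [add_zero]; exact h4.symm
            exact add_left_cancel this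
          have h6 := congrArg Fin.val h5
          rw [Fin.val_zero, show ((1 : Fin d) : ℕ) = 1 % d from rfl, Nat.mod_eq_of_lt hd1] at h6
          exact one_ne_zero h6
        exact arcs_bound (d := d) hA (S := S) (a := a) hadj ⟨i0, hi0.2⟩
      · refine le_trans ?_ (le_max_left _ _)
        rw [hK]
        refine Finset.card_image_le.trans ((Finset.card_le_univ B).trans ?_)
        rw [Fintype.card_fin]
        exact hd1
    have hin : ∀ z ∈ B, comp (adj (L' z)) S = comp (adj L) (insert w S) := by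
      intro z hz
      rw [hB, mem_filter] at hz
      refine comp_hub hA (fun u v h => adj_symm h) hS hz.2 ((hc.all _).2 ⟨z, rfl⟩) ?_
      intro u hu v hv
      exact hL' z u v (hSw u hu) (hSw v hv)
    have hout : ∀ z ∈ Bᶜ, comp (adj (L' z)) S = comp (adj L) S := by
      intro z hz
      rw [mem_compl, hB, mem_filter] at hz
      have hz' : a z ∉ S := fun h => hz ⟨mem_univ _, h⟩
      refine comp_congr fun u hu v hv => ?_
      rw [hL' z u v (hSw u hu) (hSw v hv)]
      constructor
      · rintro (h | ⟨-, h | h, -⟩)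
        · exact h
        · exact absurd (h ▸ hu) hz'
        · exact absurd (h ▸ hv) hz'
      · exact Or.inl
    rw [betaF, if_neg hB0]
    refine HFanStep_arith hK1 hC hKm (card_le_univ B |>.trans (by rw [Fintype.card_fin])) hd _ ?_
    rw [← Finset.sum_add_sum_compl B, Finset.sum_congr rfl (fun z hz => by rw [hin z hz]),
      Finset.sum_congr (s₁ := Bᶜ) rfl (fun z hz => by rw [hout z hz]), Finset.sum_const,
      Finset.sum_const, nsmul_eq_mul, nsmul_eq_mul, Finset.card_compl, Fintype.card_fin]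

private theorem HFanStep_pair {w u x y : ι} (hx1 : x ≠ u) (hx2 : x ≠ w)
    (h : ({w, u, x} : Finset ι) = {w, u, y}) : x = y := by
  have : x ∈ ({w, u, y} : Finset ι) := by
    rw [← h]; simp
  simp only [mem_insert, mem_singleton] at this
  rcases this with h | h | h
  · exact absurd h hx2
  · exact absurd h hx1
  · exact h

private theorem HFanStep_chord {d : ℕ} [NeZero d] (hd : 4 ≤ d) {L : Finset (Finset ι)}
    (hL : IsSphere2 L) {w : ι} (hw : w ∈ verts L) (hB : w ∉ Bc L) {a : Fin d → ι}
    (hc : LinkCycle L w d a) (i j : Fin d) (hij : adj L (a i) (a j)) : j = i + 1 ∨ i = j + 1 := by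
  by_contra hcon
  push Not at hcon
  obtain ⟨hc1, hc2⟩ := hcon
  have hne : i ≠ j := fun h => hij.1 (by rw [h])
  have hwi : adj L w (a i) := (hc.all _).2 ⟨i, rfl⟩
  have hwj : adj L w (a j) := (hc.all _).2 ⟨j, rfl⟩
  have h1v : ((1 : Fin d) : ℕ) = 1 := by
    rw [show ((1 : Fin d) : ℕ) = 1 % d from rfl, Nat.mod_eq_of_lt (by omega)]
  have e1 : i + 1 ≠ i := by
    intro h
    have h5 : (1 : Fin d) = 0 := by
      have : i + 1 = i + 0 := by rw [add_zero]; exact h
      exact add_left_cancel this
    have h6 := congrArg Fin.val h5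
    rw [Fin.val_zero, h1v] at h6
    exact one_ne_zero h6
  have e2 : i - 1 ≠ i := by
    intro h
    apply e1
    conv_lhs => rw [← h]
    exact sub_add_cancel _ _
  have e3 : i + 1 ≠ i - 1 := by
    intro h
    have h5 : (1 : Fin d) + 1 = 0 := by
      have : i + (1 + 1) = i + 0 := by
        rw [add_zero, ← add_assoc, h, sub_add_cancel]
      exact add_left_cancel this
    have h6 := congrArg Fin.val h5
    rw [Fin.val_zero, Fin.val_add, h1v, Nat.mod_eq_of_lt (by omega)] at h6
    omega
  have e4 : i - 1 ≠ j := by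
    intro h
    apply hc2
    rw [← h, sub_add_cancel]
  have t1 : ({w, a i, a (i + 1)} : Finset ι) ∈ L := hc.tri i
  have t2 : ({w, a i, a (i - 1)} : Finset ι) ∈ L := by
    have := hc.tri (i - 1)
    rw [sub_add_cancel] at this
    rwa [Finset.pair_comm (a i)]
  have hnot : ({w, a i, a j} : Finset ι) ∉ L := by
    intro hmem
    have hsub : ∀ x : ι, ({w, a i} : Finset ι) ⊆ {w, a i, x} := by
      intro x z hz
      simp only [mem_insert, mem_singleton] at hz ⊢
      tauto
    have hcard := hL.edge _ hmem {w, a i} (hsub _) (card_pair (hc.ne i).symm)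
    have h3 : ({({w, a i, a (i + 1)} : Finset ι), {w, a i, a (i - 1)}, {w, a i, a j}} :
        Finset (Finset ι)).card = 3 := by
      rw [Finset.card_eq_three]
      refine ⟨_, _, _, ?_, ?_, ?_, rfl⟩
      · intro h
        exact e3 (hc.inj (HFanStep_pair (fun h => e1 (hc.inj h)) (hc.ne _) h))
      · intro h
        exact hc1 (hc.inj (HFanStep_pair (fun h => e1 (hc.inj h)) (hc.ne _) h)).symm
      · intro h
        exact e4 (hc.inj (HFanStep_pair (fun h => e2 (hc.inj h)) (hc.ne _) h))
    have h4 : ({({w, a i, a (i + 1)} : Finset ι), {w, a i, a (i - 1)}, {w, a i, a j}} :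
        Finset (Finset ι)) ⊆ L.filter (fun s => ({w, a i} : Finset ι) ⊆ s) := by
      intro s hs
      simp only [mem_insert, mem_singleton] at hs
      rw [mem_filter]
      rcases hs with rfl | rfl | rfl
      · exact ⟨t1, hsub _⟩
      · exact ⟨t2, hsub _⟩
      · exact ⟨hmem, hsub _⟩
    have h5 := card_le_card h4
    omega
  have hSp : ({w, a i, a j} : Finset ι) ∈ Sp L := by
    rw [mem_Sp]
    refine ⟨?_, hnot, ?_⟩
    · rw [Finset.card_eq_three]
      exact ⟨w, a i, a j, (hc.ne i).symm, (hc.ne j).symm, hij.1, rfl⟩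
    · intro u hu v hv huv
      simp only [mem_insert, mem_singleton] at hu hv
      rcases hu with rfl | rfl | rfl <;> rcases hv with rfl | rfl | rfl
      · exact absurd rfl huv
      · exact hwi
      · exact hwj
      · exact adj_symm hwi
      · exact absurd rfl huv
      · exact hij
      · exact adj_symm hwj
      · exact adj_symm hij
      · exact absurd rfl huv
  exact hB (mem_Bc.2 ⟨hw, Or.inr ⟨_, hSp, by simp⟩⟩)

private theorem HFanStep_gen {d : ℕ} [NeZero d] (hd : 4 ≤ d)
    (hint : ∫ p in (0:ℝ)..1, ∑ B : Finset (Fin d),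
      p ^ B.card * (1 - p) ^ (d - B.card) * betaF d B p ≤ 1 / 24)
    {L : Finset (Finset ι)} (hL : IsSphere2 L) {w : ι} (hw : w ∈ verts L)
    (hB : w ∉ Bc L) (hvd : vd L w = d) :
    ∃ L' : Finset (Finset ι), IsSphere2 L' ∧ verts L' = (verts L).erase w ∧
      phi L ≤ phi L' + 1 / 24 ∧
      (∀ t, w ∉ t → (∃ u ∈ t, ¬ adj L w u) → (t ∈ L' ↔ t ∈ L)) ∧
      (∀ u v, adj L' u v → adj L u v ∨ (adj L w u ∧ adj L w v)) ∧
      (∀ u v, u ≠ w → v ≠ w → adj L u v → adj L' u v) := by
  obtain ⟨a, hc⟩ := exists_linkCycle hL hw hvd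
  have hch := HFanStep_chord hd hL hw hB hc
  have hex := fun z => fanL hd hL hc hvd hch z
  choose L' h1 h2 h3 h4 using hex
  obtain ⟨z, -, hz⟩ := Phi_step hw (fun S => (comp (adj L) S : ℝ)) (univ : Finset (Fin d))
    ⟨0, mem_univ _⟩ (fun z S => (comp (adj (L' z)) S : ℝ)) a hc.inj
    (fun i => mem_erase.2 ⟨hc.ne i, adj_mem_right ((hc.all _).2 ⟨i, rfl⟩)⟩) (betaF d)
    (betaF_cont d) (1 / 24) (by
      intro S hS p hp0 hp1
      have hwS : w ∉ S := fun h => absurd (hS h) (notMem_erase w _)
      have := fan_sum hc h3 hwS hp0 hp1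
      rwa [Finset.card_univ, Fintype.card_fin]) hint
  refine ⟨L' z, h1 z, h2 z, ?_, h4 z, ?_, ?_⟩
  · unfold phi
    rw [h2 z]
    exact hz
  · intro u v huv
    have hu : u ≠ w := by
      have := adj_mem_left huv
      rw [h2 z] at this
      exact (mem_erase.1 this).1
    have hv : v ≠ w := by
      have := adj_mem_right huv
      rw [h2 z] at this
      exact (mem_erase.1 this).1
    rcases (h3 z u v hu hv).1 huv with h | ⟨-, -, h⟩
    · exact Or.inl h
    · exact Or.inr h
  · intro u v hu hv huv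
    exact (h3 z u v hu hv).2 (Or.inl huv)

theorem fan_step {L : Finset (Finset ι)} (hL : IsSphere2 L) {w : ι} (hw : w ∈ verts L)
    (hB : w ∉ Bc L) (h4 : 4 ≤ vd L w) (h6 : vd L w ≤ 6) :
    ∃ L' : Finset (Finset ι), IsSphere2 L' ∧ verts L' = (verts L).erase w ∧
      phi L ≤ phi L' + 1 / 24 ∧
      (∀ t, w ∉ t → (∃ u ∈ t, ¬ adj L w u) → (t ∈ L' ↔ t ∈ L)) ∧
      (∀ u v, adj L' u v → adj L u v ∨ (adj L w u ∧ adj L w v)) ∧
      (∀ u v, u ≠ w → v ≠ w → adj L u v → adj L' u v) := by
  have h : vd L w = 4 ∨ vd L w = 5 ∨ vd L w = 6 := by omega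
  rcases h with h | h | h
  · exact HFanStep_gen (by norm_num) betaF_int4 hL hw hB h
  · exact HFanStep_gen (by norm_num) betaF_int5 hL hw hB h
  · exact HFanStep_gen (by norm_num) betaF_int6 hL hw hB h

end Pool.TSphH
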