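import Pool.Agent.Lib.MP_3de3a3_co.H.HIso

/-! # From the natural numbers to Fin (module HPull)

PROOF of `pull`. Write F^ = F.image (image Fin.val). Let S1 be the set of the G in S for which there is F over Fin N with Iso F^ G; for G in S1 choose such an F_G; S0 = the set of the F_G. Let G in S with Iso F^ G. Then Iso F^ (F_G)^:
there is a permutation π of ℕ with (F_G)^ = F^.image (image π). π maps verts F^ = (verts F).image Fin.val onto verts (F_G)^, so it gives an injection of verts F into Fin N (the values are < N), which extends to a permutation ρ of Fin N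
(a finite type: `Equiv.extendSubtype`, or `Function.Injective` on a finset: `Finset.exists_equiv_extend_of_card_eq`, or count the complements), and F_G = F.image (image ρ) (Fin.val is injective, `MfdMap_...`).
`TD_image`: for injective g a cone point x of τ in F gives the cone point g x of τ.image g in F.image (image g): tris commutes with the image; e' in (τ.image g).powersetCard 2 is the image of e in τ.powersetCard 2. So (TD F).image (image g)
is contained in TD (F.image (image g)).
`blk_map`: blk (g ∘ f) = (blk f).image (image g). -/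

set_option autoImplicit false

namespace Pool.TSphH

open Finset
open Pool.TSph

private theorem hPull_perm {α : Type*} [DecidableEq α] (s : Finset α) (f : α → α) (hf : Set.InjOn f s) :
    ∃ π : Equiv.Perm α, ∀ i ∈ s, π i = f i := by
  induction s using Finset.induction with
  | empty => exact ⟨1, by simp⟩
  | insert a s ha ih =>
    have hfs : Set.InjOn f s := hf.mono (by
      intro x hx
      exact mem_insert_of_mem hx)
    obtain ⟨π, hπ⟩ := ih hfs
    refine ⟨π.trans (Equiv.swap (π a) (f a)), ?_⟩
    intro i hi
    rcases mem_insert.1 hi with rfl | hi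
    · simp
    · have h1 : i ≠ a := fun h => ha (h ▸ hi)
      have h2 : π i ≠ π a := fun h => h1 (π.injective h)
      have h3 : π i ≠ f a := by
        rw [hπ i hi]
        intro h
        exact h1 (hf (mem_insert_of_mem hi) (mem_insert_self _ _) h)
      rw [Equiv.trans_apply, Equiv.swap_apply_of_ne_of_ne h2 h3, hπ i hi]

private theorem hPull_key (N : ℕ) (F G : Finset (Finset (Fin N)))
    (h : Iso (F.image (fun s => s.image Fin.val)) (G.image (fun s => s.image Fin.val))) :
    ∃ ρ : Equiv.Perm (Fin N), G = F.image (fun s => s.image ρ) := by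
  obtain ⟨π, hπ⟩ := h
  have hlt : ∀ x ∈ verts F, π x.val < N := by
    intro x hx
    obtain ⟨s, hs, hxs⟩ := mem_verts.1 hx
    have h1 : (s.image Fin.val).image π ∈ G.image (fun s => s.image Fin.val) := by
      rw [hπ, mem_image]
      exact ⟨s.image Fin.val, mem_image_of_mem _ hs, rfl⟩
    obtain ⟨t, ht, hts⟩ := mem_image.1 h1
    have h2 : π x.val ∈ (s.image Fin.val).image π := mem_image_of_mem _ (mem_image_of_mem _ hxs)
    rw [← hts, mem_image] at h2
    obtain ⟨y, -, hy⟩ := h2
    rw [← hy]
    exact y.isLt
  let f : Fin N → Fin N := fun x => if h : π x.val < N then ⟨π x.val, h⟩ else x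
  have hf : ∀ x ∈ verts F, (f x).val = π x.val := by
    intro x hx
    show ((if h : π x.val < N then (⟨π x.val, h⟩ : Fin N) else x) : Fin N).val = π x.val
    rw [dif_pos (hlt x hx)]
  have hinj : Set.InjOn f (verts F) := by
    intro x hx y hy hxy
    have h1 := congrArg Fin.val hxy
    rw [hf x hx, hf y hy] at h1
    exact Fin.val_injective (π.injective h1)
  obtain ⟨ρ, hρ⟩ := hPull_perm (verts F) f hinj
  refine ⟨ρ, ?_⟩
  apply image_injective (image_injective Fin.val_injective)
  show G.image (fun s => s.image Fin.val) = (F.image (fun s => s.image ρ)).image (fun s => s.image Fin.val)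
  rw [hπ, image_image, image_image]
  refine image_congr ?_
  intro s hs
  show (s.image Fin.val).image π = (s.image ρ).image Fin.val
  rw [image_image, image_image]
  refine image_congr ?_
  intro x hx
  show π x.val = (ρ x).val
  have hx' : x ∈ verts F := mem_verts.2 ⟨s, hs, hx⟩
  rw [hρ x hx', hf x hx']

theorem pull (N : ℕ) (S : Finset (Finset (Finset ℕ))) :
    ∃ S0 : Finset (Finset (Finset (Fin N))), S0.card ≤ S.card ∧
      ∀ F : Finset (Finset (Fin N)), (∃ G ∈ S, Iso (F.image (fun s => s.image Fin.val)) G) →
        ∃ G0 ∈ S0, ∃ π : Equiv.Perm (Fin N), G0 = F.image (fun s => s.image π) := by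
  classical
  let ch : Finset (Finset ℕ) → Finset (Finset (Fin N)) := fun G =>
    if h : ∃ F : Finset (Finset (Fin N)), Iso (F.image (fun s => s.image Fin.val)) G then h.choose else ∅
  refine ⟨S.image ch, card_image_le, ?_⟩
  rintro F ⟨G, hG, hFG⟩
  have hex : ∃ F : Finset (Finset (Fin N)), Iso (F.image (fun s => s.image Fin.val)) G := ⟨F, hFG⟩
  have hch : ch G = hex.choose := dif_pos hex
  have h1 := hex.choose_spec
  rw [← hch] at h1
  exact ⟨ch G, mem_image_of_mem _ hG, hPull_key N F (ch G) (hFG.trans h1.symm)⟩

theorem hPull_cone {ι κ : Type*} [DecidableEq ι] [DecidableEq κ] {F : Finset (Finset ι)}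
    {g : ι → κ} (hg : Function.Injective g) {x : ι} {τ : Finset ι} (h : IsCone F x τ) :
    IsCone (F.image (fun s => s.image g)) (g x) (τ.image g) := by
  obtain ⟨h3, hx, ht, he⟩ := h
  refine ⟨?_, ?_, ?_, ?_⟩
  · rw [MfdMap_card hg]; exact h3
  · rw [MfdMap_mem hg]; exact hx
  · intro h
    apply ht
    obtain ⟨-, s', hs', hsub⟩ := mem_tris.1 h
    obtain ⟨s, hs, rfl⟩ := mem_image.1 hs'
    exact mem_tris.2 ⟨h3, s, hs, (image_subset_image_iff hg).1 hsub⟩
  · intro e he'
    rw [mem_powersetCard] at he'
    obtain ⟨e0, he0, rfl⟩ := subset_image_iff.1 he'.1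
    have h1 : e0 ∈ τ.powersetCard 2 := by
      rw [mem_powersetCard]
      refine ⟨Finset.coe_subset.1 he0, ?_⟩
      rw [← MfdMap_card hg]
      exact he'.2
    obtain ⟨hc, s, hs, hsub⟩ := mem_tris.1 (he e0 h1)
    rw [← image_insert]
    exact mem_tris.2 ⟨(MfdMap_card hg _).trans hc, s.image g, mem_image_of_mem _ hs, image_subset_image hsub⟩

theorem TD_image {ι κ : Type*} [DecidableEq ι] [DecidableEq κ] (F : Finset (Finset ι))
    {g : ι → κ} (hg : Function.Injective g) :
    (TD F).card ≤ (TD (F.image (fun s => s.image g))).card := by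
  have hinj : Set.InjOn (fun s : Finset ι => s.image g) (TD F) := (image_injective hg).injOn
  rw [← card_image_of_injOn hinj]
  apply card_le_card
  intro τ' hτ'
  obtain ⟨τ, hτ, rfl⟩ := mem_image.1 hτ'
  obtain ⟨x, h⟩ := mem_TD.1 hτ
  exact mem_TD.2 ⟨g x, hPull_cone hg h⟩

end Pool.TSphH
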