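import Pool.Agent.Lib.MP_3de3a3_co.H.HStruct
import Pool.Agent.Lib.MP_3de3a3_co.H.HCaseB
import Pool.Agent.Lib.MP_3de3a3_co.H.HCaseC
import Pool.Agent.Lib.MP_3de3a3_co.H.HCaseD
import Pool.Agent.Lib.MP_3de3a3_co.H.HPull
import Pool.Agent.Lib.MP_3de3a3_co.H.HClW

/-! # Manifolds in which small spheres separate are few (module HFinal) -/

set_option autoImplicit false

namespace Pool.TSphH

open Finset
open Pool.TSph

theorem bound_add {K n M X Y C1 C2 : ℕ} (hn : 0 < n) (hX : X ^ K ≤ C1 ^ n * M)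
    (hY : Y ^ K ≤ C2 ^ n * M) : (X + Y) ^ K ≤ (2 ^ K * (C1 + C2)) ^ n * M := by
  have h1 : (X + Y) ^ K ≤ (2 * max X Y) ^ K :=
    Nat.pow_le_pow_left (by have := le_max_left X Y; have := le_max_right X Y; omega) K
  have h2 : (max X Y) ^ K ≤ (C1 + C2) ^ n * M := by
    rcases le_total X Y with h | h
    · rw [max_eq_right h]
      exact hY.trans (Nat.mul_le_mul_right _ (Nat.pow_le_pow_left (Nat.le_add_left _ _) n))
    · rw [max_eq_left h]
      exact hX.trans (Nat.mul_le_mul_right _ (Nat.pow_le_pow_left (Nat.le_add_right _ _) n))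
  calc (X + Y) ^ K ≤ (2 * max X Y) ^ K := h1
    _ = 2 ^ K * (max X Y) ^ K := mul_pow _ _ _
    _ ≤ (2 ^ K) ^ n * ((C1 + C2) ^ n * M) := by
        refine Nat.mul_le_mul ?_ h2
        calc 2 ^ K = (2 ^ K) ^ 1 := (pow_one _).symm
          _ ≤ (2 ^ K) ^ n := Nat.pow_le_pow_right (Nat.pow_pos (by norm_num)) hn
    _ = (2 ^ K * (C1 + C2)) ^ n * M := by rw [mul_pow, mul_assoc]

/-- The blocks in the image under an injective map. -/
theorem blk_comp {ι κ : Type*} [DecidableEq ι] [DecidableEq κ] (g : ι → κ) (f : Fin 9 → ι) :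
    blk (g ∘ f) = (blk f).image (fun s => s.image g) := by
  unfold blk
  rw [image_image]
  refine image_congr fun s _ => ?_
  simp only [Function.comp_def]
  rw [image_image]
  rfl

/-- The gain from the clean vertices. -/
theorem gain_of_clean {ι : Type*} [DecidableEq ι] {F : Finset (Finset ι)} (hF : IsMfd3 F)
    (h : F.card ≤ 1000 * ∑ x ∈ verts F, (Cl 20000 (link F x)).card) :
    (∑ x ∈ verts F, phi (link F x)) + (F.card : ℝ) / (10 * (10 ^ 11 : ℕ)) ≤
      (F.card : ℝ) / 10 + 7 / 10 * (verts F).card := by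
  have h1 : ∀ x ∈ verts F, phi (link F x) ≤
      (((verts (link F x)).card : ℝ) + 12) / 20 -
        ((Cl 20000 (link F x)).card : ℝ) / (7 * 20000 * 120) := by
    intro x hx
    obtain ⟨W, hW, hc⟩ := exists_W (hF.sphere x hx) (D := 20000) (by norm_num)
    have h2 := phi_gain (hF.sphere x hx) hW
    have h3 : ((Cl 20000 (link F x)).card : ℝ) ≤ 7 * 20000 * W.card := by exact_mod_cast hc
    have h4 : ((Cl 20000 (link F x)).card : ℝ) / (7 * 20000 * 120) ≤ (W.card : ℝ) / 120 := by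
      rw [div_le_div_iff₀ (by norm_num) (by norm_num)]
      linarith
    linarith
  have h2 := Finset.sum_le_sum h1
  have h3 : (∑ x ∈ verts F, ((verts (link F x)).card : ℝ)) =
      2 * F.card + 2 * (verts F).card := by
    exact_mod_cast mfd_sum_verts_link hF
  rw [Finset.sum_sub_distrib, ← Finset.sum_div, ← Finset.sum_div, Finset.sum_add_distrib, h3,
    Finset.sum_const, nsmul_eq_mul] at h2
  have h4 : (F.card : ℝ) ≤ 1000 * ∑ x ∈ verts F, ((Cl 20000 (link F x)).card : ℝ) := by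
    exact_mod_cast h
  have h5 : (F.card : ℝ) / (10 * (10 ^ 11 : ℕ)) ≤
      (∑ x ∈ verts F, ((Cl 20000 (link F x)).card : ℝ)) / (7 * 20000 * 120) := by
    rw [div_le_div_iff₀ (by norm_num) (by norm_num)]
    push_cast
    have h6 : (0:ℝ) ≤ F.card := by positivity
    nlinarith
  linarith

/-- The main theorem of this folder, with an exponent `N`. -/
theorem final_aux (N : ℕ) (hN : N = 10 ^ 11) :
    ∃ C : ℕ, ∀ n : ℕ, ∃ S : Finset (Finset (Finset (Fin (4 * n)))),
      S.card ^ (10 * N) ≤ C ^ n * n ^ ((N - 1) * n) ∧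
      ∀ F : Finset (Finset (Fin (4 * n))), F.card = n → IsSepMfd F →
        ∃ G ∈ S, ∃ π : Equiv.Perm (Fin (4 * n)), G = F.image (fun σ => σ.image π) := by
  have hN0 : 0 < N := by rw [hN]; norm_num
  obtain ⟨Ca, hA⟩ := caseA N hN0
  obtain ⟨Cb, hB⟩ := caseB N hN0 (fun n => (n + (16 * 10 ^ 9 - 1)) / (16 * 10 ^ 9))
    (fun n => by omega) (fun n => by rw [hN]; omega)
  obtain ⟨Cc, hC⟩ := caseC N hN0
  obtain ⟨Cd, hD⟩ := caseD N hN0 (fun n => (n + 39999) / 40000)
    (fun n => by omega) (fun n => by rw [hN]; omega)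
  refine ⟨2 ^ (10 * N) * (Ca + 2 ^ (10 * N) * (Cb + 2 ^ (10 * N) * (Cc + Cd))), fun n => ?_⟩
  rcases Nat.eq_zero_or_pos n with rfl | hn
  · refine ⟨{∅}, by simp, fun F hF _ => ⟨∅, by simp, 1, ?_⟩⟩
    rw [card_eq_zero] at hF
    simp [hF]
  obtain ⟨Sa, hSa, ha⟩ := hA n
  obtain ⟨Sb, hSb, hb⟩ := hB n
  obtain ⟨Sc, hSc, hc⟩ := hC n
  obtain ⟨Sd, hSd, hd⟩ := hD n
  obtain ⟨Ta, hTa, ha'⟩ := pull (4 * n) Sa
  obtain ⟨Tb, hTb, hb'⟩ := pull (4 * n) Sb
  obtain ⟨Td, hTd, hd'⟩ := pull (4 * n) Sd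
  refine ⟨Ta ∪ (Tb ∪ (Sc ∪ Td)), ?_, ?_⟩
  · have hc1 : (Ta ∪ (Tb ∪ (Sc ∪ Td))).card ≤ Sa.card + (Sb.card + (Sc.card + Sd.card)) := by
      have e1 := card_union_le Ta (Tb ∪ (Sc ∪ Td))
      have e2 := card_union_le Tb (Sc ∪ Td)
      have e3 := card_union_le Sc Td
      omega
    exact (Nat.pow_le_pow_left hc1 _).trans
      (bound_add hn hSa (bound_add hn hSb (bound_add hn hSc hSd)))
  · intro F hF hS
    have hval : Function.Injective (Fin.val : Fin (4 * n) → ℕ) := Fin.val_injective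
    have hmap := mfd_map hS.mfd hval
    have hvc : (verts (F.image (fun s => s.image Fin.val))).card = (verts F).card := by
      rw [MfdMap_verts, card_image_of_injective _ hval]
    have hcF : (F.image (fun s => s.image Fin.val)).card = n := by rw [hmap.2, hF]
    rcases structure_thm hS with h | h | h | ⟨𝓑, h1, h2, h3⟩
    · -- many vertices
      obtain ⟨G, hG, hiso⟩ := ha _ hcF hmap.1 (by rw [hvc, hN]; omega)
      obtain ⟨G0, hG0, π, hπ⟩ := ha' F ⟨G, hG, hiso⟩
      exact ⟨G0, mem_union_left _ hG0, π, hπ⟩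
    · -- many missing triangles
      have h4 := TD_image F hval
      obtain ⟨Θ, R, hΘ, hsys⟩ := exists_sys hmap.1
        (m := (n + (16 * 10 ^ 9 - 1)) / (16 * 10 ^ 9)) (by omega)
      obtain ⟨G, hG, hiso⟩ := hb _ hcF ⟨Θ, R, hΘ, hsys⟩
      obtain ⟨G0, hG0, π, hπ⟩ := hb' F ⟨G, hG, hiso⟩
      exact ⟨G0, mem_union_right _ (mem_union_left _ hG0), π, hπ⟩
    · -- many clean vertices
      have h4 := gain_of_clean hS.mfd h
      rw [hF] at h4
      obtain ⟨G, hG, π, hπ⟩ := hc F hF hS.mfd (by rw [hN]; exact_mod_cast h4)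
      exact ⟨G, mem_union_right _ (mem_union_right _ (mem_union_left _ hG)), π, hπ⟩
    · -- many blocks
      obtain ⟨𝓑', hsub, hcard⟩ := exists_subset_card_eq
        (show (n + 39999) / 40000 ≤ 𝓑.card by omega)
      have hinj : Function.Injective (fun f : Fin 9 → Fin (4 * n) => Fin.val ∘ f) := by
        intro f g hfg
        funext i
        exact hval (congrFun hfg i)
      have hex : ∃ 𝓒 : Finset (Fin 9 → ℕ), 𝓒.card = (n + 39999) / 40000 ∧
          (∀ f ∈ 𝓒, IsBlk (F.image (fun s => s.image Fin.val)) f) ∧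
          ∀ f ∈ 𝓒, ∀ g ∈ 𝓒, f ≠ g → Disjoint (blk f) (blk g) := by
        refine ⟨𝓑'.image (fun f => Fin.val ∘ f), by rw [card_image_of_injective _ hinj, hcard],
          ?_, ?_⟩
        · intro f hf
          obtain ⟨f', hf', rfl⟩ := mem_image.1 hf
          refine ⟨hval.comp (h2 f' (hsub hf')).inj, ?_⟩
          rw [blk_comp]
          exact image_subset_image (h2 f' (hsub hf')).sub
        · intro f hf g hg hfg
          obtain ⟨f', hf', rfl⟩ := mem_image.1 hf
          obtain ⟨g', hg', rfl⟩ := mem_image.1 hg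
          rw [blk_comp, blk_comp]
          rw [disjoint_image (image_injective hval)]
          exact h3 f' (hsub hf') g' (hsub hg') (fun h => hfg (by rw [h]))
      obtain ⟨G, hG, hiso⟩ := hd _ hcF hmap.1 hex
      obtain ⟨G0, hG0, π, hπ⟩ := hd' F ⟨G, hG, hiso⟩
      exact ⟨G0, mem_union_right _ (mem_union_right _ (mem_union_right _ hG0)), π, hπ⟩

/-- For every `n` the closed connected simplicial 3-manifolds with `n` facets in which all
2-spheres with at most five vertices separate fall into at most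
`C ^ n * n ^ ((1/10 - 1/10^12) n)` isomorphism classes. -/
theorem sep_final :
    ∃ C : ℕ, ∀ n : ℕ, ∃ S : Finset (Finset (Finset (Fin (4 * n)))),
      S.card ^ (10 ^ 12) ≤ C ^ n * n ^ ((10 ^ 11 - 1) * n) ∧
      ∀ F : Finset (Finset (Fin (4 * n))), F.card = n → IsSepMfd F →
        ∃ G ∈ S, ∃ π : Equiv.Perm (Fin (4 * n)), G = F.image (fun σ => σ.image π) := by
  obtain ⟨C, hC⟩ := final_aux (10 ^ 11) rfl
  refine ⟨C, fun n => ?_⟩
  obtain ⟨S, h1, h2⟩ := hC n
  refine ⟨S, ?_, h2⟩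
  rw [show (10 : ℕ) ^ 12 = 10 * 10 ^ 11 by norm_num]
  exact h1

end Pool.TSphH
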