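import Pool.Agent.Lib.MP_3de3a3_co.H.HDefs
import Pool.Agent.Lib.MP_3de3a3_co.LinkCyc

/-! # Most facets are good (module HGood)

PROOF. Claim: let φ be a facet which contains no triangle in T2 D F, and such that for all x, w in φ, x not w, with dg F {x, w} < D the vertex w is
not in NA D (link F x). Then φ is good. The bound follows: a facet which is not good contains an element of T2 D F (every triangle is in two
facets: at most 2 (T2 D F).card) or contains x, w with w in NA D (link F x) (for given x, w there are dg F {x, w} = vd (link F x) w such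
facets, `vd_link`).
Proof of the claim. There are x, w in φ with dg F {x, w} < D: otherwise a triangle of φ has two heavy edges. Let φ = {x, w, s, p}. L = link F x; w is a
vertex of L of degree dg F {x, w} < D, not in NA D L, so vd L w = 4 and w has two heavy neighbours in L, different and not adjacent. Let a : Fin 4 -> ι be the
link cycle of w in L (`exists_linkCycle`); the two are a i, a (i + 2) (consecutive ones are adjacent). The triangle {w, s, p} of L (φ.erase x) is {w, a j, a (j+1)}
for some j (the four triangles {w, a j, a (j+1)} are different, so they are all the triangles of L at w, as vd L w = 4). {j, j+1} meets {i, i+2}, so s or p is heavy in L: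
dg F {x, s} >= D or dg F {x, p} >= D. By symmetry let dg F {x, s} >= D (otherwise exchange s and p). With x and w exchanged: dg F {w, s} >= D or dg F {w, p} >= D.
The first is impossible: the triangle {x, w, s} would have the heavy edges xs and ws. So dg F {w, p} >= D. The edges xp, sp, ws, xw are light (otherwise a triangle with
two heavy edges: {x, s, p} for xp and sp, {w, s, p} for ws), so by the first step applied to them (x', w' instead of x, w) they have degree 4. Gd D F x s w p. -/

set_option autoImplicit false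

namespace Pool.TSphH

open Finset
open Pool.TSph

variable {ι : Type*} [DecidableEq ι]

private theorem HGood_fin {i j : Fin 4} (h1 : j ≠ i) (h2 : j ≠ i + 1) (h3 : i ≠ j + 1) :
    j = i + 2 := by
  revert i j
  decide

private theorem HGood_fin2 {i k l : Fin 4} (h1 : k ≠ i) (h2 : k ≠ i + 2) (h3 : l ≠ i)
    (h4 : l ≠ i + 2) (h5 : k ≠ l) : (k = i + 1 ∧ l = i + 3) ∨ (k = i + 3 ∧ l = i + 1) := by
  revert i k l
  decide

private theorem HGood_f1 (i : Fin 4) : i + 1 ≠ i := by revert i; decide

private theorem HGood_f1' (i : Fin 4) : i + 1 + 1 = i + 2 := by revert i; decide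

private theorem HGood_f2 (i : Fin 4) : ¬ (i = i + 1 ∨ i = i + 2) := by revert i; decide

private theorem HGood_f3 (i : Fin 4) : ¬ (i = i + 1 ∨ i = i + 3) := by revert i; decide

private theorem HGood_f4 (i : Fin 4) : ¬ (i + 2 = i + 1 ∨ i + 2 = i + 3) := by revert i; decide

private theorem HGood_step {F : Finset (Finset ι)} (hF : IsMfd3 F) {D : ℕ} {x w s p : ι}
    (hxw : x ≠ w) (hxs : x ≠ s) (hxp : x ≠ p) (hws : w ≠ s) (hwp : w ≠ p) (hsp : s ≠ p)
    (hφ : ({x, w, s, p} : Finset ι) ∈ F) (hlt : dg F {x, w} < D) (hNA : w ∉ NA D (link F x)) :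
    dg F {x, w} = 4 ∧ (D ≤ dg F {x, s} ∨ D ≤ dg F {x, p}) := by
  have hxF : x ∈ verts F := mem_verts.2 ⟨_, hφ, by simp⟩
  have hL := hF.sphere x hxF
  have htri : ({w, s, p} : Finset ι) ∈ link F x := by
    refine mem_link'.2 ⟨?_, hφ⟩
    simp only [mem_insert, mem_singleton, not_or]
    exact ⟨hxw, hxs, hxp⟩
  have hwv : w ∈ verts (link F x) := mem_verts.2 ⟨_, htri, by simp⟩
  have hvd := vd_link (F := F) hxw
  have h4 : vd (link F x) w = 4 ∧ TwoHv D (link F x) w := by
    by_contra h
    exact hNA (mem_NA.2 ⟨hwv, by rw [hvd]; exact hlt, h⟩)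
  obtain ⟨h4, s', p', h1, h2, h3, h5, h6, h7⟩ := h4
  refine ⟨by rw [← hvd, h4], ?_⟩
  rw [← vd_link hxs, ← vd_link hxp]
  obtain ⟨a, ha⟩ := exists_linkCycle hL hwv (d := 4) h4
  obtain ⟨i, rfl⟩ := (ha.all s').1 h1
  obtain ⟨j, rfl⟩ := (ha.all p').1 h2
  have hmem : ∀ m k l : Fin 4, a m ∈ ({w, a k, a l} : Finset ι) → m = k ∨ m = l := by
    intro m k l h
    simp only [mem_insert, mem_singleton] at h
    rcases h with h | h | h
    · exact absurd h (ha.ne m)
    · exact Or.inl (ha.inj h)
    · exact Or.inr (ha.inj h)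
  have hadj : ∀ k : Fin 4, adj (link F x) (a k) (a (k + 1)) := by
    intro k
    exact ⟨fun h => HGood_f1 k (ha.inj h).symm, _, ha.tri k, by simp, by simp⟩
  have hji : j ≠ i := fun h => h3 (by rw [h])
  have hj1 : j ≠ i + 1 := fun h => h5 (by rw [h]; exact hadj i)
  have hi1 : i ≠ j + 1 := fun h => h5 (by rw [h]; exact adj_symm (hadj j))
  have hj2 := HGood_fin hji hj1 hi1
  subst hj2
  obtain ⟨k, hk⟩ := (ha.all s).1 ⟨hws, _, htri, by simp, by simp⟩
  obtain ⟨l, hl⟩ := (ha.all p).1 ⟨hwp, _, htri, by simp, by simp⟩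
  subst hk
  subst hl
  have hkl : k ≠ l := fun h => hsp (by rw [h])
  by_cases e1 : k = i
  · left; rw [e1]; exact h6
  by_cases e2 : k = i + 2
  · left; rw [e2]; exact h7
  by_cases e3 : l = i
  · right; rw [e3]; exact h6
  by_cases e4 : l = i + 2
  · right; rw [e4]; exact h7
  exfalso
  have hT3 : ({w, a (i + 1), a (i + 3)} : Finset ι) ∈ link F x := by
    rcases HGood_fin2 e1 e2 e3 e4 hkl with ⟨rfl, rfl⟩ | ⟨rfl, rfl⟩
    · exact htri
    · rw [Finset.pair_comm]
      exact htri
  have hT1 : ({w, a i, a (i + 1)} : Finset ι) ∈ link F x := ha.tri i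
  have hT2 : ({w, a (i + 1), a (i + 2)} : Finset ι) ∈ link F x := by
    have := ha.tri (i + 1)
    rwa [HGood_f1'] at this
  have hc := hL.edge _ hT1 {w, a (i + 1)} (by
    intro z hz
    simp only [mem_insert, mem_singleton] at hz ⊢
    tauto) (card_pair (ha.ne _).symm)
  have hsub : ({({w, a i, a (i + 1)} : Finset ι), {w, a (i + 1), a (i + 2)},
      {w, a (i + 1), a (i + 3)}} : Finset (Finset ι)) ⊆
      (link F x).filter (fun s => ({w, a (i + 1)} : Finset ι) ⊆ s) := by
    intro t ht
    simp only [mem_insert, mem_singleton] at ht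
    rw [mem_filter]
    rcases ht with rfl | rfl | rfl
    · refine ⟨hT1, ?_⟩
      intro z hz
      simp only [mem_insert, mem_singleton] at hz ⊢
      tauto
    · refine ⟨hT2, ?_⟩
      intro z hz
      simp only [mem_insert, mem_singleton] at hz ⊢
      tauto
    · refine ⟨hT3, ?_⟩
      intro z hz
      simp only [mem_insert, mem_singleton] at hz ⊢
      tauto
  have hcard := card_le_card hsub
  rw [hc] at hcard
  have hc3 : ({({w, a i, a (i + 1)} : Finset ι), {w, a (i + 1), a (i + 2)},
      {w, a (i + 1), a (i + 3)}} : Finset (Finset ι)).card = 3 := by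
    rw [Finset.card_eq_three]
    refine ⟨_, _, _, ?_, ?_, ?_, rfl⟩
    · intro h
      have h8 : a i ∈ ({w, a (i + 1), a (i + 2)} : Finset ι) := by rw [← h]; simp
      exact HGood_f2 i (hmem _ _ _ h8)
    · intro h
      have h8 : a i ∈ ({w, a (i + 1), a (i + 3)} : Finset ι) := by rw [← h]; simp
      exact HGood_f3 i (hmem _ _ _ h8)
    · intro h
      have h8 : a (i + 2) ∈ ({w, a (i + 1), a (i + 3)} : Finset ι) := by rw [← h]; simp
      exact HGood_f4 i (hmem _ _ _ h8)
  omega

/-- the facets without a triangle with two heavy edges and without bad pair -/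
private theorem HGood_claim {F : Finset (Finset ι)} (hF : IsMfd3 F) {D : ℕ} {x w s p : ι}
    (hxw : x ≠ w) (hxs : x ≠ s) (hxp : x ≠ p) (hws : w ≠ s) (hwp : w ≠ p) (hsp : s ≠ p)
    (hφ : ({x, w, s, p} : Finset ι) ∈ F)
    (hT : ∀ u ∈ ({x, w, s, p} : Finset ι), ∀ v ∈ ({x, w, s, p} : Finset ι),
      ∀ z ∈ ({x, w, s, p} : Finset ι), u ≠ v → u ≠ z → v ≠ z → D ≤ dg F {u, v} → dg F {u, z} < D)
    (hN : ∀ u ∈ ({x, w, s, p} : Finset ι), ∀ v ∈ ({x, w, s, p} : Finset ι), v ∉ NA D (link F u))
    (hlt : dg F {x, w} < D) (hh : D ≤ dg F {x, s}) : Gd D F x s w p := by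
  have mx : x ∈ ({x, w, s, p} : Finset ι) := by simp
  have mw : w ∈ ({x, w, s, p} : Finset ι) := by simp
  have ms : s ∈ ({x, w, s, p} : Finset ι) := by simp
  have mp : p ∈ ({x, w, s, p} : Finset ι) := by simp
  have hxp' : dg F {x, p} < D := hT x mx s ms p mp hxs hxp hsp hh
  have hh' : D ≤ dg F {s, x} := by rw [Finset.pair_comm]; exact hh
  have hsp' : dg F {s, p} < D := hT s ms x mx p mp hxs.symm hsp hxp hh'
  have hsw' : dg F {s, w} < D := hT s ms x mx w mw hxs.symm hws.symm hxw hh'
  have e1 : ({w, x, s, p} : Finset ι) = {x, w, s, p} := by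
    ext z; simp only [mem_insert, mem_singleton]; tauto
  have e2 : ({x, p, w, s} : Finset ι) = {x, w, s, p} := by
    ext z; simp only [mem_insert, mem_singleton]; tauto
  have e3 : ({s, p, x, w} : Finset ι) = {x, w, s, p} := by
    ext z; simp only [mem_insert, mem_singleton]; tauto
  have e4 : ({s, w, x, p} : Finset ι) = {x, w, s, p} := by
    ext z; simp only [mem_insert, mem_singleton]; tauto
  have e5 : ({x, s, w, p} : Finset ι) = {x, w, s, p} := by
    ext z; simp only [mem_insert, mem_singleton]; tauto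
  have h1 := HGood_step hF hxw hxs hxp hws hwp hsp hφ hlt (hN x mx w mw)
  have h2 := HGood_step hF hxw.symm hws hwp hxs hxp hsp (by rw [e1]; exact hφ)
    (by rw [Finset.pair_comm]; exact hlt) (hN w mw x mx)
  have h3 := HGood_step hF hxp hxw hxs hwp.symm hsp.symm hws (by rw [e2]; exact hφ) hxp'
    (hN x mx p mp)
  have h4 := HGood_step hF hsp hxs.symm hws.symm hxp.symm hwp.symm hxw (by rw [e3]; exact hφ) hsp'
    (hN s ms p mp)
  have h5 := HGood_step hF hws.symm hxs.symm hsp hxw.symm hwp hxp (by rw [e4]; exact hφ) hsw'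
    (hN s ms w mw)
  have h6 : D ≤ dg F {w, p} := by
    rcases h2.2 with h | h
    · rw [Finset.pair_comm] at h
      exact absurd h (not_le.2 hsw')
    · exact h
  exact ⟨by rw [e5]; exact hφ, hh, h6, h1.1, h3.1, h5.1, h4.1⟩

private theorem HGood_good {F : Finset (Finset ι)} (hF : IsMfd3 F) {D : ℕ} {φ : Finset ι}
    (hφ : φ ∈ F)
    (hT : ∀ u ∈ φ, ∀ v ∈ φ, ∀ z ∈ φ, u ≠ v → u ≠ z → v ≠ z → D ≤ dg F {u, v} → dg F {u, z} < D)
    (hN : ∀ u ∈ φ, ∀ v ∈ φ, v ∉ NA D (link F u)) : IsGood D F φ := by
  -- from a light edge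
  have key : ∀ x w s p : ι, x ≠ w → x ≠ s → x ≠ p → w ≠ s → w ≠ p → s ≠ p →
      φ = {x, w, s, p} → dg F {x, w} < D → IsGood D F φ := by
    intro x w s p hxw hxs hxp hws hwp hsp he hlt
    subst he
    have h1 := HGood_step hF hxw hxs hxp hws hwp hsp hφ hlt (hN x (by simp) w (by simp))
    rcases h1.2 with h | h
    · have h2 := HGood_claim hF hxw hxs hxp hws hwp hsp hφ hT hN hlt h
      exact ⟨x, s, w, p, by ext z; simp only [mem_insert, mem_singleton]; tauto, h2⟩
    · have e1 : ({x, w, p, s} : Finset ι) = {x, w, s, p} := by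
        ext z; simp only [mem_insert, mem_singleton]; tauto
      have h2 := HGood_claim hF hxw hxp hxs hwp hws hsp.symm (by rw [e1]; exact hφ)
        (by rw [e1]; exact hT) (by rw [e1]; exact hN) hlt h
      exact ⟨x, p, w, s, by ext z; simp only [mem_insert, mem_singleton]; tauto, h2⟩
  obtain ⟨x, w, s, p, hxw, hxs, hxp, hws, hwp, hsp, rfl⟩ := Finset.card_eq_four.1 (hF.card4 φ hφ)
  by_cases hlt : dg F {x, w} < D
  · exact key x w s p hxw hxs hxp hws hwp hsp rfl hlt
  · have h := hT x (by simp) w (by simp) s (by simp) hxw hxs hws (not_lt.1 hlt)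
    exact key x s w p hxs hxw hxp hws.symm hsp hwp (by
      ext z; simp only [mem_insert, mem_singleton]; tauto) h

theorem notGood_card {F : Finset (Finset ι)} (hF : IsMfd3 F) {D : ℕ} (hD : 5 ≤ D) :
    (NotGood D F).card ≤ 2 * (T2 D F).card +
      ∑ x ∈ verts F, ∑ w ∈ NA D (link F x), vd (link F x) w := by
  classical
  have hsub : NotGood D F ⊆ ((T2 D F).biUnion fun t => F.filter (fun s => t ⊆ s)) ∪
      (verts F).biUnion fun x => (NA D (link F x)).biUnion fun w =>
        F.filter (fun s => ({x, w} : Finset ι) ⊆ s) := by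
    intro φ hφ
    unfold NotGood at hφ
    rw [mem_filter] at hφ
    obtain ⟨hφF, hng⟩ := hφ
    by_contra hcon
    rw [mem_union, not_or] at hcon
    obtain ⟨h1, h2⟩ := hcon
    apply hng
    apply HGood_good hF hφF
    · intro u hu v hv z hz huv huz hvz hh
      by_contra hcon
      push Not at hcon
      apply h1
      rw [mem_biUnion]
      have hsubs : ({u, v, z} : Finset ι) ⊆ φ := by
        intro y hy
        simp only [mem_insert, mem_singleton] at hy
        rcases hy with rfl | rfl | rfl
        · exact hu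
        · exact hv
        · exact hz
      refine ⟨{u, v, z}, ?_, mem_filter.2 ⟨hφF, hsubs⟩⟩
      unfold T2
      rw [mem_filter, mem_tris]
      refine ⟨⟨?_, φ, hφF, hsubs⟩, u, by simp, v, by simp, z, by simp, huv, huz, hvz, hh, hcon⟩
      exact Finset.card_eq_three.2 ⟨u, v, z, huv, huz, hvz, rfl⟩
    · intro u hu v hv hna
      apply h2
      rw [mem_biUnion]
      refine ⟨u, mem_verts.2 ⟨φ, hφF, hu⟩, ?_⟩
      rw [mem_biUnion]
      refine ⟨v, hna, mem_filter.2 ⟨hφF, ?_⟩⟩
      intro y hy
      simp only [mem_insert, mem_singleton] at hy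
      rcases hy with rfl | rfl
      · exact hu
      · exact hv
  refine (card_le_card hsub).trans ((card_union_le _ _).trans (Nat.add_le_add ?_ ?_))
  · refine card_biUnion_le.trans ?_
    have h2 : ∀ t ∈ T2 D F, (F.filter (fun s => t ⊆ s)).card = 2 :=
      fun t ht => two_facets hF (mem_filter.1 ht).1
    rw [Finset.sum_congr rfl h2, sum_const, smul_eq_mul, mul_comm]
  · refine card_biUnion_le.trans (sum_le_sum fun x _ => ?_)
    refine card_biUnion_le.trans (sum_le_sum fun w hw => ?_)
    have hxw : x ≠ w := (mem_verts_link.1 (mem_NA.1 hw).1).1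
    rw [vd_link hxw]
    exact le_rfl

end Pool.TSphH
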