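import Pool.Agent.Lib.MP_3de3a3_co.H.HConn
import Pool.Agent.Lib.MP_3de3a3_co.Tetra
import Pool.Agent.Lib.MP_3de3a3_co.Move13

/-! # The 1-4 move (module HMoveA)

PROOF. Let F' = F.erase σ union (σ.powersetCard 3).image (insert c). Links: link F' c = σ.powersetCard 3 (`tetra`). For u in σ:
link F' u = (link F u).erase (σ.erase u) union the triangles insert c ((σ.erase u).erase a), a in σ.erase u (`move13`, with z = c, τ = σ.erase u; c is not a vertex of link F u).
For u not in σ, u not c: link F' u = link F u. Connectedness: `mfd_transfer` (two elements of σ are in a common 3-subset of σ; c is in a facet with an element of σ). -/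

set_option autoImplicit false

namespace Pool.TSphH

open Finset
open Pool.TSph

variable {ι : Type*} [DecidableEq ι]

private theorem ma_link {F : Finset (Finset ι)} (hF : IsMfd3 F) {σ : Finset ι} (hσ : σ ∈ F) {c : ι}
    (hc : c ∉ verts F) {x : ι} (hx : x ∈ σ) :
    link (F.erase σ ∪ (σ.powersetCard 3).image (insert c)) x =
      (link F x).erase (σ.erase x) ∪ (σ.erase x).image (fun a => insert c ((σ.erase x).erase a)) := by
  have hσ4 := hF.card4 σ hσ
  have hcF : ∀ s ∈ F, c ∉ s := fun s hs h => hc (mem_verts.2 ⟨s, hs, h⟩)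
  have hxc : x ≠ c := fun h => hcF σ hσ (h ▸ hx)
  ext t
  rw [mem_link, mem_union, mem_erase, mem_link, mem_image]
  constructor
  · rintro ⟨s, hs, hxs, rfl⟩
    rw [mem_union, mem_erase, mem_image] at hs
    rcases hs with ⟨h1, h2⟩ | ⟨t', ht', rfl⟩
    · left
      refine ⟨fun h => h1 ?_, s, h2, hxs, rfl⟩
      rw [← insert_erase hxs, h, insert_erase hx]
    · right
      obtain ⟨a, ha, rfl⟩ := (Tetra_mem hσ4).1 ht'
      rw [mem_insert, mem_erase] at hxs
      have hxa : x ≠ a := by
        rcases hxs with h | h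
        · exact absurd h hxc
        · exact h.1
      refine ⟨a, mem_erase.2 ⟨hxa.symm, ha⟩, ?_⟩
      ext y
      simp only [mem_insert, mem_erase]
      constructor
      · rintro (h | h)
        · exact ⟨fun h' => hxc (h'.symm.trans h), Or.inl h⟩
        · exact ⟨h.2.1, Or.inr ⟨h.1, h.2.2⟩⟩
      · rintro ⟨h, h' | h'⟩
        · exact Or.inl h'
        · exact Or.inr ⟨h'.1, h, h'.2⟩
  · rintro (⟨h1, s, hs, hxs, rfl⟩ | ⟨a, ha, rfl⟩)
    · refine ⟨s, mem_union.2 (Or.inl (mem_erase.2 ⟨fun h => h1 (by rw [h]), hs⟩)), hxs, rfl⟩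
    · rw [mem_erase] at ha
      refine ⟨insert c (σ.erase a), mem_union.2 (Or.inr (mem_image.2 ⟨σ.erase a, (Tetra_mem hσ4).2 ⟨a, ha.2, rfl⟩, rfl⟩)),
        mem_insert_of_mem (mem_erase.2 ⟨ha.1.symm, hx⟩), ?_⟩
      ext y
      simp only [mem_insert, mem_erase]
      constructor
      · rintro ⟨h, h' | h'⟩
        · exact Or.inl h'
        · exact Or.inr ⟨h'.1, h, h'.2⟩
      · rintro (h | h)
        · exact ⟨fun h' => hxc (h'.symm.trans h), Or.inl h⟩
        · exact ⟨h.2.1, Or.inr ⟨h.1, h.2.2⟩⟩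

theorem move14 {F : Finset (Finset ι)} (hF : IsMfd3 F) {σ : Finset ι} (hσ : σ ∈ F) {c : ι}
    (hc : c ∉ verts F) : IsMfd3 (F.erase σ ∪ (σ.powersetCard 3).image (insert c)) := by
  have hσ4 := hF.card4 σ hσ
  have hcF : ∀ s ∈ F, c ∉ s := fun s hs h => hc (mem_verts.2 ⟨s, hs, h⟩)
  have mem' : ∀ s, s ∈ F.erase σ ∪ (σ.powersetCard 3).image (insert c) ↔
      (s ≠ σ ∧ s ∈ F) ∨ ∃ t ∈ σ.powersetCard 3, insert c t = s := by
    intro s
    rw [mem_union, mem_erase, mem_image]
  have hct : ∀ t ∈ σ.powersetCard 3, c ∉ t := fun t ht h => hcF σ hσ ((mem_powersetCard.1 ht).1 h)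
  refine mfd_transfer hF ?_ ?_ ?_ ?_
  · intro s hs
    rcases (mem' s).1 hs with ⟨_, h⟩ | ⟨t, ht, rfl⟩
    · exact hF.card4 s h
    · rw [card_insert_of_notMem (hct t ht), (mem_powersetCard.1 ht).2]
  · intro x hx
    by_cases hxc : x = c
    · have h : link (F.erase σ ∪ (σ.powersetCard 3).image (insert c)) x = σ.powersetCard 3 := by
        rw [hxc]
        ext t
        rw [mem_link]
        constructor
        · rintro ⟨s, hs, hcs, rfl⟩
          rcases (mem' s).1 hs with ⟨_, h⟩ | ⟨t, ht, rfl⟩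
          · exact absurd hcs (hcF s h)
          · rw [erase_insert (hct t ht)]
            exact ht
        · intro ht
          exact ⟨insert c t, (mem' _).2 (Or.inr ⟨t, ht, rfl⟩), mem_insert_self _ _, erase_insert (hct t ht)⟩
      rw [h]
      exact (tetra hσ4).1
    · by_cases hxσ : x ∈ σ
      · rw [ma_link hF hσ hc hxσ]
        have h1 : σ.erase x ∈ link F x := mem_link.2 ⟨σ, hσ, hxσ, rfl⟩
        have h2 : c ∉ verts (link F x) := by
          intro h
          obtain ⟨t, ht, hct'⟩ := mem_verts.1 h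
          obtain ⟨s, hs, _, rfl⟩ := mem_link.1 ht
          exact hcF s hs (mem_of_mem_erase hct')
        exact (move13 (hF.sphere x (mem_verts.2 ⟨σ, hσ, hxσ⟩)) h1 h2).1
      · have h : link (F.erase σ ∪ (σ.powersetCard 3).image (insert c)) x = link F x := by
          ext t
          rw [mem_link, mem_link]
          constructor
          · rintro ⟨s, hs, hxs, rfl⟩
            rcases (mem' s).1 hs with ⟨_, h⟩ | ⟨t, ht, rfl⟩
            · exact ⟨s, h, hxs, rfl⟩
            · exfalso
              rcases mem_insert.1 hxs with h | h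
              · exact hxc h
              · exact hxσ ((mem_powersetCard.1 ht).1 h)
          · rintro ⟨s, hs, hxs, rfl⟩
            exact ⟨s, (mem' s).2 (Or.inl ⟨fun h => hxσ (h ▸ hxs), hs⟩), hxs, rfl⟩
        rw [h]
        apply hF.sphere
        obtain ⟨s, hs, hxs⟩ := mem_verts.1 hx
        rcases (mem' s).1 hs with ⟨_, h⟩ | ⟨t, ht, rfl⟩
        · exact mem_verts.2 ⟨s, h, hxs⟩
        · exfalso
          rcases mem_insert.1 hxs with h | h
          · exact hxc h
          · exact hxσ ((mem_powersetCard.1 ht).1 h)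
  · intro s hs u hu v hv
    by_cases hsσ : s = σ
    · rw [hsσ] at hu hv
      have h1 : 0 < ((σ.erase u).erase v).card := by
        have h2 := card_erase_of_mem hu
        have h3 := pred_card_le_card_erase (s := σ.erase u) (a := v)
        omega
      obtain ⟨a, ha⟩ := card_pos.1 h1
      rw [mem_erase, mem_erase] at ha
      exact Relation.ReflTransGen.single ⟨insert c (σ.erase a),
        (mem' _).2 (Or.inr ⟨σ.erase a, (Tetra_mem hσ4).2 ⟨a, ha.2.2, rfl⟩, rfl⟩),
        mem_insert_of_mem (mem_erase.2 ⟨ha.2.1.symm, hu⟩), mem_insert_of_mem (mem_erase.2 ⟨ha.1.symm, hv⟩)⟩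
    · exact Relation.ReflTransGen.single ⟨s, (mem' s).2 (Or.inl ⟨hsσ, hs⟩), hu, hv⟩
  · intro u hu
    obtain ⟨s, hs, hus⟩ := mem_verts.1 hu
    rcases (mem' s).1 hs with ⟨_, h⟩ | ⟨t, ht, rfl⟩
    · exact ⟨u, mem_verts.2 ⟨s, h, hus⟩, Relation.ReflTransGen.refl⟩
    · obtain ⟨v, hv⟩ : t.Nonempty := by rw [← card_pos, (mem_powersetCard.1 ht).2]; norm_num
      exact ⟨v, mem_verts.2 ⟨σ, hσ, (mem_powersetCard.1 ht).1 hv⟩,
        Relation.ReflTransGen.single ⟨insert c t, hs, hus, mem_insert_of_mem hv⟩⟩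

end Pool.TSphH
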