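import Pool.Agent.Lib.MP_3de3a3_co.H.HConn
import Pool.Agent.Lib.MP_3de3a3_co.Flip
import Pool.Agent.Lib.MP_3de3a3_co.Move13

/-! # The 2-3 move (module HMoveB)

PROOF. Let t = {u1, u2, u3}, F' = (F - {insert c t, insert q t}) union {insert c (insert q e) : e in t.powersetCard 2}. The new facets are not in F (they contain c and q).
Links: of c: (link F c).erase t union the triangles insert q (t.erase a), a in t: `move13` with z = q, τ = t (q is not a vertex of link F c because no facet contains c and q).
Of q: the same with c and q exchanged. Of u in t, t = {u, v, w}: link F u loses {v, w, c}, {v, w, q} and gains {c, q, v}, {c, q, w}: `flip` with (u, v, x, y) = (v, w, c, q), because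
c, q are not adjacent in link F u. Of the other vertices: unchanged. Connectedness: `mfd_transfer`: two vertices of insert c t or of insert q t are in a common new facet. -/

set_option autoImplicit false

namespace Pool.TSphH

open Finset
open Pool.TSph

variable {ι : Type*} [DecidableEq ι]

private theorem HMoveB_ins {x : ι} {s A : Finset ι} :
    (x ∉ s ∧ insert x s = A) ↔ (x ∈ A ∧ s = A.erase x) := by
  constructor
  · rintro ⟨h, rfl⟩
    exact ⟨mem_insert_self _ _, (erase_insert h).symm⟩
  · rintro ⟨h, rfl⟩
    exact ⟨notMem_erase _ _, insert_erase h⟩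

private theorem HMoveB_mem {F : Finset (Finset ι)} {t : Finset ι} {c q : ι} {s : Finset ι} :
    s ∈ (F \ {insert c t, insert q t}) ∪
      (t.powersetCard 2).image (fun e => insert c (insert q e)) ↔
      (s ∈ F ∧ s ≠ insert c t ∧ s ≠ insert q t) ∨
        ∃ e, (e ⊆ t ∧ e.card = 2) ∧ insert c (insert q e) = s := by
  simp only [mem_union, mem_sdiff, mem_insert, mem_singleton, mem_image, mem_powersetCard, not_or]

/-- The link of `c` after the move. -/
private theorem HMoveB_linkc {F : Finset (Finset ι)} (hF : IsMfd3 F) {t : Finset ι} {c q : ι}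
    (ht : t.card = 3) (hct : c ∉ t) (hqt : q ∉ t) (hcq : c ≠ q) (h1 : insert c t ∈ F)
    (hno : ∀ s ∈ F, c ∈ s → q ∈ s → False) :
    IsSphere2 (link ((F \ {insert c t, insert q t}) ∪
      (t.powersetCard 2).image (fun e => insert c (insert q e))) c) := by
  have hcF : c ∈ verts F := mem_verts.2 ⟨_, h1, mem_insert_self _ _⟩
  have htl : t ∈ link F c := mem_link'.2 ⟨hct, h1⟩
  have hqv : q ∉ verts (link F c) := by
    rw [mem_verts_link]
    rintro ⟨-, s, hs, hc, hq⟩
    exact hno s hs hc hq
  have hm := (move13 (hF.sphere c hcF) htl hqv).1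
  have heq : link ((F \ {insert c t, insert q t}) ∪
      (t.powersetCard 2).image (fun e => insert c (insert q e))) c =
      (link F c).erase t ∪ t.image (fun a => insert q (t.erase a)) := by
    ext s
    rw [mem_link', HMoveB_mem, mem_union, mem_erase, mem_link', mem_image]
    constructor
    · rintro ⟨hcs, ⟨hs, hs1, hs2⟩ | ⟨e, ⟨he, he2⟩, hes⟩⟩
      · left
        refine ⟨?_, hcs, hs⟩
        rintro rfl
        exact hs1 rfl
      · right
        have hce : c ∉ insert q e := by
          rw [mem_insert, not_or]
          exact ⟨hcq, fun h => hct (he h)⟩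
        have hse : insert q e = s := by
          rw [← erase_insert hce, hes, erase_insert hcs]
        have hmiss : (t \ e).card = 1 := by
          rw [card_sdiff_of_subset he, ht, he2]
        obtain ⟨a, ha⟩ := card_eq_one.1 hmiss
        have hat : a ∈ t \ e := by rw [ha]; simp
        rw [mem_sdiff] at hat
        refine ⟨a, hat.1, ?_⟩
        rw [← hse]
        congr 1
        refine (eq_of_subset_of_card_le ?_ ?_).symm
        · intro z hz
          exact mem_erase.2 ⟨fun h => hat.2 (h ▸ hz), he hz⟩
        · rw [card_erase_of_mem hat.1, ht, he2]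
    · rintro (⟨hst, hcs, hs⟩ | ⟨a, ha, rfl⟩)
      · refine ⟨hcs, Or.inl ⟨hs, ?_, ?_⟩⟩
        · intro h
          apply hst
          rw [← erase_insert hcs, h, erase_insert hct]
        · intro h
          have : c ∈ insert q t := by rw [← h]; exact mem_insert_self _ _
          rw [mem_insert] at this
          rcases this with h | h
          · exact hcq h
          · exact hct h
      · refine ⟨?_, Or.inr ⟨t.erase a, ⟨erase_subset _ _, ?_⟩, rfl⟩⟩
        · rw [mem_insert, not_or]
          exact ⟨hcq, fun h => hct (mem_of_mem_erase h)⟩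
        · rw [card_erase_of_mem ha, ht]
  rw [heq]
  exact hm

/-- The link of a vertex of `t` after the move. -/
private theorem HMoveB_linku {F : Finset (Finset ι)} (hF : IsMfd3 F) {t : Finset ι} {c q : ι}
    (ht : t.card = 3) (hct : c ∉ t) (hqt : q ∉ t) (hcq : c ≠ q) (h1 : insert c t ∈ F)
    (h2 : insert q t ∈ F) (hno : ∀ s ∈ F, c ∈ s → q ∈ s → False) {u : ι} (hu : u ∈ t) :
    IsSphere2 (link ((F \ {insert c t, insert q t}) ∪
      (t.powersetCard 2).image (fun e => insert c (insert q e))) u) := by
  have huF : u ∈ verts F := mem_verts.2 ⟨_, h1, mem_insert_of_mem hu⟩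
  have huc : u ≠ c := fun h => hct (h ▸ hu)
  have huq : u ≠ q := fun h => hqt (h ▸ hu)
  obtain ⟨v, w, hvw, he⟩ : ∃ v w, v ≠ w ∧ t.erase u = {v, w} :=
    card_eq_two.1 (by rw [card_erase_of_mem hu, ht])
  have hvt : v ∈ t.erase u := by rw [he]; simp
  have hwt : w ∈ t.erase u := by rw [he]; simp
  rw [mem_erase] at hvt hwt
  have htm : ∀ z, z ∈ t ↔ z = u ∨ z = v ∨ z = w := by
    intro z
    have := congrArg (fun s => z ∈ s) he
    simp only [mem_erase, mem_insert, mem_singleton, eq_iff_iff] at this
    by_cases hz : z = u
    · simp [hz, hu]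
    · simp only [hz, false_or]
      rw [← this]
      simp [hz]
  have hvc : v ≠ c := fun h => hct (h ▸ hvt.2)
  have hvq : v ≠ q := fun h => hqt (h ▸ hvt.2)
  have hwc : w ≠ c := fun h => hct (h ▸ hwt.2)
  have hwq : w ≠ q := fun h => hqt (h ▸ hwt.2)
  have e1 : (insert c t).erase u = {v, w, c} := by
    ext z
    simp only [mem_erase, mem_insert, mem_singleton, htm]
    constructor
    · tauto
    · rintro (rfl | rfl | rfl)
      · exact ⟨hvt.1, by tauto⟩
      · exact ⟨hwt.1, by tauto⟩
      · exact ⟨huc.symm, by tauto⟩
  have e2 : (insert q t).erase u = {v, w, q} := by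
    ext z
    simp only [mem_erase, mem_insert, mem_singleton, htm]
    constructor
    · tauto
    · rintro (rfl | rfl | rfl)
      · exact ⟨hvt.1, by tauto⟩
      · exact ⟨hwt.1, by tauto⟩
      · exact ⟨huq.symm, by tauto⟩
  have hx : ({v, w, c} : Finset ι) ∈ link F u := by
    rw [← e1]
    exact mem_link.2 ⟨_, h1, mem_insert_of_mem hu, rfl⟩
  have hy : ({v, w, q} : Finset ι) ∈ link F u := by
    rw [← e2]
    exact mem_link.2 ⟨_, h2, mem_insert_of_mem hu, rfl⟩
  have hn : ¬ adj (link F u) c q := by
    rintro ⟨-, r, hr, hc, hq⟩
    obtain ⟨s, hs, -, rfl⟩ := mem_link.1 hr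
    exact hno s hs (mem_of_mem_erase hc) (mem_of_mem_erase hq)
  obtain ⟨L', hL', hS, -, -⟩ := flip (hF.sphere u huF) hcq hx hy hn
  have heq : link ((F \ {insert c t, insert q t}) ∪
      (t.powersetCard 2).image (fun e => insert c (insert q e))) u = L' := by
    rw [hL']
    ext s
    rw [mem_link', HMoveB_mem, mem_union, mem_sdiff, mem_link']
    simp only [mem_insert, mem_singleton, not_or]
    constructor
    · rintro ⟨hus, ⟨hs, hs1, hs2⟩ | ⟨e, ⟨hee, he2⟩, hes⟩⟩
      · left
        refine ⟨⟨hus, hs⟩, ?_, ?_⟩
        · rintro rfl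
          apply hs1
          rw [← e1, insert_erase (mem_insert_of_mem hu)]
        · rintro rfl
          apply hs2
          rw [← e2, insert_erase (mem_insert_of_mem hu)]
      · right
        have hue : u ∈ e := by
          have : u ∈ insert c (insert q e) := by rw [hes]; exact mem_insert_self _ _
          simp only [mem_insert] at this
          rcases this with h | h | h
          · exact absurd h huc
          · exact absurd h huq
          · exact h
        obtain ⟨z, hz⟩ := card_eq_one.1 (show (e.erase u).card = 1 by
          rw [card_erase_of_mem hue, he2])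
        have hze : z ∈ e.erase u := by rw [hz]; simp
        rw [mem_erase] at hze
        have hem : ∀ y, y ∈ e ↔ y = u ∨ y = z := by
          intro y
          have := congrArg (fun s => y ∈ s) hz
          simp only [mem_erase, mem_singleton, eq_iff_iff] at this
          by_cases hy : y = u
          · simp [hy, hue]
          · simp only [hy, false_or]
            rw [← this]
            simp [hy]
        have hs : s = {c, q, z} := by
          ext y
          have := congrArg (fun s => y ∈ s) hes
          simp only [mem_insert, mem_singleton, eq_iff_iff, hem] at this ⊢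
          constructor
          · intro hy
            have hyu : y ≠ u := fun h => hus (h ▸ hy)
            have := this.2 (Or.inr hy)
            tauto
          · intro hy
            have hyu : y ≠ u := by
              intro hyu
              rw [hyu] at hy
              rcases hy with h | h | h
              · exact huc h
              · exact huq h
              · exact hze.1 h.symm
            have := this.1 (by tauto)
            tauto
        have hzt := (htm z).1 (hee hze.2)
        rcases hzt with h | h | h
        · exact absurd h hze.1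
        · left; rw [hs, h]
        · right; rw [hs, h]
    · have hnew : ∀ z, z ∈ t → z ≠ u → s = {c, q, z} → u ∉ s ∧
          ((insert u s ∈ F ∧ insert u s ≠ insert c t ∧ insert u s ≠ insert q t) ∨
          ∃ e, (e ⊆ t ∧ e.card = 2) ∧ insert c (insert q e) = insert u s) := by
        intro z hzt hzu hs
        refine ⟨?_, Or.inr ⟨{u, z}, ⟨?_, card_pair hzu.symm⟩, ?_⟩⟩
        · rw [hs]
          simp only [mem_insert, mem_singleton, not_or]
          exact ⟨huc, huq, hzu.symm⟩
        · intro y hy
          simp only [mem_insert, mem_singleton] at hy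
          rcases hy with rfl | rfl
          · exact hu
          · exact hzt
        · rw [hs]
          ext y
          simp only [mem_insert, mem_singleton]
          tauto
      rintro (⟨⟨hus, hs⟩, hs1, hs2⟩ | hs | hs)
      · refine ⟨hus, Or.inl ⟨hs, ?_, ?_⟩⟩
        · intro h
          apply hs1
          rw [← e1, ← h, erase_insert hus]
        · intro h
          apply hs2
          rw [← e2, ← h, erase_insert hus]
      · exact hnew v hvt.2 hvt.1 hs
      · exact hnew w hwt.2 hwt.1 hs
  rw [heq]
  exact hS

theorem flip23 {F : Finset (Finset ι)} (hF : IsMfd3 F) {t : Finset ι} {c q : ι}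
    (ht : t.card = 3) (hct : c ∉ t) (hqt : q ∉ t) (hcq : c ≠ q) (h1 : insert c t ∈ F)
    (h2 : insert q t ∈ F) (hno : ∀ s ∈ F, c ∈ s → q ∈ s → False) :
    IsMfd3 ((F \ {insert c t, insert q t}) ∪
      (t.powersetCard 2).image (fun e => insert c (insert q e))) := by
  set F' := (F \ {insert c t, insert q t}) ∪
      (t.powersetCard 2).image (fun e => insert c (insert q e)) with hF'
  have mem' : ∀ s, s ∈ F' ↔ (s ∈ F ∧ s ≠ insert c t ∧ s ≠ insert q t) ∨
        ∃ e, (e ⊆ t ∧ e.card = 2) ∧ insert c (insert q e) = s := fun s => HMoveB_mem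
  have hnewmem : ∀ e, e ⊆ t → e.card = 2 → insert c (insert q e) ∈ F' := fun e he he2 =>
    (mem' _).2 (Or.inr ⟨e, ⟨he, he2⟩, rfl⟩)
  have hex : ∀ x ∈ t, ∀ y ∈ t, ∃ e, e ⊆ t ∧ e.card = 2 ∧ x ∈ e ∧ y ∈ e := by
    intro x hx y hy
    by_cases hxy : x = y
    · subst hxy
      obtain ⟨z, hz⟩ : (t.erase x).Nonempty := by
        rw [← card_pos, card_erase_of_mem hx, ht]; norm_num
      rw [mem_erase] at hz
      refine ⟨{x, z}, ?_, card_pair hz.1.symm, by simp, by simp⟩
      intro y hy
      simp only [mem_insert, mem_singleton] at hy
      rcases hy with rfl | rfl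
      · exact hx
      · exact hz.2
    · refine ⟨{x, y}, ?_, card_pair hxy, by simp, by simp⟩
      intro z hz
      simp only [mem_insert, mem_singleton] at hz
      rcases hz with rfl | rfl
      · exact hx
      · exact hy
  have hex2 : ∀ x y, (x = c ∨ x = q ∨ x ∈ t) → (y = c ∨ y = q ∨ y ∈ t) →
      ∃ s ∈ F', x ∈ s ∧ y ∈ s := by
    intro x y hx hy
    obtain ⟨a, hat⟩ : t.Nonempty := by rw [← card_pos, ht]; norm_num
    by_cases hxt : x ∈ t
    · by_cases hyt : y ∈ t
      · obtain ⟨e, he, he2, hxe, hye⟩ := hex x hxt y hyt
        exact ⟨_, hnewmem e he he2, by simp [hxe], by simp [hye]⟩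
      · obtain ⟨e, he, he2, hxe, -⟩ := hex x hxt x hxt
        exact ⟨_, hnewmem e he he2, by simp [hxe], by
          simp only [mem_insert]; tauto⟩
    · by_cases hyt : y ∈ t
      · obtain ⟨e, he, he2, hye, -⟩ := hex y hyt y hyt
        exact ⟨_, hnewmem e he he2, by
          simp only [mem_insert]; tauto, by simp [hye]⟩
      · obtain ⟨e, he, he2, hxe, -⟩ := hex a hat a hat
        exact ⟨_, hnewmem e he he2, by
          simp only [mem_insert]; tauto, by
          simp only [mem_insert]; tauto⟩
  have hFF' : ∀ x ∈ verts F', x ∈ verts F := by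
    intro x hx
    obtain ⟨s, hs, hxs⟩ := mem_verts.1 hx
    rcases (mem' s).1 hs with ⟨hsF, -, -⟩ | ⟨e, ⟨he, -⟩, rfl⟩
    · exact mem_verts.2 ⟨s, hsF, hxs⟩
    · simp only [mem_insert] at hxs
      rcases hxs with rfl | rfl | h
      · exact mem_verts.2 ⟨_, h1, mem_insert_self _ _⟩
      · exact mem_verts.2 ⟨_, h2, mem_insert_self _ _⟩
      · exact mem_verts.2 ⟨_, h1, mem_insert_of_mem (he h)⟩
  refine mfd_transfer hF ?_ ?_ ?_ ?_
  · intro s hs
    rcases (mem' s).1 hs with ⟨hsF, -, -⟩ | ⟨e, ⟨he, he2⟩, rfl⟩
    · exact hF.card4 s hsF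
    · rw [card_insert_of_notMem, card_insert_of_notMem, he2]
      · exact fun h => hqt (he h)
      · rw [mem_insert, not_or]
        exact ⟨hcq, fun h => hct (he h)⟩
  · intro x hx
    have hxF := hFF' x hx
    by_cases hxc : x = c
    · subst hxc
      exact HMoveB_linkc hF ht hct hqt hcq h1 hno
    by_cases hxq : x = q
    · subst hxq
      have h := HMoveB_linkc hF ht hqt hct hcq.symm h2 (fun s hs h h' => hno s hs h' h)
      have heq : (F \ {insert x t, insert c t}) ∪
          (t.powersetCard 2).image (fun e => insert x (insert c e)) = F' := by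
        rw [hF']
        congr 1
        · congr 1
          exact pair_comm _ _
        · congr 1
          funext e
          exact insert_comm _ _ _
      rwa [heq] at h
    by_cases hxt : x ∈ t
    · exact HMoveB_linku hF ht hct hqt hcq h1 h2 hno hxt
    · have heq : link F' x = link F x := by
        ext s
        rw [mem_link', mem_link', mem']
        constructor
        · rintro ⟨hxs, ⟨hs, -, -⟩ | ⟨e, ⟨he, -⟩, hes⟩⟩
          · exact ⟨hxs, hs⟩
          · exfalso
            have : x ∈ insert c (insert q e) := by rw [hes]; exact mem_insert_self _ _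
            simp only [mem_insert] at this
            rcases this with h | h | h
            · exact hxc h
            · exact hxq h
            · exact hxt (he h)
        · rintro ⟨hxs, hs⟩
          refine ⟨hxs, Or.inl ⟨hs, ?_, ?_⟩⟩
          · intro h
            have : x ∈ insert c t := by rw [← h]; exact mem_insert_self _ _
            rw [mem_insert] at this
            tauto
          · intro h
            have : x ∈ insert q t := by rw [← h]; exact mem_insert_self _ _
            rw [mem_insert] at this
            tauto
      rw [heq]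
      exact hF.sphere x hxF
  · intro s hs u hu v hv
    by_cases hs1 : s = insert c t
    · subst hs1
      rw [mem_insert] at hu hv
      exact Relation.ReflTransGen.single (hex2 u v (by tauto) (by tauto))
    by_cases hs2 : s = insert q t
    · subst hs2
      rw [mem_insert] at hu hv
      exact Relation.ReflTransGen.single (hex2 u v (by tauto) (by tauto))
    · exact Relation.ReflTransGen.single ⟨s, (mem' s).2 (Or.inl ⟨hs, hs1, hs2⟩), hu, hv⟩
  · intro u hu
    exact ⟨u, hFF' u hu, Relation.ReflTransGen.refl⟩

end Pool.TSphH
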