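import Pool.Agent.Lib.MP_3de3a3_co.H.HConn
import Pool.Agent.Lib.MP_3de3a3_co.H.HEdge
import Pool.Agent.Lib.MP_3de3a3_co.H.HMove31
import Pool.Agent.Lib.MP_3de3a3_co.Flip

/-! # The 3-2 move (module HMoveC)

PROOF. By `edge_cycle3` the edge {x, y} is in exactly the three facets {x, y, p, q}, {x, y, q, c}, {x, y, c, p} (dg F {x, y} = 3 and these three are different).
Let F' = (F - these three) union {{x, p, q, c}, {y, p, q, c}}; the two new facets are not in F because {p, q, c} is not in tris F. Links:
of x: link F x loses {y, p, q}, {y, q, c}, {y, c, p} (all its triangles at y) and gains {p, q, c}: `move31x` with w = y, (a, b, c) = (p, q, c); link F x has at least 5 vertices: otherwise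
(`four_le_verts`) it has four vertices x', and is the boundary of a tetrahedron, so it contains {p, q, c} (see `adj_of_four`: L = (verts L).powersetCard 3) and {p, q, c} is in tris F.
Of y: the same. Of p: link F p loses {x, y, q}, {x, y, c} and gains {x, q, c}, {y, q, c}: `flip` with (u, v, x, y) = (x, y, q, c): q, c are not adjacent in link F p, because {p, q, c} is
not in tris F. Of q, c: the same. Other vertices: unchanged. Connectedness: `mfd_transfer`: x, p and p, y are in common new facets. -/

set_option autoImplicit false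

namespace Pool.TSphH

open Finset
open Pool.TSph

variable {ι : Type*} [DecidableEq ι]

private theorem HMoveC_ins {x : ι} {s t : Finset ι} (hs : x ∉ s) (ht : x ∉ t) :
    insert x t = insert x s ↔ t = s := by
  constructor
  · intro h
    have := congrArg (fun r => Finset.erase r x) h
    simpa [erase_insert hs, erase_insert ht] using this
  · rintro rfl; rfl

private theorem HMoveC_four {a b c d : ι} (h : ({a, b, c, d} : Finset ι).card = 4) :
    a ≠ b ∧ a ≠ c ∧ a ≠ d ∧ b ≠ c ∧ b ≠ d ∧ c ≠ d := by
  have key : ∀ e f g : ι, ({e, f, g} : Finset ι).card ≤ 3 := fun e f g => card_le_three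
  refine ⟨?_, ?_, ?_, ?_, ?_, ?_⟩
  · rintro rfl
    have h1 : ({a, a, c, d} : Finset ι) = {a, c, d} := by simp
    have := key a c d
    rw [h1] at h; omega
  · rintro rfl
    have h1 : ({a, b, a, d} : Finset ι) = {a, b, d} := by
      ext z; simp only [mem_insert, mem_singleton]; tauto
    have := key a b d
    rw [h1] at h; omega
  · rintro rfl
    have h1 : ({a, b, c, a} : Finset ι) = {a, b, c} := by
      ext z; simp only [mem_insert, mem_singleton]; tauto
    have := key a b c
    rw [h1] at h; omega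
  · rintro rfl
    have h1 : ({a, b, b, d} : Finset ι) = {a, b, d} := by simp
    have := key a b d
    rw [h1] at h; omega
  · rintro rfl
    have h1 : ({a, b, c, b} : Finset ι) = {a, b, c} := by
      ext z; simp only [mem_insert, mem_singleton]; tauto
    have := key a b c
    rw [h1] at h; omega
  · rintro rfl
    have h1 : ({a, b, c, c} : Finset ι) = {a, b, c} := by simp
    have := key a b c
    rw [h1] at h; omega

/-- The link of `x`. -/
private theorem HMoveC_lx {F F' : Finset (Finset ι)} (hF : IsMfd3 F) {x y p q c : ι}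
    (h1 : ({x, y, p, q} : Finset ι) ∈ F) (h2 : ({x, y, q, c} : Finset ι) ∈ F)
    (h3 : ({x, y, c, p} : Finset ι) ∈ F) (hno : ({p, q, c} : Finset ι) ∉ tris F)
    (hF' : ∀ s, s ∈ F' ↔ (s ∈ F ∧ ¬ (x ∈ s ∧ y ∈ s)) ∨ s = {x, p, q, c} ∨ s = {y, p, q, c}) :
    IsSphere2 (link F' x) := by
  obtain ⟨hxy, hxp, hxq, hyp, hyq, hpq⟩ := HMoveC_four (hF.card4 _ h1)
  obtain ⟨-, -, hxc, -, hyc, hqc⟩ := HMoveC_four (hF.card4 _ h2)
  obtain ⟨-, -, -, -, -, hcp⟩ := HMoveC_four (hF.card4 _ h3)
  have hx : x ∈ verts F := mem_verts.2 ⟨_, h1, by simp⟩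
  have hL := hF.sphere x hx
  have l1 : ({y, p, q} : Finset ι) ∈ link F x := mem_link'.2 ⟨by simp [hxy, hxp, hxq], h1⟩
  have l2 : ({y, q, c} : Finset ι) ∈ link F x := mem_link'.2 ⟨by simp [hxy, hxc, hxq], h2⟩
  have l3 : ({y, c, p} : Finset ι) ∈ link F x := mem_link'.2 ⟨by simp [hxy, hxc, hxp], h3⟩
  have hpqc : ({p, q, c} : Finset ι).card = 3 := card_eq_three.2 ⟨p, q, c, hpq, hcp.symm, hqc, rfl⟩
  have hV : 5 ≤ (verts (link F x)).card := by
    have h4 := four_le_verts hL
    rcases Nat.eq_or_lt_of_le h4 with h | h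
    · exfalso
      have he := hL.euler
      have hsub : link F x ⊆ (verts (link F x)).powersetCard 3 := by
        intro t ht
        rw [mem_powersetCard]
        exact ⟨fun z hz => mem_verts.2 ⟨t, ht, hz⟩, hL.card3 t ht⟩
      have hcard : ((verts (link F x)).powersetCard 3).card = 4 := by
        rw [card_powersetCard, ← h]; rfl
      have heq : link F x = (verts (link F x)).powersetCard 3 :=
        eq_of_subset_of_card_le hsub (by rw [hcard]; omega)
      have hin : ({p, q, c} : Finset ι) ∈ link F x := by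
        rw [heq, mem_powersetCard]
        refine ⟨?_, hpqc⟩
        intro z hz
        simp only [mem_insert, mem_singleton] at hz
        rcases hz with rfl | rfl | rfl
        · exact mem_verts.2 ⟨_, l1, by simp⟩
        · exact mem_verts.2 ⟨_, l1, by simp⟩
        · exact mem_verts.2 ⟨_, l2, by simp⟩
      exact hno (mem_tris.2 ⟨hpqc, _, (mem_link'.1 hin).2, subset_insert _ _⟩)
    · exact h
  have hm := (move31x hL l1 l2 l3 hV hpq hqc hcp).1
  have heq : link F' x = insert {p, q, c} ((link F x).filter (fun t => y ∉ t)) := by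
    ext t
    rw [mem_link', mem_insert, mem_filter, mem_link', hF']
    have hxn : x ∉ ({p, q, c} : Finset ι) := by simp [hxp, hxq, hxc]
    constructor
    · rintro ⟨hxt, (⟨ha, hb⟩ | ha | ha)⟩
      · right
        exact ⟨⟨hxt, ha⟩, fun hy => hb ⟨mem_insert_self _ _, mem_insert_of_mem hy⟩⟩
      · left
        exact (HMoveC_ins hxn hxt).1 ha
      · exfalso
        have : x ∈ ({y, p, q, c} : Finset ι) := by rw [← ha]; exact mem_insert_self _ _
        simp only [mem_insert, mem_singleton] at this
        rcases this with h | h | h | h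
        · exact hxy h
        · exact hxp h
        · exact hxq h
        · exact hxc h
    · rintro (rfl | ⟨⟨ha, hb⟩, hc⟩)
      · exact ⟨hxn, Or.inr (Or.inl rfl)⟩
      · refine ⟨ha, Or.inl ⟨hb, ?_⟩⟩
        rintro ⟨-, hy⟩
        rw [mem_insert] at hy
        rcases hy with h | h
        · exact hxy h.symm
        · exact hc h
  rw [heq]
  exact hm

/-- The link of `p`. -/
private theorem HMoveC_lp {F F' : Finset (Finset ι)} (hF : IsMfd3 F) {x y p q c : ι}
    (h1 : ({x, y, p, q} : Finset ι) ∈ F) (h2 : ({x, y, q, c} : Finset ι) ∈ F)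
    (h3 : ({x, y, c, p} : Finset ι) ∈ F) (hno : ({p, q, c} : Finset ι) ∉ tris F)
    (hE : ∀ s ∈ F, x ∈ s → y ∈ s → s = {x, y, p, q} ∨ s = {x, y, q, c} ∨ s = {x, y, c, p})
    (hF' : ∀ s, s ∈ F' ↔ (s ∈ F ∧ ¬ (x ∈ s ∧ y ∈ s)) ∨ s = {x, p, q, c} ∨ s = {y, p, q, c}) :
    IsSphere2 (link F' p) := by
  obtain ⟨hxy, hxp, hxq, hyp, hyq, hpq⟩ := HMoveC_four (hF.card4 _ h1)
  obtain ⟨-, -, hxc, -, hyc, hqc⟩ := HMoveC_four (hF.card4 _ h2)
  obtain ⟨-, -, -, -, -, hcp⟩ := HMoveC_four (hF.card4 _ h3)
  have hp : p ∈ verts F := mem_verts.2 ⟨_, h1, by simp⟩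
  have hL := hF.sphere p hp
  have e1 : ({x, y, p, q} : Finset ι) = insert p {x, y, q} := by
    ext z; simp only [mem_insert, mem_singleton]; tauto
  have e3 : ({x, y, c, p} : Finset ι) = insert p {x, y, c} := by
    ext z; simp only [mem_insert, mem_singleton]; tauto
  have n1 : p ∉ ({x, y, q} : Finset ι) := by simp [hxp.symm, hyp.symm, hpq]
  have n3 : p ∉ ({x, y, c} : Finset ι) := by simp [hxp.symm, hyp.symm, hcp.symm]
  have l1 : ({x, y, q} : Finset ι) ∈ link F p := mem_link'.2 ⟨n1, e1 ▸ h1⟩
  have l3 : ({x, y, c} : Finset ι) ∈ link F p := mem_link'.2 ⟨n3, e3 ▸ h3⟩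
  have hpqc : ({p, q, c} : Finset ι).card = 3 := card_eq_three.2 ⟨p, q, c, hpq, hcp.symm, hqc, rfl⟩
  have hna : ¬ adj (link F p) q c := by
    rintro ⟨-, t, ht, hq, hc⟩
    rw [mem_link'] at ht
    refine hno (mem_tris.2 ⟨hpqc, _, ht.2, ?_⟩)
    intro z hz
    simp only [mem_insert, mem_singleton] at hz
    rcases hz with rfl | rfl | rfl
    · exact mem_insert_self _ _
    · exact mem_insert_of_mem hq
    · exact mem_insert_of_mem hc
  obtain ⟨L', hL'e, hL', -, -⟩ := flip hL hqc l1 l3 hna
  have b1 : ({x, p, q, c} : Finset ι) = insert p {q, c, x} := by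
    ext z; simp only [mem_insert, mem_singleton]; tauto
  have b2 : ({y, p, q, c} : Finset ι) = insert p {q, c, y} := by
    ext z; simp only [mem_insert, mem_singleton]; tauto
  have m1 : p ∉ ({q, c, x} : Finset ι) := by simp [hxp.symm, hcp.symm, hpq]
  have m2 : p ∉ ({q, c, y} : Finset ι) := by simp [hyp.symm, hcp.symm, hpq]
  have heq : link F' p = L' := by
    rw [hL'e]
    ext t
    have q1 : t ∈ ({{x, y, q}, {x, y, c}} : Finset (Finset ι)) ↔ t = {x, y, q} ∨ t = {x, y, c} := by
      rw [mem_insert, mem_singleton]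
    have q2 : t ∈ ({{q, c, x}, {q, c, y}} : Finset (Finset ι)) ↔ t = {q, c, x} ∨ t = {q, c, y} := by
      rw [mem_insert, mem_singleton]
    rw [mem_link', hF', mem_union, mem_sdiff, mem_link', q1, q2, b1, b2]
    constructor
    · rintro ⟨hpt, (⟨ha, hb⟩ | ha | ha)⟩
      · left
        refine ⟨⟨hpt, ha⟩, ?_⟩
        rintro (rfl | rfl)
        · exact hb ⟨by simp, by simp⟩
        · exact hb ⟨by simp, by simp⟩
      · right; left
        exact (HMoveC_ins m1 hpt).1 ha
      · right; right
        exact (HMoveC_ins m2 hpt).1 ha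
    · rintro (⟨⟨ha, hb⟩, hc⟩ | (rfl | rfl))
      · refine ⟨ha, Or.inl ⟨hb, ?_⟩⟩
        rintro ⟨hx, hy⟩
        rcases hE _ hb hx hy with h | h | h
        · rw [e1] at h
          exact hc (Or.inl ((HMoveC_ins n1 ha).1 h))
        · have : p ∈ ({x, y, q, c} : Finset ι) := by rw [← h]; exact mem_insert_self _ _
          simp only [mem_insert, mem_singleton] at this
          rcases this with h | h | h | h
          · exact hxp h.symm
          · exact hyp h.symm
          · exact hpq h
          · exact hcp h.symm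
        · rw [e3] at h
          exact hc (Or.inr ((HMoveC_ins n3 ha).1 h))
      · exact ⟨m1, Or.inr (Or.inl rfl)⟩
      · exact ⟨m2, Or.inr (Or.inr rfl)⟩
  rw [heq]
  exact hL'

theorem flip32 {F : Finset (Finset ι)} (hF : IsMfd3 F) {x y p q c : ι}
    (h1 : ({x, y, p, q} : Finset ι) ∈ F) (h2 : ({x, y, q, c} : Finset ι) ∈ F)
    (h3 : ({x, y, c, p} : Finset ι) ∈ F) (hno : ({p, q, c} : Finset ι) ∉ tris F) :
    IsMfd3 ((F \ {{x, y, p, q}, {x, y, q, c}, {x, y, c, p}}) ∪
      {{x, p, q, c}, {y, p, q, c}}) := by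
  obtain ⟨hxy, hxp, hxq, hyp, hyq, hpq⟩ := HMoveC_four (hF.card4 _ h1)
  obtain ⟨-, -, hxc, -, hyc, hqc⟩ := HMoveC_four (hF.card4 _ h2)
  obtain ⟨-, -, -, -, -, hcp⟩ := HMoveC_four (hF.card4 _ h3)
  have hd := edge_cycle3 hF h1 h2 h3
  have d12 : ({x, y, p, q} : Finset ι) ≠ {x, y, q, c} := by
    intro h
    have : p ∈ ({x, y, q, c} : Finset ι) := by rw [← h]; simp
    simp only [mem_insert, mem_singleton] at this
    rcases this with h | h | h | h
    · exact hxp h.symm
    · exact hyp h.symm
    · exact hpq h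
    · exact hcp h.symm
  have d13 : ({x, y, p, q} : Finset ι) ≠ {x, y, c, p} := by
    intro h
    have : q ∈ ({x, y, c, p} : Finset ι) := by rw [← h]; simp
    simp only [mem_insert, mem_singleton] at this
    rcases this with h | h | h | h
    · exact hxq h.symm
    · exact hyq h.symm
    · exact hqc h
    · exact hpq h.symm
  have d23 : ({x, y, q, c} : Finset ι) ≠ {x, y, c, p} := by
    intro h
    have : q ∈ ({x, y, c, p} : Finset ι) := by rw [← h]; simp
    simp only [mem_insert, mem_singleton] at this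
    rcases this with h | h | h | h
    · exact hxq h.symm
    · exact hyq h.symm
    · exact hqc h
    · exact hpq h.symm
  have hE : ∀ s ∈ F, x ∈ s → y ∈ s → s = {x, y, p, q} ∨ s = {x, y, q, c} ∨ s = {x, y, c, p} := by
    have hsub : ({{x, y, p, q}, {x, y, q, c}, {x, y, c, p}} : Finset (Finset ι)) ⊆
        F.filter (fun s => ({x, y} : Finset ι) ⊆ s) := by
      intro s hs
      simp only [mem_insert, mem_singleton] at hs
      rw [mem_filter]
      rcases hs with rfl | rfl | rfl
      · refine ⟨h1, fun z hz => ?_⟩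
        simp only [mem_insert, mem_singleton] at hz ⊢; tauto
      · refine ⟨h2, fun z hz => ?_⟩
        simp only [mem_insert, mem_singleton] at hz ⊢; tauto
      · refine ⟨h3, fun z hz => ?_⟩
        simp only [mem_insert, mem_singleton] at hz ⊢; tauto
    have hcard : ({{x, y, p, q}, {x, y, q, c}, {x, y, c, p}} : Finset (Finset ι)).card = 3 :=
      card_eq_three.2 ⟨_, _, _, d12, d13, d23, rfl⟩
    have heq := eq_of_subset_of_card_le hsub (by
      rw [hcard]
      exact le_of_eq hd)
    intro s hs hx hy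
    have : s ∈ F.filter (fun s => ({x, y} : Finset ι) ⊆ s) := by
      rw [mem_filter]
      refine ⟨hs, fun z hz => ?_⟩
      simp only [mem_insert, mem_singleton] at hz
      rcases hz with rfl | rfl
      · exact hx
      · exact hy
    rw [← heq] at this
    simpa only [mem_insert, mem_singleton] using this
  generalize hFd : (F \ {{x, y, p, q}, {x, y, q, c}, {x, y, c, p}}) ∪
      {{x, p, q, c}, {y, p, q, c}} = F'
  have hF' : ∀ s, s ∈ F' ↔
      (s ∈ F ∧ ¬ (x ∈ s ∧ y ∈ s)) ∨ s = {x, p, q, c} ∨ s = {y, p, q, c} := by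
    intro s
    rw [← hFd]
    simp only [mem_union, mem_sdiff, mem_insert, mem_singleton]
    constructor
    · rintro (⟨ha, hb⟩ | ha | ha)
      · exact Or.inl ⟨ha, fun hc => hb (hE s ha hc.1 hc.2)⟩
      · exact Or.inr (Or.inl ha)
      · exact Or.inr (Or.inr ha)
    · rintro (⟨ha, hb⟩ | ha | ha)
      · left
        refine ⟨ha, ?_⟩
        rintro (rfl | rfl | rfl)
        · exact hb ⟨by simp, by simp⟩
        · exact hb ⟨by simp, by simp⟩
        · exact hb ⟨by simp, by simp⟩
      · exact Or.inr (Or.inl ha)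
      · exact Or.inr (Or.inr ha)
  clear hFd
  have hB1 : ({x, p, q, c} : Finset ι) ∈ F' := (hF' _).2 (Or.inr (Or.inl rfl))
  have hB2 : ({y, p, q, c} : Finset ι) ∈ F' := (hF' _).2 (Or.inr (Or.inr rfl))
  have hv : ∀ z ∈ verts F', z ∈ verts F := by
    intro z hz
    obtain ⟨s, hs, hzs⟩ := mem_verts.1 hz
    rcases (hF' s).1 hs with ⟨ha, -⟩ | rfl | rfl
    · exact mem_verts.2 ⟨s, ha, hzs⟩
    · simp only [mem_insert, mem_singleton] at hzs
      rcases hzs with rfl | rfl | rfl | rfl
      · exact mem_verts.2 ⟨_, h1, by simp⟩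
      · exact mem_verts.2 ⟨_, h1, by simp⟩
      · exact mem_verts.2 ⟨_, h1, by simp⟩
      · exact mem_verts.2 ⟨_, h2, by simp⟩
    · simp only [mem_insert, mem_singleton] at hzs
      rcases hzs with rfl | rfl | rfl | rfl
      · exact mem_verts.2 ⟨_, h1, by simp⟩
      · exact mem_verts.2 ⟨_, h1, by simp⟩
      · exact mem_verts.2 ⟨_, h1, by simp⟩
      · exact mem_verts.2 ⟨_, h2, by simp⟩
  have sw : ∀ a b : ι, ({x, y, a, b} : Finset ι) = {x, y, b, a} := by
    intro a b; ext z; simp only [mem_insert, mem_singleton]; tauto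
  have sw2 : ∀ a b : ι, ({x, y, a, b} : Finset ι) = {y, x, a, b} := by
    intro a b; ext z; simp only [mem_insert, mem_singleton]; tauto
  have rot : ∀ a b d : ι, ({a, b, d} : Finset ι) = {b, d, a} := by
    intro a b d; ext z; simp only [mem_insert, mem_singleton]; tauto
  refine mfd_transfer hF ?_ ?_ ?_ ?_
  · intro s hs
    rcases (hF' s).1 hs with ⟨ha, -⟩ | rfl | rfl
    · exact hF.card4 s ha
    · rw [card_insert_of_notMem, card_eq_three.2 ⟨p, q, c, hpq, hcp.symm, hqc, rfl⟩]
      simp [hxp, hxq, hxc]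
    · rw [card_insert_of_notMem, card_eq_three.2 ⟨p, q, c, hpq, hcp.symm, hqc, rfl⟩]
      simp [hyp, hyq, hyc]
  · intro z hz
    by_cases zx : z = x
    · subst zx
      exact HMoveC_lx hF h1 h2 h3 hno hF'
    by_cases zy : z = y
    · subst zy
      refine HMoveC_lx (x := z) (y := x) (p := p) (q := q) (c := c) hF
        (sw2 p q ▸ h1) (sw2 q c ▸ h2) (sw2 c p ▸ h3) hno ?_
      intro s
      rw [hF' s]
      tauto
    by_cases zp : z = p
    · subst zp
      exact HMoveC_lp hF h1 h2 h3 hno hE hF'
    by_cases zq : z = q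
    · subst zq
      refine HMoveC_lp (x := x) (y := y) (p := z) (q := c) (c := p) hF h2 h3 h1
        (by rw [← rot p z c]; exact hno) ?_ ?_
      · intro s hs hx hy
        rcases hE s hs hx hy with h | h | h
        · exact Or.inr (Or.inr h)
        · exact Or.inl h
        · exact Or.inr (Or.inl h)
      · intro s
        rw [hF' s, rot p z c]
    by_cases zc : z = c
    · subst zc
      refine HMoveC_lp (x := x) (y := y) (p := z) (q := p) (c := q) hF h3 h1 h2
        (by rw [rot z p q]; exact hno) ?_ ?_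
      · intro s hs hx hy
        rcases hE s hs hx hy with h | h | h
        · exact Or.inr (Or.inl h)
        · exact Or.inr (Or.inr h)
        · exact Or.inl h
      · intro s
        rw [hF' s, rot z p q]
    have heq : link F' z = link F z := by
      ext t
      rw [mem_link', mem_link', hF']
      constructor
      · rintro ⟨hzt, (⟨ha, -⟩ | ha | ha)⟩
        · exact ⟨hzt, ha⟩
        · exfalso
          have : z ∈ ({x, p, q, c} : Finset ι) := by rw [← ha]; exact mem_insert_self _ _
          simp only [mem_insert, mem_singleton] at this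
          tauto
        · exfalso
          have : z ∈ ({y, p, q, c} : Finset ι) := by rw [← ha]; exact mem_insert_self _ _
          simp only [mem_insert, mem_singleton] at this
          tauto
      · rintro ⟨hzt, ha⟩
        refine ⟨hzt, Or.inl ⟨ha, ?_⟩⟩
        rintro ⟨hx, hy⟩
        have hz : z ∈ insert z t := mem_insert_self _ _
        rcases hE _ ha hx hy with h | h | h <;>
        · rw [h] at hz
          simp only [mem_insert, mem_singleton] at hz
          tauto
    rw [heq]
    exact hF.sphere z (hv z hz)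
  · intro s hs u hu v hw
    by_cases hxs : x ∈ s ∧ y ∈ s
    · have key : ∀ w ∈ s, (∃ r ∈ F', w ∈ r ∧ p ∈ r) := by
        intro w hws
        have hw5 : w = x ∨ w = y ∨ w = p ∨ w = q ∨ w = c := by
          rcases hE s hs hxs.1 hxs.2 with h | h | h <;>
          · rw [h] at hws
            simp only [mem_insert, mem_singleton] at hws
            tauto
        rcases hw5 with rfl | rfl | rfl | rfl | rfl
        · exact ⟨_, hB1, by simp, by simp⟩
        · exact ⟨_, hB2, by simp, by simp⟩
        · exact ⟨_, hB2, by simp, by simp⟩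
        · exact ⟨_, hB2, by simp, by simp⟩
        · exact ⟨_, hB2, by simp, by simp⟩
      obtain ⟨r1, hr1, ha, hb⟩ := key u hu
      obtain ⟨r2, hr2, hc, hd⟩ := key v hw
      exact (Relation.ReflTransGen.single ⟨r1, hr1, ha, hb⟩).tail ⟨r2, hr2, hd, hc⟩
    · exact Relation.ReflTransGen.single ⟨s, (hF' s).2 (Or.inl ⟨hs, hxs⟩), hu, hw⟩
  · intro u hu
    exact ⟨u, hv u hu, Relation.ReflTransGen.refl⟩

end Pool.TSphH
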