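import Pool.Agent.Lib.MP_3de3a3_co.H.HBlkDef
import Pool.Agent.Lib.MP_3de3a3_co.H.HMoveA
import Pool.Agent.Lib.MP_3de3a3_co.H.HMoveB
import Pool.Agent.Lib.MP_3de3a3_co.H.HMoveC

/-! # Growing the cone (module HGrow)

* `grow0`: bd {σ} = σ.powersetCard 3, so coned F {σ} c is the complex of `move14`.
* `grow1`: σ = insert q t, t in bd B, q not in verts B: the complex obtained by `flip23`.
* `grow2`: σ = {x, y, p, q}, {x, y, p} and {x, y, q} in bd B: the complex obtained by `flip32`. -/

set_option autoImplicit false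

namespace Pool.TSphH

open Finset
open Pool.TSph

variable {ι : Type*} [DecidableEq ι]

private theorem mem_bd_iff {B : Finset (Finset ι)} {t : Finset ι} :
    t ∈ bd B ↔ t.card = 3 ∧ (B.filter (fun s => t ⊆ s)).card = 1 := by
  rw [mem_bd]
  constructor
  · rintro ⟨h1, h2⟩
    exact ⟨(mem_tris.1 h1).1, h2⟩
  · rintro ⟨h1, h2⟩
    refine ⟨?_, h2⟩
    obtain ⟨s, hs⟩ : (B.filter (fun s => t ⊆ s)).Nonempty := by
      rw [← card_pos, h2]
      norm_num
    rw [mem_filter] at hs
    exact mem_tris.2 ⟨h1, s, hs.1, hs.2⟩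

private theorem bd_exists {B : Finset (Finset ι)} {t : Finset ι} (h : t ∈ bd B) :
    t.card = 3 ∧ ∃ s ∈ B, t ⊆ s := mem_tris.1 (mem_bd.1 h).1

private theorem mem_bd_insert {B : Finset (Finset ι)} {σ t : Finset ι} (hσ : σ ∉ B) :
    t ∈ bd (insert σ B) ↔ t.card = 3 ∧ ((t ⊆ σ ∧ (∀ s ∈ B, ¬ t ⊆ s)) ∨
      (¬ t ⊆ σ ∧ (B.filter (fun s => t ⊆ s)).card = 1)) := by
  rw [mem_bd_iff, filter_insert]
  by_cases h : t ⊆ σ
  · rw [if_pos h, card_insert_of_notMem (fun hc => hσ (mem_filter.1 hc).1)]
    constructor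
    · rintro ⟨h1, h2⟩
      refine ⟨h1, Or.inl ⟨h, fun s hs hts => ?_⟩⟩
      have h3 : B.filter (fun s => t ⊆ s) = ∅ := by
        rw [← card_eq_zero]
        omega
      have : s ∈ B.filter (fun s => t ⊆ s) := mem_filter.2 ⟨hs, hts⟩
      rw [h3] at this
      simp at this
    · rintro ⟨h1, h2 | h2⟩
      · refine ⟨h1, ?_⟩
        have h3 : B.filter (fun s => t ⊆ s) = ∅ := by
          apply filter_eq_empty_iff.2
          intro s hs
          exact h2.2 s hs
        rw [h3]
        simp
      · exact absurd h h2.1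
  · rw [if_neg h]
    constructor
    · rintro ⟨h1, h2⟩
      exact ⟨h1, Or.inr ⟨h, h2⟩⟩
    · rintro ⟨h1, h2 | h2⟩
      · exact absurd h2.1 h
      · exact ⟨h1, h2.2⟩

private theorem insert_inj' {c : ι} {t t' : Finset ι} (h : c ∉ t) (h' : c ∉ t')
    (he : insert c t = insert c t') : t = t' := by
  have h1 : (insert c t).erase c = (insert c t').erase c := by rw [he]
  rwa [erase_insert h, erase_insert h'] at h1

private theorem mem_three' {α : Type*} [DecidableEq α] {s A B C : α} :
    s ∈ ({A, B, C} : Finset α) ↔ s = A ∨ s = B ∨ s = C := by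
  rw [mem_insert, mem_insert, mem_singleton]

private theorem mem_two' {α : Type*} [DecidableEq α] {s A B : α} :
    s ∈ ({A, B} : Finset α) ↔ s = A ∨ s = B := by
  rw [mem_insert, mem_singleton]

theorem grow0 {F : Finset (Finset ι)} (hF : IsMfd3 F) {σ : Finset ι} (hσ : σ ∈ F) {c : ι}
    (hc : c ∉ verts F) : IsMfd3 (coned F {σ} c) := by
  have h1 : bd {σ} = σ.powersetCard 3 := by
    ext t
    rw [mem_bd_iff, mem_powersetCard]
    constructor
    · rintro ⟨h1, h2⟩
      refine ⟨?_, h1⟩
      by_contra h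
      rw [filter_singleton, if_neg h] at h2
      simp at h2
    · rintro ⟨h1, h2⟩
      refine ⟨h2, ?_⟩
      rw [filter_singleton, if_pos h1]
      simp
  unfold coned
  rw [h1, sdiff_singleton_eq_erase]
  exact move14 hF hσ hc

theorem grow1 {F B : Finset (Finset ι)} (hF : ∀ s ∈ F, s.card = 4) (hB : B ⊆ F) {c : ι}
    (hc : c ∉ verts F) (h : IsMfd3 (coned F B c)) {t : Finset ι} {q : ι}
    (hσ : insert q t ∈ F) (hσB : insert q t ∉ B) (ht : t ∈ bd B) (hq : q ∉ verts B) :
    IsMfd3 (coned F (insert (insert q t) B) c) := by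
  have hcF : ∀ s ∈ F, c ∉ s := fun s hs hcs => hc (mem_verts.2 ⟨s, hs, hcs⟩)
  have hqB : ∀ s ∈ B, q ∉ s := fun s hs hqs => hq (mem_verts.2 ⟨s, hs, hqs⟩)
  have hbdq : ∀ t' ∈ bd B, q ∉ t' := by
    intro t' ht' hqt'
    obtain ⟨-, s, hs, hsub⟩ := bd_exists ht'
    exact hqB s hs (hsub hqt')
  have hbdc : ∀ t' ∈ bd B, c ∉ t' := by
    intro t' ht' hct'
    obtain ⟨-, s, hs, hsub⟩ := bd_exists ht'
    exact hcF s (hB hs) (hsub hct')
  have hqt : q ∉ t := hbdq t ht
  have hct : c ∉ t := hbdc t ht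
  have hcσ : c ∉ insert q t := hcF _ hσ
  have hcq : c ≠ q := by
    rintro rfl
    exact hcσ (mem_insert_self _ _)
  have ht3 : t.card = 3 := (bd_exists ht).1
  -- subsets of σ with three elements
  have hsub : ∀ t' : Finset ι, t'.card = 3 → t' ⊆ insert q t → q ∉ t' → t' = t := by
    intro t' h3 hs hqt'
    apply eq_of_subset_of_card_le
    · intro z hz
      rcases mem_insert.1 (hs hz) with rfl | hz'
      · exact absurd hz hqt'
      · exact hz'
    · omega
  have key : ∀ t' : Finset ι, t' ∈ bd (insert (insert q t) B) ↔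
      (t' ∈ bd B ∧ t' ≠ t) ∨ ∃ e ∈ t.powersetCard 2, insert q e = t' := by
    intro t'
    rw [mem_bd_insert hσB]
    constructor
    · rintro ⟨h3, ⟨h4, h5⟩ | ⟨h4, h5⟩⟩
      · right
        by_cases hq' : q ∈ t'
        · refine ⟨t'.erase q, ?_, insert_erase hq'⟩
          rw [mem_powersetCard]
          refine ⟨?_, by rw [card_erase_of_mem hq', h3]⟩
          intro z hz
          rw [mem_erase] at hz
          rcases mem_insert.1 (h4 hz.2) with rfl | hz'
          · exact absurd rfl hz.1
          · exact hz'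
        · exfalso
          have := hsub t' h3 h4 hq'
          subst this
          obtain ⟨-, s, hs, hss⟩ := bd_exists ht
          exact h5 s hs hss
      · left
        refine ⟨mem_bd_iff.2 ⟨h3, h5⟩, ?_⟩
        rintro rfl
        exact h4 (subset_insert _ _)
    · rintro (⟨h4, h5⟩ | ⟨e, he, rfl⟩)
      · rw [mem_bd_iff] at h4
        refine ⟨h4.1, Or.inr ⟨fun h6 => h5 (hsub t' h4.1 h6 (hbdq t' (mem_bd_iff.2 h4))), h4.2⟩⟩
      · rw [mem_powersetCard] at he
        have hqe : q ∉ e := fun hh => hqt (he.1 hh)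
        refine ⟨by rw [card_insert_of_notMem hqe, he.2], Or.inl ⟨insert_subset_insert _ he.1, ?_⟩⟩
        intro s hs hss
        exact hqB s hs (hss (mem_insert_self _ _))
  have heq : coned F (insert (insert q t) B) c = ((coned F B c) \ {insert c t, insert q t}) ∪
      (t.powersetCard 2).image (fun e => insert c (insert q e)) := by
    ext s
    rw [mem_union, mem_sdiff, mem_image, mem_coned, mem_coned]
    simp only [mem_insert, mem_singleton, not_or]
    constructor
    · rintro (⟨h1, h2, h3⟩ | ⟨t', ht', rfl⟩)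
      · left
        refine ⟨Or.inl ⟨h1, h3⟩, ?_, h2⟩
        rintro rfl
        exact hcF _ h1 (mem_insert_self _ _)
      · rcases (key t').1 ht' with ⟨h4, h5⟩ | ⟨e, he, rfl⟩
        · left
          refine ⟨Or.inr ⟨t', h4, rfl⟩, ?_, ?_⟩
          · intro h6
            exact h5 (insert_inj' (hbdc t' h4) hct h6)
          · intro h6
            exact hcσ (h6 ▸ mem_insert_self _ _)
        · right
          exact ⟨e, he, rfl⟩
    · rintro (⟨⟨h1, h2⟩ | ⟨t', ht', rfl⟩, h3, h4⟩ | ⟨e, he, rfl⟩)
      · left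
        exact ⟨h1, h4, h2⟩
      · right
        refine ⟨t', (key t').2 (Or.inl ⟨ht', ?_⟩), rfl⟩
        rintro rfl
        exact h3 rfl
      · right
        exact ⟨insert q e, (key _).2 (Or.inr ⟨e, he, rfl⟩), rfl⟩
  rw [heq]
  refine flip23 h ht3 hct hqt hcq ?_ ?_ ?_
  · exact mem_coned.2 (Or.inr ⟨t, ht, rfl⟩)
  · exact mem_coned.2 (Or.inl ⟨hσ, hσB⟩)
  · intro s hs hcs hqs
    rcases mem_coned.1 hs with ⟨h1, -⟩ | ⟨t', ht', rfl⟩
    · exact hcF s h1 hcs
    · rcases mem_insert.1 hqs with h1 | h1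
      · exact hcq h1.symm
      · exact hbdq t' ht' h1

private theorem erase_of_card {σ t : Finset ι} (h4 : σ.card = 4) (h3 : t.card = 3)
    (h : t ⊆ σ) : ∃ z ∈ σ, t = σ.erase z := by
  obtain ⟨z, hz⟩ : (σ \ t).Nonempty := by
    rw [← card_pos, card_sdiff_of_subset h]
    omega
  rw [mem_sdiff] at hz
  refine ⟨z, hz.1, ?_⟩
  apply eq_of_subset_of_card_le
  · intro w hw
    rw [mem_erase]
    refine ⟨?_, h hw⟩
    rintro rfl
    exact hz.2 hw
  · rw [card_erase_of_mem hz.1]
    omega

theorem grow2 {F B : Finset (Finset ι)} (hF : ∀ s ∈ F, s.card = 4) (hB : B ⊆ F) {c : ι}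
    (hc : c ∉ verts F) (h : IsMfd3 (coned F B c)) {x y p q : ι}
    (hσ : ({x, y, p, q} : Finset ι) ∈ F) (hσB : ({x, y, p, q} : Finset ι) ∉ B)
    (hp : ({x, y, p} : Finset ι) ∈ bd B) (hq : ({x, y, q} : Finset ι) ∈ bd B)
    (hpq : ∀ s ∈ B, p ∈ s → q ∈ s → False) :
    IsMfd3 (coned F (insert {x, y, p, q} B) c) := by
  have hcF : ∀ s ∈ F, c ∉ s := fun s hs hcs => hc (mem_verts.2 ⟨s, hs, hcs⟩)
  have hbdc : ∀ t' ∈ bd B, c ∉ t' := by
    intro t' ht' hct'
    obtain ⟨-, s, hs, hsub⟩ := bd_exists ht'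
    exact hcF s (hB hs) (hsub hct')
  have hbdpq : ∀ t' ∈ bd B, p ∈ t' → q ∈ t' → False := by
    intro t' ht' hpt' hqt'
    obtain ⟨-, s, hs, hsub⟩ := bd_exists ht'
    exact hpq s hs (hsub hpt') (hsub hqt')
  have hcσ := hcF _ hσ
  have h4 := hF _ hσ
  simp only [mem_insert, mem_singleton, not_or] at hcσ
  obtain ⟨hcx, hcy, hcp, hcq⟩ := hcσ
  -- distinctness
  have hxyp3 : ({x, y, p} : Finset ι).card = 3 := (bd_exists hp).1
  have hxyq3 : ({x, y, q} : Finset ι).card = 3 := (bd_exists hq).1
  have hdist : x ≠ y ∧ x ≠ p ∧ x ≠ q ∧ y ≠ p ∧ y ≠ q ∧ p ≠ q := by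
    have hle : ∀ a b d : ι, ({a, b, d} : Finset ι).card ≤ 3 := fun a b d => card_le_three
    refine ⟨?_, ?_, ?_, ?_, ?_, ?_⟩ <;> rintro rfl
    · have : ({x, x, p, q} : Finset ι) = {x, p, q} := by simp
      rw [this] at h4
      have := hle x p q
      omega
    · have : ({x, y, x, q} : Finset ι) = {x, y, q} := by
        ext z; simp only [mem_insert, mem_singleton]; tauto
      rw [this] at h4
      have := hle x y q
      omega
    · have : ({x, y, p, x} : Finset ι) = {x, y, p} := by
        ext z; simp only [mem_insert, mem_singleton]; tauto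
      rw [this] at h4
      have := hle x y p
      omega
    · have : ({x, y, y, q} : Finset ι) = {x, y, q} := by simp
      rw [this] at h4
      have := hle x y q
      omega
    · have : ({x, y, p, y} : Finset ι) = {x, y, p} := by
        ext z; simp only [mem_insert, mem_singleton]; tauto
      rw [this] at h4
      have := hle x y p
      omega
    · have : ({x, y, p, p} : Finset ι) = {x, y, p} := by simp
      rw [this] at h4
      have := hle x y p
      omega
  obtain ⟨hxy, hxp, hxq, hyp, hyq, hpq'⟩ := hdist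
  have e1 : ({x, y, p, q} : Finset ι).erase x = {y, p, q} := by
    ext z
    simp only [mem_erase, mem_insert, mem_singleton]
    constructor
    · tauto
    · rintro (rfl | rfl | rfl)
      · exact ⟨hxy.symm, by tauto⟩
      · exact ⟨hxp.symm, by tauto⟩
      · exact ⟨hxq.symm, by tauto⟩
  have e2 : ({x, y, p, q} : Finset ι).erase y = {x, p, q} := by
    ext z
    simp only [mem_erase, mem_insert, mem_singleton]
    constructor
    · tauto
    · rintro (rfl | rfl | rfl)
      · exact ⟨hxy, by tauto⟩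
      · exact ⟨hyp.symm, by tauto⟩
      · exact ⟨hyq.symm, by tauto⟩
  have e3 : ({x, y, p, q} : Finset ι).erase p = {x, y, q} := by
    ext z
    simp only [mem_erase, mem_insert, mem_singleton]
    constructor
    · tauto
    · rintro (rfl | rfl | rfl)
      · exact ⟨hxp, by tauto⟩
      · exact ⟨hyp, by tauto⟩
      · exact ⟨hpq'.symm, by tauto⟩
  have e4 : ({x, y, p, q} : Finset ι).erase q = {x, y, p} := by
    ext z
    simp only [mem_erase, mem_insert, mem_singleton]
    constructor
    · tauto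
    · rintro (rfl | rfl | rfl)
      · exact ⟨hxq, by tauto⟩
      · exact ⟨hyq, by tauto⟩
      · exact ⟨hpq', by tauto⟩
  have hsub : ∀ t' : Finset ι, t'.card = 3 → t' ⊆ {x, y, p, q} →
      t' = {y, p, q} ∨ t' = {x, p, q} ∨ t' = {x, y, q} ∨ t' = {x, y, p} := by
    intro t' h3 hs
    obtain ⟨z, hz, rfl⟩ := erase_of_card h4 h3 hs
    simp only [mem_insert, mem_singleton] at hz
    rcases hz with rfl | rfl | rfl | rfl
    · exact Or.inl e1
    · exact Or.inr (Or.inl e2)
    · exact Or.inr (Or.inr (Or.inl e3))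
    · exact Or.inr (Or.inr (Or.inr e4))
  have key : ∀ t' : Finset ι, t' ∈ bd (insert {x, y, p, q} B) ↔
      (t' ∈ bd B ∧ t' ≠ {x, y, p} ∧ t' ≠ {x, y, q}) ∨ t' = {x, p, q} ∨ t' = {y, p, q} := by
    intro t'
    rw [mem_bd_insert hσB]
    constructor
    · rintro ⟨h3, ⟨h5, h6⟩ | ⟨h5, h6⟩⟩
      · right
        rcases hsub t' h3 h5 with rfl | rfl | rfl | rfl
        · right; rfl
        · left; rfl
        · exfalso
          obtain ⟨-, s, hs, hss⟩ := bd_exists hq
          exact h6 s hs hss
        · exfalso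
          obtain ⟨-, s, hs, hss⟩ := bd_exists hp
          exact h6 s hs hss
      · left
        refine ⟨mem_bd_iff.2 ⟨h3, h6⟩, ?_, ?_⟩
        · rintro rfl
          apply h5
          intro z hz
          simp only [mem_insert, mem_singleton] at hz ⊢
          tauto
        · rintro rfl
          apply h5
          intro z hz
          simp only [mem_insert, mem_singleton] at hz ⊢
          tauto
    · rintro (⟨h5, h6, h7⟩ | rfl | rfl)
      · have h8 := mem_bd_iff.1 h5
        refine ⟨h8.1, Or.inr ⟨?_, h8.2⟩⟩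
        intro h9
        rcases hsub t' h8.1 h9 with rfl | rfl | rfl | rfl
        · exact hbdpq _ h5 (by simp) (by simp)
        · exact hbdpq _ h5 (by simp) (by simp)
        · exact h7 rfl
        · exact h6 rfl
      · refine ⟨?_, Or.inl ⟨?_, ?_⟩⟩
        · rw [← e2, card_erase_of_mem (by simp), h4]
        · rw [← e2]
          exact erase_subset _ _
        · intro s hs hss
          exact hpq s hs (hss (by simp)) (hss (by simp))
      · refine ⟨?_, Or.inl ⟨?_, ?_⟩⟩
        · rw [← e1, card_erase_of_mem (by simp), h4]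
        · exact Finset.subset_insert _ _
        · intro s hs hss
          exact hpq s hs (hss (by simp)) (hss (by simp))
  have c1 : insert c ({x, y, q} : Finset ι) = {x, y, q, c} := by
    ext z; simp only [mem_insert, mem_singleton]; tauto
  have c2 : insert c ({x, y, p} : Finset ι) = {x, y, c, p} := by
    ext z; simp only [mem_insert, mem_singleton]; tauto
  have c3 : insert c ({x, p, q} : Finset ι) = {x, p, q, c} := by
    ext z; simp only [mem_insert, mem_singleton]; tauto
  have c4 : insert c ({y, p, q} : Finset ι) = {y, p, q, c} := by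
    ext z; simp only [mem_insert, mem_singleton]; tauto
  have heq : coned F (insert {x, y, p, q} B) c =
      ((coned F B c) \ {{x, y, p, q}, {x, y, q, c}, {x, y, c, p}}) ∪
      {{x, p, q, c}, {y, p, q, c}} := by
    rw [← c1, ← c2, ← c3, ← c4]
    ext s
    rw [mem_union, mem_sdiff, mem_coned, mem_coned, mem_three', mem_two', mem_insert]
    simp only [not_or]
    constructor
    · rintro (⟨h1, h2, h3⟩ | ⟨t', ht', rfl⟩)
      · left
        refine ⟨Or.inl ⟨h1, h3⟩, h2, ?_, ?_⟩
        · rintro rfl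
          exact hcF _ h1 (mem_insert_self _ _)
        · rintro rfl
          exact hcF _ h1 (mem_insert_self _ _)
      · rcases (key t').1 ht' with ⟨h5, h6, h7⟩ | rfl | rfl
        · left
          refine ⟨Or.inr ⟨t', h5, rfl⟩, ?_, ?_, ?_⟩
          · intro h8
            exact hcF _ hσ (h8 ▸ mem_insert_self _ _)
          · intro h8
            exact h7 (insert_inj' (hbdc t' h5) (hbdc _ hq) h8)
          · intro h8
            exact h6 (insert_inj' (hbdc t' h5) (hbdc _ hp) h8)
        · right; left; rfl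
        · right; right; rfl
    · rintro (⟨⟨h1, h2⟩ | ⟨t', ht', rfl⟩, h3, h5, h6⟩ | rfl | rfl)
      · left
        exact ⟨h1, h3, h2⟩
      · right
        refine ⟨t', (key t').2 (Or.inl ⟨ht', ?_, ?_⟩), rfl⟩
        · rintro rfl
          exact h6 rfl
        · rintro rfl
          exact h5 rfl
      · right
        exact ⟨{x, p, q}, (key _).2 (Or.inr (Or.inl rfl)), rfl⟩
      · right
        exact ⟨{y, p, q}, (key _).2 (Or.inr (Or.inr rfl)), rfl⟩
  rw [heq]
  refine flip32 h ?_ ?_ ?_ ?_
  · exact mem_coned.2 (Or.inl ⟨hσ, hσB⟩)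
  · rw [← c1]
    exact mem_coned.2 (Or.inr ⟨_, hq, rfl⟩)
  · rw [← c2]
    exact mem_coned.2 (Or.inr ⟨_, hp, rfl⟩)
  · intro hh
    obtain ⟨-, s, hs, hss⟩ := mem_tris.1 hh
    have hps : p ∈ s := hss (by simp)
    have hqs : q ∈ s := hss (by simp)
    have hcs : c ∈ s := hss (by simp)
    rcases mem_coned.1 hs with ⟨h1, -⟩ | ⟨t', ht', rfl⟩
    · exact hcF s h1 hcs
    · rcases mem_insert.1 hps with h1 | h1
      · exact hcp h1.symm
      · rcases mem_insert.1 hqs with h2 | h2
        · exact hcq h2.symm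
        · exact hbdpq t' ht' h1 h2

end Pool.TSphH
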