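import Pool.Agent.Lib.MP_3de3a3_co.H.HDefs
import Pool.Agent.Lib.MP_3de3a3_co.Homol

/-! # A 3-cycle divides a sphere, first part (module HHalfA)

PROOF. `exists_halves`: t is in Sp L (`mem_Sp`): τ = {w, x, y}, pairwise adjacent, not in L. `exists_bounding` gives A0; A = L.filter (in A0), B = L - A. cross: if s in A, t' in B are
adjacent then (s in A iff t' in A) is false, so s inter t' is contained in τ. edge: let e be contained in τ, e.card = 2; e is contained in some triangle of L (its two elements are adjacent), so it is in exactly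
two triangles s, s' of L (`hL.edge`), s inter s' = e is contained in τ, so exactly one of s, s' is in A.
`halves_surf`: L' = insert τ A. card3. edge: for e contained in t in A, e not contained in τ: the other triangle of L at e is also in A (cross), and τ does not contain e. For e contained in τ: one triangle
of A and τ. conn: A has an element; B has an element (edge). Let s be in A, t' in B; in the chain of hL.conn from s to t' let r be the last element before the first one in B, r' the next: r inter r'
is contained in τ, has two elements, so (r inter τ).card = 2 (it is at least 2 and τ is not in L): the chain s, ..., r, τ lies in L'. So every s in A is joined to τ (and τ to s: the relation is symmetric on L').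
star: the same with chains through triangles containing x0. If x0 is not in τ: the chain of hL.star from s to t stays in A (a crossing edge contains x0 and is contained in τ). If x0 is in τ: there is an element of B
containing x0 (an edge e of τ with x0 in e is in a triangle of B); the chain from s in A to it inside the star of x0 leaves A through an edge of τ containing x0, so s is joined to τ inside the star of x0. -/

set_option autoImplicit false

namespace Pool.TSphH

open Finset
open Pool.TSph

variable {ι : Type*} [DecidableEq ι]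

/-- The 3-cycle `τ` divides `L` into `A` and `B`. -/
structure Halves (L : Finset (Finset ι)) (τ : Finset ι) (A B : Finset (Finset ι)) : Prop where
  un : A ∪ B = L
  disj : Disjoint A B
  cross : ∀ s ∈ A, ∀ t ∈ B, (s ∩ t).card = 2 → s ∩ t ⊆ τ
  edge : ∀ e ⊆ τ, e.card = 2 →
    (A.filter (fun s => e ⊆ s)).card = 1 ∧ (B.filter (fun s => e ⊆ s)).card = 1

theorem Halves.symm {L : Finset (Finset ι)} {τ : Finset ι} {A B : Finset (Finset ι)}
    (h : Halves L τ A B) : Halves L τ B A :=
  ⟨by rw [union_comm]; exact h.un, h.disj.symm,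
    fun s hs t ht hc => by rw [inter_comm]; exact h.cross t ht s hs (by rwa [inter_comm]),
    fun e he hc => (h.edge e he hc).symm⟩

private theorem HHalfA_inter {s t e : Finset ι} (hs : s.card = 3) (ht : t.card = 3) (hst : s ≠ t)
    (he : e.card = 2) (h1 : e ⊆ s) (h2 : e ⊆ t) : s ∩ t = e := by
  symm
  apply eq_of_subset_of_card_le (subset_inter h1 h2)
  rw [he]
  by_contra hcon
  push Not at hcon
  have h3 : (s ∩ t).card ≤ 3 := (card_le_card inter_subset_left).trans hs.le
  have h4 : (s ∩ t).card = 3 := by omega
  have h5 : s ∩ t = s := eq_of_subset_of_card_le inter_subset_left (by omega)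
  have h6 : s ∩ t = t := eq_of_subset_of_card_le inter_subset_right (by omega)
  exact hst (h5.symm.trans h6)

private theorem HHalfA_edge {L : Finset (Finset ι)} {τ e : Finset ι}
    (hadj : ∀ u ∈ τ, ∀ v ∈ τ, u ≠ v → adj L u v) (he : e ⊆ τ) (he2 : e.card = 2) :
    ∃ t ∈ L, e ⊆ t := by
  obtain ⟨u, v, huv, rfl⟩ := card_eq_two.1 he2
  obtain ⟨-, t, ht, hu, hv⟩ := hadj u (he (by simp)) v (he (by simp)) huv
  refine ⟨t, ht, ?_⟩
  intro z hz
  simp only [mem_insert, mem_singleton] at hz
  rcases hz with rfl | rfl
  · exact hu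
  · exact hv

theorem exists_halves {L : Finset (Finset ι)} (hL : IsSphere2 L) {τ : Finset ι}
    (hτ : τ ∈ Sp L) : ∃ A B, Halves L τ A B := by
  classical
  obtain ⟨hc, hn, hadj⟩ := mem_Sp.1 hτ
  obtain ⟨w, x, y, hwx, hwy, hxy, rfl⟩ := card_eq_three.1 hc
  obtain ⟨A0, hA⟩ := exists_bounding hL (hadj w (by simp) x (by simp) hwx)
    (hadj x (by simp) y (by simp) hxy) (hadj y (by simp) w (by simp) hwy.symm)
  refine ⟨L.filter (fun s => s ∈ A0), L.filter (fun s => s ∉ A0), ?_, ?_, ?_, ?_⟩
  · ext s
    simp only [mem_union, mem_filter]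
    tauto
  · rw [Finset.disjoint_left]
    intro s h1 h2
    exact (mem_filter.1 h2).2 (mem_filter.1 h1).2
  · intro s hs t ht hst
    rw [mem_filter] at hs ht
    by_contra hcon
    have hne : s ≠ t := by
      rintro rfl
      exact ht.2 hs.2
    have h1 := (hA s hs.1 t ht.1 hne hst).2 hcon
    exact ht.2 (h1.1 hs.2)
  · intro e he he2
    obtain ⟨t, ht, het⟩ := HHalfA_edge hadj he he2
    have h2 := hL.edge t ht e het he2
    obtain ⟨s, s', hss, hf⟩ := card_eq_two.1 h2
    have hs : s ∈ L ∧ e ⊆ s := by
      rw [← mem_filter (p := fun s => e ⊆ s), hf]; simp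
    have hs' : s' ∈ L ∧ e ⊆ s' := by
      rw [← mem_filter (p := fun s => e ⊆ s), hf]; simp
    have hint : s ∩ s' = e := HHalfA_inter (hL.card3 s hs.1) (hL.card3 s' hs'.1) hss he2 hs.2 hs'.2
    have h3 := hA s hs.1 s' hs'.1 hss (by rw [hint]; exact he2)
    rw [hint] at h3
    have h4 : ¬ (s ∈ A0 ↔ s' ∈ A0) := fun h => (h3.1 h) he
    have e1 : (L.filter (fun s => s ∈ A0)).filter (fun s => e ⊆ s) =
        ({s, s'} : Finset (Finset ι)).filter (fun s => s ∈ A0) := by
      rw [← hf, filter_filter, filter_filter]
      apply filter_congr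
      intro z _
      exact and_comm
    have e2 : (L.filter (fun s => s ∉ A0)).filter (fun s => e ⊆ s) =
        ({s, s'} : Finset (Finset ι)).filter (fun s => s ∉ A0) := by
      rw [← hf, filter_filter, filter_filter]
      apply filter_congr
      intro z _
      exact and_comm
    rw [e1, e2]
    by_cases hsA : s ∈ A0
    · have hs'A : s' ∉ A0 := fun h => h4 ⟨fun _ => h, fun _ => hsA⟩
      constructor
      · rw [filter_insert, if_pos hsA, filter_singleton, if_neg hs'A]
        rfl
      · rw [filter_insert, if_neg (not_not.2 hsA), filter_singleton, if_pos hs'A, card_singleton]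
    · have hs'A : s' ∈ A0 := by
        by_contra h
        exact h4 ⟨fun h1 => absurd h1 hsA, fun h1 => absurd h1 h⟩
      constructor
      · rw [filter_insert, if_neg hsA, filter_singleton, if_pos hs'A, card_singleton]
      · rw [filter_insert, if_pos hsA, filter_singleton, if_neg (not_not.2 hs'A)]
        rfl

/-- steps in the new complex -/
private def HHalfA_R (L' : Finset (Finset ι)) (P : Finset ι → Prop) (a b : Finset ι) : Prop :=
  b ∈ L' ∧ (a ∩ b).card = 2 ∧ P (a ∩ b)

private theorem HHalfA_mem {L' : Finset (Finset ι)} {P : Finset ι → Prop} {s t : Finset ι} (hs : s ∈ L')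
    (h : Relation.ReflTransGen (HHalfA_R L' P) s t) : t ∈ L' := by
  rcases Relation.ReflTransGen.cases_tail h with h1 | ⟨c, -, h2⟩
  · rw [h1]; exact hs
  · exact h2.1

private theorem HHalfA_symm {L' : Finset (Finset ι)} {P : Finset ι → Prop} {s t : Finset ι} (hs : s ∈ L')
    (h : Relation.ReflTransGen (HHalfA_R L' P) s t) : Relation.ReflTransGen (HHalfA_R L' P) t s := by
  induction h with
  | refl => exact Relation.ReflTransGen.refl
  | tail h1 h2 ih =>
    refine Relation.ReflTransGen.head ?_ ih
    exact ⟨HHalfA_mem hs h1, by rw [inter_comm]; exact h2.2.1, by rw [inter_comm]; exact h2.2.2⟩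

private theorem HHalfA_to {L : Finset (Finset ι)} (hL : IsSphere2 L) {τ : Finset ι} (hτ3 : τ.card = 3)
    (hτL : τ ∉ L) {A B : Finset (Finset ι)} (h : Halves L τ A B) (P : Finset ι → Prop) {t' : Finset ι}
    (ht' : t' ∈ B) {s : Finset ι} (hch : Relation.ReflTransGen (HHalfA_R L P) s t') :
    s ∈ A → Relation.ReflTransGen (HHalfA_R (insert τ A) P) s τ := by
  have hAL : ∀ a ∈ A, a ∈ L := fun a ha => by rw [← h.un]; exact mem_union_left _ ha
  induction hch using Relation.ReflTransGen.head_induction_on with
  | refl => exact fun hA => absurd ht' (Finset.disjoint_left.1 h.disj hA)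
  | head h1 h1' ih =>
    rename_i a c
    intro ha
    by_cases hc : c ∈ A
    · exact Relation.ReflTransGen.head ⟨mem_insert_of_mem hc, h1.2⟩ (ih hc)
    · have hcB : c ∈ B := by
        have := h1.1
        rw [← h.un, mem_union] at this
        exact this.resolve_left hc
      have h2 := h.cross a ha c hcB h1.2.1
      have hne : a ≠ τ := fun h3 => hτL (h3 ▸ hAL a ha)
      have h3 : a ∩ τ = a ∩ c := HHalfA_inter (hL.card3 a (hAL a ha)) hτ3 hne h1.2.1 inter_subset_left h2
      refine Relation.ReflTransGen.single ⟨mem_insert_self _ _, ?_, ?_⟩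
      · rw [h3]; exact h1.2.1
      · rw [h3]; exact h1.2.2

private theorem HHalfA_pair {τ : Finset ι} (hτ3 : τ.card = 3) {x : ι} (hx : x ∈ τ) :
    ∃ e ⊆ τ, e.card = 2 ∧ x ∈ e := by
  have h1 : (τ.erase x).Nonempty := by
    rw [← card_pos, card_erase_of_mem hx, hτ3]; norm_num
  obtain ⟨y, hy⟩ := h1
  rw [mem_erase] at hy
  refine ⟨{x, y}, ?_, card_pair hy.1.symm, by simp⟩
  intro z hz
  simp only [mem_insert, mem_singleton] at hz
  rcases hz with rfl | rfl
  · exact hx
  · exact hy.2

private theorem HHalfA_all {L' : Finset (Finset ι)} {P : Finset ι → Prop} {τ : Finset ι} {A : Finset (Finset ι)}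
    (hL' : L' = insert τ A) {s t : Finset ι}
    (h : ∀ a ∈ A, (a = s ∨ a = t) → Relation.ReflTransGen (HHalfA_R L' P) a τ)
    (hs : s ∈ L') (ht : t ∈ L') : Relation.ReflTransGen (HHalfA_R L' P) s t := by
  have h1 : ∀ a ∈ L', (a = s ∨ a = t) → Relation.ReflTransGen (HHalfA_R L' P) a τ := by
    intro a ha hor
    rw [hL', mem_insert] at ha
    rcases ha with rfl | ha
    · exact Relation.ReflTransGen.refl
    · exact h a ha hor
  exact (h1 s hs (Or.inl rfl)).trans (HHalfA_symm ht (h1 t ht (Or.inr rfl)))

theorem halves_surf {L : Finset (Finset ι)} (hL : IsSphere2 L) {τ : Finset ι} (hτ : τ ∈ Sp L)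
    {A B : Finset (Finset ι)} (h : Halves L τ A B) :
    (∀ t ∈ insert τ A, t.card = 3) ∧
    (∀ t ∈ insert τ A, ∀ e ⊆ t, e.card = 2 →
      ((insert τ A).filter (fun s => e ⊆ s)).card = 2) ∧
    (∀ s ∈ insert τ A, ∀ t ∈ insert τ A,
      Relation.ReflTransGen (fun a b => b ∈ insert τ A ∧ (a ∩ b).card = 2) s t) ∧
    (∀ x, ∀ s ∈ insert τ A, ∀ t ∈ insert τ A, x ∈ s → x ∈ t →
      Relation.ReflTransGen (fun a b => b ∈ insert τ A ∧ (a ∩ b).card = 2 ∧ x ∈ a ∩ b) s t) := by
  classical
  obtain ⟨hc, hn, hadj⟩ := mem_Sp.1 hτ
  have hAL : ∀ a ∈ A, a ∈ L := fun a ha => by rw [← h.un]; exact mem_union_left _ ha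
  have hBL : ∀ a ∈ B, a ∈ L := fun a ha => by rw [← h.un]; exact mem_union_right _ ha
  have hτA : τ ∉ A := fun h1 => hn (hAL τ h1)
  have key : ∀ x ∈ τ, ∃ t' ∈ B, x ∈ t' := by
    intro x hx
    obtain ⟨e, he, he2, hxe⟩ := HHalfA_pair hc hx
    obtain ⟨t', ht'⟩ := card_eq_one.1 (h.edge e he he2).2
    have h1 : t' ∈ B.filter (fun s => e ⊆ s) := by rw [ht']; simp
    rw [mem_filter] at h1
    exact ⟨t', h1.1, h1.2 hxe⟩
  refine ⟨?_, ?_, ?_, ?_⟩
  · intro t ht
    rcases mem_insert.1 ht with rfl | ht
    · exact hc
    · exact hL.card3 t (hAL t ht)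
  · intro t ht e het he2
    by_cases heτ : e ⊆ τ
    · rw [filter_insert, if_pos heτ, card_insert_of_notMem (fun h1 => hτA (mem_filter.1 h1).1),
        (h.edge e heτ he2).1]
    · have htA : t ∈ A := by
        rcases mem_insert.1 ht with rfl | ht
        · exact absurd het heτ
        · exact ht
      rw [filter_insert, if_neg heτ]
      have h1 : A.filter (fun s => e ⊆ s) = L.filter (fun s => e ⊆ s) := by
        ext s
        rw [mem_filter, mem_filter]
        constructor
        · exact fun h1 => ⟨hAL s h1.1, h1.2⟩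
        · rintro ⟨hs, hes⟩
          refine ⟨?_, hes⟩
          by_contra hsA
          have hsB : s ∈ B := by
            rw [← h.un, mem_union] at hs
            exact hs.resolve_left hsA
          have hne : t ≠ s := by
            rintro rfl
            exact hsA htA
          have h2 := HHalfA_inter (hL.card3 t (hAL t htA)) (hL.card3 s hs) hne he2 het hes
          have h3 := h.cross t htA s hsB (by rw [h2]; exact he2)
          rw [h2] at h3
          exact heτ h3
      rw [h1]
      exact hL.edge t (hAL t htA) e het he2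
  · intro s hs t ht
    have hx : ∃ x, x ∈ τ := by
      rw [← Finset.Nonempty, ← card_pos, hc]; norm_num
    obtain ⟨x, hx⟩ := hx
    obtain ⟨t', ht', -⟩ := key x hx
    have h1 : Relation.ReflTransGen (HHalfA_R (insert τ A) (fun _ => True)) s t := by
      refine HHalfA_all rfl ?_ hs ht
      intro a ha _
      refine HHalfA_to hL hc hn h (fun _ => True) ht' ?_ ha
      refine Relation.ReflTransGen.mono ?_ _ _ (hL.conn a (hAL a ha) t' (hBL t' ht'))
      exact fun _ _ h1 => ⟨h1.1, h1.2, trivial⟩
    exact Relation.ReflTransGen.mono (fun _ _ h2 => ⟨h2.1, h2.2.1⟩) _ _ h1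
  · intro x s hs t ht hxs hxt
    by_cases hx : x ∈ τ
    · obtain ⟨t', ht', hxt'⟩ := key x hx
      refine HHalfA_all (P := fun e => x ∈ e) rfl ?_ hs ht
      intro a ha hor
      have hxa : x ∈ a := by
        rcases hor with rfl | rfl
        · exact hxs
        · exact hxt
      refine HHalfA_to hL hc hn h (fun e => x ∈ e) ht' ?_ ha
      exact hL.star x a (hAL a ha) t' (hBL t' ht') hxa hxt'
    · have hsA : s ∈ A := by
        rcases mem_insert.1 hs with rfl | hs
        · exact absurd hxs hx
        · exact hs
      have htA : t ∈ A := by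
        rcases mem_insert.1 ht with rfl | ht
        · exact absurd hxt hx
        · exact ht
      have hch := hL.star x s (hAL s hsA) t (hAL t htA) hxs hxt
      have h1 : t ∈ A ∧ Relation.ReflTransGen (fun a b => b ∈ insert τ A ∧ (a ∩ b).card = 2 ∧ x ∈ a ∩ b) s t := by
        clear htA hxt ht
        induction hch with
        | refl => exact ⟨hsA, Relation.ReflTransGen.refl⟩
        | tail h2' h2 ih =>
          rename_i b c
          have hcA : c ∈ A := by
            by_contra hcA
            have hcB : c ∈ B := by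
              have := h2.1
              rw [← h.un, mem_union] at this
              exact this.resolve_left hcA
            exact hx (h.cross b ih.1 c hcB h2.2.1 h2.2.2)
          exact ⟨hcA, ih.2.tail ⟨mem_insert_of_mem hcA, h2.2⟩⟩
      exact h1.2

end Pool.TSphH
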