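import Pool.Agent.Lib.MP_3de3a3_co.H.HChi
import Pool.Agent.Lib.MP_3de3a3_co.H.HHalfA

/-! # A 3-cycle divides a sphere (module HHalf)

PROOF. Let A, B be as in `exists_halves`. By `chi_le` and `halves_surf` (for A and, by `Halves.symm`, for B): 2 V_A <= A.card + 5, 2 V_B <= B.card + 5, where V_A = (verts (insert τ A)).card
(τ is not in A: not in L). verts (insert τ A) union verts (insert τ B) = verts L (τ is contained in verts L), and the intersection contains τ: V_A + V_B >= V + 3. A.card + B.card = L.card = 2 V - 4. So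
2 V + 6 <= 2 (V_A + V_B) <= 2 V + 6: equality everywhere. -/

set_option autoImplicit false

namespace Pool.TSphH

open Finset
open Pool.TSph

variable {ι : Type*} [DecidableEq ι]

theorem half {L : Finset (Finset ι)} (hL : IsSphere2 L) {τ : Finset ι} (hτ : τ ∈ Sp L) :
    ∃ A B, A ∪ B = L ∧ Disjoint A B ∧ IsSphere2 (insert τ A) ∧ IsSphere2 (insert τ B) ∧
      verts (insert τ A) ∩ verts (insert τ B) = τ := by
  obtain ⟨A, B, h⟩ := exists_halves hL hτ
  obtain ⟨a3, ae, ac, as⟩ := halves_surf hL hτ h
  obtain ⟨b3, be, bc, bs⟩ := halves_surf hL hτ h.symm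
  have hτL : τ ∉ L := (mem_Sp.1 hτ).2.1
  have hτc : τ.card = 3 := (mem_Sp.1 hτ).1
  have hτA : τ ∉ A := fun h' => hτL (by rw [← h.un]; exact mem_union_left _ h')
  have hτB : τ ∉ B := fun h' => hτL (by rw [← h.un]; exact mem_union_right _ h')
  have hA := chi_le a3 ae ac
  have hB := chi_le b3 be bc
  rw [card_insert_of_notMem hτA] at hA
  rw [card_insert_of_notMem hτB] at hB
  have hcard : A.card + B.card = L.card := by
    rw [← h.un, card_union_of_disjoint h.disj]
  have hτv : τ ⊆ verts L := by
    intro u hu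
    have h1 : (τ.erase u).Nonempty := by
      rw [← card_pos, card_erase_of_mem hu, hτc]; norm_num
    obtain ⟨v, hv⟩ := h1
    rw [mem_erase] at hv
    exact adj_mem_left ((mem_Sp.1 hτ).2.2 u hu v hv.2 (Ne.symm hv.1))
  have hun : verts (insert τ A) ∪ verts (insert τ B) = verts L := by
    ext u
    rw [mem_union, mem_verts, mem_verts, mem_verts]
    constructor
    · rintro (⟨s, hs, hu⟩ | ⟨s, hs, hu⟩)
      · rcases mem_insert.1 hs with rfl | hs
        · exact mem_verts.1 (hτv hu)
        · exact ⟨s, by rw [← h.un]; exact mem_union_left _ hs, hu⟩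
      · rcases mem_insert.1 hs with rfl | hs
        · exact mem_verts.1 (hτv hu)
        · exact ⟨s, by rw [← h.un]; exact mem_union_right _ hs, hu⟩
    · rintro ⟨s, hs, hu⟩
      rw [← h.un, mem_union] at hs
      rcases hs with hs | hs
      · exact Or.inl ⟨s, mem_insert_of_mem hs, hu⟩
      · exact Or.inr ⟨s, mem_insert_of_mem hs, hu⟩
  have hsub : τ ⊆ verts (insert τ A) ∩ verts (insert τ B) := by
    intro u hu
    rw [mem_inter]
    exact ⟨mem_verts.2 ⟨τ, mem_insert_self _ _, hu⟩, mem_verts.2 ⟨τ, mem_insert_self _ _, hu⟩⟩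
  have h3 : 3 ≤ (verts (insert τ A) ∩ verts (insert τ B)).card := by
    rw [← hτc]; exact card_le_card hsub
  have hui := card_union_add_card_inter (verts (insert τ A)) (verts (insert τ B))
  rw [hun] at hui
  have heu := hL.euler
  have hcA : (insert τ A).card = A.card + 1 := card_insert_of_notMem hτA
  have hcB : (insert τ B).card = B.card + 1 := card_insert_of_notMem hτB
  refine ⟨A, B, h.un, h.disj, ⟨a3, ae, ac, as, ?_⟩, ⟨b3, be, bc, bs, ?_⟩, ?_⟩
  · rw [hcA]; omega
  · rw [hcB]; omega
  · exact (eq_of_subset_of_card_le hsub (by omega)).symm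

end Pool.TSphH
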