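import Pool.Agent.Lib.MP_3de3a3_co.H.HPlan

/-! # Heavy edges (module HHeavy)

PROOF. `sum_Hv`: D |Hv D L| <= sum over verts L of vd L w = 3 L.card for L = link F x (`Deg_sum`), and sum_x (link F x).card = 4 F.card
(`sum_link_card`). `T2_card`: let t be in T2 D F, with x, y, z in t, {x, y} and {x, z} heavy. In L = link F x the vertices y, z have degree
at least D (`vd_link`) and {y, z} is contained in a triangle of L (t is contained in a facet s, s.erase x is in L). So t = insert x e for an
element e of the set E_x of `edges_le` for L and H = Hv D L; T2 D F is contained in the union over x in verts F of E_x.image (insert x). -/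

set_option autoImplicit false

namespace Pool.TSphH

open Finset
open Pool.TSph

variable {ι : Type*} [DecidableEq ι]

theorem sum_Hv {F : Finset (Finset ι)} (hF : IsMfd3 F) (D : ℕ) :
    D * ∑ x ∈ verts F, (Hv D (link F x)).card ≤ 12 * F.card := by
  have h1 : ∀ x ∈ verts F, D * (Hv D (link F x)).card ≤ 3 * (link F x).card := by
    intro x hx
    have hL := hF.sphere x hx
    rw [← Deg_sum hL]
    have h2 : ∑ _w ∈ Hv D (link F x), D ≤
        ∑ w ∈ Hv D (link F x), ((link F x).filter (fun t => w ∈ t)).card :=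
      sum_le_sum fun w hw => (mem_Hv.1 hw).2
    have h3 : ∑ w ∈ Hv D (link F x), ((link F x).filter (fun t => w ∈ t)).card ≤
        ∑ w ∈ verts (link F x), ((link F x).filter (fun t => w ∈ t)).card :=
      sum_le_sum_of_subset fun w hw => (mem_Hv.1 hw).1
    rw [sum_const, smul_eq_mul, mul_comm] at h2
    exact h2.trans h3
  rw [mul_sum]
  refine (sum_le_sum h1).trans ?_
  rw [← mul_sum, sum_link_card hF.card4]
  omega

theorem T2_card {F : Finset (Finset ι)} (hF : IsMfd3 F) (D : ℕ) :
    (T2 D F).card ≤ 5 * ∑ x ∈ verts F, (Hv D (link F x)).card := by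
  have hsub : T2 D F ⊆ (verts F).biUnion fun x =>
      (((Hv D (link F x)).powersetCard 2).filter (fun e => ∃ t ∈ link F x, e ⊆ t)).image (insert x) := by
    intro t ht
    rw [T2, mem_filter, mem_tris] at ht
    obtain ⟨⟨htc, s, hs, hts⟩, x, hx, y, hy, z, hz, hxy, hxz, hyz, h1, h2⟩ := ht
    have hxF : x ∈ verts F := mem_verts.2 ⟨s, hs, hts hx⟩
    have hsl : s.erase x ∈ link F x := mem_link.2 ⟨s, hs, hts hx, rfl⟩
    rw [mem_biUnion]
    refine ⟨x, hxF, mem_image.2 ⟨{y, z}, ?_, ?_⟩⟩
    · rw [mem_filter, mem_powersetCard]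
      refine ⟨⟨?_, card_pair hyz⟩, s.erase x, hsl, ?_⟩
      · intro w hw
        simp only [mem_insert, mem_singleton] at hw
        rw [mem_Hv]
        rcases hw with rfl | rfl
        · exact ⟨mem_verts.2 ⟨s.erase x, hsl, mem_erase.2 ⟨hxy.symm, hts hy⟩⟩, by rw [vd_link hxy]; exact h1⟩
        · exact ⟨mem_verts.2 ⟨s.erase x, hsl, mem_erase.2 ⟨hxz.symm, hts hz⟩⟩, by rw [vd_link hxz]; exact h2⟩
      · intro w hw
        simp only [mem_insert, mem_singleton] at hw
        rcases hw with rfl | rfl
        · exact mem_erase.2 ⟨hxy.symm, hts hy⟩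
        · exact mem_erase.2 ⟨hxz.symm, hts hz⟩
    · apply eq_of_subset_of_card_le
      · intro w hw
        simp only [mem_insert, mem_singleton] at hw
        rcases hw with rfl | rfl | rfl
        · exact hx
        · exact hy
        · exact hz
      · rw [htc, card_eq_three.2 ⟨x, y, z, hxy, hxz, hyz, rfl⟩]
  refine (card_le_card hsub).trans (card_biUnion_le.trans ?_)
  rw [mul_sum]
  refine sum_le_sum fun x hx => ?_
  exact card_image_le.trans (edges_le (hF.sphere x hx) _)

end Pool.TSphH
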