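import Pool.Agent.Lib.MP_3de3a3_co.H.HDefs
import Pool.Agent.Lib.MP_3de3a3_co.MfdMap

/-! # Isomorphism of complexes over the natural numbers (module HIso)

PROOF of `iso_of_injOn`: f maps verts F bijectively onto a finite set; extend this bijection of finite subsets of ℕ to a permutation π of ℕ (the image and the source have the same cardinality, so the
complements inside a common finite set {0, ..., N} have the same cardinality; outside of it take the identity; see `Equiv.Perm` extension lemmas such as `Equiv.extendSubtype` on Fin N, or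
`Function.Injective` / `Set.InjOn` with `Finset.exists_equiv_extend_of_card_eq`). Then s.image π = s.image f for s in F.
`iso_mfd`: `mfd_map`, verts of the image (`MfdMap_verts`). -/

set_option autoImplicit false

namespace Pool.TSphH

open Finset
open Pool.TSph

/-- Isomorphic complexes. -/
def Iso (F G : Finset (Finset ℕ)) : Prop :=
  ∃ π : Equiv.Perm ℕ, G = F.image (fun σ => σ.image π)

theorem Iso.refl (F : Finset (Finset ℕ)) : Iso F F := ⟨1, by simp⟩

theorem Iso.symm {F G : Finset (Finset ℕ)} (h : Iso F G) : Iso G F := by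
  obtain ⟨π, rfl⟩ := h
  refine ⟨π.symm, ?_⟩
  rw [image_image]
  simp [Function.comp_def, image_image]

theorem Iso.trans {F G K : Finset (Finset ℕ)} (h : Iso F G) (h' : Iso G K) : Iso F K := by
  obtain ⟨π, rfl⟩ := h
  obtain ⟨ρ, rfl⟩ := h'
  refine ⟨π.trans ρ, ?_⟩
  rw [image_image]
  simp [Function.comp_def, image_image]

private theorem exists_perm (s : Finset ℕ) (f : ℕ → ℕ) (hf : Set.InjOn f s) :
    ∃ π : Equiv.Perm ℕ, ∀ i ∈ s, π i = f i := by
  induction s using Finset.induction with
  | empty => exact ⟨1, by simp⟩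
  | insert a s ha ih =>
    have hfs : Set.InjOn f s := hf.mono (by
      intro x hx
      exact mem_insert_of_mem hx)
    obtain ⟨π, hπ⟩ := ih hfs
    refine ⟨π.trans (Equiv.swap (π a) (f a)), ?_⟩
    intro i hi
    rcases mem_insert.1 hi with rfl | hi
    · simp
    · have h1 : i ≠ a := fun h => ha (h ▸ hi)
      have h2 : π i ≠ π a := fun h => h1 (π.injective h)
      have h3 : π i ≠ f a := by
        rw [hπ i hi]
        intro h
        exact h1 (hf (mem_insert_of_mem hi) (mem_insert_self _ _) h)
      rw [Equiv.trans_apply, Equiv.swap_apply_of_ne_of_ne h2 h3, hπ i hi]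

theorem iso_of_injOn {F : Finset (Finset ℕ)} {f : ℕ → ℕ}
    (hf : Set.InjOn f (verts F)) : Iso F (F.image (fun s => s.image f)) := by
  obtain ⟨π, hπ⟩ := exists_perm (verts F) f hf
  refine ⟨π, ?_⟩
  refine image_congr ?_
  intro s hs
  refine image_congr ?_
  intro i hi
  exact (hπ i (mem_verts.2 ⟨s, hs, hi⟩)).symm

theorem iso_mfd {F G : Finset (Finset ℕ)} (h : Iso F G) (hF : IsMfd3 F) :
    IsMfd3 G ∧ G.card = F.card ∧ (verts G).card = (verts F).card := by
  obtain ⟨π, rfl⟩ := h
  obtain ⟨h1, h2⟩ := mfd_map hF π.injective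
  refine ⟨h1, h2, ?_⟩
  rw [MfdMap_verts, card_image_of_injective _ π.injective]

end Pool.TSphH
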