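import Pool.Agent.Lib.MP_3de3a3_co.H.HBdry

/-! # The laminar lemma (module HLam)

PROOF. Write A_Z for `A Z`, int(A_Z) for the set of the vertices u of F all of whose facets are in A_Z. Let Z, Z' be different.
(i) A_Z, A_Z' are disjoint or one is contained in the other. Case 1: all facets at the triangles of Z' - Z are outside A_Z. Let
 A_1 = A_Z inter A_Z'. Let t be in bdry F A_1, f in A_1 and g not in A_1 the two facets at t. If g is not in A_Z then t is in Z. If g is in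
 A_Z then g is not in A_Z' and f is, so t is in Z'; if t were not in Z then f would be outside A_Z, contradiction; but t in Z contradicts that
 f, g are both in A_Z. So bdry F A_1 is an even subset of Z: it is empty, then A_1 is empty (it does not contain f0), or it is Z, then
 A_1 = A_Z (by `bdry_inj`; f0 is not in A_1). Case 2: all these facets are in A_Z. Let A_2 = (F - A_Z) inter A_Z'. Let t be in bdry F A_2,
 f in A_2, g not in A_2. If g is in A_Z then t is in Z. If not, then g is not in A_Z', so t is in Z' and not in Z, so f is in A_Z,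
 contradiction. So bdry F A_2 is empty or Z. If empty: A_2 is empty (f0 is not in A_Z'), so A_Z' is contained in A_Z. If Z: A_2 = A_Z (then
 A_Z is contained in F - A_Z, so it is empty and Z is empty, contradiction) or A_2 = F - A_Z, which contains f0, contradiction.
(ii) If u is in verts Z' and not in verts Z and A_Z' is contained in A_Z then u is in int(A_Z) and not in int(A_Z'): all facets at u are on
 the same side of A_Z (`side_vertex`), a triangle t of Z' at u has one facet in A_Z' (so in A_Z) and the other one not in A_Z'.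
(iii) For Z with int(A_Z) nonempty choose u_Z: if there is Z' in ZZ with A_Z' properly contained in A_Z take one with A_Z' maximal (of
 maximal cardinality) and u_Z in verts Z' - verts Z (hV); otherwise u_Z in int(A_Z). Claim: u_Z is in int(A_Z) and not in int(A_Z'') for any
 Z'' in ZZ with A_Z'' properly contained in A_Z. Indeed in the first case let u = u_Z in int(A_Z''). A facet at u is in A_Z' and in A_Z'', so
 by (i) Z'' = Z' or they are nested; if A_Z'' is contained in A_Z' then u is in int(A_Z'), contradiction to (ii); if A_Z' is properly contained in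
 A_Z'' this contradicts the maximality. The map Z -> u_Z is injective: if u = u_Z1 = u_Z2 then A_Z1, A_Z2 are not disjoint, so nested, not
 equal (their boundaries are different), say A_Z1 properly contained in A_Z2, and u in int(A_Z1) contradicts the claim for Z2. -/

set_option autoImplicit false

namespace Pool.TSphH

open Finset
open Pool.TSph

variable {ι : Type*} [DecidableEq ι]

/-- the two facets at a triangle of the boundary -/
private theorem la_two {F A : Finset (Finset ι)} (hF : IsMfd3 F) (hA : A ⊆ F) {t : Finset ι}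
    (ht : t ∈ bdry F A) : t.card = 3 ∧ ∃ f g, f ∈ A ∧ g ∈ F ∧ g ∉ A ∧ f ≠ g ∧ t ⊆ f ∧ t ⊆ g := by
  have h1 := (mem_bdry.1 ht).1
  have h3 := (mem_tris.1 h1).1
  obtain ⟨f, g, hfg, he⟩ := card_eq_two.1 (two_facets hF h1)
  have hf : f ∈ F.filter (fun s => t ⊆ s) := by rw [he]; simp
  have hg : g ∈ F.filter (fun s => t ⊆ s) := by rw [he]; simp
  rw [mem_filter] at hf hg
  have h4 := (bdry_iff hF hA h3 hf.1 hg.1 hfg hf.2 hg.2).1 ht
  refine ⟨h3, ?_⟩
  by_cases hfA : f ∈ A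
  · exact ⟨f, g, hfA, hg.1, fun h => h4 ⟨fun _ => h, fun _ => hfA⟩, hfg, hf.2, hg.2⟩
  · have hgA : g ∈ A := by
      by_contra hgA
      exact h4 ⟨fun h => absurd h hfA, fun h => absurd h hgA⟩
    exact ⟨g, f, hgA, hf.1, hfA, hfg.symm, hg.2, hf.2⟩

/-- if the boundary of `B` is contained in the minimal even set `bdry F A` -/
private theorem la_min {F A B : Finset (Finset ι)} (hF : IsMfd3 F) (hA : A ⊆ F) (hB : B ⊆ F)
    (hm : MinEven (bdry F A)) (h : bdry F B ⊆ bdry F A) : B = ∅ ∨ B = F ∨ B = A ∨ B = F \ A := by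
  rcases hm _ h (bdry_even hF hB) with h1 | h1
  · rcases bdry_eq_empty hF hB h1 with h2 | h2
    · exact Or.inl h2
    · exact Or.inr (Or.inl h2)
  · exact Or.inr (Or.inr (bdry_inj hF hB hA h1))

private theorem la_nest {F A B : Finset (Finset ι)} (hF : IsMfd3 F) {f0 : Finset ι} (hf0 : f0 ∈ F)
    (hA : A ⊆ F) (hB : B ⊆ F) (hfA : f0 ∉ A) (hfB : f0 ∉ B) (hm : MinEven (bdry F A)) (hne : (bdry F A).Nonempty)
    (hNC : (∀ t ∈ bdry F B, t ∉ bdry F A → ∀ s ∈ F, t ⊆ s → s ∈ A) ∨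
      (∀ t ∈ bdry F B, t ∉ bdry F A → ∀ s ∈ F, t ⊆ s → s ∉ A)) :
    A ∩ B = ∅ ∨ A ⊆ B ∨ B ⊆ A := by
  rcases hNC with hNC | hNC
  · -- all facets at the triangles of the second boundary are in `A`
    have hsub : F \ A ∩ B ⊆ F := fun s hs => (mem_sdiff.1 (mem_inter.1 hs).1).1
    have h1 : bdry F (F \ A ∩ B) ⊆ bdry F A := by
      intro t ht
      obtain ⟨h3, f, g, hf, hg, hg2, hfg, htf, htg⟩ := la_two hF hsub ht
      rw [mem_inter, mem_sdiff] at hf
      by_cases hgA : g ∈ A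
      · exact (bdry_iff hF hA h3 hf.1.1 hg hfg htf htg).2 (fun h => hf.1.2 (h.2 hgA))
      · have hgB : g ∉ B := fun h => hg2 (mem_inter.2 ⟨mem_sdiff.2 ⟨hg, hgA⟩, h⟩)
        have htB : t ∈ bdry F B := (bdry_iff hF hB h3 hf.1.1 hg hfg htf htg).2 (fun h => hgB (h.1 hf.2))
        by_contra htA
        exact hf.1.2 (hNC t htB htA f hf.1.1 htf)
    rcases la_min hF hA hsub hm h1 with h | h | h | h
    · right; right
      intro s hs
      by_contra hsA
      have : s ∈ F \ A ∩ B := mem_inter.2 ⟨mem_sdiff.2 ⟨hB hs, hsA⟩, hs⟩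
      rw [h] at this
      exact notMem_empty _ this
    · exfalso
      rw [← h, mem_inter] at hf0
      exact hfB hf0.2
    · exfalso
      have hA0 : A = ∅ := by
        rw [eq_empty_iff_forall_notMem]
        intro s hs
        have h2 := hs
        rw [← h, mem_inter, mem_sdiff] at h2
        exact h2.1.2 hs
      obtain ⟨t, ht⟩ := hne
      rw [hA0, mem_bdry] at ht
      simp at ht
    · exfalso
      have h2 : f0 ∈ F \ A := mem_sdiff.2 ⟨hf0, hfA⟩
      rw [← h, mem_inter] at h2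
      exact hfB h2.2
  · have hsub : A ∩ B ⊆ F := fun s hs => hA (mem_inter.1 hs).1
    have h1 : bdry F (A ∩ B) ⊆ bdry F A := by
      intro t ht
      obtain ⟨h3, f, g, hf, hg, hg2, hfg, htf, htg⟩ := la_two hF hsub ht
      rw [mem_inter] at hf
      by_cases hgA : g ∈ A
      · have hgB : g ∉ B := fun h => hg2 (mem_inter.2 ⟨hgA, h⟩)
        have htB : t ∈ bdry F B := (bdry_iff hF hB h3 (hA hf.1) hg hfg htf htg).2 (fun h => hgB (h.1 hf.2))
        by_contra htA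
        exact hNC t htB htA f (hA hf.1) htf hf.1
      · exact (bdry_iff hF hA h3 (hA hf.1) hg hfg htf htg).2 (fun h => hgA (h.1 hf.1))
    rcases la_min hF hA hsub hm h1 with h | h | h | h
    · exact Or.inl h
    · exfalso
      rw [← h, mem_inter] at hf0
      exact hfA hf0.1
    · right; left
      intro s hs
      rw [← h, mem_inter] at hs
      exact hs.2
    · exfalso
      have h2 : f0 ∈ F \ A := mem_sdiff.2 ⟨hf0, hfA⟩
      rw [← h, mem_inter] at h2
      exact hfA h2.1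

theorem laminar {F : Finset (Finset ι)} (hF : IsMfd3 F) {f0 : Finset ι} (hf0 : f0 ∈ F)
    (ZZ : Finset (Finset (Finset ι))) (hne : ∀ Z ∈ ZZ, Z.Nonempty) (hmin : ∀ Z ∈ ZZ, MinEven Z)
    (A : Finset (Finset ι) → Finset (Finset ι))
    (hA : ∀ Z ∈ ZZ, A Z ⊆ F ∧ f0 ∉ A Z ∧ bdry F (A Z) = Z)
    (hNC : ∀ Z ∈ ZZ, ∀ Z' ∈ ZZ, Z ≠ Z' →
      (∀ t ∈ Z', t ∉ Z → ∀ s ∈ F, t ⊆ s → s ∈ A Z) ∨
      (∀ t ∈ Z', t ∉ Z → ∀ s ∈ F, t ⊆ s → s ∉ A Z))
    (hV : ∀ Z ∈ ZZ, ∀ Z' ∈ ZZ, Z ≠ Z' → ¬ verts Z' ⊆ verts Z) :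
    (ZZ.filter (fun Z => ∃ u ∈ verts F, ∀ s ∈ F, u ∈ s → s ∈ A Z)).card ≤ (verts F).card := by
  classical
  -- (i)
  have nest : ∀ Z ∈ ZZ, ∀ Z' ∈ ZZ, Z ≠ Z' → A Z ∩ A Z' = ∅ ∨ A Z ⊆ A Z' ∨ A Z' ⊆ A Z := by
    intro Z hZ Z' hZ' hne'
    obtain ⟨a1, a2, a3⟩ := hA Z hZ
    obtain ⟨b1, b2, b3⟩ := hA Z' hZ'
    refine la_nest hF hf0 a1 b1 a2 b2 (by rw [a3]; exact hmin Z hZ) (by rw [a3]; exact hne Z hZ) ?_
    rw [a3, b3]
    exact hNC Z hZ Z' hZ' hne'
  -- (ii)
  have sep : ∀ Z ∈ ZZ, ∀ Z' ∈ ZZ, A Z' ⊆ A Z → ∀ u ∈ verts Z', u ∉ verts Z →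
      (∀ s ∈ F, u ∈ s → s ∈ A Z) ∧ (∃ f ∈ A Z', u ∈ f) ∧ ∃ g ∈ F, u ∈ g ∧ g ∉ A Z' := by
    intro Z hZ Z' hZ' hsub u hu hu2
    obtain ⟨a1, a2, a3⟩ := hA Z hZ
    obtain ⟨b1, b2, b3⟩ := hA Z' hZ'
    obtain ⟨t, ht, hut⟩ := mem_verts.1 hu
    rw [← b3] at ht
    obtain ⟨h3, f, g, hf, hg, hg2, hfg, htf, htg⟩ := la_two hF b1 ht
    refine ⟨fun s hs hus => ?_, ⟨f, hf, htf hut⟩, ⟨g, hg, htg hut, hg2⟩⟩
    have hside := side_vertex hF a1 (u := u) (by rw [a3]; exact hu2) (b1 hf) hs (htf hut) hus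
    exact hside.1 (hsub hf)
  -- the choice of the vertices
  have hex : ∀ Z ∈ ZZ.filter (fun Z => ∃ u ∈ verts F, ∀ s ∈ F, u ∈ s → s ∈ A Z),
      ∃ u ∈ verts F, (∀ s ∈ F, u ∈ s → s ∈ A Z) ∧
        ∀ Y ∈ ZZ, A Y ⊂ A Z → ¬ (∀ s ∈ F, u ∈ s → s ∈ A Y) := by
    intro Z hZf
    rw [mem_filter] at hZf
    obtain ⟨hZ, u0, hu0, hu0'⟩ := hZf
    by_cases hS : (ZZ.filter (fun Y => A Y ⊂ A Z)).Nonempty
    · obtain ⟨Z', hZ'S, hmax⟩ := exists_max_image _ (fun Y => (A Y).card) hS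
      rw [mem_filter] at hZ'S
      obtain ⟨hZ', hss⟩ := hZ'S
      have hZZ' : Z ≠ Z' := by
        rintro rfl
        exact (ssubset_irrefl _) hss
      obtain ⟨u, hu, hu2⟩ := not_subset.1 (hV Z hZ Z' hZ' hZZ')
      obtain ⟨s1, ⟨f, hf, huf⟩, g, hg, hug, hgA⟩ := sep Z hZ Z' hZ' hss.subset u hu hu2
      refine ⟨u, mem_verts.2 ⟨g, hg, hug⟩, s1, ?_⟩
      intro Y hY hYs hcon
      have hfF : f ∈ F := (hA Z' hZ').1 hf
      by_cases hYZ : Z' = Y
      · rw [← hYZ] at hcon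
        exact hgA (hcon g hg hug)
      · rcases nest Z' hZ' Y hY hYZ with h | h | h
        · have : f ∈ A Z' ∩ A Y := mem_inter.2 ⟨hf, hcon f hfF huf⟩
          rw [h] at this
          exact notMem_empty _ this
        · have h5 : A Z' ⊂ A Y := by
            refine ⟨h, fun h6 => ?_⟩
            exact hgA (h6 (hcon g hg hug))
          have h7 := card_lt_card h5
          have h8 := hmax Y (mem_filter.2 ⟨hY, hYs⟩)
          omega
        · exact hgA (h (hcon g hg hug))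
    · refine ⟨u0, hu0, hu0', fun Y hY hYs _ => hS ⟨Y, mem_filter.2 ⟨hY, hYs⟩⟩⟩
  have hne0 : Nonempty ι := by
    obtain ⟨x0, _⟩ : f0.Nonempty := by rw [← card_pos, hF.card4 f0 hf0]; norm_num
    exact ⟨x0⟩
  choose! φ hφ1 hφ2 hφ3 using hex
  refine card_le_card_of_injOn φ hφ1 ?_
  intro Z1 hZ1 Z2 hZ2 heq
  by_contra hne'
  have h1 := hφ2 Z1 hZ1
  have h2 := hφ2 Z2 hZ2
  have k1 := hφ3 Z1 hZ1
  have k2 := hφ3 Z2 hZ2
  have hv := hφ1 Z1 hZ1
  rw [← heq] at h2 k2
  have hZ1' : Z1 ∈ ZZ := (mem_filter.1 hZ1).1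
  have hZ2' : Z2 ∈ ZZ := (mem_filter.1 hZ2).1
  obtain ⟨f, hf, huf⟩ := mem_verts.1 hv
  have hAne : A Z1 ≠ A Z2 := by
    intro h
    apply hne'
    rw [← (hA Z1 hZ1').2.2, ← (hA Z2 hZ2').2.2, h]
  rcases nest Z1 hZ1' Z2 hZ2' hne' with h | h | h
  · have : f ∈ A Z1 ∩ A Z2 := mem_inter.2 ⟨h1 f hf huf, h2 f hf huf⟩
    rw [h] at this
    exact notMem_empty _ this
  · exact k2 Z1 hZ1' (h.ssubset_of_ne hAne) h1
  · exact k1 Z2 hZ2' (h.ssubset_of_ne hAne.symm) h2

end Pool.TSphH
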