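import Pool.Agent.Lib.MP_3de3a3_co.H.HDefs
import Pool.Agent.Lib.MP_3de3a3_co.Tetra
import Pool.Agent.Lib.MP_3de3a3_co.Move13

/-! # Small spheres (module HSmall)

PROOF.
* `sphere_minEven`: let Y be an even subset of L, neither empty nor L. By `hL.conn` (from an element of Y to an element of L - Y) there are
  s in Y and t in L - Y with (s inter t).card = 2. The edge e = s inter t is in exactly the triangles s, t of L (`hL.edge`), so in exactly
  one element of Y: not even.
* `bip_sphere`, `bip_verts`: the boundary of the tetrahedron insert x τ (`tetra`), and `move13` in its triangle τ with the new vertex y. -/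

set_option autoImplicit false

namespace Pool.TSphH

open Finset
open Pool.TSph

variable {ι : Type*} [DecidableEq ι]

/-- The boundary of the bipyramid over the triangle `τ` with the apices `x`, `y`. -/
def bip (x y : ι) (τ : Finset ι) : Finset (Finset ι) :=
  (τ.powersetCard 2).image (insert x) ∪ (τ.powersetCard 2).image (insert y)

theorem sphere_minEven {L : Finset (Finset ι)} (hL : IsSphere2 L) : MinEven L := by
  intro Y hY hE
  by_contra hcon
  push Not at hcon
  obtain ⟨h1, h2⟩ := hcon
  obtain ⟨a, ha⟩ := h1
  apply h2
  apply Subset.antisymm hY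
  intro b hb
  have key : ∀ t, Relation.ReflTransGen (fun a b => b ∈ L ∧ (a ∩ b).card = 2) a t → t ∈ Y := by
    intro t ht
    induction ht with
    | refl => exact ha
    | @tail s t _ hst ih =>
      obtain ⟨htL, hc⟩ := hst
      by_contra htY
      have hne : s ≠ t := fun h => htY (h ▸ ih)
      have he := hL.edge s (hY ih) (s ∩ t) inter_subset_left hc
      have hpair : L.filter (fun u => s ∩ t ⊆ u) = {s, t} := by
        symm
        apply eq_of_subset_of_card_le
        · intro u hu
          simp only [mem_insert, mem_singleton] at hu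
          rcases hu with rfl | rfl
          · exact mem_filter.2 ⟨hY ih, inter_subset_left⟩
          · exact mem_filter.2 ⟨htL, inter_subset_right⟩
        · rw [he, card_pair hne]
      have hY1 : Y.filter (fun u => s ∩ t ⊆ u) = {s} := by
        ext u
        rw [mem_filter, mem_singleton]
        constructor
        · rintro ⟨hu, hsu⟩
          have : u ∈ L.filter (fun u => s ∩ t ⊆ u) := mem_filter.2 ⟨hY hu, hsu⟩
          rw [hpair] at this
          simp only [mem_insert, mem_singleton] at this
          rcases this with h | h
          · exact h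
          · exact absurd (h ▸ hu) htY
        · rintro rfl
          exact ⟨ih, inter_subset_left⟩
      have := hE (s ∩ t) hc
      rw [hY1, card_singleton] at this
      exact absurd this (by decide)
  exact key b (hL.conn a (hY ha) b hb)

private theorem HSmall_er {x : ι} {τ : Finset ι} (hτ : τ.card = 3) (hx : x ∉ τ) :
    ((insert x τ).powersetCard 3).erase τ = (τ.powersetCard 2).image (insert x) := by
  ext s
  rw [mem_erase, mem_powersetCard, mem_image]
  constructor
  · rintro ⟨hne, hs, hc⟩
    have hxs : x ∈ s := by
      by_contra hxs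
      apply hne
      apply eq_of_subset_of_card_le
      · intro z hz
        have := hs hz
        rw [mem_insert] at this
        rcases this with rfl | h
        · exact absurd hz hxs
        · exact h
      · omega
    refine ⟨s.erase x, ?_, insert_erase hxs⟩
    rw [mem_powersetCard]
    refine ⟨?_, by rw [card_erase_of_mem hxs, hc]⟩
    intro z hz
    rw [mem_erase] at hz
    have := hs hz.2
    rw [mem_insert] at this
    exact this.resolve_left hz.1
  · rintro ⟨e, he, rfl⟩
    rw [mem_powersetCard] at he
    refine ⟨?_, insert_subset_insert _ he.1, ?_⟩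
    · intro h
      exact hx (h ▸ mem_insert_self x e)
    · rw [card_insert_of_notMem (fun h => hx (he.1 h)), he.2]

private theorem HSmall_im {y : ι} {τ : Finset ι} (hτ : τ.card = 3) :
    τ.image (fun a => insert y (τ.erase a)) = (τ.powersetCard 2).image (insert y) := by
  ext s
  rw [mem_image, mem_image]
  constructor
  · rintro ⟨a, ha, rfl⟩
    exact ⟨τ.erase a, mem_powersetCard.2 ⟨erase_subset _ _, by rw [card_erase_of_mem ha, hτ]⟩, rfl⟩
  · rintro ⟨e, he, rfl⟩
    rw [mem_powersetCard] at he
    have h3 : (τ \ e).card = 1 := by rw [card_sdiff_of_subset he.1, hτ, he.2]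
    obtain ⟨a, ha⟩ := card_eq_one.1 h3
    have ha' : a ∈ τ \ e := by rw [ha]; simp
    rw [mem_sdiff] at ha'
    refine ⟨a, ha'.1, ?_⟩
    have : e = τ.erase a := by
      apply eq_of_subset_of_card_le
      · intro z hz
        refine mem_erase.2 ⟨?_, he.1 hz⟩
        rintro rfl
        exact ha'.2 hz
      · rw [card_erase_of_mem ha'.1, hτ, he.2]
    rw [this]

theorem bip_sphere {x y : ι} {τ : Finset ι} (hτ : τ.card = 3) (hx : x ∉ τ) (hy : y ∉ τ)
    (hxy : x ≠ y) : IsSphere2 (bip x y τ) ∧ verts (bip x y τ) = insert x (insert y τ) := by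
  have hc : (insert x τ).card = 4 := by rw [card_insert_of_notMem hx, hτ]
  obtain ⟨hs, hv, -⟩ := tetra hc
  have hmem : τ ∈ (insert x τ).powersetCard 3 :=
    mem_powersetCard.2 ⟨subset_insert _ _, hτ⟩
  have hyv : y ∉ verts ((insert x τ).powersetCard 3) := by
    rw [hv, mem_insert]
    rintro (h | h)
    · exact hxy h.symm
    · exact hy h
  obtain ⟨h1, h2, -⟩ := move13 hs hmem hyv
  have heq : ((insert x τ).powersetCard 3).erase τ ∪ τ.image (fun a => insert y (τ.erase a)) =
      bip x y τ := by
    rw [HSmall_er hτ hx, HSmall_im hτ]
    rfl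
  rw [heq] at h1 h2
  refine ⟨h1, ?_⟩
  rw [h2, hv, Finset.insert_comm]

end Pool.TSphH
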