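import Pool.Agent.Lib.MP_3de3a3_co.H.HLam
import Pool.Agent.Lib.MP_3de3a3_co.H.HSmall

/-! # The missing tetrahedra (module HMT)

PROOF. If F is empty then MT F is empty (σ.powersetCard 3 is not empty). Let f0 be a facet, ZZ = image of MT F under σ -> Z_σ = the set
σ.powersetCard 3 (injective: verts Z_σ = σ, `tetra`). Z_σ is a 2-sphere with four vertices contained in tris F, so by `hF.sep` it is a boundary,
of a set A without f0 (take the complement if necessary, `bdry_compl`). Use `laminar`: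
* nonempty, `sphere_minEven`.
* (NC): let σ, σ' be different elements of MT F, A = A(Z_σ). The vertices of σ' outside σ are not vertices of Z_σ, any two of them are in a
  common facet (σ'.powersetCard 3 is contained in tris F), so by `side_vertex` all facets at all these vertices are on the same side: all in A or all
  outside A. A triangle t in Z_σ' - Z_σ is not contained in σ, so it contains one of these vertices, and so do the facets at t.
* (V): σ' is not contained in σ (same number of elements).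
* all elements of ZZ are counted: A(Z_σ) is not empty (Z_σ is not empty); let s be in it. s is not contained in σ, otherwise s = σ,
  but σ is not in F. A vertex u of s outside σ has all its facets in A (`side_vertex`).
So (MT F).card = ZZ.card <= (verts F).card. -/

set_option autoImplicit false

namespace Pool.TSphH

open Finset
open Pool.TSph

variable {ι : Type*} [DecidableEq ι]

/-- A small sphere is the boundary of a set of facets which does not contain `f0`. -/
theorem exists_side {F : Finset (Finset ι)} (hF : IsSepMfd F) {f0 : Finset ι} (hf0 : f0 ∈ F)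
    {Z : Finset (Finset ι)} (hZ : Z ⊆ tris F) (hs : IsSphere2 Z) (h5 : (verts Z).card ≤ 5) :
    ∃ A ⊆ F, f0 ∉ A ∧ bdry F A = Z := by
  obtain ⟨A, hA, hb⟩ := hF.sep Z hZ hs h5
  by_cases h : f0 ∈ A
  · exact ⟨F \ A, sdiff_subset, fun h' => (mem_sdiff.1 h').2 h, by rw [bdry_compl hF.mfd hA, hb]⟩
  · exact ⟨A, hA, h, hb⟩

theorem HMT_mem {F : Finset (Finset ι)} {σ : Finset ι} (h : σ ∈ MT F) :
    σ.card = 4 ∧ σ ∉ F ∧ σ.powersetCard 3 ⊆ tris F := by
  unfold MT at h
  rw [mem_filter, mem_powersetCard] at h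
  exact ⟨h.1.2, h.2.1, h.2.2⟩

/-- two different vertices of a missing tetrahedron lie in a common facet -/
theorem HMT_common {F : Finset (Finset ι)} {σ : Finset ι} (h : σ ∈ MT F) {u v : ι} (hu : u ∈ σ)
    (hv : v ∈ σ) : ∃ s ∈ F, u ∈ s ∧ v ∈ s := by
  obtain ⟨h4, -, h3⟩ := HMT_mem h
  have h1 : (({u, v} : Finset ι)).card ≤ 3 := le_trans card_le_two (by norm_num)
  have h2 : ({u, v} : Finset ι) ⊆ σ := by
    intro z hz
    simp only [mem_insert, mem_singleton] at hz
    rcases hz with rfl | rfl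
    · exact hu
    · exact hv
  obtain ⟨t, ht1, ht2, ht3⟩ := exists_subsuperset_card_eq h2 h1 (by rw [h4]; norm_num)
  obtain ⟨-, s, hs, hts⟩ := mem_tris.1 (h3 (mem_powersetCard.2 ⟨ht2, ht3⟩))
  exact ⟨s, hs, hts (ht1 (by simp)), hts (ht1 (by simp))⟩

theorem MT_card {F : Finset (Finset ι)} (hF : IsSepMfd F) : (MT F).card ≤ (verts F).card := by
  classical
  rcases F.eq_empty_or_nonempty with h0 | ⟨f0, hf0⟩
  · have : MT F = ∅ := by
      rw [eq_empty_iff_forall_notMem]
      intro σ hσ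
      obtain ⟨h4, -, h3⟩ := HMT_mem hσ
      have hne : (σ.powersetCard 3).Nonempty := by
        rw [← card_pos, card_powersetCard, h4]
        decide
      obtain ⟨t, ht⟩ := hne
      obtain ⟨-, s, hs, -⟩ := mem_tris.1 (h3 ht)
      rw [h0] at hs
      exact notMem_empty s hs
    rw [this]
    simp
  have hvZ : ∀ σ ∈ MT F, verts (σ.powersetCard 3) = σ := fun σ hσ =>
    (tetra (HMT_mem hσ).1).2.1
  have hinj : Set.InjOn (fun σ : Finset ι => σ.powersetCard 3) (MT F : Set (Finset ι)) := by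
    intro σ hσ τ hτ hst
    have h1 := hvZ σ (mem_coe.1 hσ)
    have h2 := hvZ τ (mem_coe.1 hτ)
    simp only at hst
    rw [← h1, ← h2, hst]
  set ZZ : Finset (Finset (Finset ι)) := (MT F).image (fun σ => σ.powersetCard 3) with hZZ
  have hex : ∀ Z ∈ ZZ, ∃ A ⊆ F, f0 ∉ A ∧ bdry F A = Z := by
    intro Z hZ
    rw [hZZ, mem_image] at hZ
    obtain ⟨σ, hσ, rfl⟩ := hZ
    obtain ⟨h4, -, h3⟩ := HMT_mem hσ
    exact exists_side hF hf0 h3 (tetra h4).1 (by rw [(tetra h4).2.1, h4]; norm_num)
  choose! A hA using hex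
  -- the facets at a vertex outside
  have hside : ∀ σ ∈ MT F, ∀ u, u ∉ σ → ∀ s ∈ F, ∀ s' ∈ F, u ∈ s → u ∈ s' →
      (s ∈ A (σ.powersetCard 3) ↔ s' ∈ A (σ.powersetCard 3)) := by
    intro σ hσ u hu s hs s' hs' hus hus'
    have hZ : σ.powersetCard 3 ∈ ZZ := mem_image_of_mem _ hσ
    obtain ⟨hAF, -, hb⟩ := hA _ hZ
    refine side_vertex hF.mfd hAF ?_ hs hs' hus hus'
    rw [hb, hvZ σ hσ]
    exact hu
  have hlam := laminar hF.mfd hf0 ZZ ?_ ?_ A hA ?_ ?_
  · have hfil : ZZ.filter (fun Z => ∃ u ∈ verts F, ∀ s ∈ F, u ∈ s → s ∈ A Z) = ZZ := by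
      apply filter_true_of_mem
      intro Z hZ
      obtain ⟨hAF, -, hb⟩ := hA Z hZ
      rw [hZZ, mem_image] at hZ
      obtain ⟨σ, hσ, rfl⟩ := hZ
      obtain ⟨h4, hσF, h3⟩ := HMT_mem hσ
      have hAne : (A (σ.powersetCard 3)).Nonempty := by
        rw [nonempty_iff_ne_empty]
        intro hAe
        have h1 : bdry F (A (σ.powersetCard 3)) = ∅ := by
          rw [hAe, eq_empty_iff_forall_notMem]
          intro t ht
          have := (mem_bdry.1 ht).2
          simp at this
        rw [hb] at h1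
        have h2 := (tetra h4).2.2
        rw [h1] at h2
        simp at h2
      obtain ⟨s, hs⟩ := hAne
      have hsF := hAF hs
      have hns : ¬ s ⊆ σ := by
        intro hsub
        have : s = σ := eq_of_subset_of_card_le hsub (by rw [h4, hF.mfd.card4 s hsF])
        exact hσF (this ▸ hsF)
      obtain ⟨u, hus, huσ⟩ := not_subset.1 hns
      refine ⟨u, mem_verts.2 ⟨s, hsF, hus⟩, ?_⟩
      intro s' hs' hus'
      exact (hside σ hσ u huσ s hsF s' hs' hus hus').1 hs
    rw [hfil, hZZ, card_image_of_injOn hinj] at hlam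
    exact hlam
  · intro Z hZ
    rw [hZZ, mem_image] at hZ
    obtain ⟨σ, hσ, rfl⟩ := hZ
    rw [← card_pos, (tetra (HMT_mem hσ).1).2.2]
    norm_num
  · intro Z hZ
    rw [hZZ, mem_image] at hZ
    obtain ⟨σ, hσ, rfl⟩ := hZ
    exact sphere_minEven (tetra (HMT_mem hσ).1).1
  · intro Z hZ Z' hZ' hne
    rw [hZZ, mem_image] at hZ hZ'
    obtain ⟨σ, hσ, rfl⟩ := hZ
    obtain ⟨σ', hσ', rfl⟩ := hZ'
    have hns : ¬ σ' ⊆ σ := by
      intro hsub
      have : σ' = σ := eq_of_subset_of_card_le hsub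
        (by rw [(HMT_mem hσ).1, (HMT_mem hσ').1])
      exact hne (by rw [this])
    obtain ⟨u0, hu0', hu0⟩ := not_subset.1 hns
    obtain ⟨s0, hs0, hus0, -⟩ := HMT_common hσ' hu0' hu0'
    have key : ∀ t ∈ σ'.powersetCard 3, t ∉ σ.powersetCard 3 → ∀ s ∈ F, t ⊆ s →
        (s0 ∈ A (σ.powersetCard 3) ↔ s ∈ A (σ.powersetCard 3)) := by
      intro t ht ht' s hs hts
      rw [mem_powersetCard] at ht ht'
      have hnt : ¬ t ⊆ σ := fun h => ht' ⟨h, ht.2⟩
      obtain ⟨u, hut, huσ⟩ := not_subset.1 hnt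
      obtain ⟨s1, hs1, h1, h2⟩ := HMT_common hσ' hu0' (ht.1 hut)
      rw [hside σ hσ u0 hu0 s0 hs0 s1 hs1 hus0 h1]
      exact hside σ hσ u huσ s1 hs1 s hs h2 (hts hut)
    by_cases h : s0 ∈ A (σ.powersetCard 3)
    · left
      intro t ht ht' s hs hts
      exact (key t ht ht' s hs hts).1 h
    · right
      intro t ht ht' s hs hts hsA
      exact h ((key t ht ht' s hs hts).2 hsA)
  · intro Z hZ Z' hZ' hne
    rw [hZZ, mem_image] at hZ hZ'
    obtain ⟨σ, hσ, rfl⟩ := hZ
    obtain ⟨σ', hσ', rfl⟩ := hZ'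
    rw [hvZ σ hσ, hvZ σ' hσ']
    intro hsub
    have : σ' = σ := eq_of_subset_of_card_le hsub
      (by rw [(HMT_mem hσ).1, (HMT_mem hσ').1])
    exact hne (by rw [this])

end Pool.TSphH
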