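import Pool.Agent.Lib.MP_3de3a3_co.H.HEdge

/-! # Many pairs of adjacent good facets (module HPairs)

PROOF. Let G be the set of the good facets, G.card >= (9/10) F.card. For φ in G choose a labelling φ = {a, a', b, b'} with Gd D F a a' b b'. The triangle
{a, a', b'} is in exactly one other facet ψ(φ) = {a, a', b', c} (`two_facets`), c not b, (ψ(φ) inter φ).card = 3. For a given facet ψ there are at most 4 facets φ with
(ψ inter φ).card = 3 (each of its 4 triangles is in one other facet). So the number of φ in G with ψ(φ) not good is at most 4 (NotGood D F).card. P = the set of the φ in G with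
ψ(φ) good; P.card >= F.card - 5 (NotGood D F).card >= F.card / 2. Let φ be in P. ψ(φ) = {a, a', b', c} = {α, α', β, β'} with Gd D F α α' β β'. {a, a'} has degree >= D >= 5, so it is
not one of the four pairs of degree 4: {a, a'} = {α, α'} or {β, β'}, and the complementary pair {b', c} is the other one: its degree is >= D. The pairs {a, b'}, {a', b'},
{a, c}, {a', c} have degree 4. So Gd D F a a' b' c. -/

set_option autoImplicit false

namespace Pool.TSphH

open Finset
open Pool.TSph

variable {ι : Type*} [DecidableEq ι]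

private theorem gd_s1 {F : Finset (Finset ι)} {D : ℕ} {a a' b b' : ι} (h : Gd D F a a' b b') :
    Gd D F a' a b b' := by
  have e : ({a', a, b, b'} : Finset ι) = {a, a', b, b'} := insert_comm _ _ _
  refine ⟨by rw [e]; exact h.mem, by rw [pair_comm]; exact h.aa, h.bb, h.a'b, h.a'b', h.ab, h.ab'⟩

private theorem gd_s2 {F : Finset (Finset ι)} {D : ℕ} {a a' b b' : ι} (h : Gd D F a a' b b') :
    Gd D F a a' b' b := by
  have e : ({a, a', b', b} : Finset ι) = {a, a', b, b'} := by rw [pair_comm b' b]
  refine ⟨by rw [e]; exact h.mem, h.aa, by rw [pair_comm]; exact h.bb, h.ab', h.ab, h.a'b', h.a'b⟩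

private theorem gd_s3 {F : Finset (Finset ι)} {D : ℕ} {a a' b b' : ι} (h : Gd D F a a' b b') :
    Gd D F b b' a a' := by
  have e : ({b, b', a, a'} : Finset ι) = {a, a', b, b'} := by
    ext x
    simp only [mem_insert, mem_singleton]
    tauto
  refine ⟨by rw [e]; exact h.mem, h.bb, h.aa, ?_, ?_, ?_, ?_⟩
  · rw [pair_comm]; exact h.ab
  · rw [pair_comm]; exact h.a'b
  · rw [pair_comm]; exact h.ab'
  · rw [pair_comm]; exact h.a'b'

/-- the case where the first pair agrees -/
private theorem gd_rest {F : Finset (Finset ι)} {D : ℕ} {a a' β β' b' c : ι}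
    (h : Gd D F a a' β β') (hb1 : b' ≠ a) (hb2 : b' ≠ a') (hc1 : c ≠ a) (hc2 : c ≠ a')
    (hbc : b' ≠ c) (hb : b' ∈ ({a, a', β, β'} : Finset ι)) (hc : c ∈ ({a, a', β, β'} : Finset ι)) :
    Gd D F a a' b' c := by
  simp only [mem_insert, mem_singleton] at hb hc
  rcases hb with hb | hb | hb | hb
  · exact absurd hb hb1
  · exact absurd hb hb2
  · rcases hc with hc | hc | hc | hc
    · exact absurd hc hc1
    · exact absurd hc hc2
    · exact absurd (hb.trans hc.symm) hbc
    · rw [hb, hc]; exact h
  · rcases hc with hc | hc | hc | hc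
    · exact absurd hc hc1
    · exact absurd hc hc2
    · rw [hb, hc]; exact gd_s2 h
    · exact absurd (hb.trans hc.symm) hbc

private theorem gd_of {F : Finset (Finset ι)} {D : ℕ} (hD : 5 ≤ D) {a a' b' c α α' β β' : ι}
    (h : Gd D F α α' β β') (haa : a ≠ a') (hd : D ≤ dg F {a, a'})
    (hb1 : b' ≠ a) (hb2 : b' ≠ a') (hc1 : c ≠ a) (hc2 : c ≠ a') (hbc : b' ≠ c)
    (he : ({a, a', b', c} : Finset ι) = {α, α', β, β'}) : Gd D F a a' b' c := by
  have ha : a ∈ ({α, α', β, β'} : Finset ι) := by rw [← he]; simp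
  have ha' : a' ∈ ({α, α', β, β'} : Finset ι) := by rw [← he]; simp
  have hb : b' ∈ ({α, α', β, β'} : Finset ι) := by rw [← he]; simp
  have hc : c ∈ ({α, α', β, β'} : Finset ι) := by rw [← he]; simp
  have e1 : ({α', α, β, β'} : Finset ι) = {α, α', β, β'} := insert_comm _ _ _
  have e2 : ({β, β', α, α'} : Finset ι) = {α, α', β, β'} := by
    ext x
    simp only [mem_insert, mem_singleton]
    tauto
  have e3 : ({β', β, α, α'} : Finset ι) = {α, α', β, β'} := by
    ext x
    simp only [mem_insert, mem_singleton]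
    tauto
  simp only [mem_insert, mem_singleton] at ha ha'
  rcases ha with ha | ha | ha | ha
  · subst ha
    rcases ha' with ha' | ha' | ha' | ha'
    · exact absurd ha'.symm haa
    · subst ha'
      exact gd_rest h hb1 hb2 hc1 hc2 hbc hb hc
    · rw [ha', h.ab] at hd; omega
    · rw [ha', h.ab'] at hd; omega
  · subst ha
    rcases ha' with ha' | ha' | ha' | ha'
    · subst ha'
      exact gd_rest (gd_s1 h) hb1 hb2 hc1 hc2 hbc (by rw [e1]; exact hb) (by rw [e1]; exact hc)
    · exact absurd ha'.symm haa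
    · rw [ha', h.a'b] at hd; omega
    · rw [ha', h.a'b'] at hd; omega
  · subst ha
    rcases ha' with ha' | ha' | ha' | ha'
    · rw [ha', pair_comm, h.ab] at hd; omega
    · rw [ha', pair_comm, h.a'b] at hd; omega
    · exact absurd ha'.symm haa
    · subst ha'
      exact gd_rest (gd_s3 h) hb1 hb2 hc1 hc2 hbc (by rw [e2]; exact hb) (by rw [e2]; exact hc)
  · subst ha
    rcases ha' with ha' | ha' | ha' | ha'
    · rw [ha', pair_comm, h.ab'] at hd; omega
    · rw [ha', pair_comm, h.a'b'] at hd; omega
    · subst ha'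
      exact gd_rest (gd_s1 (gd_s3 h)) hb1 hb2 hc1 hc2 hbc (by rw [e3]; exact hb) (by rw [e3]; exact hc)
    · exact absurd ha'.symm haa

private theorem ne_of_card4 {a b c d : ι} (h : ({a, b, c, d} : Finset ι).card = 4) :
    a ≠ b ∧ a ≠ c ∧ a ≠ d ∧ b ≠ c ∧ b ≠ d ∧ c ≠ d := by
  have key : ∀ x y z : ι, ({x, y, z} : Finset ι).card ≤ 3 := fun x y z => card_le_three
  refine ⟨?_, ?_, ?_, ?_, ?_, ?_⟩ <;> intro he <;> subst he
  · rw [show ({a, a, c, d} : Finset ι) = {a, c, d} by simp] at h
    have := key a c d; omega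
  · rw [show ({a, b, a, d} : Finset ι) = {a, b, d} by ext x; simp only [mem_insert, mem_singleton]; tauto] at h
    have := key a b d; omega
  · rw [show ({a, b, c, a} : Finset ι) = {a, b, c} by ext x; simp only [mem_insert, mem_singleton]; tauto] at h
    have := key a b c; omega
  · rw [show ({a, b, b, d} : Finset ι) = {a, b, d} by simp] at h
    have := key a b d; omega
  · rw [show ({a, b, c, b} : Finset ι) = {a, b, c} by ext x; simp only [mem_insert, mem_singleton]; tauto] at h
    have := key a b c; omega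
  · rw [show ({a, b, c, c} : Finset ι) = {a, b, c} by simp] at h
    have := key a b c; omega

/-- a triangle is not in three facets -/
private theorem third {F : Finset (Finset ι)} (hF : IsMfd3 F) {t p q r : Finset ι} (ht : t.card = 3)
    (hp : p ∈ F) (hq : q ∈ F) (hr : r ∈ F) (h1 : t ⊆ p) (h2 : t ⊆ q) (h3 : t ⊆ r) (hpq : p ≠ q)
    (hpr : p ≠ r) : q = r := by
  by_contra hqr
  have h4 := two_facets hF (t := t) (mem_tris.2 ⟨ht, p, hp, h1⟩)
  have hsub : ({p, q, r} : Finset (Finset ι)) ⊆ F.filter (fun s => t ⊆ s) := by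
    intro s hs
    simp only [mem_insert, mem_singleton] at hs
    rw [mem_filter]
    rcases hs with rfl | rfl | rfl
    · exact ⟨hp, h1⟩
    · exact ⟨hq, h2⟩
    · exact ⟨hr, h3⟩
  have h5 := card_le_card hsub
  rw [card_eq_three.2 ⟨p, q, r, hpq, hpr, hqr, rfl⟩] at h5
  omega

private theorem nb_card {F : Finset (Finset ι)} (hF : IsMfd3 F) {ψ : Finset ι} (hψ : ψ ∈ F) :
    (F.filter (fun φ => (ψ ∩ φ).card = 3)).card ≤ 4 := by
  have h1 : (ψ.powersetCard 3).card = 4 := by
    rw [card_powersetCard, hF.card4 ψ hψ]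
    rfl
  rw [← h1]
  apply card_le_card_of_injOn (fun φ => ψ ∩ φ)
  · intro φ hφ
    simp only [coe_filter, Set.mem_setOf_eq] at hφ
    rw [mem_coe, mem_powersetCard]
    exact ⟨inter_subset_left, hφ.2⟩
  · intro φ hφ φ' hφ' he
    simp only [coe_filter, Set.mem_setOf_eq] at hφ hφ'
    simp only at he
    have hne : ∀ χ : Finset ι, (ψ ∩ χ).card = 3 → ψ ≠ χ := by
      intro χ h h2
      rw [← h2, inter_self, hF.card4 ψ hψ] at h
      omega
    exact third hF hφ.2 hψ hφ.1 hφ'.1 inter_subset_left inter_subset_right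
      (by rw [he]; exact inter_subset_right) (hne φ hφ.2) (hne φ' hφ'.2)

theorem exists_pairs {F : Finset (Finset ι)} (hF : IsMfd3 F) {D : ℕ} (hD : 5 ≤ D)
    (h10 : 10 * (NotGood D F).card ≤ F.card) :
    ∃ P ⊆ F, F.card ≤ 2 * P.card ∧ ∀ φ ∈ P, ∃ a a' b b' c, φ = {a, a', b, b'} ∧ b ≠ c ∧
      Gd D F a a' b b' ∧ Gd D F a a' b' c := by
  classical
  set P : Finset (Finset ι) := F.filter fun φ => ∃ a a' b b' c, φ = {a, a', b, b'} ∧ b ≠ c ∧
      Gd D F a a' b b' ∧ Gd D F a a' b' c with hP
  refine ⟨P, filter_subset _ _, ?_, fun φ hφ => (mem_filter.1 hφ).2⟩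
  have hsub : F ⊆ P ∪ (NotGood D F ∪ (NotGood D F).biUnion fun ψ => F.filter fun φ => (ψ ∩ φ).card = 3) := by
    intro φ hφ
    rw [mem_union, mem_union, mem_biUnion]
    by_cases hg : IsGood D F φ
    · obtain ⟨a, a', b, b', rfl, hgd⟩ := hg
      obtain ⟨n1, n2, n3, n4, n5, n6⟩ := ne_of_card4 (hF.card4 _ hφ)
      have htc : ({a, a', b'} : Finset ι).card = 3 := card_eq_three.2 ⟨a, a', b', n1, n3, n5, rfl⟩
      have hts : ({a, a', b'} : Finset ι) ⊆ {a, a', b, b'} := by
        intro x hx
        simp only [mem_insert, mem_singleton] at hx ⊢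
        tauto
      have h2 := two_facets hF (t := {a, a', b'}) (mem_tris.2 ⟨htc, _, hφ, hts⟩)
      obtain ⟨ψ, hψ, hne⟩ := exists_mem_ne (by rw [h2]; norm_num) ({a, a', b, b'} : Finset ι)
      rw [mem_filter] at hψ
      obtain ⟨hψF, htψ⟩ := hψ
      have hψ4 := hF.card4 ψ hψF
      have hsd : (ψ \ {a, a', b'}).card = 1 := by
        rw [card_sdiff_of_subset htψ, hψ4, htc]
      obtain ⟨c, hc⟩ := card_eq_one.1 hsd
      have hcψ : c ∈ ψ \ ({a, a', b'} : Finset ι) := by rw [hc]; exact mem_singleton_self c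
      rw [mem_sdiff] at hcψ
      obtain ⟨hcψ, hcn⟩ := hcψ
      simp only [mem_insert, mem_singleton, not_or] at hcn
      obtain ⟨c1, c2, c3⟩ := hcn
      have hψe : ψ = {a, a', b', c} := by
        symm
        apply eq_of_subset_of_card_le
        · intro x hx
          simp only [mem_insert, mem_singleton] at hx
          rcases hx with rfl | rfl | rfl | rfl
          · exact htψ (by simp)
          · exact htψ (by simp)
          · exact htψ (by simp)
          · exact hcψ
        · rw [hψ4]
          rw [card_insert_of_notMem, card_insert_of_notMem, card_pair (Ne.symm c3)]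
          · simp only [mem_insert, mem_singleton, not_or]
            exact ⟨n5, Ne.symm c2⟩
          · simp only [mem_insert, mem_singleton, not_or]
            exact ⟨n1, n3, Ne.symm c1⟩
      have hbc : b ≠ c := by
        rintro rfl
        apply hne
        rw [hψe, pair_comm]
      by_cases hgψ : IsGood D F ψ
      · left
        obtain ⟨α, α', β, β', he, hgα⟩ := hgψ
        rw [hP, mem_filter]
        refine ⟨hφ, a, a', b, b', c, rfl, hbc, hgd, ?_⟩
        exact gd_of hD hgα n1 hgd.aa (Ne.symm n3) (Ne.symm n5) c1 c2 (Ne.symm c3) (hψe.symm.trans he)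
      · right; right
        refine ⟨ψ, mem_filter.2 ⟨hψF, hgψ⟩, mem_filter.2 ⟨hφ, ?_⟩⟩
        have : ψ ∩ {a, a', b, b'} = {a, a', b'} := by
          symm
          apply eq_of_subset_of_card_le
          · exact subset_inter htψ hts
          · rw [htc]
            by_contra hcon
            push Not at hcon
            have h5 : ψ ∩ {a, a', b, b'} = ψ :=
              eq_of_subset_of_card_le inter_subset_left (by rw [hψ4]; omega)
            have h6 : ψ ⊆ {a, a', b, b'} := by
              rw [← h5]
              exact inter_subset_right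
            exact hne (eq_of_subset_of_card_le h6 (by rw [hψ4, hF.card4 _ hφ]))
        rw [this]
        exact htc
    · right; left
      exact mem_filter.2 ⟨hφ, hg⟩
  have h1 := card_le_card hsub
  have h2 : ((NotGood D F).biUnion fun ψ => F.filter fun φ => (ψ ∩ φ).card = 3).card ≤
      (NotGood D F).card * 4 :=
    card_biUnion_le_card_mul _ _ _ fun ψ hψ => nb_card hF (mem_filter.1 hψ).1
  have h3 := card_union_le P (NotGood D F ∪ (NotGood D F).biUnion fun ψ => F.filter fun φ => (ψ ∩ φ).card = 3)
  have h4 := card_union_le (NotGood D F) ((NotGood D F).biUnion fun ψ => F.filter fun φ => (ψ ∩ φ).card = 3)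
  omega

end Pool.TSphH
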