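import Pool.Agent.Lib.MP_3de3a3_co.H.HDefs
import Pool.Agent.Lib.MP_3de3a3_co.Reduce
import Pool.Agent.Lib.MP_3de3a3_co.LinkCyc
import Pool.Agent.Lib.MP_3de3a3_co.Sep

/-! # Few edges inside a set of vertices (module HPlan)

PROOF. Induction on the number V of vertices of L, for all L and H; we may replace H by H inter verts L. For V = 4: if H has h <= 4 elements there are
at most h (h - 1) / 2 <= 5 h pairs. Let V >= 5. By `exists_small_degree` there is w of degree 3, 4 or 5; let a be its link cycle
(`exists_linkCycle`). `reduce3`, `reduce4`, `reduce5` give a sphere L' with verts L' = (verts L).erase w in which any u, v different from w which are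
adjacent in L are adjacent. For degree 4: if a 0, a 2 are adjacent then a 1, a 3 are not (see the proof of `step4` in Step4.lean, by `sep4`), so `reduce4`
applies for i = 0 or i = 1. For degree 5: some a i is adjacent to neither a (i+2) nor a (i+3) (see the proof of `step5` in Step5.lean, by `sep5`), so
`reduce5` applies. If w is not in H: the pairs inside H which are edges of L are edges of L': induction. If w is in H: at most 5 of the pairs contain w
(its neighbours are the a i), the others are edges of L' inside H.erase w: induction. -/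

set_option autoImplicit false

namespace Pool.TSphH

open Finset
open Pool.TSph

variable {ι : Type*} [DecidableEq ι]

/-- the rotated cycle -/
private theorem HPlan_rot {L : Finset (Finset ι)} {w : ι} {a : Fin 4 → ι}
    (hc : LinkCycle L w 4 a) : LinkCycle L w 4 (fun i => a (i + 1)) where
  inj := fun i j h => by
    have h1 : i + 1 = j + 1 := hc.inj h
    exact add_right_cancel h1
  ne := fun i => hc.ne (i + 1)
  tri := fun i => hc.tri (i + 1)
  all := fun v => by
    rw [hc.all]
    constructor
    · rintro ⟨i, rfl⟩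
      have e : ∀ i : Fin 4, i + 3 + 1 = i := by decide
      exact ⟨i + 3, by rw [e]⟩
    · rintro ⟨i, rfl⟩
      exact ⟨i + 1, rfl⟩

private theorem HPlan_four {L : Finset (Finset ι)} (hL : IsSphere2 L) (hV : 5 ≤ (verts L).card) {w : ι}
    {a : Fin 4 → ι} (hc : LinkCycle L w 4 a) :
    ∃ L' : Finset (Finset ι), IsSphere2 L' ∧
      verts L' = (verts L).erase w ∧ ∀ u v, u ≠ w → v ≠ w → adj L u v → adj L' u v := by
  have e2 : (0 : Fin 4) + 2 = 2 := by decide
  by_cases h : adj L (a 0) (a 2)
  · have h1 : ¬ adj L (a 1) (a 3) := by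
      intro h2
      have e1 : (0 : Fin 4) + 1 = 1 := by decide
      have e3 : (0 : Fin 4) + 3 = 3 := by decide
      have h3 := sep4 hL hc 0 (by rw [e2]; exact h) (S := {a 1, a 3})
        (by
          rw [mem_insert, mem_singleton, not_or]
          exact ⟨(hc.ne 1).symm, (hc.ne 3).symm⟩)
        (by
          rw [mem_insert, mem_singleton, not_or]
          exact ⟨hc.inj.ne (by decide), hc.inj.ne (by decide)⟩)
        (by
          rw [e2, mem_insert, mem_singleton, not_or]
          exact ⟨hc.inj.ne (by decide), hc.inj.ne (by decide)⟩)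
        (by rw [e1]; exact mem_insert_self _ _)
      rw [e1, e3] at h3
      exact h3 (Relation.ReflTransGen.single ⟨by simp, h2⟩)
    have e3 : (1 : Fin 4) + 2 = 3 := by decide
    obtain ⟨L', hL', hv, hadj⟩ := reduce4 hL hV hc 1 (by rw [e3]; exact h1)
    exact ⟨L', hL', hv, fun u v hu hv h => (hadj u v hu hv).2 (Or.inl h)⟩
  · obtain ⟨L', hL', hv, hadj⟩ := reduce4 hL hV hc 0 (by rw [e2]; exact h)
    exact ⟨L', hL', hv, fun u v hu hv h => (hadj u v hu hv).2 (Or.inl h)⟩

private theorem HPlan_five {L : Finset (Finset ι)} (hL : IsSphere2 L) (hV : 5 ≤ (verts L).card) {w : ι}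
    {a : Fin 5 → ι} (hc : LinkCycle L w 5 a) :
    ∃ L' : Finset (Finset ι), IsSphere2 L' ∧
      verts L' = (verts L).erase w ∧ ∀ u v, u ≠ w → v ≠ w → adj L u v → adj L' u v := by
  by_cases hno : ∀ i, ¬ adj L (a i) (a (i + 2))
  · have h3 : ¬ adj L (a 0) (a (0 + 3)) := by
      intro h
      have := hno 3
      apply this
      have e1 : (3 : Fin 5) + 2 = 0 := by decide
      have e2 : (0 : Fin 5) + 3 = 3 := by decide
      rw [e1]
      rw [e2] at h
      exact adj_symm h
    obtain ⟨L', hL', hv, hadj⟩ := reduce5 hL hV hc 0 (hno 0) h3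
    exact ⟨L', hL', hv, fun u v hu hv h => (hadj u v hu hv).2 (Or.inl h)⟩
  · push Not at hno
    obtain ⟨k, hk⟩ := hno
    have d1 : ∀ k : Fin 5, k ≠ k + 1 := by decide
    have d2 : ∀ k : Fin 5, k ≠ k + 3 := by decide
    have d3 : ∀ k : Fin 5, k ≠ k + 4 := by decide
    have d4 : ∀ k : Fin 5, k + 2 ≠ k + 1 := by decide
    have d5 : ∀ k : Fin 5, k + 2 ≠ k + 3 := by decide
    have d6 : ∀ k : Fin 5, k + 2 ≠ k + 4 := by decide
    have e3 : ∀ k : Fin 5, k + 1 + 2 = k + 3 := by decide
    have e4 : ∀ k : Fin 5, k + 1 + 3 = k + 4 := by decide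
    have h3 : ¬ adj L (a (k + 1)) (a (k + 1 + 2)) := by
      intro h2
      have h3 := (sep5 hL hc k hk (S := {a (k + 1), a (k + 3)})
        (by
          rw [mem_insert, mem_singleton, not_or]
          exact ⟨(hc.ne _).symm, (hc.ne _).symm⟩)
        (by
          rw [mem_insert, mem_singleton, not_or]
          exact ⟨hc.inj.ne (d1 k), hc.inj.ne (d2 k)⟩)
        (by
          rw [mem_insert, mem_singleton, not_or]
          exact ⟨hc.inj.ne (d4 k), hc.inj.ne (d5 k)⟩)
        (mem_insert_self _ _)).1
      rw [e3] at h2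
      exact h3 (Relation.ReflTransGen.single ⟨by simp, h2⟩)
    have h4 : ¬ adj L (a (k + 1)) (a (k + 1 + 3)) := by
      intro h2
      have h3 := (sep5 hL hc k hk (S := {a (k + 1), a (k + 4)})
        (by
          rw [mem_insert, mem_singleton, not_or]
          exact ⟨(hc.ne _).symm, (hc.ne _).symm⟩)
        (by
          rw [mem_insert, mem_singleton, not_or]
          exact ⟨hc.inj.ne (d1 k), hc.inj.ne (d3 k)⟩)
        (by
          rw [mem_insert, mem_singleton, not_or]
          exact ⟨hc.inj.ne (d4 k), hc.inj.ne (d6 k)⟩)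
        (mem_insert_self _ _)).2
      rw [e4] at h2
      exact h3 (Relation.ReflTransGen.single ⟨by simp, h2⟩)
    obtain ⟨L', hL', hv, hadj⟩ := reduce5 hL hV hc (k + 1) h3 h4
    exact ⟨L', hL', hv, fun u v hu hv h => (hadj u v hu hv).2 (Or.inl h)⟩

/-- Removing a vertex of degree at most 5. -/
theorem exists_reduce {L : Finset (Finset ι)} (hL : IsSphere2 L) (hV : 5 ≤ (verts L).card) :
    ∃ w ∈ verts L, vd L w ≤ 5 ∧ ∃ L' : Finset (Finset ι), IsSphere2 L' ∧
      verts L' = (verts L).erase w ∧ ∀ u v, u ≠ w → v ≠ w → adj L u v → adj L' u v := by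
  obtain ⟨w, hw, hd⟩ := exists_small_degree hL
  have h3 := three_le_degree hL hw
  refine ⟨w, hw, hd, ?_⟩
  obtain h | h | h : (L.filter (fun t => w ∈ t)).card = 3 ∨ (L.filter (fun t => w ∈ t)).card = 4 ∨
    (L.filter (fun t => w ∈ t)).card = 5 := by omega
  · obtain ⟨a, ha⟩ := exists_linkCycle hL hw h
    obtain ⟨L', hL', hv, hadj⟩ := reduce3 hL hV ha
    exact ⟨L', hL', hv, fun u v hu hv h => (hadj u v hu hv).2 h⟩
  · obtain ⟨a, ha⟩ := exists_linkCycle hL hw h
    exact HPlan_four hL hV ha
  · obtain ⟨a, ha⟩ := exists_linkCycle hL hw h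
    exact HPlan_five hL hV ha

/-- the neighbours of a vertex are at most as many as the triangles containing it -/
private theorem HPlan_nb {L : Finset (Finset ι)} (hL : IsSphere2 L) {w : ι} (hw : w ∈ verts L) (hd : vd L w ≤ 5)
    (H : Finset ι) : ((H.powersetCard 2).filter (fun e => w ∈ e ∧ ∃ t ∈ L, e ⊆ t)).card ≤ 5 := by
  classical
  have h3 := three_le_degree hL hw
  have key : ∀ (d : ℕ) [NeZero d] (hdd : d ≤ 5) (a : Fin d → ι), LinkCycle L w d a →
      ((H.powersetCard 2).filter (fun e => w ∈ e ∧ ∃ t ∈ L, e ⊆ t)).card ≤ 5 := by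
    intro d _ hdd a hc
    refine le_trans ?_ hdd
    have h5 : ((H.powersetCard 2).filter (fun e => w ∈ e ∧ ∃ t ∈ L, e ⊆ t)) ⊆
        (univ : Finset (Fin d)).image (fun i => ({w, a i} : Finset ι)) := by
      intro e he
      rw [mem_filter, mem_powersetCard] at he
      obtain ⟨⟨-, h2⟩, hwe, t, ht, het⟩ := he
      have h6 : (e.erase w).card = 1 := by rw [card_erase_of_mem hwe, h2]
      obtain ⟨v, hv⟩ := card_eq_one.1 h6
      have h7 : v ∈ e.erase w := by rw [hv]; simp
      rw [mem_erase] at h7
      have h8 : adj L w v := ⟨h7.1.symm, t, ht, het hwe, het h7.2⟩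
      obtain ⟨i, rfl⟩ := (hc.all v).1 h8
      rw [mem_image]
      refine ⟨i, mem_univ _, ?_⟩
      rw [← insert_erase hwe, hv]
    refine (card_le_card h5).trans (card_image_le.trans ?_)
    rw [card_univ, Fintype.card_fin]
  obtain h | h | h : (L.filter (fun t => w ∈ t)).card = 3 ∨ (L.filter (fun t => w ∈ t)).card = 4 ∨
    (L.filter (fun t => w ∈ t)).card = 5 := by
    unfold vd at hd
    omega
  · obtain ⟨a, ha⟩ := exists_linkCycle hL hw h
    exact key 3 (by norm_num) a ha
  · obtain ⟨a, ha⟩ := exists_linkCycle hL hw h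
    exact key 4 (by norm_num) a ha
  · obtain ⟨a, ha⟩ := exists_linkCycle hL hw h
    exact key 5 (by norm_num) a ha

private theorem HPlan_adj {L : Finset (Finset ι)} {u v : ι} (huv : u ≠ v) :
    (∃ t ∈ L, ({u, v} : Finset ι) ⊆ t) ↔ adj L u v := by
  constructor
  · rintro ⟨t, ht, h⟩
    exact ⟨huv, t, ht, h (by simp), h (by simp)⟩
  · rintro ⟨-, t, ht, h1, h2⟩
    refine ⟨t, ht, ?_⟩
    intro z hz
    simp only [mem_insert, mem_singleton] at hz
    rcases hz with rfl | rfl
    · exact h1
    · exact h2

private theorem HPlan_main (n : ℕ) : ∀ (L : Finset (Finset ι)), IsSphere2 L → (verts L).card = n →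
    ∀ H : Finset ι, H ⊆ verts L →
    ((H.powersetCard 2).filter (fun e => ∃ t ∈ L, e ⊆ t)).card ≤ 5 * H.card := by
  induction n with
  | zero =>
    intro L hL hn
    have := four_le_verts hL
    omega
  | succ n ih =>
    intro L hL hn H hH
    by_cases hV : 5 ≤ (verts L).card
    · obtain ⟨w, hw, hd, L', hL', hv, hadj⟩ := exists_reduce hL hV
      have hn' : (verts L').card = n := by
        rw [hv, card_erase_of_mem hw, hn]
        rfl
      have h1 : ((H.erase w).powersetCard 2).filter (fun e => ∃ t ∈ L, e ⊆ t) ⊆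
          ((H.erase w).powersetCard 2).filter (fun e => ∃ t ∈ L', e ⊆ t) := by
        intro e he
        rw [mem_filter] at he ⊢
        refine ⟨he.1, ?_⟩
        obtain ⟨hs, hc⟩ := mem_powersetCard.1 he.1
        obtain ⟨u, v, huv, rfl⟩ := card_eq_two.1 hc
        have hu : u ∈ H.erase w := hs (by simp)
        have hv' : v ∈ H.erase w := hs (by simp)
        rw [HPlan_adj huv]
        exact hadj u v (mem_erase.1 hu).1 (mem_erase.1 hv').1 ((HPlan_adj huv).1 he.2)
      have h2 := ih L' hL' hn' (H.erase w) (by rw [hv]; exact erase_subset_erase _ hH)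
      have h3 := (card_le_card h1).trans h2
      by_cases hwH : w ∈ H
      · have h4 : (H.powersetCard 2).filter (fun e => ∃ t ∈ L, e ⊆ t) ⊆
            ((H.erase w).powersetCard 2).filter (fun e => ∃ t ∈ L, e ⊆ t) ∪
            (H.powersetCard 2).filter (fun e => w ∈ e ∧ ∃ t ∈ L, e ⊆ t) := by
          intro e he
          rw [mem_filter, mem_powersetCard] at he
          rw [mem_union, mem_filter, mem_filter, mem_powersetCard, mem_powersetCard]
          by_cases hwe : w ∈ e
          · right
            exact ⟨he.1, hwe, he.2⟩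
          · left
            refine ⟨⟨?_, he.1.2⟩, he.2⟩
            intro z hz
            rw [mem_erase]
            exact ⟨fun h => hwe (h ▸ hz), he.1.1 hz⟩
        have h5 := (card_le_card h4).trans (card_union_le _ _)
        have h6 := HPlan_nb hL hw hd H
        have h7 : (H.erase w).card = H.card - 1 := card_erase_of_mem hwH
        have h8 : 1 ≤ H.card := card_pos.2 ⟨w, hwH⟩
        omega
      · rw [erase_eq_of_notMem hwH] at h3
        exact h3
    · have hH4 : H.card ≤ 4 := (card_le_card hH).trans (by omega)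
      refine (card_filter_le _ _).trans ?_
      rw [card_powersetCard]
      interval_cases H.card <;> decide

theorem edges_le {L : Finset (Finset ι)} (hL : IsSphere2 L) (H : Finset ι) :
    ((H.powersetCard 2).filter (fun e => ∃ t ∈ L, e ⊆ t)).card ≤ 5 * H.card := by
  have h1 : (H.powersetCard 2).filter (fun e => ∃ t ∈ L, e ⊆ t) ⊆
      ((H ∩ verts L).powersetCard 2).filter (fun e => ∃ t ∈ L, e ⊆ t) := by
    intro e he
    rw [mem_filter, mem_powersetCard] at he ⊢
    refine ⟨⟨?_, he.1.2⟩, he.2⟩
    intro z hz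
    obtain ⟨t, ht, het⟩ := he.2
    rw [mem_inter]
    exact ⟨he.1.1 hz, mem_verts.2 ⟨t, ht, het hz⟩⟩
  refine (card_le_card h1).trans ((HPlan_main _ L hL rfl _ inter_subset_right).trans ?_)
  have := card_le_card (inter_subset_left (s₁ := H) (s₂ := verts L))
  omega

end Pool.TSphH
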