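import Pool.Agent.Lib.MP_3de3a3_co.H.HDefs
import Pool.Agent.Lib.MP_3de3a3_co.Flip
import Pool.Agent.Lib.MP_3de3a3_co.Move13

/-! # Splitting a vertex along an arc (module HSplit)

PROOF. For 1 <= k <= m let L_k = (L - {{x, p i, p (i+1)} : i < k}) union {{y, p i, p (i+1)} : i < k} union {{x, y, p 0}, {x, y, p k}}. Claim: L_k is a 2-sphere with the vertices insert y (verts L).
k = 1: `move13` in the triangle {x, p 0, p 1} with z = y. k -> k + 1 (k < m): `flip` in L_k with (u, v, x, y) = (x, p k, y, p (k+1)): the triangles {x, p k, y} and {x, p k, p (k+1)} are in L_k (the second one is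
in L and not removed as p (k+1) is not p i for i <= k); y, p (k+1) are not adjacent in L_k: the triangles containing y have the other vertices x, p 0, ..., p k. The result is L_(k+1). Finally `flip` in L_m with
(u, v, x, y) = (x, y, p 0, p m): p 0, p m are not adjacent in L_m: not in L; in {y, p i, p (i+1)}, i < m, only if m = 1. The result is the complex of the theorem. -/

set_option autoImplicit false

namespace Pool.TSphH

open Finset
open Pool.TSph

variable {ι : Type*} [DecidableEq ι]

/-- the removed triangles -/
private def spR (x : ι) (p : ℕ → ι) (k : ℕ) : Finset (Finset ι) :=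
  (range k).image (fun i => {x, p i, p (i + 1)})

private theorem mem_spR {x : ι} {p : ℕ → ι} {k : ℕ} {s : Finset ι} :
    s ∈ spR x p k ↔ ∃ i < k, s = {x, p i, p (i + 1)} := by
  unfold spR
  rw [mem_image]
  constructor
  · rintro ⟨i, hi, rfl⟩
    exact ⟨i, mem_range.1 hi, rfl⟩
  · rintro ⟨i, hi, rfl⟩
    exact ⟨i, mem_range.2 hi, rfl⟩

private theorem mem_spR_succ {x : ι} {p : ℕ → ι} {k : ℕ} {s : Finset ι} :
    s ∈ spR x p (k + 1) ↔ s ∈ spR x p k ∨ s = {x, p k, p (k + 1)} := by
  rw [mem_spR, mem_spR]
  constructor
  · rintro ⟨i, hi, h⟩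
    rcases Nat.lt_succ_iff_lt_or_eq.1 hi with h1 | h1
    · exact Or.inl ⟨i, h1, h⟩
    · exact Or.inr (h1 ▸ h)
  · rintro (⟨i, hi, h⟩ | h)
    · exact ⟨i, by omega, h⟩
    · exact ⟨k, by omega, h⟩

/-- the intermediate spheres -/
private def spL (L : Finset (Finset ι)) (x y : ι) (p : ℕ → ι) (k : ℕ) : Finset (Finset ι) :=
  (L \ spR x p k) ∪ spR y p k ∪ {{x, y, p 0}, {x, y, p k}}

private theorem mem_spL {L : Finset (Finset ι)} {x y : ι} {p : ℕ → ι} {k : ℕ} {s : Finset ι} :
    s ∈ spL L x y p k ↔ ((s ∈ L ∧ s ∉ spR x p k) ∨ s ∈ spR y p k) ∨ s = {x, y, p 0} ∨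
      s = {x, y, p k} := by
  unfold spL
  simp only [mem_union, mem_sdiff, mem_insert, mem_singleton]

theorem split {L : Finset (Finset ι)} (hL : IsSphere2 L) {x y : ι} (hy : y ∉ verts L)
    {p : ℕ → ι} {m : ℕ} (hm : 2 ≤ m) (hp : ∀ i ≤ m, ∀ j ≤ m, p i = p j → i = j)
    (ht : ∀ i < m, ({x, p i, p (i + 1)} : Finset ι) ∈ L) (hn : ¬ adj L (p 0) (p m)) :
    IsSphere2 ((L \ (range m).image (fun i => {x, p i, p (i + 1)})) ∪
      (range m).image (fun i => {y, p i, p (i + 1)}) ∪ {{x, p 0, p m}, {y, p 0, p m}}) := by
  have hyL : ∀ s ∈ L, y ∉ s := fun s hs h => hy (mem_verts.2 ⟨s, hs, h⟩)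
  have hxp : ∀ i ≤ m, x ≠ p i := by
    intro i hi
    rcases Nat.lt_or_ge i m with h | h
    · exact (Flip_three (hL.card3 _ (ht i h))).1
    · obtain ⟨j, rfl⟩ : ∃ j, i = j + 1 := ⟨i - 1, by omega⟩
      exact (Flip_three (hL.card3 _ (ht j (by omega)))).2.1
  have hyp : ∀ i ≤ m, y ≠ p i := by
    intro i hi e
    rcases Nat.lt_or_ge i m with h | h
    · exact hyL _ (ht i h) (by rw [e]; simp)
    · obtain ⟨j, rfl⟩ : ∃ j, i = j + 1 := ⟨i - 1, by omega⟩
      exact hyL _ (ht j (by omega)) (by rw [e]; simp)
  have hxy : x ≠ y := fun e => hyL _ (ht 0 (by omega)) (by rw [← e]; simp)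
  -- no triangle with `y` among the removed ones, no triangle with `x` among the new ones
  have hxN : ∀ k ≤ m, ∀ s ∈ spR y p k, x ∉ s := by
    intro k hk s hs hx
    obtain ⟨i, hi, rfl⟩ := mem_spR.1 hs
    simp only [mem_insert, mem_singleton] at hx
    rcases hx with h | h | h
    · exact hxy h
    · exact hxp i (by omega) h
    · exact hxp (i + 1) (by omega) h
  have hpN : ∀ k, ∀ j, k < j → j ≤ m → ∀ s ∈ spR y p k, p j ∉ s := by
    intro k j hkj hj s hs hx
    obtain ⟨i, hi, rfl⟩ := mem_spR.1 hs
    simp only [mem_insert, mem_singleton] at hx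
    rcases hx with h | h | h
    · exact hyp j hj h.symm
    · have := hp j hj i (by omega) h
      omega
    · have := hp j hj (i + 1) (by omega) h
      omega
  have hpR : ∀ k, ∀ j, k < j → j ≤ m → ∀ s ∈ spR x p k, p j ∉ s := by
    intro k j hkj hj s hs hx
    obtain ⟨i, hi, rfl⟩ := mem_spR.1 hs
    simp only [mem_insert, mem_singleton] at hx
    rcases hx with h | h | h
    · exact hxp j hj h.symm
    · have := hp j hj i (by omega) h
      omega
    · have := hp j hj (i + 1) (by omega) h
      omega
  have key : ∀ k, 1 ≤ k → k ≤ m → IsSphere2 (spL L x y p k) := by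
    intro k hk
    induction k, hk using Nat.le_induction with
    | base =>
      intro _
      have h1 := (move13 hL (ht 0 (by omega)) hy).1
      have h01 : p 0 ≠ p 1 := fun e => by
        have := hp 0 (by omega) 1 (by omega) e
        omega
      have e1 : ({x, p 0, p 1} : Finset ι).erase x = {p 0, p 1} := by
        rw [erase_insert]
        simp only [mem_insert, mem_singleton, not_or]
        exact ⟨hxp 0 (by omega), hxp 1 (by omega)⟩
      have e2 : ({x, p 0, p 1} : Finset ι).erase (p 0) = {x, p 1} := by
        rw [Finset.insert_comm, erase_insert]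
        simp only [mem_insert, mem_singleton, not_or]
        exact ⟨(hxp 0 (by omega)).symm, h01⟩
      have e3 : ({x, p 0, p 1} : Finset ι).erase (p 1) = {x, p 0} := by
        rw [Finset.pair_comm, Finset.insert_comm, erase_insert]
        simp only [mem_insert, mem_singleton, not_or]
        exact ⟨(hxp 1 (by omega)).symm, h01.symm⟩
      have e4 : ({y, x, p 1} : Finset ι) = {x, y, p 1} := Finset.insert_comm _ _ _
      have e5 : ({y, x, p 0} : Finset ι) = {x, y, p 0} := Finset.insert_comm _ _ _
      have heq : spL L x y p 1 = L.erase {x, p 0, p (0 + 1)} ∪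
          ({x, p 0, p (0 + 1)} : Finset ι).image
            (fun a => insert y (({x, p 0, p (0 + 1)} : Finset ι).erase a)) := by
        ext s
        rw [mem_spL, mem_spR, mem_spR, mem_union, mem_erase, mem_image]
        simp only [zero_add]
        constructor
        · rintro ((⟨h2, h3⟩ | ⟨i, hi, rfl⟩) | rfl | rfl)
          · left
            exact ⟨fun e => h3 ⟨0, by omega, e⟩, h2⟩
          · obtain rfl : i = 0 := by omega
            right
            exact ⟨x, by simp, by rw [e1]⟩
          · right
            exact ⟨p 1, by simp, by rw [e3, e5]⟩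
          · right
            exact ⟨p 0, by simp, by rw [e2, e4]⟩
        · rintro (⟨h2, h3⟩ | ⟨a, ha, rfl⟩)
          · left; left
            refine ⟨h3, ?_⟩
            rintro ⟨i, hi, e⟩
            obtain rfl : i = 0 := by omega
            exact h2 e
          · simp only [mem_insert, mem_singleton] at ha
            rcases ha with rfl | rfl | rfl
            · left; right
              exact ⟨0, by omega, by rw [e1]⟩
            · right; right
              rw [e2, e4]
            · right; left
              rw [e3, e5]
      rw [heq]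
      exact h1
    | succ k hk ih =>
      intro hkm
      have hS := ih (by omega)
      have f1 : ({x, p k, y} : Finset ι) ∈ spL L x y p k :=
        mem_spL.2 (Or.inr (Or.inr (by rw [Finset.pair_comm])))
      have f2 : ({x, p k, p (k + 1)} : Finset ι) ∈ spL L x y p k := by
        refine mem_spL.2 (Or.inl (Or.inl ⟨ht k (by omega), fun h => ?_⟩))
        exact hpR k (k + 1) (by omega) hkm _ h (by simp)
      have f3 : ¬ adj (spL L x y p k) y (p (k + 1)) := by
        rintro ⟨-, s, hs, hys, hps⟩
        rcases mem_spL.1 hs with (⟨h1, -⟩ | h1) | rfl | rfl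
        · exact hyL s h1 hys
        · exact hpN k (k + 1) (by omega) hkm s h1 hps
        · simp only [mem_insert, mem_singleton] at hps
          rcases hps with h | h | h
          · exact hxp _ hkm h.symm
          · exact hyp _ hkm h.symm
          · have := hp _ hkm 0 (by omega) h
            omega
        · simp only [mem_insert, mem_singleton] at hps
          rcases hps with h | h | h
          · exact hxp _ hkm h.symm
          · exact hyp _ hkm h.symm
          · have := hp _ hkm k (by omega) h
            omega
      obtain ⟨L', hL', hS', -, -⟩ := flip hS (hyp _ hkm) f1 f2 f3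
      have heq : spL L x y p (k + 1) = L' := by
        rw [hL']
        ext s
        rw [mem_spL, mem_spR_succ, mem_spR_succ, mem_union, mem_sdiff, mem_spL]
        simp only [mem_insert, mem_singleton]
        have a1 : ({x, p k, y} : Finset ι) = {x, y, p k} := by rw [Finset.pair_comm]
        have a2 : ({y, p (k + 1), x} : Finset ι) = {x, y, p (k + 1)} := by
          ext z; simp only [mem_insert, mem_singleton]; tauto
        have a3 : ({y, p (k + 1), p k} : Finset ι) = {y, p k, p (k + 1)} := by
          rw [Finset.pair_comm]
        rw [a1, a2, a3]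
        have b1 : s = {x, y, p k} → s ∉ L := fun e h => hyL s h (by rw [e]; simp)
        have b2 : s = {x, y, p k} → s ∉ spR y p k := fun e h =>
          hxN k (by omega) s h (by rw [e]; simp)
        have b3 : s = {x, y, p k} → s ≠ {x, y, p 0} := fun e h => by
          have h1 : p k ∈ ({x, y, p 0} : Finset ι) := by rw [← h, e]; simp
          simp only [mem_insert, mem_singleton] at h1
          rcases h1 with h1 | h1 | h1
          · exact hxp k (by omega) h1.symm
          · exact hyp k (by omega) h1.symm
          · have := hp k (by omega) 0 (by omega) h1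
            omega
        have b4 : s = {x, p k, p (k + 1)} → s ∉ spR y p k := fun e h =>
          hxN k (by omega) s h (by rw [e]; simp)
        have b5 : s = {x, p k, p (k + 1)} → s ≠ {x, y, p 0} := fun e h => by
          have h1 : y ∈ ({x, p k, p (k + 1)} : Finset ι) := by rw [← e, h]; simp
          simp only [mem_insert, mem_singleton] at h1
          rcases h1 with h1 | h1 | h1
          · exact hxy h1.symm
          · exact hyp k (by omega) h1
          · exact hyp (k + 1) (by omega) h1
        constructor
        · rintro ((⟨h1, h2⟩ | h1 | h1) | h1 | h1)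
          · left
            refine ⟨Or.inl (Or.inl ⟨h1, fun h => h2 (Or.inl h)⟩), ?_⟩
            rintro (e | e)
            · exact b1 e h1
            · exact h2 (Or.inr e)
          · left
            refine ⟨Or.inl (Or.inr h1), ?_⟩
            rintro (e | e)
            · exact b2 e h1
            · exact b4 e h1
          · exact Or.inr (Or.inr h1)
          · left
            refine ⟨Or.inr (Or.inl h1), ?_⟩
            rintro (e | e)
            · exact b3 e h1
            · exact b5 e h1
          · exact Or.inr (Or.inl h1)
        · rintro (⟨((⟨h1, h2⟩ | h1) | h1 | h1), h3⟩ | h1 | h1)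
          · left; left
            exact ⟨h1, fun h => h.elim h2 fun e => h3 (Or.inr e)⟩
          · exact Or.inl (Or.inr (Or.inl h1))
          · exact Or.inr (Or.inl h1)
          · exact absurd (Or.inl h1) h3
          · exact Or.inr (Or.inr h1)
          · exact Or.inl (Or.inr (Or.inr h1))
      rw [heq]
      exact hS'
  have hS := key m (by omega) le_rfl
  have f1 : ({x, y, p 0} : Finset ι) ∈ spL L x y p m := mem_spL.2 (Or.inr (Or.inl rfl))
  have f2 : ({x, y, p m} : Finset ι) ∈ spL L x y p m := mem_spL.2 (Or.inr (Or.inr rfl))
  have h0m : p 0 ≠ p m := fun e => by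
    have := hp 0 (by omega) m le_rfl e
    omega
  have f3 : ¬ adj (spL L x y p m) (p 0) (p m) := by
    rintro ⟨-, s, hs, h0s, hms⟩
    rcases mem_spL.1 hs with (⟨h1, -⟩ | h1) | rfl | rfl
    · exact hn ⟨h0m, s, h1, h0s, hms⟩
    · obtain ⟨i, hi, rfl⟩ := mem_spR.1 h1
      simp only [mem_insert, mem_singleton] at h0s hms
      have i0 : i = 0 := by
        rcases h0s with h | h | h
        · exact absurd h.symm (hyp 0 (by omega))
        · exact (hp 0 (by omega) i (by omega) h).symm
        · have := hp 0 (by omega) (i + 1) (by omega) h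
          omega
      subst i0
      rcases hms with h | h | h
      · exact absurd h.symm (hyp m le_rfl)
      · exact h0m h.symm
      · have := hp m le_rfl (0 + 1) (by omega) h
        omega
    · simp only [mem_insert, mem_singleton] at hms
      rcases hms with h | h | h
      · exact hxp m le_rfl h.symm
      · exact hyp m le_rfl h.symm
      · exact h0m h.symm
    · simp only [mem_insert, mem_singleton] at h0s
      rcases h0s with h | h | h
      · exact hxp 0 (by omega) h.symm
      · exact hyp 0 (by omega) h.symm
      · exact h0m h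
  obtain ⟨L', hL', hS', -, -⟩ := flip hS h0m f1 f2 f3
  have heq : (L \ (range m).image (fun i => {x, p i, p (i + 1)})) ∪
      (range m).image (fun i => {y, p i, p (i + 1)}) ∪ {{x, p 0, p m}, {y, p 0, p m}} = L' := by
    rw [hL']
    have g1 : (range m).image (fun i => ({x, p i, p (i + 1)} : Finset ι)) = spR x p m := rfl
    have g2 : (range m).image (fun i => ({y, p i, p (i + 1)} : Finset ι)) = spR y p m := rfl
    rw [g1, g2]
    ext s
    simp only [mem_union, mem_sdiff, mem_spL, mem_insert, mem_singleton]
    have a1 : ({p 0, p m, x} : Finset ι) = {x, p 0, p m} := by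
      ext z; simp only [mem_insert, mem_singleton]; tauto
    have a2 : ({p 0, p m, y} : Finset ι) = {y, p 0, p m} := by
      ext z; simp only [mem_insert, mem_singleton]; tauto
    rw [a1, a2]
    have b1 : s = {x, y, p 0} → s ∉ L := fun e h => hyL s h (by rw [e]; simp)
    have b2 : s = {x, y, p m} → s ∉ L := fun e h => hyL s h (by rw [e]; simp)
    have b3 : s = {x, y, p 0} → s ∉ spR y p m := fun e h => hxN m le_rfl s h (by rw [e]; simp)
    have b4 : s = {x, y, p m} → s ∉ spR y p m := fun e h => hxN m le_rfl s h (by rw [e]; simp)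
    constructor
    · rintro (h1 | h1)
      · left
        refine ⟨Or.inl h1, ?_⟩
        rintro (e | e)
        · rcases h1 with h1 | h1
          · exact b1 e h1.1
          · exact b3 e h1
        · rcases h1 with h1 | h1
          · exact b2 e h1.1
          · exact b4 e h1
      · exact Or.inr h1
    · rintro (⟨(h1 | h1), h3⟩ | h1)
      · exact Or.inl h1
      · exact absurd h1 h3
      · exact Or.inr h1
  rw [heq]
  exact hS'

end Pool.TSphH
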