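import Pool.Agent.Lib.MP_3de3a3_co.H.HTPb
import Pool.Agent.Lib.MP_3de3a3_co.H.HAvgR
import Pool.Agent.Lib.MP_3de3a3_co.H.HBcA
import Pool.Agent.Lib.MP_3de3a3_co.H.HBcB
import Pool.Agent.Lib.MP_3de3a3_co.H.HEuler
import Pool.Agent.Lib.MP_3de3a3_co.H.HHeavy
import Pool.Agent.Lib.MP_3de3a3_co.H.HGood
import Pool.Agent.Lib.MP_3de3a3_co.H.HBlockStr
import Pool.Agent.Lib.MP_3de3a3_co.H.HPairs
import Pool.Agent.Lib.MP_3de3a3_co.H.HBlkNear

/-! # The structure theorem (module HStruct) -/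

set_option autoImplicit false

namespace Pool.TSphH

open Finset
open Pool.TSph

variable {ι : Type*} [DecidableEq ι]

theorem TP_card {F : Finset (Finset ι)} (hF : IsSepMfd F) :
    (TP F).card ≤ 16 * (verts F).card + 48 * (TD F).card := by
  obtain ⟨R, hR⟩ := exists_color (TP F) (fun q hq => by
    obtain ⟨x, τ⟩ := q
    have h := mem_TP.1 hq
    exact ⟨h.1, h.2.1⟩)
  have := colored hF R
  omega

theorem sum_Bc {F : Finset (Finset ι)} (hF : IsSepMfd F) :
    ∑ x ∈ verts F, (Bc (link F x)).card ≤ 104 * (verts F).card + 240 * (TD F).card := by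
  have h1 : ∑ x ∈ verts F, (Bc (link F x)).card ≤
      ∑ x ∈ verts F, (5 * (Sp (link F x)).card + 4) :=
    sum_le_sum fun x hx => Bc_card (hF.mfd.sphere x hx)
  rw [sum_add_distrib, ← mul_sum, sum_const, smul_eq_mul] at h1
  have h2 := sum_Sp hF.mfd
  have h3 := MT_card hF
  have h4 := TP_card hF
  omega

theorem notGood_le {F : Finset (Finset ι)} (hF : IsSepMfd F)
    (h1 : 10 ^ 9 * (verts F).card ≤ F.card) (h2 : 10 ^ 9 * (TD F).card ≤ F.card)
    (h3 : 1000 * ∑ x ∈ verts F, (Cl 20000 (link F x)).card ≤ F.card) :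
    10 * (NotGood 20000 F).card ≤ F.card := by
  have e1 := notGood_card hF.mfd (D := 20000) (by norm_num)
  have e2 := T2_card hF.mfd 20000
  have e3 := sum_Hv hF.mfd 20000
  have e4 : ∑ x ∈ verts F, ∑ w ∈ NA 20000 (link F x), vd (link F x) w ≤
      ∑ x ∈ verts F, (42 * (Hv 20000 (link F x)).card + 20 * (Cl 20000 (link F x)).card +
        (20000 + 21) * (Bc (link F x)).card) :=
    sum_le_sum fun x hx => euler_NA (hF.mfd.sphere x hx) (by norm_num)
  rw [sum_add_distrib, sum_add_distrib, ← mul_sum, ← mul_sum, ← mul_sum] at e4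
  have e5 := sum_Bc hF
  omega

/-- The structure theorem: many vertices, or many missing triangles with a cone point, or many
clean vertices in the links, or many disjoint blocks. -/
theorem structure_thm {F : Finset (Finset ι)} (hF : IsSepMfd F) :
    F.card ≤ 10 ^ 9 * (verts F).card ∨ F.card ≤ 10 ^ 9 * (TD F).card ∨
    F.card ≤ 1000 * ∑ x ∈ verts F, (Cl 20000 (link F x)).card ∨
    ∃ 𝓑 : Finset (Fin 9 → ι), F.card ≤ 31250 * 𝓑.card ∧ (∀ f ∈ 𝓑, IsBlk F f) ∧
      ∀ f ∈ 𝓑, ∀ g ∈ 𝓑, f ≠ g → Disjoint (blk f) (blk g) := by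
  classical
  by_cases h1 : F.card ≤ 10 ^ 9 * (verts F).card
  · exact Or.inl h1
  by_cases h2 : F.card ≤ 10 ^ 9 * (TD F).card
  · exact Or.inr (Or.inl h2)
  by_cases h3 : F.card ≤ 1000 * ∑ x ∈ verts F, (Cl 20000 (link F x)).card
  · exact Or.inr (Or.inr (Or.inl h3))
  refine Or.inr (Or.inr (Or.inr ?_))
  have hng := notGood_le hF (by omega) (by omega) (by omega)
  obtain ⟨P, hP, hcard, hlab⟩ := exists_pairs hF.mfd (D := 20000) (by norm_num) hng
  -- the block of a facet in P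
  have hex : ∀ φ ∈ P, ∃ f : Fin 9 → ι, IsBlk F f ∧ φ = {f 1, f 2, f 5, f 6} := by
    intro φ hφ
    obtain ⟨a, a', b, b', c, hφe, hbc, hg1, hg2⟩ := hlab φ hφ
    obtain ⟨f, hf, e1, e2, e3, e4, -⟩ := exists_blk hF.mfd (D := 20000) (by norm_num) hg1 hg2 hbc
    exact ⟨f, hf, by rw [hφe, e1, e2, e3, e4]⟩
  rcases P.eq_empty_or_nonempty with hP0 | ⟨φ0, hφ0⟩
  · rw [hP0, card_empty] at hcard
    omega
  have : Nonempty (Fin 9 → ι) := ⟨(hex φ0 hφ0).choose⟩
  choose! g hg1 hg2 using hex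
  have hne : ∀ φ ∈ P, (blk (g φ)).Nonempty := by
    intro φ _
    unfold blk blk0
    refine Nonempty.image ?_ _
    exact ⟨{0, 1, 4, 5}, by simp [cells]⟩
  obtain ⟨Q, hQP, hQ, hdis⟩ := exists_disjoint hF.mfd hP (fun φ => blk (g φ))
    (fun φ hφ => (hg1 φ hφ).sub) hne (fun φ hφ ψ hψ => by
      have := blk_near (hg1 φ hφ) ψ hψ
      rwa [← hg2 φ hφ] at this)
  refine ⟨Q.image g, ?_, ?_, ?_⟩
  · rw [card_image_of_injOn]
    · norm_num at hQ
      omega
    · intro φ hφ ψ hψ he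
      by_contra hcon
      have h5 := hdis φ hφ ψ hψ hcon
      rw [he, disjoint_self_iff_empty] at h5
      exact (hne ψ (hQP hψ)).ne_empty h5
  · intro f hf
    obtain ⟨φ, hφ, rfl⟩ := mem_image.1 hf
    exact hg1 φ (hQP hφ)
  · intro f hf f' hf' hff
    obtain ⟨φ, hφ, rfl⟩ := mem_image.1 hf
    obtain ⟨ψ, hψ, rfl⟩ := mem_image.1 hf'
    exact hdis φ hφ ψ hψ (fun h => hff (by rw [h]))

end Pool.TSphH
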