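import Pool.Agent.Lib.MP_3de3a3_co.H.HBdry
import Pool.Agent.Lib.MP_3de3a3_co.H.HSmall

/-! # Two bipyramids do not cross (module HTPa)

PROOF of `bip_NC`. Write Z = bip x y τ, Z' = bip x' y' τ', verts Z = {x, y} union τ (`bip_sphere`).
Case τ' = τ: then x' = x and y' is not y, not in τ (y' is in R, τ is disjoint from R), so y' is not a vertex of Z; the elements of Z' - Z are the
insert y' e; all facets at y' are on the same side of A (`side_vertex`).
Case τ' not τ: there is b in τ' - τ (same cardinality). b is not in R, so b is not x, y: b is not a vertex of Z. Every vertex z of Z' is b or is in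
a common facet with b: z = x' or y' because insert x' e is a triangle of F for e in τ' containing b; z in τ' because of insert x' {b, z}. So all
facets at all vertices of verts Z' - verts Z are on the same side of A as those at b (`side_vertex` twice: a common facet). A triangle
t of Z' - Z has a vertex outside verts Z: otherwise t = insert z' e' with z' in {x', y'}, so z' is in R, z' in {x, y} (because τ is disjoint from R),
and e' is contained in τ' (disjoint from R), so e' is contained in τ, and t is in Z. The facets at t contain this vertex.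
PROOF of `bip_bad`. A facet s of A has all vertices in verts Z: for u in s outside verts Z all facets at u would be in A (`side_vertex`), which contradicts
hno. Let e be in τ.powersetCard 2. insert x e is in Z = bdry F A, so it is contained in some s in A; s has four elements and is contained in
{x, y} union τ, so s = insert x (insert y e) or s = insert x τ; in the second case τ would be a triangle of F. -/

set_option autoImplicit false

namespace Pool.TSphH

open Finset
open Pool.TSph

variable {ι : Type*} [DecidableEq ι]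

theorem HTPa_mem_bip {x y : ι} {τ t : Finset ι} :
    t ∈ bip x y τ ↔ ∃ z e, (z = x ∨ z = y) ∧ e ∈ τ.powersetCard 2 ∧ t = insert z e := by
  unfold bip
  simp only [mem_union, mem_image]
  constructor
  · rintro (⟨e, he, rfl⟩ | ⟨e, he, rfl⟩)
    · exact ⟨x, e, Or.inl rfl, he, rfl⟩
    · exact ⟨y, e, Or.inr rfl, he, rfl⟩
  · rintro ⟨z, e, rfl | rfl, he, rfl⟩
    · exact Or.inl ⟨e, he, rfl⟩
    · exact Or.inr ⟨e, he, rfl⟩

/-- a cone point and a vertex of the triangle are in a common facet -/
theorem HTPa_cone {F : Finset (Finset ι)} {x : ι} {τ : Finset ι} (hx : IsCone F x τ) {b z : ι}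
    (hb : b ∈ τ) (hz : z = x ∨ z ∈ τ) : ∃ s ∈ F, b ∈ s ∧ z ∈ s := by
  obtain ⟨h3, -, -, he⟩ := hx
  have h0 : (insert b (if z ∈ τ then {z} else (∅ : Finset ι))).card ≤ 2 := by
    refine le_trans (card_insert_le _ _) ?_
    split_ifs <;> simp
  have h1 : insert b (if z ∈ τ then {z} else (∅ : Finset ι)) ⊆ τ := by
    intro w hw
    rw [mem_insert] at hw
    rcases hw with rfl | hw
    · exact hb
    · split_ifs at hw with h
      · rw [mem_singleton] at hw
        rw [hw]; exact h
      · exact absurd hw (notMem_empty w)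
  obtain ⟨e, he1, he2, he3⟩ := exists_subsuperset_card_eq h1 h0 (by rw [h3]; norm_num)
  obtain ⟨-, s, hs, hsub⟩ := mem_tris.1 (he e (mem_powersetCard.2 ⟨he2, he3⟩))
  refine ⟨s, hs, hsub (mem_insert_of_mem (he1 (mem_insert_self _ _))), ?_⟩
  rcases hz with rfl | hz
  · exact hsub (mem_insert_self _ _)
  · apply hsub
    apply mem_insert_of_mem
    apply he1
    rw [if_pos hz]
    simp

theorem bip_NC {F : Finset (Finset ι)} (hF : IsMfd3 F) {R : Finset ι} {x y x' y' : ι}
    {τ τ' : Finset ι} (hx : IsCone F x τ) (hy : IsCone F y τ) (hx' : IsCone F x' τ')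
    (hy' : IsCone F y' τ') (hxR : x ∈ R) (hyR : y ∈ R) (hxR' : x' ∈ R) (hyR' : y' ∈ R)
    (hτ : Disjoint τ R) (hτ' : Disjoint τ' R) (hxy : x ≠ y) (hxy' : x' ≠ y')
    (hsame : τ' = τ → x' = x ∧ y' ≠ y) {A : Finset (Finset ι)} (hA : A ⊆ F)
    (hb : bdry F A = bip x y τ) :
    (∀ t ∈ bip x' y' τ', t ∉ bip x y τ → ∀ s ∈ F, t ⊆ s → s ∈ A) ∨
      (∀ t ∈ bip x' y' τ', t ∉ bip x y τ → ∀ s ∈ F, t ⊆ s → s ∉ A) := by
  have hv : verts (bip x y τ) = insert x (insert y τ) := (bip_sphere hx.1 hx.2.1 hy.2.1 hxy).2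
  have hside : ∀ u, u ∉ insert x (insert y τ) → ∀ s ∈ F, ∀ s' ∈ F, u ∈ s → u ∈ s' →
      (s ∈ A ↔ s' ∈ A) := by
    intro u hu s hs s' hs' hus hus'
    exact side_vertex hF hA (by rw [hb, hv]; exact hu) hs hs' hus hus'
  have hτR : ∀ u ∈ τ, u ∉ R := fun u hu => disjoint_left.1 hτ hu
  have hτR' : ∀ u ∈ τ', u ∉ R := fun u hu => disjoint_left.1 hτ' hu
  -- a special vertex `b`
  have main : ∃ b s0, s0 ∈ F ∧ ∀ t ∈ bip x' y' τ', t ∉ bip x y τ → ∀ s ∈ F, t ⊆ s →
      (b ∈ s0 ∧ (s0 ∈ A ↔ s ∈ A)) := by
    by_cases hττ : τ' = τ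
    · obtain ⟨hxx, hyy⟩ := hsame hττ
      subst hττ
      subst hxx
      have hy'V : y' ∉ insert x' (insert y τ') := by
        simp only [mem_insert, not_or]
        exact ⟨fun h => hxy' h.symm, hyy, fun h => hτR' y' h hyR'⟩
      have hne : τ'.Nonempty := by rw [← card_pos, hx.1]; norm_num
      obtain ⟨b, hbτ⟩ := hne
      obtain ⟨s0, hs0, -, hy's0⟩ := HTPa_cone hy' hbτ (Or.inl rfl)
      refine ⟨y', s0, hs0, ?_⟩
      intro t ht ht' s hs hts
      refine ⟨hy's0, hside y' hy'V s0 hs0 s hs hy's0 (hts ?_)⟩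
      obtain ⟨z, e, hz, he, rfl⟩ := HTPa_mem_bip.1 ht
      rcases hz with rfl | rfl
      · exact absurd (HTPa_mem_bip.2 ⟨z, e, Or.inl rfl, he, rfl⟩) ht'
      · exact mem_insert_self _ _
    · have hns : ¬ τ' ⊆ τ := by
        intro hsub
        exact hττ (eq_of_subset_of_card_le hsub (by rw [hx.1, hx'.1]))
      obtain ⟨b, hbτ', hbτ⟩ := not_subset.1 hns
      have hbV : b ∉ insert x (insert y τ) := by
        simp only [mem_insert, not_or]
        refine ⟨?_, ?_, hbτ⟩
        · rintro rfl
          exact hτR' _ hbτ' hxR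
        · rintro rfl
          exact hτR' _ hbτ' hyR
      obtain ⟨s0, hs0, hbs0, -⟩ := HTPa_cone hx' hbτ' (Or.inl rfl)
      refine ⟨b, s0, hs0, ?_⟩
      intro t ht ht' s hs hts
      refine ⟨hbs0, ?_⟩
      -- `t` has a vertex outside
      have hout : ∃ z ∈ t, z ∉ insert x (insert y τ) := by
        by_contra hcon
        push Not at hcon
        obtain ⟨z, e, hz, he, rfl⟩ := HTPa_mem_bip.1 ht
        have hzR : z ∈ R := by rcases hz with rfl | rfl <;> assumption
        have h1 := hcon z (mem_insert_self _ _)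
        simp only [mem_insert] at h1
        have hzxy : z = x ∨ z = y := by
          rcases h1 with h1 | h1 | h1
          · exact Or.inl h1
          · exact Or.inr h1
          · exact absurd hzR (hτR z h1)
        rw [mem_powersetCard] at he
        apply ht'
        refine HTPa_mem_bip.2 ⟨z, e, hzxy, mem_powersetCard.2 ⟨?_, he.2⟩, rfl⟩
        intro w hw
        have h2 := hcon w (mem_insert_of_mem hw)
        simp only [mem_insert] at h2
        have hwR := hτR' w (he.1 hw)
        rcases h2 with rfl | rfl | h2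
        · exact absurd hxR hwR
        · exact absurd hyR hwR
        · exact h2
      obtain ⟨z, hzt, hzV⟩ := hout
      -- a facet which contains `b` and `z`
      have hcom : ∃ s1 ∈ F, b ∈ s1 ∧ z ∈ s1 := by
        obtain ⟨w, e, hw, he, rfl⟩ := HTPa_mem_bip.1 ht
        rw [mem_powersetCard] at he
        rw [mem_insert] at hzt
        rcases hzt with rfl | hze
        · rcases hw with rfl | rfl
          · exact HTPa_cone hx' hbτ' (Or.inl rfl)
          · exact HTPa_cone hy' hbτ' (Or.inl rfl)
        · exact HTPa_cone hx' hbτ' (Or.inr (he.1 hze))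
      obtain ⟨s1, hs1, hbs1, hzs1⟩ := hcom
      rw [hside b hbV s0 hs0 s1 hs1 hbs0 hbs1]
      exact hside z hzV s1 hs1 s hs hzs1 (hts hzt)
  obtain ⟨b, s0, hs0, hm⟩ := main
  by_cases h : s0 ∈ A
  · left
    intro t ht ht' s hs hts
    exact (hm t ht ht' s hs hts).2.1 h
  · right
    intro t ht ht' s hs hts hsA
    exact h ((hm t ht ht' s hs hts).2.2 hsA)

theorem bip_bad {F : Finset (Finset ι)} (hF : IsMfd3 F) {x y : ι} {τ : Finset ι}
    (hx : IsCone F x τ) (hy : IsCone F y τ) (hxy : x ≠ y) {A : Finset (Finset ι)} (hA : A ⊆ F)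
    (hb : bdry F A = bip x y τ) (hno : ∀ u ∈ verts F, ∃ s ∈ F, u ∈ s ∧ s ∉ A) :
    ∀ e ∈ τ.powersetCard 2, insert x (insert y e) ∈ F := by
  intro e he
  have hv : verts (bip x y τ) = insert x (insert y τ) := (bip_sphere hx.1 hx.2.1 hy.2.1 hxy).2
  have hsub : ∀ s ∈ A, s ⊆ insert x (insert y τ) := by
    intro s hs u hu
    by_contra hcon
    obtain ⟨s', hs', hus', hs'A⟩ := hno u (mem_verts.2 ⟨s, hA hs, hu⟩)
    exact hs'A ((side_vertex hF hA (by rw [hb, hv]; exact hcon) (hA hs) hs' hu hus').1 hs)
  have hmem : insert x e ∈ bdry F A := by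
    rw [hb]
    exact HTPa_mem_bip.2 ⟨x, e, Or.inl rfl, he, rfl⟩
  obtain ⟨s, hs⟩ := card_eq_one.1 (mem_bdry.1 hmem).2
  have hs' : s ∈ A.filter (fun s => insert x e ⊆ s) := by rw [hs]; simp
  rw [mem_filter] at hs'
  obtain ⟨hsA, hes⟩ := hs'
  have h4 := hF.card4 s (hA hsA)
  rw [mem_powersetCard] at he
  have hye : y ∉ e := fun h => hy.2.1 (he.1 h)
  have hxe : x ∉ e := fun h => hx.2.1 (he.1 h)
  have hc : (insert x (insert y e)).card = 4 := by
    rw [card_insert_of_notMem, card_insert_of_notMem hye, he.2]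
    simp only [mem_insert, not_or]
    exact ⟨hxy, hxe⟩
  by_cases hys : y ∈ s
  · have h1 : insert x (insert y e) ⊆ s := by
      intro z hz
      simp only [mem_insert] at hz
      rcases hz with rfl | rfl | hz
      · exact hes (mem_insert_self _ _)
      · exact hys
      · exact hes (mem_insert_of_mem hz)
    have h2 : insert x (insert y e) = s := eq_of_subset_of_card_le h1 (by rw [h4, hc])
    rw [h2]
    exact hA hsA
  · exfalso
    have h1 : s ⊆ insert x τ := by
      intro z hz
      have := hsub s hsA hz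
      simp only [mem_insert] at this ⊢
      rcases this with rfl | rfl | h
      · exact Or.inl rfl
      · exact absurd hz hys
      · exact Or.inr h
    have h2 : (insert x τ).card = 4 := by rw [card_insert_of_notMem hx.2.1, hx.1]
    have h3 : s = insert x τ := eq_of_subset_of_card_le h1 (by rw [h4, h2])
    exact hx.2.2.1 (mem_tris.2 ⟨hx.1, s, hA hsA, by rw [h3]; exact subset_insert _ _⟩)

end Pool.TSphH
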