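import Pool.Agent.Lib.MP_3de3a3_co.H.HMT
import Pool.Agent.Lib.MP_3de3a3_co.H.HTPa

/-! # Coloured pairs (cone point, missing triangle) (module HTPb)

PROOF. If F is empty everything is empty. Let f0 be a facet. P = the coloured pairs. T = P.image Prod.snd, a subset of TD F. For τ in T choose
x0(τ) with (x0(τ), τ) in P. Let P' = the pairs (y, τ) in P with y different from x0(τ); (P - P').card = T.card. For (y, τ) in P' let
Z(y, τ) = bip x0(τ) y τ, a 2-sphere with 5 vertices (`bip_sphere`), contained in tris F (`IsCone`). ZZ = P'.image Z. The map Z is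
injective on P': verts Z(y, τ) = {x0(τ), y} union τ; its part outside R is τ and its part inside R is {x0(τ), y}. By `exists_side` choose A(Z).
`laminar` applies: `sphere_minEven`, (NC) = `bip_NC`, (V): for (y', τ') different from (y, τ): if τ' is not τ an element of τ' - τ is not in
R, so not in verts Z; if τ' = τ then y' is not in {x0, y} and not in τ. So at most (verts F).card of the Z in ZZ have an interior vertex. For
the others `bip_bad` gives: insert x0 (insert y e) is in F for all e in τ.powersetCard 2; for one fixed e = e(τ) the triangle insert x0 e is in two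
facets (`two_facets`), so there are at most two such y for every τ in T. Together P.card <= T.card + (verts F).card + 2 T.card. -/

set_option autoImplicit false

namespace Pool.TSphH

open Finset
open Pool.TSph

variable {ι : Type*} [DecidableEq ι]

theorem HTPb_sub {F : Finset (Finset ι)} {x y : ι} {τ : Finset ι} (hx : IsCone F x τ)
    (hy : IsCone F y τ) : bip x y τ ⊆ tris F := by
  intro t ht
  obtain ⟨z, e, hz, he, rfl⟩ := HTPa_mem_bip.1 ht
  rcases hz with rfl | rfl
  · exact hx.2.2.2 e he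
  · exact hy.2.2.2 e he

theorem HTPb_verts {F : Finset (Finset ι)} {x y : ι} {τ : Finset ι} (hx : IsCone F x τ)
    (hy : IsCone F y τ) (hxy : x ≠ y) :
    verts (bip x y τ) = insert x (insert y τ) ∧ (verts (bip x y τ)).card = 5 := by
  have hv := (bip_sphere hx.1 hx.2.1 hy.2.1 hxy).2
  refine ⟨hv, ?_⟩
  rw [hv, card_insert_of_notMem, card_insert_of_notMem hy.2.1, hx.1]
  simp only [mem_insert, not_or]
  exact ⟨hxy, hx.2.1⟩

/-- the vertex set determines the coloured bipyramid -/
theorem HTPb_inj {R : Finset ι} {x y x' y' : ι} {τ τ' : Finset ι} (hxR : x ∈ R) (hyR : y ∈ R)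
    (hxR' : x' ∈ R) (hyR' : y' ∈ R) (hτ : Disjoint τ R) (hτ' : Disjoint τ' R)
    (hxy' : x' ≠ y') (h : insert x (insert y τ) = insert x' (insert y' τ'))
    (hxx : τ = τ' → x = x') : τ = τ' ∧ y' = y := by
  have hττ : τ = τ' := by
    ext u
    constructor
    · intro hu
      have hR : u ∉ R := disjoint_left.1 hτ hu
      have h1 : u ∈ insert x' (insert y' τ') := by
        rw [← h]; simp [hu]
      simp only [mem_insert] at h1
      rcases h1 with rfl | rfl | h1
      · exact absurd hxR' hR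
      · exact absurd hyR' hR
      · exact h1
    · intro hu
      have hR : u ∉ R := disjoint_left.1 hτ' hu
      have h1 : u ∈ insert x (insert y τ) := by
        rw [h]; simp [hu]
      simp only [mem_insert] at h1
      rcases h1 with rfl | rfl | h1
      · exact absurd hxR hR
      · exact absurd hyR hR
      · exact h1
  refine ⟨hττ, ?_⟩
  have hx := hxx hττ
  have h1 : y' ∈ insert x (insert y τ) := by rw [h]; simp
  simp only [mem_insert] at h1
  rcases h1 with h1 | h1 | h1
  · exact absurd (hx ▸ h1).symm hxy'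
  · exact h1
  · exact absurd hyR' (disjoint_left.1 hτ h1)

theorem colored {F : Finset (Finset ι)} (hF : IsSepMfd F) (R : Finset ι) :
    ((TP F).filter (fun q => q.1 ∈ R ∧ Disjoint q.2 R)).card ≤
      (verts F).card + 3 * (TD F).card := by
  classical
  rcases F.eq_empty_or_nonempty with h0 | ⟨f0, hf0⟩
  · have : (TP F).filter (fun q => q.1 ∈ R ∧ Disjoint q.2 R) = ∅ := by
      rw [eq_empty_iff_forall_notMem]
      rintro ⟨x, τ⟩ hq
      have hc := mem_TP.1 (mem_filter.1 hq).1
      obtain ⟨h3, -, -, he⟩ := hc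
      have hne : (τ.powersetCard 2).Nonempty := by
        rw [← card_pos, card_powersetCard, h3]
        decide
      obtain ⟨e, he'⟩ := hne
      obtain ⟨-, s, hs, -⟩ := mem_tris.1 (he e he')
      rw [h0] at hs
      exact notMem_empty s hs
    rw [this]
    simp
  set P := (TP F).filter (fun q => q.1 ∈ R ∧ Disjoint q.2 R) with hP
  have hmemP : ∀ x τ, (x, τ) ∈ P ↔ IsCone F x τ ∧ x ∈ R ∧ Disjoint τ R := by
    intro x τ
    rw [hP, mem_filter, mem_TP]
  set T := P.image Prod.snd with hT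
  have hTD : T.card ≤ (TD F).card := by
    apply card_le_card
    intro τ hτ
    rw [hT, mem_image] at hτ
    obtain ⟨⟨x, τ'⟩, hq, rfl⟩ := hτ
    exact mem_TD.2 ⟨x, ((hmemP x τ').1 hq).1⟩
  have hex : ∀ τ ∈ T, ∃ x, (x, τ) ∈ P := by
    intro τ hτ
    rw [hT, mem_image] at hτ
    obtain ⟨⟨x, τ'⟩, hq, rfl⟩ := hτ
    exact ⟨x, hq⟩
  have hnonempty : Nonempty ι := by
    have h4 : 0 < f0.card := by rw [hF.mfd.card4 f0 hf0]; norm_num
    obtain ⟨u, -⟩ := card_pos.1 h4
    exact ⟨u⟩
  choose! x0 hx0 using hex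
  have hTof : ∀ q ∈ P, q.2 ∈ T := fun q hq => mem_image_of_mem _ hq
  set P' := P.filter (fun q => q.1 ≠ x0 q.2) with hP'
  -- data of the elements of `P'`
  have hdat : ∀ q ∈ P', IsCone F (x0 q.2) q.2 ∧ IsCone F q.1 q.2 ∧ x0 q.2 ∈ R ∧ q.1 ∈ R ∧
      Disjoint q.2 R ∧ x0 q.2 ≠ q.1 ∧ q.2 ∈ T := by
    intro q hq
    rw [hP', mem_filter] at hq
    have h1 := (hmemP q.1 q.2).1 hq.1
    have h2 := (hmemP _ _).1 (hx0 q.2 (hTof q hq.1))
    exact ⟨h2.1, h1.1, h2.2.1, h1.2.1, h1.2.2, fun h => hq.2 h.symm, hTof q hq.1⟩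
  have hsplit : P.card ≤ P'.card + T.card := by
    have h1 : P.card = P'.card + (P.filter (fun q => ¬ q.1 ≠ x0 q.2)).card := by
      rw [hP']; exact (card_filter_add_card_filter_not _).symm
    have h2 : (P.filter (fun q => ¬ q.1 ≠ x0 q.2)).card ≤ T.card := by
      apply card_le_card_of_injOn (fun q => q.2)
      · intro q hq
        exact hTof q (mem_filter.1 (mem_coe.1 hq)).1
      · intro q hq q' hq' hqq
        have h3 := (mem_filter.1 (mem_coe.1 hq)).2
        have h4 := (mem_filter.1 (mem_coe.1 hq')).2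
        simp only at hqq
        push Not at h3 h4
        exact Prod.ext (by rw [h3, h4, hqq]) hqq
    omega
  set Zf : ι × Finset ι → Finset (Finset ι) := fun q => bip (x0 q.2) q.1 q.2 with hZf
  have hvinj : ∀ q ∈ P', ∀ q' ∈ P', verts (Zf q) = verts (Zf q') → q = q' := by
    intro q hq q' hq' h
    obtain ⟨a1, a2, a3, a4, a5, a6, -⟩ := hdat q hq
    obtain ⟨b1, b2, b3, b4, b5, b6, -⟩ := hdat q' hq'
    simp only [hZf] at h
    rw [(HTPb_verts a1 a2 a6).1, (HTPb_verts b1 b2 b6).1] at h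
    obtain ⟨h1, h2⟩ := HTPb_inj a3 a4 b3 b4 a5 b5 b6 h (fun hh => by rw [hh])
    exact Prod.ext h2.symm h1
  have hinj : Set.InjOn Zf (P' : Set (ι × Finset ι)) := by
    intro q hq q' hq' h
    exact hvinj q (mem_coe.1 hq) q' (mem_coe.1 hq') (by rw [h])
  set ZZ := P'.image Zf with hZZ
  have hexA : ∀ Z ∈ ZZ, ∃ A ⊆ F, f0 ∉ A ∧ bdry F A = Z := by
    intro Z hZ
    rw [hZZ, mem_image] at hZ
    obtain ⟨q, hq, rfl⟩ := hZ
    obtain ⟨a1, a2, a3, a4, a5, a6, -⟩ := hdat q hq
    exact exists_side hF hf0 (HTPb_sub a1 a2) (bip_sphere a1.1 a1.2.1 a2.2.1 a6).1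
      (le_of_eq (HTPb_verts a1 a2 a6).2)
  choose! A hA using hexA
  have hlam := laminar hF.mfd hf0 ZZ ?_ ?_ A hA ?_ ?_
  · -- the bad ones
    set Pb := P'.filter (fun q => ¬ ∃ u ∈ verts F, ∀ s ∈ F, u ∈ s → s ∈ A (Zf q)) with hPb
    set Pg := P'.filter (fun q => ∃ u ∈ verts F, ∀ s ∈ F, u ∈ s → s ∈ A (Zf q)) with hPg
    have h1 : P'.card = Pg.card + Pb.card := (card_filter_add_card_filter_not _).symm
    have h2 : Pg.card ≤ (verts F).card := by
      refine le_trans ?_ hlam
      apply card_le_card_of_injOn Zf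
      · intro q hq
        rw [hPg, mem_coe, mem_filter] at hq
        exact mem_coe.2 (mem_filter.2 ⟨mem_image_of_mem _ hq.1, hq.2⟩)
      · intro q hq q' hq' h
        exact hinj (mem_coe.2 (mem_filter.1 (mem_coe.1 hq)).1)
          (mem_coe.2 (mem_filter.1 (mem_coe.1 hq')).1) h
    have h3 : Pb.card ≤ 2 * T.card := by
      have hmaps : ∀ q ∈ Pb, q.2 ∈ T := by
        intro q hq
        rw [hPb, mem_filter] at hq
        exact (hdat q hq.1).2.2.2.2.2.2
      refine card_le_mul_card_image_of_maps_to hmaps 2 ?_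
      intro τ hτ
      have hx0τ := (hmemP _ _).1 (hx0 τ hτ)
      have hne : (τ.powersetCard 2).Nonempty := by
        rw [← card_pos, card_powersetCard, hx0τ.1.1]
        decide
      obtain ⟨e, he⟩ := hne
      have htri : insert (x0 τ) e ∈ tris F := hx0τ.1.2.2.2 e he
      rw [← two_facets hF.mfd htri]
      apply card_le_card_of_injOn (fun q => insert (x0 τ) (insert q.1 e))
      · intro q hq
        rw [mem_coe, mem_filter] at hq
        obtain ⟨hq1, hq2⟩ := hq
        rw [hPb, mem_filter] at hq1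
        obtain ⟨a1, a2, a3, a4, a5, a6, -⟩ := hdat q hq1.1
        have hno : ∀ u ∈ verts F, ∃ s ∈ F, u ∈ s ∧ s ∉ A (Zf q) := by
          intro u hu
          by_contra hcon
          apply hq1.2
          refine ⟨u, hu, fun s hs hus => ?_⟩
          by_contra hsA
          exact hcon ⟨s, hs, hus, hsA⟩
        obtain ⟨hAF, -, hAb⟩ := hA (Zf q) (mem_image_of_mem _ hq1.1)
        have hb := bip_bad hF.mfd a1 a2 a6 hAF hAb hno e (by rw [hq2]; exact he)
        rw [hq2] at hb
        refine mem_coe.2 (mem_filter.2 ⟨hb, ?_⟩)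
        intro z hz
        simp only [mem_insert] at hz ⊢
        tauto
      · intro q hq q' hq' hqq
        rw [mem_coe, mem_filter] at hq hq'
        obtain ⟨hq1, hq2⟩ := hq
        obtain ⟨hq1', hq2'⟩ := hq'
        rw [hPb, mem_filter] at hq1 hq1'
        obtain ⟨a1, a2, a3, a4, a5, a6, -⟩ := hdat q hq1.1
        obtain ⟨b1, b2, b3, b4, b5, b6, -⟩ := hdat q' hq1'.1
        rw [mem_powersetCard] at he
        have hmem : q.1 ∈ insert (x0 τ) (insert q'.1 e) := by
          simp only at hqq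
          rw [← hqq]; simp
        simp only [mem_insert] at hmem
        have heq : q.1 = q'.1 := by
          rcases hmem with h | h | h
          · rw [hq2] at a6
            exact absurd h.symm a6
          · exact h
          · exact absurd a4 (disjoint_left.1 a5 (by rw [hq2]; exact he.1 h))
        exact Prod.ext heq (by rw [hq2, hq2'])
    omega
  · intro Z hZ
    rw [hZZ, mem_image] at hZ
    obtain ⟨q, hq, rfl⟩ := hZ
    obtain ⟨a1, -⟩ := hdat q hq
    have hne : (q.2.powersetCard 2).Nonempty := by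
      rw [← card_pos, card_powersetCard, a1.1]
      decide
    obtain ⟨e, he⟩ := hne
    exact ⟨_, HTPa_mem_bip.2 ⟨_, e, Or.inl rfl, he, rfl⟩⟩
  · intro Z hZ
    rw [hZZ, mem_image] at hZ
    obtain ⟨q, hq, rfl⟩ := hZ
    obtain ⟨a1, a2, a3, a4, a5, a6, -⟩ := hdat q hq
    exact sphere_minEven (bip_sphere a1.1 a1.2.1 a2.2.1 a6).1
  · intro Z hZ Z' hZ' hne
    rw [hZZ, mem_image] at hZ hZ'
    obtain ⟨q, hq, rfl⟩ := hZ
    obtain ⟨q', hq', rfl⟩ := hZ'
    obtain ⟨a1, a2, a3, a4, a5, a6, -⟩ := hdat q hq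
    obtain ⟨b1, b2, b3, b4, b5, b6, -⟩ := hdat q' hq'
    obtain ⟨hAF, -, hAb⟩ := hA (Zf q) (mem_image_of_mem _ hq)
    refine bip_NC hF.mfd a1 a2 b1 b2 a3 a4 b3 b4 a5 b5 a6 b6 ?_ hAF hAb
    intro hττ
    refine ⟨by rw [hττ], ?_⟩
    intro hyy
    apply hne
    rw [Prod.ext hyy hττ]
  · intro Z hZ Z' hZ' hne
    rw [hZZ, mem_image] at hZ hZ'
    obtain ⟨q, hq, rfl⟩ := hZ
    obtain ⟨q', hq', rfl⟩ := hZ'
    obtain ⟨a1, a2, a3, a4, a5, a6, -⟩ := hdat q hq
    obtain ⟨b1, b2, b3, b4, b5, b6, -⟩ := hdat q' hq'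
    intro hsub
    have heq : verts (Zf q') = verts (Zf q) :=
      eq_of_subset_of_card_le hsub
        (le_of_eq ((HTPb_verts a1 a2 a6).2.trans (HTPb_verts b1 b2 b6).2.symm))
    exact hne (by rw [hvinj q' hq' q hq heq])

end Pool.TSphH
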