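import Pool.Agent.Lib.MP_3de3a3_co.H.HTopDef
import Pool.Agent.Lib.MP_3de3a3_co.MfdMap

/-! # The T-operation: the links away from the cycle (module HTopLinkA)

PROOF. Every facet of F containing x is insert x t with t in link F x = A union B. y is in no facet of F. τ is not in tris F, so τ is in no facet of F, in particular τ is not in A, B.
* `top_link_x`: the elements of top F x y τ A containing x are the insert x t, t in B, and insert x τ (elements insert y t do not contain x: x is not in t, x is not y).
* `top_link_y`: the insert y t, t in A, and insert y τ.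
* `top_link_far`: z in verts F, z not x, z not in τ. If z is not in verts (insert τ A): no removed and no new facet contains z, so the link is link F z. Otherwise z is not in verts (insert τ B) (vAB), so
 every facet of F containing x and z is insert x t with t in A and z in t, and it is replaced by insert y t: link (top F x y τ A) z is the image of link F z under s -> s.image (Equiv.swap x y) (elements of
 link F z do not contain y). It is a sphere by `MfdMap_sphere`. -/

set_option autoImplicit false

namespace Pool.TSphH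

open Finset
open Pool.TSph

variable {ι : Type*} [DecidableEq ι]

namespace TopData

variable {F : Finset (Finset ι)} {x y : ι} {τ : Finset ι} {A B : Finset (Finset ι)}

theorem τ3 (h : TopData F x y τ A B) : τ.card = 3 := h.cone.1

theorem xτ (h : TopData F x y τ A B) : x ∉ τ := h.cone.2.1

theorem τF (h : TopData F x y τ A B) : τ ∉ tris F := h.cone.2.2.1

theorem τV (h : TopData F x y τ A B) : τ ⊆ verts F := by
  classical
  have h0 := (mem_TP.2 h.cone)
  unfold TP at h0
  rw [mem_filter, mem_product, mem_powersetCard] at h0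
  exact h0.1.2.1

theorem xV (h : TopData F x y τ A B) : x ∈ verts F := by
  classical
  have h0 := (mem_TP.2 h.cone)
  unfold TP at h0
  rw [mem_filter, mem_product] at h0
  exact h0.1.1

theorem yτ (h : TopData F x y τ A B) : y ∉ τ := fun hy => h.hy (h.τV hy)

theorem xy (h : TopData F x y τ A B) : x ≠ y := fun e => h.hy (e ▸ h.xV)

theorem yF (h : TopData F x y τ A B) {s : Finset ι} (hs : s ∈ F) : y ∉ s := fun hy =>
  h.hy (mem_verts.2 ⟨s, hs, hy⟩)

theorem not_sub (h : TopData F x y τ A B) {s : Finset ι} (hs : s ∈ F) : ¬ τ ⊆ s := fun e =>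
  h.τF (mem_tris.2 ⟨h.τ3, s, hs, e⟩)

theorem AL (h : TopData F x y τ A B) {t : Finset ι} (ht : t ∈ A) : x ∉ t ∧ insert x t ∈ F := by
  have : t ∈ link F x := by rw [← h.un]; exact mem_union_left _ ht
  exact mem_link'.1 this

theorem BL (h : TopData F x y τ A B) {t : Finset ι} (ht : t ∈ B) : x ∉ t ∧ insert x t ∈ F := by
  have : t ∈ link F x := by rw [← h.un]; exact mem_union_right _ ht
  exact mem_link'.1 this

theorem yA (h : TopData F x y τ A B) {t : Finset ι} (ht : t ∈ A) : y ∉ t := fun hy =>
  h.yF (h.AL ht).2 (mem_insert_of_mem hy)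

theorem AorB (h : TopData F x y τ A B) {t : Finset ι} (hx : x ∉ t) (ht : insert x t ∈ F) :
    t ∈ A ∨ t ∈ B := by
  have : t ∈ link F x := mem_link'.2 ⟨hx, ht⟩
  rw [← h.un, mem_union] at this
  exact this

theorem τA (h : TopData F x y τ A B) : τ ∉ A := fun ht =>
  h.not_sub (h.AL ht).2 (subset_insert _ _)

theorem τB (h : TopData F x y τ A B) : τ ∉ B := fun ht =>
  h.not_sub (h.BL ht).2 (subset_insert _ _)

/-- the facets of `F` which stay -/
theorem keep (h : TopData F x y τ A B) {s : Finset ι} (hs : s ∈ F) (hx : x ∉ s) :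
    s ∈ top F x y τ A :=
  mem_top.2 (Or.inl ⟨hs, fun t _ e => hx (e ▸ mem_insert_self x t)⟩)

theorem keepB (h : TopData F x y τ A B) {t : Finset ι} (ht : t ∈ B) :
    insert x t ∈ top F x y τ A := by
  obtain ⟨hx, hF⟩ := h.BL ht
  refine mem_top.2 (Or.inl ⟨hF, fun t' ht' e => ?_⟩)
  have hx' := (h.AL ht').1
  have e1 : t' = t := by rw [← erase_insert hx', e, erase_insert hx]
  exact disjoint_left.1 h.disj (e1 ▸ ht') ht

theorem newA {t : Finset ι} (ht : t ∈ A) : insert y t ∈ top F x y τ A :=
  mem_top.2 (Or.inr (Or.inl ⟨t, ht, rfl⟩))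

theorem newx : insert x τ ∈ top F x y τ A := mem_top.2 (Or.inr (Or.inr (Or.inl rfl)))

theorem newy : insert y τ ∈ top F x y τ A := mem_top.2 (Or.inr (Or.inr (Or.inr rfl)))

/-- a vertex of `A` and of `B` is in `τ` -/
theorem cut (h : TopData F x y τ A B) {z : ι} {t t' : Finset ι} (ht : t ∈ A) (hz : z ∈ t)
    (ht' : t' ∈ B) (hz' : z ∈ t') : z ∈ τ := by
  rw [← h.vAB, mem_inter]
  exact ⟨mem_verts.2 ⟨t, mem_insert_of_mem ht, hz⟩, mem_verts.2 ⟨t', mem_insert_of_mem ht', hz'⟩⟩

end TopData

theorem top_link_x {F : Finset (Finset ι)} {x y : ι} {τ : Finset ι} {A B : Finset (Finset ι)}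
    (h : TopData F x y τ A B) : link (top F x y τ A) x = insert τ B := by
  ext t
  rw [mem_link', mem_insert]
  constructor
  · rintro ⟨hx, ht⟩
    rcases mem_top.1 ht with ⟨hF, hn⟩ | ⟨t', ht', e⟩ | e | e
    · rcases h.AorB hx hF with hA | hB
      · exact absurd rfl (hn t hA)
      · exact Or.inr hB
    · have h1 : x ∈ insert y t' := by rw [e]; exact mem_insert_self _ _
      rcases mem_insert.1 h1 with h2 | h2
      · exact absurd h2 h.xy
      · exact absurd h2 (h.AL ht').1
    · left
      rw [← erase_insert hx, e, erase_insert h.xτ]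
    · have h1 : x ∈ insert y τ := by rw [← e]; exact mem_insert_self _ _
      rcases mem_insert.1 h1 with h2 | h2
      · exact absurd h2 h.xy
      · exact absurd h2 h.xτ
  · rintro (rfl | ht)
    · exact ⟨h.xτ, TopData.newx⟩
    · exact ⟨(h.BL ht).1, h.keepB ht⟩

theorem top_link_y {F : Finset (Finset ι)} {x y : ι} {τ : Finset ι} {A B : Finset (Finset ι)}
    (h : TopData F x y τ A B) : link (top F x y τ A) y = insert τ A := by
  ext t
  rw [mem_link', mem_insert]
  constructor
  · rintro ⟨hy, ht⟩
    rcases mem_top.1 ht with ⟨hF, -⟩ | ⟨t', ht', e⟩ | e | e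
    · exact absurd (mem_insert_self y t) (h.yF hF)
    · right
      have e1 : t' = t := by rw [← erase_insert (h.yA ht'), e, erase_insert hy]
      exact e1 ▸ ht'
    · have h1 : y ∈ insert x τ := by rw [← e]; exact mem_insert_self _ _
      rcases mem_insert.1 h1 with h2 | h2
      · exact absurd h2.symm h.xy
      · exact absurd h2 h.yτ
    · left
      rw [← erase_insert hy, e, erase_insert h.yτ]
  · rintro (rfl | ht)
    · exact ⟨h.yτ, TopData.newy⟩
    · exact ⟨h.yA ht, TopData.newA ht⟩

/-- the image of a set under the transposition -/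
private theorem swap_image_of {x y : ι} (hxy : x ≠ y) {s : Finset ι} (hx : x ∈ s) (hy : y ∉ s) :
    s.image (Equiv.swap x y) = insert y (s.erase x) := by
  ext z
  rw [mem_image, mem_insert, mem_erase]
  constructor
  · rintro ⟨w, hw, rfl⟩
    by_cases hwx : w = x
    · left; rw [hwx, Equiv.swap_apply_left]
    · have hwy : w ≠ y := fun e => hy (e ▸ hw)
      right
      rw [Equiv.swap_apply_of_ne_of_ne hwx hwy]
      exact ⟨hwx, hw⟩
  · rintro (rfl | ⟨h1, h2⟩)
    · exact ⟨x, hx, Equiv.swap_apply_left _ _⟩
    · have hzy : z ≠ y := fun e => hy (e ▸ h2)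
      exact ⟨z, h2, Equiv.swap_apply_of_ne_of_ne h1 hzy⟩

private theorem swap_image_not {x y : ι} {s : Finset ι} (hx : x ∉ s) (hy : y ∉ s) :
    s.image (Equiv.swap x y) = s := by
  ext z
  rw [mem_image]
  constructor
  · rintro ⟨w, hw, rfl⟩
    have hwx : w ≠ x := fun e => hx (e ▸ hw)
    have hwy : w ≠ y := fun e => hy (e ▸ hw)
    rwa [Equiv.swap_apply_of_ne_of_ne hwx hwy]
  · intro hz
    have hzx : z ≠ x := fun e => hx (e ▸ hz)
    have hzy : z ≠ y := fun e => hy (e ▸ hz)
    exact ⟨z, hz, Equiv.swap_apply_of_ne_of_ne hzx hzy⟩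

theorem top_link_far {F : Finset (Finset ι)} {x y : ι} {τ : Finset ι}
    {A B : Finset (Finset ι)} (h : TopData F x y τ A B) {z : ι} (hz : z ∈ verts F)
    (hzx : z ≠ x) (hzτ : z ∉ τ) : IsSphere2 (link (top F x y τ A) z) := by
  have hzy : z ≠ y := fun e => h.hy (e ▸ hz)
  have hS := h.mfd.sphere z hz
  by_cases hA : ∃ t ∈ A, z ∈ t
  · -- `z` is on the side of `A`
    obtain ⟨t0, ht0, hzt0⟩ := hA
    have hnB : ∀ t ∈ B, z ∉ t := fun t ht hzt => hzτ (h.cut ht0 hzt0 ht hzt)
    -- facets containing x and z
    have hxz : ∀ s ∈ F, x ∈ s → z ∈ s → s.erase x ∈ A := by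
      intro s hs hx hzs
      have h1 : insert x (s.erase x) ∈ F := by rwa [insert_erase hx]
      rcases h.AorB (notMem_erase _ _) h1 with h2 | h2
      · exact h2
      · exact absurd (mem_erase.2 ⟨hzx, hzs⟩) (hnB _ h2)
    have heq : link (top F x y τ A) z = (link F z).image (fun s => s.image (Equiv.swap x y)) := by
      ext t
      rw [mem_link', mem_image]
      constructor
      · rintro ⟨hzt, ht⟩
        rcases mem_top.1 ht with ⟨hF, hn⟩ | ⟨t', ht', e⟩ | e | e
        · have hx : x ∉ t := by
            intro hx
            have h1 := hxz _ hF (mem_insert_of_mem hx) (mem_insert_self _ _)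
            exact hn _ h1 (insert_erase (mem_insert_of_mem hx))
          have hy : y ∉ t := fun hy => h.yF hF (mem_insert_of_mem hy)
          exact ⟨t, mem_link'.2 ⟨hzt, hF⟩, swap_image_not hx hy⟩
        · have hzt' : z ∈ t' := by
            have h1 : z ∈ insert y t' := by rw [e]; exact mem_insert_self _ _
            exact mem_of_mem_insert_of_ne h1 hzy
          obtain ⟨hxt', hF⟩ := h.AL ht'
          refine ⟨(insert x t').erase z, mem_link.2 ⟨_, hF, mem_insert_of_mem hzt', rfl⟩, ?_⟩
          have hyt' := h.yA ht'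
          rw [swap_image_of h.xy (mem_erase.2 ⟨hzx.symm, mem_insert_self _ _⟩)
            (fun hy => h.yF hF (mem_of_mem_erase hy))]
          have e1 : t = (insert y t').erase z := by rw [e, erase_insert hzt]
          rw [e1]
          ext w
          simp only [mem_insert, mem_erase]
          constructor
          · rintro (rfl | ⟨h1, h2, h3⟩)
            · exact ⟨hzy.symm, Or.inl rfl⟩
            · rcases h3 with h3 | h3
              · exact absurd h3 h1
              · exact ⟨h2, Or.inr h3⟩
          · rintro ⟨h1, h2 | h2⟩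
            · exact Or.inl h2
            · exact Or.inr ⟨fun e => hxt' (e ▸ h2), h1, Or.inr h2⟩
        · have h1 : z ∈ insert x τ := by rw [← e]; exact mem_insert_self _ _
          rcases mem_insert.1 h1 with h2 | h2
          · exact absurd h2 hzx
          · exact absurd h2 hzτ
        · have h1 : z ∈ insert y τ := by rw [← e]; exact mem_insert_self _ _
          rcases mem_insert.1 h1 with h2 | h2
          · exact absurd h2 hzy
          · exact absurd h2 hzτ
      · rintro ⟨s, hs, rfl⟩
        obtain ⟨hzs, hsF⟩ := mem_link'.1 hs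
        have hys : y ∉ s := fun hy => h.yF hsF (mem_insert_of_mem hy)
        by_cases hxs : x ∈ s
        · rw [swap_image_of h.xy hxs hys]
          refine ⟨?_, ?_⟩
          · rw [mem_insert, mem_erase, not_or]
            exact ⟨hzy, fun e => hzs e.2⟩
          · have h1 := hxz _ hsF (mem_insert_of_mem hxs) (mem_insert_self _ _)
            have h2 : insert z (insert y (s.erase x)) = insert y ((insert z s).erase x) := by
              rw [Finset.insert_comm, erase_insert_of_ne hzx]
            rw [h2]
            exact TopData.newA h1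
        · rw [swap_image_not hxs hys]
          refine ⟨hzs, h.keep hsF ?_⟩
          rw [mem_insert, not_or]
          exact ⟨hzx.symm, hxs⟩
    rw [heq]
    exact MfdMap_sphere hS (Equiv.swap x y).injective
  · -- `z` is on no removed and on no new facet
    have hA' : ∀ t ∈ A, z ∉ t := fun t ht hzt => hA ⟨t, ht, hzt⟩
    have heq : link (top F x y τ A) z = link F z := by
      ext t
      rw [mem_link', mem_link']
      constructor
      · rintro ⟨hzt, ht⟩
        refine ⟨hzt, ?_⟩
        rcases mem_top.1 ht with ⟨hF, -⟩ | ⟨t', ht', e⟩ | e | e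
        · exact hF
        · have h1 : z ∈ insert y t' := by rw [e]; exact mem_insert_self _ _
          exact absurd (mem_of_mem_insert_of_ne h1 hzy) (hA' t' ht')
        · have h1 : z ∈ insert x τ := by rw [← e]; exact mem_insert_self _ _
          rcases mem_insert.1 h1 with h2 | h2
          · exact absurd h2 hzx
          · exact absurd h2 hzτ
        · have h1 : z ∈ insert y τ := by rw [← e]; exact mem_insert_self _ _
          rcases mem_insert.1 h1 with h2 | h2
          · exact absurd h2 hzy
          · exact absurd h2 hzτ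
      · rintro ⟨hzt, hF⟩
        refine ⟨hzt, mem_top.2 (Or.inl ⟨hF, fun t' ht' e => ?_⟩)⟩
        have h1 : z ∈ insert x t' := by rw [e]; exact mem_insert_self _ _
        exact hA' t' ht' (mem_of_mem_insert_of_ne h1 hzx)
    rw [heq]
    exact hS

end Pool.TSphH
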