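import Pool.Agent.Lib.MP_3de3a3_co.H.HTopDef
import Pool.Agent.Lib.MP_3de3a3_co.H.HTopLinkA

/-! # The T-operation and the other cones (module HTopCone)

PROOF. τ' is contained in verts F (see `mem_TP`), so y is not in τ'. τ' is not in tris (top F x y τ A): if τ' is contained in a facet s of top: s in F is impossible; s = insert y t with t in A: then τ' is contained in t, so in
insert x t in F; s = insert x τ or insert y τ: then τ' is contained in τ, so τ' = τ. Now the triangles insert x' e, e in τ'.powersetCard 2.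
Case x' not x: insert x' e is contained in s in F. If s is in top: fine. Otherwise s = insert x t, t in A, and x' in t, e contained in t (x is not in τ'), so insert x' e is contained in insert y t in top.
Case x' = x: τ' is in Sp (link F x) (`cone_Sp`). There is u in τ', not in τ (same number of elements). u is a vertex of link F x = A union B; by vAB it is a vertex of exactly one of insert τ A, insert τ B.
 If of insert τ A: y is a cone point: for v in τ', v not u: u, v are in a triangle of link F x, which is in A, so insert y {u, v} is in tris top; so all elements of τ' are vertices of insert τ A. The remaining pair {v, v'}: it is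
 contained in a triangle of A (fine) or of B: then v, v' are in verts (insert τ A) and verts (insert τ B), so in τ, and insert y {v, v'} is contained in insert y τ.
 If of insert τ B: the same with x instead of y: for t in B the facet insert x t is in top (t is not in A), and insert x τ is in top. -/

set_option autoImplicit false

namespace Pool.TSphH

open Finset
open Pool.TSph

variable {ι : Type*} [DecidableEq ι]

private theorem cone_verts {F : Finset (Finset ι)} {x : ι} {τ : Finset ι} (h : IsCone F x τ) :
    τ ⊆ verts F := by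
  classical
  have h0 := (mem_TP.2 h)
  unfold TP at h0
  rw [mem_filter, mem_product, mem_powersetCard] at h0
  exact h0.1.2.1

theorem top_cone {F : Finset (Finset ι)} {x y : ι} {τ : Finset ι} {A B : Finset (Finset ι)}
    (h : TopData F x y τ A B) {x' : ι} {τ' : Finset ι} (h' : IsCone F x' τ') (hne : τ' ≠ τ)
    (hx : x ∉ τ') : IsCone (top F x y τ A) x' τ' ∨ (x' = x ∧ IsCone (top F x y τ A) y τ') := by
  obtain ⟨h3, hx', hτ', hed⟩ := h'
  have hyτ' : y ∉ τ' := fun e => h.hy (cone_verts ⟨h3, hx', hτ', hed⟩ e)
  have hsubF : ∀ s ∈ F, ¬ τ' ⊆ s := fun s hs e => hτ' (mem_tris.2 ⟨h3, s, hs, e⟩)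
  have hττ : ¬ τ' ⊆ τ := fun e => hne (eq_of_subset_of_card_le e (by rw [h3, h.τ3]))
  have hdrop : ∀ (c : ι) (t : Finset ι), c ∉ τ' → τ' ⊆ insert c t → τ' ⊆ t := by
    intro c t hc hs z hz
    exact mem_of_mem_insert_of_ne (hs hz) fun e => hc (e ▸ hz)
  have hnt : τ' ∉ tris (top F x y τ A) := by
    intro ht
    obtain ⟨-, s, hs, hsub⟩ := mem_tris.1 ht
    rcases mem_top.1 hs with ⟨hF, -⟩ | ⟨t, ht, rfl⟩ | rfl | rfl
    · exact hsubF s hF hsub
    · exact hsubF _ (h.AL ht).2 ((hdrop y t hyτ' hsub).trans (subset_insert _ _))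
    · exact hττ (hdrop x τ hx hsub)
    · exact hττ (hdrop y τ hyτ' hsub)
  by_cases hxx : x' = x
  · subst hxx
    have hcard : ∀ c ∉ τ', ∀ e ∈ τ'.powersetCard 2, (insert c e).card = 3 := by
      intro c hc e he
      rw [mem_powersetCard] at he
      rw [card_insert_of_notMem (fun hce => hc (he.1 hce)), he.2]
    obtain ⟨-, -, hadj⟩ := mem_Sp.1 (cone_Sp ⟨h3, hx', hτ', hed⟩)
    obtain ⟨u, hu, huτ⟩ := not_subset.1 hττ
    have key : ∀ (P Q : Finset (Finset ι)) (c : ι), P ∪ Q = link F x' →
        (∀ z t t', t ∈ P → z ∈ t → t' ∈ Q → z ∈ t' → z ∈ τ) →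
        (∀ t ∈ P, insert c t ∈ top F x' y τ A) → insert c τ ∈ top F x' y τ A → c ∉ τ' →
        (∃ t0 ∈ P, u ∈ t0) → IsCone (top F x' y τ A) c τ' := by
      intro P Q c hPQ hcut hP hτc hc hu0
      obtain ⟨t0, ht0, hut0⟩ := hu0
      -- every vertex of τ' is on P
      have hall : ∀ v ∈ τ', ∃ t ∈ P, v ∈ t := by
        intro v hv
        by_cases huv : u = v
        · subst huv; exact ⟨t0, ht0, hut0⟩
        · obtain ⟨-, s, hs, hus, hvs⟩ := hadj u hu v hv huv
          rw [← hPQ, mem_union] at hs
          rcases hs with hs | hs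
          · exact ⟨s, hs, hvs⟩
          · exact absurd (hcut u t0 s ht0 hut0 hs hus) huτ
      refine ⟨h3, hc, hnt, fun e he => ?_⟩
      have he' := he
      rw [mem_powersetCard] at he'
      obtain ⟨v, w, hvw, hevw⟩ := card_eq_two.1 he'.2
      have hv : v ∈ τ' := he'.1 (by rw [hevw]; simp)
      have hw : w ∈ τ' := he'.1 (by rw [hevw]; simp)
      have hesub : ∀ s : Finset ι, v ∈ s → w ∈ s → e ⊆ s := by
        intro s h1 h2 z hz
        rw [hevw] at hz
        simp only [mem_insert, mem_singleton] at hz
        rcases hz with rfl | rfl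
        · exact h1
        · exact h2
      obtain ⟨-, s, hs, hvs, hws⟩ := hadj v hv w hw hvw
      rw [← hPQ, mem_union] at hs
      rw [mem_tris]
      refine ⟨hcard c hc e he, ?_⟩
      rcases hs with hs | hs
      · exact ⟨_, hP s hs, insert_subset_insert _ (hesub s hvs hws)⟩
      · obtain ⟨t1, ht1, hvt1⟩ := hall v hv
        obtain ⟨t2, ht2, hwt2⟩ := hall w hw
        exact ⟨_, hτc, insert_subset_insert _ (hesub τ (hcut v t1 s ht1 hvt1 hs hvs)
          (hcut w t2 s ht2 hwt2 hs hws))⟩
    -- a neighbour of u in τ'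
    have h1 : (τ'.erase u).Nonempty := by
      rw [← card_pos, card_erase_of_mem hu, h3]; norm_num
    obtain ⟨v, hv⟩ := h1
    rw [mem_erase] at hv
    obtain ⟨-, s, hs, hus, -⟩ := hadj u hu v hv.2 (Ne.symm hv.1)
    rw [← h.un, mem_union] at hs
    rcases hs with hs | hs
    · right
      refine ⟨rfl, key A B y h.un ?_ (fun t ht => TopData.newA ht) TopData.newy hyτ' ⟨s, hs, hus⟩⟩
      exact fun z t t' ht hz ht' hz' => h.cut ht hz ht' hz'
    · left
      refine key B A x' (by rw [union_comm, h.un]) ?_ (fun t ht => h.keepB ht) TopData.newx hx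
        ⟨s, hs, hus⟩
      exact fun z t t' ht hz ht' hz' => h.cut ht' hz' ht hz
  · left
    refine ⟨h3, hx', hnt, fun e he => ?_⟩
    obtain ⟨hc3, s, hs, hsub⟩ := mem_tris.1 (hed e he)
    rw [mem_tris]
    refine ⟨hc3, ?_⟩
    by_cases hst : ∀ t ∈ A, insert x t ≠ s
    · exact ⟨s, mem_top.2 (Or.inl ⟨hs, hst⟩), hsub⟩
    · push Not at hst
      obtain ⟨t, ht, rfl⟩ := hst
      refine ⟨_, TopData.newA ht, fun z hz => ?_⟩
      have hzx : z ≠ x := by
        rintro rfl
        rcases mem_insert.1 hz with h1 | h1
        · exact hxx h1.symm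
        · exact hx ((mem_powersetCard.1 he).1 h1)
      exact mem_insert_of_mem (mem_of_mem_insert_of_ne (hsub hz) hzx)

end Pool.TSphH
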