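import Pool.Agent.Lib.MP_3de3a3_co.H.HHalf

/-! # The T-operation: definitions (module HTopDef) -/

set_option autoImplicit false

namespace Pool.TSphH

open Finset
open Pool.TSph

variable {ι : Type*} [DecidableEq ι]

/-- The T-operation: `τ` is a missing triangle with the cone point `x`, it divides the link of
`x` into `A` and `B`; the facets `x t`, `t ∈ A`, are replaced by `y t`, and `x τ`, `y τ` are
added. -/
def top (F : Finset (Finset ι)) (x y : ι) (τ : Finset ι) (A : Finset (Finset ι)) :
    Finset (Finset ι) :=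
  (F \ A.image (insert x)) ∪ A.image (insert y) ∪ {insert x τ, insert y τ}

/-- The hypotheses of the T-operation. -/
structure TopData (F : Finset (Finset ι)) (x y : ι) (τ : Finset ι) (A B : Finset (Finset ι)) :
    Prop where
  mfd : IsMfd3 F
  cone : IsCone F x τ
  hy : y ∉ verts F
  un : A ∪ B = link F x
  disj : Disjoint A B
  sA : IsSphere2 (insert τ A)
  sB : IsSphere2 (insert τ B)
  vAB : verts (insert τ A) ∩ verts (insert τ B) = τ

theorem mem_top {F : Finset (Finset ι)} {x y : ι} {τ : Finset ι} {A : Finset (Finset ι)}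
    {s : Finset ι} : s ∈ top F x y τ A ↔ (s ∈ F ∧ ∀ t ∈ A, insert x t ≠ s) ∨
      (∃ t ∈ A, insert y t = s) ∨ s = insert x τ ∨ s = insert y τ := by
  unfold top
  simp only [mem_union, mem_sdiff, mem_image, mem_insert, mem_singleton, not_exists, not_and,
    or_assoc, ne_eq]

/-- A missing triangle with the cone point `x` is a 3-cycle of the link of `x`. -/
theorem cone_Sp {F : Finset (Finset ι)} {x : ι} {τ : Finset ι} (h : IsCone F x τ) :
    τ ∈ Sp (link F x) := by
  obtain ⟨h3, hx, hτ, he⟩ := h
  rw [mem_Sp]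
  refine ⟨h3, ?_, ?_⟩
  · intro hl
    rw [mem_link'] at hl
    exact hτ (mem_tris.2 ⟨h3, _, hl.2, subset_insert _ _⟩)
  · intro u hu v hv huv
    have h2 : ({u, v} : Finset ι) ∈ τ.powersetCard 2 := by
      rw [mem_powersetCard]
      refine ⟨?_, card_pair huv⟩
      intro z hz
      simp only [mem_insert, mem_singleton] at hz
      rcases hz with rfl | rfl
      · exact hu
      · exact hv
    obtain ⟨-, s, hs, hsub⟩ := mem_tris.1 (he _ h2)
    refine ⟨huv, s.erase x, mem_link.2 ⟨s, hs, hsub (by simp), rfl⟩, mem_erase.2 ⟨?_, hsub (by simp)⟩,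
      mem_erase.2 ⟨?_, hsub (by simp)⟩⟩
    · rintro rfl; exact hx hu
    · rintro rfl; exact hx hv

theorem exists_topData {F : Finset (Finset ι)} (hF : IsMfd3 F) {x y : ι} {τ : Finset ι}
    (h : IsCone F x τ) (hy : y ∉ verts F) : ∃ A B, TopData F x y τ A B := by
  have hx : x ∈ verts F := by
    have h0 := (mem_TP.2 h)
    unfold TP at h0
    classical
    rw [mem_filter, mem_product] at h0
    exact h0.1.1
  obtain ⟨A, B, h1, h2, h3, h4, h5⟩ := half (hF.sphere x hx) (cone_Sp h)
  exact ⟨A, B, hF, h, hy, h1, h2, h3, h4, h5⟩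

end Pool.TSphH
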