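import Pool.Agent.Lib.MP_3de3a3_co.H.HTopDef
import Pool.Agent.Lib.MP_3de3a3_co.H.HTopLinkA
import Pool.Agent.Lib.MP_3de3a3_co.H.HSplit
import Pool.Agent.Lib.MP_3de3a3_co.LinkCyc
import Pool.Agent.Lib.MP_3de3a3_co.Move31

/-! # The T-operation: the links of the vertices of the cycle (module HTopLinkB)

PROOF. `exists_arc`: S is a 2-sphere, τ in S, z in τ. Let d be the degree of z in S, a its link cycle (`exists_linkCycle`). The d triangles {z, a i, a (i+1)} are different (d >= 3), so they are all the triangles of S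
at z. τ = {z, a j, a (j+1)} for one j. Let m = d - 1 and p k = a (j + 1 + k) (k as an element of Fin d): p 0 = a (j+1), p m = a j.
`top_link_tau`: apply this to S = insert τ A: τ = {z, p 0, p m}, the triangles of A at z are the {z, p i, p (i+1)}, i < m. Let L = link F z. {x, p i, p (i+1)} is in L because insert x {z, p i, p (i+1)} is in F. p 0, p m are
not adjacent in L, because τ = {z, p 0, p m} is not in tris F. y is not in verts L. `split` gives a sphere, and it is link (top F x y τ A) z: the facets of F containing z which are removed are the insert x t, t in A, z in t, i.e.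
t = {z, p i, p (i+1)}; they are replaced by insert y t; and the new facets insert x τ, insert y τ give {x, p 0, p m}, {y, p 0, p m}. -/

set_option autoImplicit false

namespace Pool.TSphH

open Finset
open Pool.TSph

variable {ι : Type*} [DecidableEq ι]

theorem exists_arc {S : Finset (Finset ι)} (hS : IsSphere2 S) {τ : Finset ι} (hτ : τ ∈ S)
    {z : ι} (hz : z ∈ τ) : ∃ (m : ℕ) (p : ℕ → ι), 2 ≤ m ∧
      (∀ i ≤ m, ∀ j ≤ m, p i = p j → i = j) ∧ τ = {z, p 0, p m} ∧
      ∀ t, t ∈ S.erase τ ∧ z ∈ t ↔ ∃ i < m, t = {z, p i, p (i + 1)} := by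
  have hzV : z ∈ verts S := mem_verts.2 ⟨τ, hτ, hz⟩
  have hd3 := three_le_degree hS hzV
  obtain ⟨d, hd⟩ : ∃ d, (S.filter (fun t => z ∈ t)).card = d := ⟨_, rfl⟩
  rw [hd] at hd3
  have hdp : 0 < d := by omega
  have : NeZero d := ⟨by omega⟩
  obtain ⟨a, ha⟩ := exists_linkCycle hS hzV (d := d) hd
  obtain ⟨b, hb⟩ : ∃ b : ℕ → ι, ∀ n, b n = a ⟨n % d, Nat.mod_lt _ hdp⟩ := ⟨_, fun _ => rfl⟩
  have hidx : ∀ n, (⟨n % d, Nat.mod_lt _ hdp⟩ : Fin d) + 1 = ⟨(n + 1) % d, Nat.mod_lt _ hdp⟩ := by
    intro n
    apply Fin.ext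
    rw [Fin.val_add]
    have h1 : ((1 : Fin d) : ℕ) = 1 % d := rfl
    simp only [h1]
    rw [← Nat.add_mod]
  have htri : ∀ n, ({z, b n, b (n + 1)} : Finset ι) ∈ S := by
    intro n
    have := ha.tri ⟨n % d, Nat.mod_lt _ hdp⟩
    rw [hidx] at this
    rw [hb, hb]
    exact this
  have hbeq : ∀ n k, b n = b k → n % d = k % d := by
    intro n k e
    rw [hb, hb] at e
    have := ha.inj e
    exact congrArg Fin.val this
  have hbeq' : ∀ n k, n % d = k % d → b n = b k := by
    intro n k e
    rw [hb, hb]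
    congr 1
    exact Fin.ext e
  have hbz : ∀ n, b n ≠ z := fun n => by rw [hb]; exact ha.ne _
  have hall : ∀ u, adj S z u → ∃ n < d, u = b n := by
    intro u hu
    obtain ⟨i, hi⟩ := (ha.all u).1 hu
    refine ⟨i, i.2, ?_⟩
    rw [hi, hb]
    congr 1
    exact Fin.ext (Nat.mod_eq_of_lt i.2).symm
  have hdif : ∀ n k, ({z, b n, b (n + 1)} : Finset ι) = {z, b k, b (k + 1)} →
      n % d = k % d := by
    intro n k e
    have h1 : b n ∈ ({z, b k, b (k + 1)} : Finset ι) := by rw [← e]; simp
    have h2 : b (n + 1) ∈ ({z, b k, b (k + 1)} : Finset ι) := by rw [← e]; simp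
    simp only [mem_insert, mem_singleton] at h1 h2
    rcases h1 with h1 | h1 | h1
    · exact absurd h1 (hbz n)
    · exact hbeq n k h1
    · have e1 := hbeq _ _ h1
      rcases h2 with h2 | h2 | h2
      · exact absurd h2 (hbz _)
      · have e2 := hbeq _ _ h2
        exfalso
        have e3 : (n + 1) % d = (k + 1 + 1) % d := Nat.ModEq.add_right 1 e1
        rw [e2] at e3
        have e4 : (k + 0) % d = (k + 2) % d := e3
        have e5 : 0 % d = 2 % d := Nat.ModEq.add_left_cancel' k e4
        rw [Nat.zero_mod, Nat.mod_eq_of_lt (by omega : 2 < d)] at e5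
        omega
      · have e2 := hbeq _ _ h2
        exact Nat.ModEq.add_right_cancel' 1 e2
  have hstar : ∀ t ∈ S, z ∈ t → ∃ n < d, t = {z, b n, b (n + 1)} := by
    intro t ht hzt
    obtain ⟨u, hu, huz⟩ := Finset.exists_mem_ne (by rw [hS.card3 t ht]; norm_num) z
    obtain ⟨n, hn, rfl⟩ := hall u ⟨Ne.symm huz, t, ht, hzt, hu⟩
    have hprev : ∃ k < d, b (k + 1) = b n ∧ k % d ≠ n % d := by
      rcases Nat.eq_zero_or_pos n with h0 | h0
      · refine ⟨d - 1, by omega, hbeq' _ _ ?_, ?_⟩
        · rw [h0, show d - 1 + 1 = d by omega, Nat.mod_self, Nat.zero_mod]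
        · rw [h0, Nat.zero_mod, Nat.mod_eq_of_lt (by omega)]
          omega
      · refine ⟨n - 1, by omega, ?_, ?_⟩
        · rw [show n - 1 + 1 = n by omega]
        · rw [Nat.mod_eq_of_lt (by omega), Nat.mod_eq_of_lt hn]
          omega
    obtain ⟨k, hk, hkn, hkne⟩ := hprev
    have t1 := htri k
    have t2 := htri n
    have hne : ({z, b k, b (k + 1)} : Finset ι) ≠ {z, b n, b (n + 1)} := fun e => hkne (hdif _ _ e)
    have s1 : ({z, b n} : Finset ι) ⊆ {z, b k, b (k + 1)} := by
      intro w hw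
      simp only [mem_insert, mem_singleton] at hw ⊢
      rcases hw with rfl | rfl
      · exact Or.inl rfl
      · exact Or.inr (Or.inr hkn.symm)
    have s2 : ({z, b n} : Finset ι) ⊆ {z, b n, b (n + 1)} := by
      intro w hw
      simp only [mem_insert, mem_singleton] at hw ⊢
      rcases hw with rfl | rfl
      · exact Or.inl rfl
      · exact Or.inr (Or.inl rfl)
    have s3 : ({z, b n} : Finset ι) ⊆ t := by
      intro w hw
      simp only [mem_insert, mem_singleton] at hw
      rcases hw with rfl | rfl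
      · exact hzt
      · exact hu
    rcases Move31_pair hS t1 t2 hne s1 s2 (card_pair (hbz n).symm) ht s3 with e | e
    · exact ⟨k, hk, e⟩
    · exact ⟨n, hn, e⟩
  obtain ⟨j, hj, hτj⟩ := hstar τ hτ hz
  refine ⟨d - 1, fun k => b (j + 1 + k), by omega, ?_, ?_, ?_⟩
  · intro k hk l hl e
    have e1 := hbeq _ _ e
    have e2 : k % d = l % d := Nat.ModEq.add_left_cancel' (j + 1) e1
    rwa [Nat.mod_eq_of_lt (by omega), Nat.mod_eq_of_lt (by omega)] at e2
  · show τ = {z, b (j + 1 + 0), b (j + 1 + (d - 1))}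
    have e1 : b (j + 1 + (d - 1)) = b j := by
      apply hbeq'
      rw [show j + 1 + (d - 1) = j + d by omega, Nat.add_mod_right]
    rw [e1, hτj, Nat.add_zero, Finset.pair_comm]
  · intro t
    constructor
    · rintro ⟨ht, hzt⟩
      rw [mem_erase] at ht
      obtain ⟨n, hn, rfl⟩ := hstar t ht.2 hzt
      have hnj : n ≠ j := fun e => ht.1 (by rw [e, hτj])
      rcases Nat.lt_or_gt_of_ne hnj with h | h
      · refine ⟨n + d - (j + 1), by omega, ?_⟩
        show ({z, b n, b (n + 1)} : Finset ι) =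
          {z, b (j + 1 + (n + d - (j + 1))), b (j + 1 + (n + d - (j + 1) + 1))}
        have e1 : b (j + 1 + (n + d - (j + 1))) = b n := by
          apply hbeq'
          rw [show j + 1 + (n + d - (j + 1)) = n + d by omega, Nat.add_mod_right]
        have e2 : b (j + 1 + (n + d - (j + 1) + 1)) = b (n + 1) := by
          apply hbeq'
          rw [show j + 1 + (n + d - (j + 1) + 1) = n + 1 + d by omega, Nat.add_mod_right]
        rw [e1, e2]
      · refine ⟨n - (j + 1), by omega, ?_⟩
        show ({z, b n, b (n + 1)} : Finset ι) =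
          {z, b (j + 1 + (n - (j + 1))), b (j + 1 + (n - (j + 1) + 1))}
        rw [show j + 1 + (n - (j + 1)) = n by omega, show j + 1 + (n - (j + 1) + 1) = n + 1 by omega]
    · rintro ⟨i, hi, rfl⟩
      refine ⟨?_, by simp⟩
      rw [mem_erase]
      refine ⟨fun e => ?_, htri (j + 1 + i)⟩
      rw [hτj] at e
      have e1 := hdif (j + 1 + i) j e
      have e2 : (j + (1 + i)) % d = (j + 0) % d := by
        rw [← Nat.add_assoc, Nat.add_zero]; exact e1
      have e3 : (1 + i) % d = 0 % d := Nat.ModEq.add_left_cancel' j e2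
      rw [Nat.zero_mod, Nat.mod_eq_of_lt (by omega)] at e3
      omega

theorem top_link_tau {F : Finset (Finset ι)} {x y : ι} {τ : Finset ι}
    {A B : Finset (Finset ι)} (h : TopData F x y τ A B) {z : ι} (hz : z ∈ τ) :
    IsSphere2 (link (top F x y τ A) z) := by
  obtain ⟨m, p, hm, hp, hτp, harc⟩ := exists_arc h.sA (mem_insert_self τ A) hz
  rw [erase_insert h.τA] at harc
  have hzF : z ∈ verts F := h.τV hz
  have hzx : z ≠ x := fun e => h.xτ (e ▸ hz)
  have hzy : z ≠ y := fun e => h.yτ (e ▸ hz)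
  have hL := h.mfd.sphere z hzF
  have hA3 : ∀ t ∈ A, t.card = 3 := fun t ht => by
    have h4 := h.mfd.card4 _ (h.AL ht).2
    rw [card_insert_of_notMem (h.AL ht).1] at h4
    omega
  have hzp : ∀ i ≤ m, z ≠ p i := by
    intro i hi
    rcases Nat.lt_or_ge i m with h1 | h1
    · exact (Flip_three (hA3 _ ((harc _).2 ⟨i, h1, rfl⟩).1)).1
    · obtain ⟨j, rfl⟩ : ∃ j, i = j + 1 := ⟨i - 1, by omega⟩
      exact (Flip_three (hA3 _ ((harc _).2 ⟨j, by omega, rfl⟩).1)).2.1
  have hnot : ∀ c u v : ι, z ≠ c → z ≠ u → z ≠ v → z ∉ ({c, u, v} : Finset ι) := by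
    intro c u v h1 h2 h3
    simp only [mem_insert, mem_singleton, not_or]
    exact ⟨h1, h2, h3⟩
  have hins : ∀ c u v : ι, (insert z ({c, u, v} : Finset ι)) = insert c {z, u, v} :=
    fun c u v => Finset.insert_comm _ _ _
  have hera : ∀ (c u v : ι) (t : Finset ι), z ∉ t → z ≠ c → z ≠ u → z ≠ v →
      insert z t = insert c ({z, u, v} : Finset ι) → t = {c, u, v} := by
    intro c u v t h1 h2 h3 h4 e
    rw [← hins] at e
    rw [← erase_insert h1, e, erase_insert (hnot c u v h2 h3 h4)]
  have hsp := split hL (x := x) (y := y) (p := p) (m := m) ?_ hm hp ?_ ?_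
  · have heq : link (top F x y τ A) z = ((link F z) \ (range m).image (fun i => {x, p i, p (i + 1)})) ∪
        (range m).image (fun i => {y, p i, p (i + 1)}) ∪ {{x, p 0, p m}, {y, p 0, p m}} := by
      ext t
      rw [mem_link', mem_union, mem_union, mem_sdiff, mem_link', mem_image, mem_image, mem_insert,
        mem_singleton]
      constructor
      · rintro ⟨hzt, ht⟩
        rcases mem_top.1 ht with ⟨hF, hn⟩ | ⟨t', ht', e⟩ | e | e
        · left; left
          refine ⟨⟨hzt, hF⟩, ?_⟩
          rintro ⟨i, hi, rfl⟩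
          have hi' := mem_range.1 hi
          exact hn _ ((harc _).2 ⟨i, hi', rfl⟩).1 (hins _ _ _).symm
        · have hzt' : z ∈ t' := by
            have h1 : z ∈ insert y t' := by rw [e]; exact mem_insert_self _ _
            exact mem_of_mem_insert_of_ne h1 hzy
          obtain ⟨i, hi, rfl⟩ := (harc t').1 ⟨ht', hzt'⟩
          left; right
          refine ⟨i, mem_range.2 hi, ?_⟩
          exact (hera y (p i) (p (i + 1)) t hzt hzy (hzp i (by omega)) (hzp (i + 1) (by omega))
            e.symm).symm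
        · right; left
          rw [hτp] at e
          exact hera x (p 0) (p m) t hzt hzx (hzp 0 (by omega)) (hzp m le_rfl) e
        · right; right
          rw [hτp] at e
          exact hera y (p 0) (p m) t hzt hzy (hzp 0 (by omega)) (hzp m le_rfl) e
      · rintro ((⟨⟨hzt, hF⟩, hn⟩ | ⟨i, hi, rfl⟩) | rfl | rfl)
        · refine ⟨hzt, mem_top.2 (Or.inl ⟨hF, fun t' ht' e => hn ?_⟩)⟩
          have hzt' : z ∈ t' := by
            have h1 : z ∈ insert x t' := by rw [e]; exact mem_insert_self _ _
            exact mem_of_mem_insert_of_ne h1 hzx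
          obtain ⟨i, hi, rfl⟩ := (harc t').1 ⟨ht', hzt'⟩
          refine ⟨i, mem_range.2 hi, ?_⟩
          exact (hera x (p i) (p (i + 1)) t hzt hzx (hzp i (by omega)) (hzp (i + 1) (by omega))
            e.symm).symm
        · have hi' := mem_range.1 hi
          refine ⟨hnot _ _ _ hzy (hzp i (by omega)) (hzp (i + 1) (by omega)), ?_⟩
          rw [hins]
          exact TopData.newA ((harc _).2 ⟨i, hi', rfl⟩).1
        · refine ⟨hnot _ _ _ hzx (hzp 0 (by omega)) (hzp m le_rfl), ?_⟩
          rw [hins, ← hτp]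
          exact TopData.newx
        · refine ⟨hnot _ _ _ hzy (hzp 0 (by omega)) (hzp m le_rfl), ?_⟩
          rw [hins, ← hτp]
          exact TopData.newy
    rw [heq]
    exact hsp
  · intro hy
    obtain ⟨s, hs, hys⟩ := mem_verts.1 hy
    exact h.yF (mem_link'.1 hs).2 (mem_insert_of_mem hys)
  · intro i hi
    rw [mem_link']
    refine ⟨hnot _ _ _ hzx (hzp i (by omega)) (hzp (i + 1) (by omega)), ?_⟩
    rw [hins]
    exact (h.AL ((harc _).2 ⟨i, hi, rfl⟩).1).2
  · rintro ⟨-, s, hs, h0, h1⟩
    refine h.not_sub (mem_link'.1 hs).2 ?_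
    rw [hτp]
    intro w hw
    simp only [mem_insert, mem_singleton] at hw
    rcases hw with rfl | rfl | rfl
    · exact mem_insert_self _ _
    · exact mem_insert_of_mem h0
    · exact mem_insert_of_mem h1

end Pool.TSphH
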