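import Pool.Agent.Lib.MP_3de3a3_co.H.HTopLinkA
import Pool.Agent.Lib.MP_3de3a3_co.H.HTopLinkB
import Pool.Agent.Lib.MP_3de3a3_co.H.HConn

/-! # The T-operation gives a manifold (module HTopMfd)

PROOF. Vertices: verts (top F x y τ A) = insert y (verts F): a facet insert x t, t in A, is replaced by insert y t, and x is in insert x τ; τ is contained in verts F. Links: `top_link_x`, `top_link_y`, `top_link_far`,
`top_link_tau`. Connectedness by `mfd_transfer`: for u, v in a facet s of F: if s is in top, clear; otherwise s = insert x t, t in A; if u, v are in t they are in insert y t; if u = x, v in t: x and some w in τ are in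
insert x τ, w and y in insert y τ, y and v in insert y t. y is in a facet with a vertex of τ. Cardinality: A.image (insert x) is contained in F and has A.card elements (x is not in the elements of link F x), A.image (insert y)
has A.card elements and is disjoint from F, insert x τ is not in F (τ not in tris F), insert y τ is not in A.image (insert y) (τ is not in A) and not in F. -/

set_option autoImplicit false

namespace Pool.TSphH

open Finset
open Pool.TSph

variable {ι : Type*} [DecidableEq ι]

private theorem top_verts {F : Finset (Finset ι)} {x y : ι} {τ : Finset ι}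
    {A B : Finset (Finset ι)} (h : TopData F x y τ A B) :
    verts (top F x y τ A) = insert y (verts F) := by
  ext z
  rw [mem_verts, mem_insert]
  constructor
  · rintro ⟨s, hs, hz⟩
    rcases mem_top.1 hs with ⟨hF, -⟩ | ⟨t, ht, rfl⟩ | rfl | rfl
    · exact Or.inr (mem_verts.2 ⟨s, hF, hz⟩)
    · rcases mem_insert.1 hz with h1 | h1
      · exact Or.inl h1
      · exact Or.inr (mem_verts.2 ⟨_, (h.AL ht).2, mem_insert_of_mem h1⟩)
    · rcases mem_insert.1 hz with h1 | h1
      · exact Or.inr (h1 ▸ h.xV)
      · exact Or.inr (h.τV h1)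
    · rcases mem_insert.1 hz with h1 | h1
      · exact Or.inl h1
      · exact Or.inr (h.τV h1)
  · rintro (rfl | hz)
    · exact ⟨_, TopData.newy, mem_insert_self _ _⟩
    · obtain ⟨s, hs, hzs⟩ := mem_verts.1 hz
      by_cases hst : ∀ t ∈ A, insert x t ≠ s
      · exact ⟨s, mem_top.2 (Or.inl ⟨hs, hst⟩), hzs⟩
      · push Not at hst
        obtain ⟨t, ht, rfl⟩ := hst
        rcases mem_insert.1 hzs with h1 | h1
        · rw [h1]; exact ⟨_, TopData.newx, mem_insert_self _ _⟩
        · exact ⟨_, TopData.newA ht, mem_insert_of_mem h1⟩

private theorem top_card {F : Finset (Finset ι)} {x y : ι} {τ : Finset ι}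
    {A B : Finset (Finset ι)} (h : TopData F x y τ A B) :
    (top F x y τ A).card = F.card + 2 := by
  have hc1 : (A.image (insert x)).card = A.card := by
    apply card_image_of_injOn
    intro s hs t ht e
    rw [← erase_insert (h.AL hs).1, e, erase_insert (h.AL ht).1]
  have hc2 : (A.image (insert y)).card = A.card := by
    apply card_image_of_injOn
    intro s hs t ht e
    rw [← erase_insert (h.yA hs), e, erase_insert (h.yA ht)]
  have hsub : A.image (insert x) ⊆ F := by
    intro s hs
    obtain ⟨t, ht, rfl⟩ := mem_image.1 hs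
    exact (h.AL ht).2
  have hd1 : Disjoint (F \ A.image (insert x)) (A.image (insert y)) := by
    rw [disjoint_left]
    intro s hs hs'
    obtain ⟨t, ht, rfl⟩ := mem_image.1 hs'
    exact h.yF (mem_sdiff.1 hs).1 (mem_insert_self _ _)
  have hxn : insert x τ ≠ insert y τ := by
    intro e
    have h1 : x ∈ insert y τ := by rw [← e]; exact mem_insert_self _ _
    rcases mem_insert.1 h1 with h2 | h2
    · exact h.xy h2
    · exact h.xτ h2
  have hd2 : Disjoint ((F \ A.image (insert x)) ∪ A.image (insert y))
      ({insert x τ, insert y τ} : Finset (Finset ι)) := by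
    rw [disjoint_left]
    intro s hs hs'
    have hτs : τ ⊆ s := by
      simp only [mem_insert, mem_singleton] at hs'
      rcases hs' with rfl | rfl
      · exact subset_insert _ _
      · exact subset_insert _ _
    rcases mem_union.1 hs with h1 | h1
    · exact h.not_sub (mem_sdiff.1 h1).1 hτs
    · obtain ⟨t, ht, rfl⟩ := mem_image.1 h1
      have h2 : τ ⊆ t := fun z hz =>
        mem_of_mem_insert_of_ne (hτs hz) fun e => h.yτ (e ▸ hz)
      exact h.not_sub (h.AL ht).2 (h2.trans (subset_insert _ _))
  unfold top
  rw [card_union_of_disjoint hd2, card_union_of_disjoint hd1, card_sdiff_of_subset hsub, hc1, hc2,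
    card_pair hxn]
  have h1 := card_le_card hsub
  rw [hc1] at h1
  omega

theorem top_mfd {F : Finset (Finset ι)} {x y : ι} {τ : Finset ι} {A B : Finset (Finset ι)}
    (h : TopData F x y τ A B) : IsMfd3 (top F x y τ A) ∧ (top F x y τ A).card = F.card + 2 ∧
      verts (top F x y τ A) = insert y (verts F) := by
  refine ⟨?_, top_card h, top_verts h⟩
  obtain ⟨w, hw⟩ : τ.Nonempty := by rw [← card_pos, h.τ3]; norm_num
  refine mfd_transfer h.mfd ?_ ?_ ?_ ?_
  · intro s hs
    rcases mem_top.1 hs with ⟨hF, -⟩ | ⟨t, ht, rfl⟩ | rfl | rfl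
    · exact h.mfd.card4 s hF
    · have h4 := h.mfd.card4 _ (h.AL ht).2
      rw [card_insert_of_notMem (h.AL ht).1] at h4
      rw [card_insert_of_notMem (h.yA ht), h4]
    · rw [card_insert_of_notMem h.xτ, h.τ3]
    · rw [card_insert_of_notMem h.yτ, h.τ3]
  · intro z hz
    rw [top_verts h, mem_insert] at hz
    by_cases hzy : z = y
    · rw [hzy, top_link_y h]; exact h.sA
    · have hzF : z ∈ verts F := hz.resolve_left hzy
      by_cases hzx : z = x
      · rw [hzx, top_link_x h]; exact h.sB
      · by_cases hzτ : z ∈ τ
        · exact top_link_tau h hzτ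
        · exact top_link_far h hzF hzx hzτ
  · intro s hs u hu v hv
    by_cases hst : ∀ t ∈ A, insert x t ≠ s
    · exact Relation.ReflTransGen.single ⟨s, mem_top.2 (Or.inl ⟨hs, hst⟩), hu, hv⟩
    · push Not at hst
      obtain ⟨t, ht, rfl⟩ := hst
      have key : ∀ a ∈ insert x t,
          Relation.ReflTransGen (fun a b => ∃ s ∈ top F x y τ A, a ∈ s ∧ b ∈ s) a w ∧
          Relation.ReflTransGen (fun a b => ∃ s ∈ top F x y τ A, a ∈ s ∧ b ∈ s) w a := by
        intro a ha
        rcases mem_insert.1 ha with h1 | h1
        · rw [h1]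
          exact ⟨Relation.ReflTransGen.single
            ⟨_, TopData.newx, mem_insert_self _ _, mem_insert_of_mem hw⟩,
            Relation.ReflTransGen.single
            ⟨_, TopData.newx, mem_insert_of_mem hw, mem_insert_self _ _⟩⟩
        · constructor
          · exact (Relation.ReflTransGen.single
              ⟨_, TopData.newA ht, mem_insert_of_mem h1, mem_insert_self y _⟩).tail
              ⟨_, TopData.newy, mem_insert_self _ _, mem_insert_of_mem hw⟩
          · exact (Relation.ReflTransGen.single
              ⟨_, TopData.newy, mem_insert_of_mem hw, mem_insert_self y _⟩).tail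
              ⟨_, TopData.newA ht, mem_insert_self _ _, mem_insert_of_mem h1⟩
      exact (key u hu).1.trans (key v hv).2
  · intro u hu
    rw [top_verts h, mem_insert] at hu
    by_cases huy : u = y
    · refine ⟨w, h.τV hw, Relation.ReflTransGen.single ⟨_, TopData.newy, ?_, mem_insert_of_mem hw⟩⟩
      rw [huy]; exact mem_insert_self _ _
    · exact ⟨u, hu.resolve_left huy, Relation.ReflTransGen.refl⟩

end Pool.TSphH
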