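import Pool.Agent.Lib.MP_3de3a3_co.H.HTopMfd
import Pool.Agent.Lib.MP_3de3a3_co.H.HTopCone
import Pool.Agent.Lib.MP_3de3a3_co.H.HAvgR

/-! # Systems of blue missing triangles with red cone points (module HTopSys)

PROOF of `sys_step`: let x in R be a cone point of τ, y a natural number not in verts F and not in R (`Infinite.exists_notMem_finset`), A, B by `exists_topData`. `top_mfd`. For τ' in Θ: τ' is not τ, x is not in τ' (blue), y
is not in τ' (τ' is contained in verts F). Let x' in R be a cone point of τ'. By `top_cone` x' or y is a cone point in the new complex.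
PROOF of `exists_sys`: for τ in TD F choose a cone point x(τ) (`mem_TD`); P = the set of the pairs (x(τ), τ), P.card = (TD F).card. By `exists_color` there is R with (TD F).card <= 16 g, where g is the number of the τ
with x(τ) in R and τ disjoint from R. So m <= g; take m of them. -/

set_option autoImplicit false

namespace Pool.TSphH

open Finset
open Pool.TSph

/-- `Θ` consists of missing triangles disjoint from the set `R` of red vertices, which have red
cone points. -/
structure Sys (F : Finset (Finset ℕ)) (Θ : Finset (Finset ℕ)) (R : Finset ℕ) : Prop where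
  mfd : IsMfd3 F
  blue : ∀ τ ∈ Θ, Disjoint τ R
  cone : ∀ τ ∈ Θ, ∃ x ∈ R, IsCone F x τ

theorem sys_step {F Θ : Finset (Finset ℕ)} {R τ : Finset ℕ} (h : Sys F (insert τ Θ) R)
    (hτ : τ ∉ Θ) : ∃ x y A B, x ∈ R ∧ y ∉ R ∧ TopData F x y τ A B ∧
      Sys (top F x y τ A) Θ (insert y R) := by
  classical
  obtain ⟨x, hxR, hx⟩ := h.cone τ (mem_insert_self _ _)
  obtain ⟨y, hy⟩ := Infinite.exists_notMem_finset (verts F ∪ R)
  rw [mem_union, not_or] at hy
  obtain ⟨A, B, hT⟩ := exists_topData h.mfd hx hy.1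
  refine ⟨x, y, A, B, hxR, hy.2, hT, (top_mfd hT).1, ?_, ?_⟩
  · intro τ' hτ'
    obtain ⟨x', -, hx'⟩ := h.cone τ' (mem_insert_of_mem hτ')
    rw [disjoint_insert_right]
    refine ⟨fun e => hy.1 ?_, h.blue τ' (mem_insert_of_mem hτ')⟩
    have h0 := (mem_TP.2 hx')
    unfold TP at h0
    rw [mem_filter, mem_product, mem_powersetCard] at h0
    exact h0.1.2.1 e
  · intro τ' hτ'
    obtain ⟨x', hx'R, hx'⟩ := h.cone τ' (mem_insert_of_mem hτ')
    have hne : τ' ≠ τ := fun e => hτ (e ▸ hτ')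
    have hxτ' : x ∉ τ' := fun e =>
      disjoint_left.1 (h.blue τ' (mem_insert_of_mem hτ')) e hxR
    rcases top_cone hT hx' hne hxτ' with h1 | ⟨-, h1⟩
    · exact ⟨x', mem_insert_of_mem hx'R, h1⟩
    · exact ⟨y, mem_insert_self _ _, h1⟩

/-- Enough missing triangles with a cone point give a system. -/
theorem exists_sys {F : Finset (Finset ℕ)} (hF : IsMfd3 F) {m : ℕ}
    (h : 16 * m ≤ (TD F).card + 15) : ∃ Θ R, Θ.card = m ∧ Sys F Θ R := by
  classical
  have hch : ∀ τ : Finset ℕ, ∃ x : ℕ, τ ∈ TD F → IsCone F x τ := by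
    intro τ
    by_cases hτ : τ ∈ TD F
    · obtain ⟨x, hx⟩ := mem_TD.1 hτ
      exact ⟨x, fun _ => hx⟩
    · exact ⟨0, fun h => absurd h hτ⟩
  choose c hc using hch
  have hinj : ∀ S : Finset (Finset ℕ), Set.InjOn (fun τ => (c τ, τ)) (S : Set (Finset ℕ)) := by
    intro S a _ b _ e
    simp only [Prod.mk.injEq] at e
    exact e.2
  set P := (TD F).image (fun τ => (c τ, τ)) with hP
  have hPc : P.card = (TD F).card := card_image_of_injOn (hinj _)
  obtain ⟨R, hR⟩ := exists_color P (by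
    intro q hq
    obtain ⟨τ, hτ, rfl⟩ := mem_image.1 hq
    exact ⟨(hc τ hτ).1, (hc τ hτ).2.1⟩)
  set G := (TD F).filter (fun τ => c τ ∈ R ∧ Disjoint τ R) with hG
  have hGc : (P.filter (fun q => q.1 ∈ R ∧ Disjoint q.2 R)).card = G.card := by
    have h1 : P.filter (fun q => q.1 ∈ R ∧ Disjoint q.2 R) = G.image (fun τ => (c τ, τ)) := by
      ext q
      rw [mem_filter, mem_image, mem_image]
      constructor
      · rintro ⟨⟨τ, hτ, rfl⟩, h2⟩
        exact ⟨τ, mem_filter.2 ⟨hτ, h2⟩, rfl⟩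
      · rintro ⟨τ, hτ, rfl⟩
        exact ⟨⟨τ, (mem_filter.1 hτ).1, rfl⟩, (mem_filter.1 hτ).2⟩
    rw [h1, card_image_of_injOn (hinj _)]
  rw [hPc, hGc] at hR
  have hm : m ≤ G.card := by omega
  obtain ⟨Θ, hΘ, hcard⟩ := exists_subset_card_eq hm
  exact ⟨Θ, R, hcard, hF, fun τ hτ => (mem_filter.1 (hΘ hτ)).2.2,
    fun τ hτ => ⟨c τ, (mem_filter.1 (hΘ hτ)).2.1, hc τ (mem_filter.1 (hΘ hτ)).1⟩⟩

end Pool.TSphH
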